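import Pool.Agent.ZStr.Defs

/-!
# Products of absolute retracts (module ARPROD)
-/

namespace Pool.Agent.ZStr

open Set Topology Filter
open scoped unitInterval Pointwise

/-- A locally compact separable metrizable space has a proper continuous real function. -/
lemma arprod_exists_proper (X : Type) [TopologicalSpace X] [LocallyCompactSpace X]
    [SecondCountableTopology X] [T2Space X] :
    ∃ ρ : X → ℝ, IsProperMap ρ := by
  have : SigmaCompactSpace X := sigmaCompactSpace_of_locallyCompact_secondCountable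
  let K : CompactExhaustion X := default
  obtain ⟨g, hg⟩ := exists_continuous_forall_mem_convex_of_local_const
    (t := fun x : X => Ici (K.find x : ℝ)) (fun x => convex_Ici _) (fun x => by
      refine ⟨((K.find x + 1 : ℕ) : ℝ), ?_⟩
      have h1 : interior (K (K.find x + 1)) ∈ 𝓝 x :=
        isOpen_interior.mem_nhds (K.subset_interior_succ _ (K.mem_find x))
      filter_upwards [h1] with y hy
      have h2 : K.find y ≤ K.find x + 1 := K.mem_iff_find_le.1 (interior_subset hy)
      rw [mem_Ici]
      exact Nat.cast_le.2 h2)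
  refine ⟨g, ?_⟩
  rw [isProperMap_iff_isCompact_preimage]
  refine ⟨g.continuous, fun s hs => ?_⟩
  obtain ⟨R, hR⟩ := hs.bddAbove
  refine (K.isCompact ⌊R⌋₊).of_isClosed_subset (hs.isClosed.preimage g.continuous) ?_
  intro x hx
  have h1 : g x ≤ R := hR hx
  have h2 : (K.find x : ℝ) ≤ g x := hg x
  rw [K.mem_iff_find_le]
  exact Nat.le_floor (h2.trans h1)

/-- A locally compact separable metrizable space is closed in a countable product of lines. -/
lemma arprod_exists_closedEmbedding (X : Type) [TopologicalSpace X] [LocallyCompactSpace X]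
    [TopologicalSpace.SeparableSpace X] [TopologicalSpace.MetrizableSpace X] [Nonempty X] :
    ∃ e : X → (ℕ → ℝ) × ℝ, IsClosedEmbedding e := by
  let _ : MetricSpace X := TopologicalSpace.metrizableSpaceMetric X
  have : SecondCountableTopology X := UniformSpace.secondCountable_of_separable X
  obtain ⟨ρ, hρ⟩ := arprod_exists_proper X
  let ι : X → ℕ → ℝ := fun x n => dist x (TopologicalSpace.denseSeq X n)
  have hι : Continuous ι := by
    refine continuous_pi fun n => ?_
    exact continuous_id.dist continuous_const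
  have hinj : Function.Injective ι := by
    intro x y hxy
    by_contra hne
    have hpos : 0 < dist x y := dist_pos.2 hne
    obtain ⟨n, hn⟩ := (TopologicalSpace.denseRange_denseSeq X).exists_dist_lt x
      (show 0 < dist x y / 2 by linarith)
    have h1 : dist x (TopologicalSpace.denseSeq X n) = dist y (TopologicalSpace.denseSeq X n) :=
      congrFun hxy n
    have h2 := dist_triangle_right x y (TopologicalSpace.denseSeq X n)
    linarith
  have hproper : IsProperMap (fun x => (ι x, ρ x)) :=
    isProperMap_of_comp_of_t2 (g := Prod.snd) (hι.prodMk hρ.continuous) continuous_snd hρ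
  refine ⟨fun x => (ι x, ρ x), ?_⟩
  exact IsClosedEmbedding.of_continuous_injective_isClosedMap (hι.prodMk hρ.continuous)
    (fun x y h => hinj (congrArg Prod.fst h)) hproper.isClosedMap

/-- An absolute neighbourhood retract is an absolute neighbourhood extensor for metrizable
spaces.  (Hint: `X` has a closed embedding in `(ℕ → ℝ) × ℝ`; Tietze.) -/
theorem IsANR.extend {X : Type} [TopologicalSpace X] (hX : IsANR X) {W : Type}
    [TopologicalSpace W] [TopologicalSpace.MetrizableSpace W] (A : Set W) (hA : IsClosed A)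
    (f : A → X) (hf : Continuous f) :
    ∃ U : Set W, IsOpen U ∧ A ⊆ U ∧ ∃ F : U → X, Continuous F ∧
      ∀ (w : W) (hw : w ∈ A) (hwU : w ∈ U), F ⟨w, hwU⟩ = f ⟨w, hw⟩ := by
  obtain ⟨hlc, hsep, hmet, hret⟩ := hX
  by_cases hne : Nonempty X
  swap
  · have hAe : A = ∅ := by
      rw [eq_empty_iff_forall_notMem]
      intro a ha
      exact hne ⟨f ⟨a, ha⟩⟩
    refine ⟨∅, isOpen_empty, by rw [hAe], fun u => absurd u.2 (notMem_empty _), ?_, ?_⟩
    · exact continuous_iff_continuousAt.2 fun u => absurd u.2 (notMem_empty _)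
    · intro w hw hwU
      exact absurd hwU (notMem_empty _)
  obtain ⟨e, he⟩ := arprod_exists_closedEmbedding X
  obtain ⟨V, hV, heV, r, hr, hre⟩ := hret ((ℕ → ℝ) × ℝ) e he
  let _ : MetricSpace W := TopologicalSpace.metrizableSpaceMetric W
  obtain ⟨G, hG⟩ := ContinuousMap.exists_restrict_eq hA
    (⟨fun a => e (f a), he.continuous.comp hf⟩ : C(A, (ℕ → ℝ) × ℝ))
  have hG' : ∀ a : A, G a = e (f a) := fun a => DFunLike.congr_fun hG a
  refine ⟨G ⁻¹' V, hV.preimage G.continuous, ?_, fun u => r ⟨G u, u.2⟩, ?_, ?_⟩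
  · intro a ha
    change G a ∈ V
    rw [hG' ⟨a, ha⟩]
    exact heV ⟨_, rfl⟩
  · exact hr.comp ((G.continuous.comp continuous_subtype_val).subtype_mk _)
  · intro w hw hwU
    have h1 : G w = e (f ⟨w, hw⟩) := hG' ⟨w, hw⟩
    have h2 : e (f ⟨w, hw⟩) ∈ V := heV ⟨_, rfl⟩
    have h3 : (⟨G w, hwU⟩ : V) = ⟨e (f ⟨w, hw⟩), h2⟩ := Subtype.ext h1
    change r ⟨G w, hwU⟩ = f ⟨w, hw⟩
    rw [h3]
    exact hre _ _

/-- The product of two absolute retracts is an absolute retract. -/
theorem IsAR.prod {X Y : Type} [TopologicalSpace X] [TopologicalSpace Y] (hX : IsAR X)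
    (hY : IsAR Y) : IsAR (X × Y) := by
  have := hX.1
  have := hY.1
  have := hX.2.1
  have := hY.2.1
  have := hX.2.2.1
  have := hY.2.2.1
  have := hX.2.2.2.1
  have := hY.2.2.2.1
  refine ⟨inferInstance, inferInstance, inferInstance, inferInstance, ?_⟩
  intro Z _ _ e he
  have hcl : IsClosed (range e) := he.isClosed_range
  let h : X × Y ≃ₜ range e := he.isEmbedding.toHomeomorph
  have hh : ∀ (p : X × Y) (hp : e p ∈ range e), h.symm ⟨e p, hp⟩ = p := by
    intro p hp
    rw [Homeomorph.symm_apply_eq]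
    rfl
  obtain ⟨U1, hU1, hA1, F1, hF1, hE1⟩ := hX.2.extend (range e) hcl
    (fun a => (h.symm a).1) (continuous_fst.comp h.symm.continuous)
  obtain ⟨U2, hU2, hA2, F2, hF2, hE2⟩ := hY.2.extend (range e) hcl
    (fun a => (h.symm a).2) (continuous_snd.comp h.symm.continuous)
  refine ⟨U1 ∩ U2, hU1.inter hU2, subset_inter hA1 hA2,
    fun u => (F1 ⟨u, u.2.1⟩, F2 ⟨u, u.2.2⟩), ?_, ?_⟩
  · exact (hF1.comp (continuous_subtype_val.subtype_mk _)).prodMk
      (hF2.comp (continuous_subtype_val.subtype_mk _))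
  · intro p hp
    have h1 := hE1 (e p) ⟨p, rfl⟩ hp.1
    have h2 := hE2 (e p) ⟨p, rfl⟩ hp.2
    rw [hh] at h1 h2
    exact Prod.ext h1 h2

end Pool.Agent.ZStr
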