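import Pool.Agent.ZStr.Defs

/-!
# Auxiliary lemmas for affine actions (module AFFINE)

An equivariant partition of unity for a proper cocompact action, and the lattice of a free
abelian group of rank `m` in `ℝ^m` with the linear extensions of its endomorphisms.
-/

namespace Pool.Agent.ZStr

open Set Topology Filter
open scoped unitInterval Pointwise

/-- The translates of a continuous function with compact support under a proper action have
locally finite supports. -/
lemma affine_locallyFinite {Q : Type*} [Group Q] {Y : Type} [TopologicalSpace Y] [MulAction Q Y]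
    [LocallyCompactSpace Y] (hp : ProperlyActs Q Y) (φ : Y → ℝ) (K : Set Y) (hK : IsCompact K)
    (hφ : ∀ y, φ y ≠ 0 → y ∈ K) :
    LocallyFinite (fun q : Q => Function.support (fun y => φ (q⁻¹ • y))) := by
  intro y
  obtain ⟨U, hU, hyU⟩ := exists_compact_mem_nhds y
  refine ⟨U, hyU, (hp (K ∪ U) (hK.union hU)).subset ?_⟩
  rintro q ⟨z, hz, hzU⟩
  refine ⟨z, ?_, Or.inr hzU⟩
  rw [mem_smul_set_iff_inv_smul_mem]
  exact Or.inl (hφ _ hz)

/-- A proper cocompact action on a locally compact Hausdorff space has an equivariant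
partition of unity. -/
lemma affine_exists_pou {Q : Type*} [Group Q] {Y : Type} [TopologicalSpace Y] [MulAction Q Y]
    [LocallyCompactSpace Y] [T2Space Y] [ContinuousConstSMul Q Y]
    (hp : ProperlyActs Q Y) (hc : CocompactlyActs Q Y) :
    ∃ χ : Q → Y → ℝ, (∀ q, Continuous (χ q)) ∧
      LocallyFinite (fun q => Function.support (χ q)) ∧
      (∀ y, ∑ᶠ q, χ q y = 1) ∧ ∀ p q y, χ (p * q) (p • y) = χ q y := by
  obtain ⟨K, hK, hcov⟩ := hc
  obtain ⟨φ, hφ1, -, hφc, hφI⟩ := exists_continuous_one_zero_of_isCompact hK isClosed_empty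
    (disjoint_empty K)
  have hlf : LocallyFinite (fun q : Q => Function.support (fun y => φ (q⁻¹ • y))) :=
    affine_locallyFinite hp φ (tsupport φ) hφc
      (fun y hy => subset_tsupport _ hy)
  have hcont : ∀ q : Q, Continuous (fun y => φ (q⁻¹ • y)) := fun q =>
    φ.continuous.comp (continuous_const_smul _)
  set S : Y → ℝ := fun y => ∑ᶠ q : Q, φ (q⁻¹ • y) with hS
  have hfin : ∀ y, (Function.support fun q : Q => φ (q⁻¹ • y)).Finite := fun y =>
    hlf.point_finite y
  have hSc : Continuous S := continuous_finsum hcont hlf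
  have hSpos : ∀ y, 0 < S y := by
    intro y
    obtain ⟨q, hq⟩ := hcov y
    rw [mem_smul_set_iff_inv_smul_mem] at hq
    have h1 : φ (q⁻¹ • y) = 1 := hφ1 hq
    have h2 : φ (q⁻¹ • y) ≤ S y := single_le_finsum q (hfin y) (fun p => (hφI _).1)
    linarith
  have hSinv : ∀ (p : Q) y, S (p • y) = S y := by
    intro p y
    simp only [hS]
    rw [← finsum_comp_equiv (Equiv.mulLeft p)]
    apply finsum_congr
    intro q
    simp only [Equiv.coe_mulLeft, mul_inv_rev, smul_smul, inv_mul_cancel_right]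
  refine ⟨fun q y => φ (q⁻¹ • y) * (S y)⁻¹, fun q => (hcont q).mul (hSc.inv₀ fun y =>
    (hSpos y).ne'), ?_, ?_, ?_⟩
  · refine hlf.subset fun q y hy => ?_
    simp only [Function.mem_support] at hy ⊢
    exact left_ne_zero_of_mul hy
  · intro y
    have := finsum_mul (fun q : Q => φ (q⁻¹ • y)) (S y)⁻¹
    rw [← this]
    exact mul_inv_cancel₀ (hSpos y).ne'
  · intro p q y
    simp only [hSinv, mul_inv_rev, smul_smul, inv_mul_cancel_right]

variable {N : Type*} [Group N] {m : ℕ}

/-- The point of `ℝ^m` of an element of a free abelian group of rank `m`. -/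
noncomputable def latPt (e : N ≃* Multiplicative (Fin m → ℤ)) (n : N) :
    EuclideanSpace ℝ (Fin m) :=
  WithLp.toLp 2 (fun i => (((Multiplicative.toAdd (e n)) i : ℤ) : ℝ))

@[simp] lemma latPt_apply (e : N ≃* Multiplicative (Fin m → ℤ)) (n : N) (i : Fin m) :
    latPt e n i = (((Multiplicative.toAdd (e n)) i : ℤ) : ℝ) := rfl

lemma latPt_mul (e : N ≃* Multiplicative (Fin m → ℤ)) (a b : N) :
    latPt e (a * b) = latPt e a + latPt e b := by
  ext i
  simp

lemma latPt_one (e : N ≃* Multiplicative (Fin m → ℤ)) : latPt e 1 = 0 := by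
  ext i
  simp

lemma latPt_inv (e : N ≃* Multiplicative (Fin m → ℤ)) (a : N) :
    latPt e a⁻¹ = - latPt e a := by
  ext i
  simp

/-- The element of a free abelian group of rank `m` with given coordinates. -/
def latMk (e : N ≃* Multiplicative (Fin m → ℤ)) (x : Fin m → ℤ) : N :=
  e.symm (Multiplicative.ofAdd x)

lemma latPt_latMk (e : N ≃* Multiplicative (Fin m → ℤ)) (x : Fin m → ℤ) :
    latPt e (latMk e x) = WithLp.toLp 2 (fun i => ((x i : ℤ) : ℝ)) := by
  ext i
  simp [latMk]

lemma latPt_finite (e : N ≃* Multiplicative (Fin m → ℤ)) (R : ℝ) :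
    {n : N | ‖latPt e n‖ ≤ R}.Finite := by
  have h1 : (Set.Icc (fun _ : Fin m => -⌈R⌉) (fun _ : Fin m => ⌈R⌉)).Finite :=
    Set.finite_Icc _ _
  have h2 : ((fun x : Fin m → ℤ => latMk e x) ''
    (Set.Icc (fun _ : Fin m => -⌈R⌉) (fun _ : Fin m => ⌈R⌉))).Finite := h1.image _
  refine h2.subset ?_
  intro n hn
  refine ⟨Multiplicative.toAdd (e n), ?_, by simp [latMk]⟩
  have h3 : ∀ i, |((Multiplicative.toAdd (e n)) i : ℤ)| ≤ ⌈R⌉ := by
    intro i
    have h4 : ‖latPt e n i‖ ≤ ‖latPt e n‖ := PiLp.norm_apply_le _ i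
    have hn' : ‖latPt e n‖ ≤ R := hn
    rw [latPt_apply, Real.norm_eq_abs] at h4
    have h5 : ((|((Multiplicative.toAdd (e n)) i : ℤ)| : ℤ) : ℝ) ≤ (⌈R⌉ : ℝ) := by
      push_cast
      exact (h4.trans hn').trans (Int.le_ceil R)
    exact_mod_cast h5
  constructor
  · intro i
    exact (abs_le.mp (h3 i)).1
  · intro i
    exact (abs_le.mp (h3 i)).2

/-- Every vector is within distance `m` of the lattice. -/
lemma latPt_cobounded (e : N ≃* Multiplicative (Fin m → ℤ)) (v : EuclideanSpace ℝ (Fin m)) :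
    ∃ n : N, ‖v - latPt e n‖ ≤ m := by
  refine ⟨latMk e (fun i => ⌊v i⌋), ?_⟩
  rw [latPt_latMk]
  rw [EuclideanSpace.norm_eq, Real.sqrt_le_left (by positivity)]
  have h1 : ∀ i : Fin m, ‖(v - WithLp.toLp 2 (fun i => ((⌊v i⌋ : ℤ) : ℝ))) i‖ ^ 2 ≤ 1 := by
    intro i
    have h2 : (v - WithLp.toLp 2 (fun i => ((⌊v i⌋ : ℤ) : ℝ))) i = v i - ⌊v i⌋ := by simp
    rw [h2, Real.norm_eq_abs, sq_abs]
    have h3 := Int.floor_le (v i)
    have h4 := Int.lt_floor_add_one (v i)
    nlinarith
  have h2 : ∑ i : Fin m, ‖(v - WithLp.toLp 2 (fun i => ((⌊v i⌋ : ℤ) : ℝ))) i‖ ^ 2 ≤ m := by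
    calc _ ≤ ∑ i : Fin m, (1 : ℝ) := Finset.sum_le_sum fun i _ => h1 i
      _ = m := by simp
  refine h2.trans ?_
  rcases Nat.eq_zero_or_pos m with h0 | h0
  · subst h0; simp
  · have : (1 : ℝ) ≤ m := by exact_mod_cast h0
    nlinarith

/-- The linear extension of an endomorphism of the lattice. -/
noncomputable def latMap (e : N ≃* Multiplicative (Fin m → ℤ)) (α : N →* N) :
    EuclideanSpace ℝ (Fin m) →ₗ[ℝ] EuclideanSpace ℝ (Fin m) :=
  (EuclideanSpace.basisFun (Fin m) ℝ).toBasis.constr ℝ
    (fun i => latPt e (α (latMk e (Pi.single i 1))))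

lemma latPt_single (e : N ≃* Multiplicative (Fin m → ℤ)) (i : Fin m) :
    latPt e (latMk e (Pi.single i 1)) = (EuclideanSpace.basisFun (Fin m) ℝ).toBasis i := by
  rw [latPt_latMk]
  ext j
  by_cases h : j = i
  · subst h; simp
  · simp [h]

/-- The additive map of coordinates attached to an endomorphism of the lattice. -/
noncomputable def latHom (e : N ≃* Multiplicative (Fin m → ℤ)) (α : N →* N) :
    (Fin m → ℤ) →+ EuclideanSpace ℝ (Fin m) where
  toFun x := latPt e (α (latMk e x))
  map_zero' := by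
    have : latMk e (0 : Fin m → ℤ) = 1 := by simp [latMk]
    rw [this, map_one, latPt_one]
  map_add' x y := by
    have : latMk e (x + y) = latMk e x * latMk e y := by simp [latMk]
    rw [this, map_mul, latPt_mul]

lemma latMap_latPt (e : N ≃* Multiplicative (Fin m → ℤ)) (α : N →* N) (n : N) :
    latMap e α (latPt e n) = latPt e (α n) := by
  have h1 : ∀ x : Fin m → ℤ, latHom e α x = latMap e α (latPt e (latMk e x)) := by
    have h2 : latHom e α = (latMap e α).toAddMonoidHom.comp (latHom e (MonoidHom.id N)) := by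
      apply AddMonoidHom.functions_ext
      intro i x
      have h3 : (Pi.single i x : Fin m → ℤ) = x • (Pi.single i 1 : Fin m → ℤ) := by
        rw [← Pi.single_smul]; simp
      rw [h3, map_zsmul, map_zsmul]
      congr 1
      change latPt e (α (latMk e (Pi.single i 1))) = latMap e α (latPt e (latMk e (Pi.single i 1)))
      rw [latPt_single, latMap, Module.Basis.constr_basis]
    intro x
    rw [h2]
    rfl
  have h4 := h1 (Multiplicative.toAdd (e n))
  have h5 : latMk e (Multiplicative.toAdd (e n)) = n := by simp [latMk]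
  rw [h5] at h4
  rw [← h4]
  change latPt e (α (latMk e (Multiplicative.toAdd (e n)))) = _
  rw [h5]

/-- Linear maps agreeing on the lattice are equal. -/
lemma latPt_ext (e : N ≃* Multiplicative (Fin m → ℤ))
    {A B : EuclideanSpace ℝ (Fin m) →ₗ[ℝ] EuclideanSpace ℝ (Fin m)}
    (h : ∀ n, A (latPt e n) = B (latPt e n)) : A = B := by
  apply (EuclideanSpace.basisFun (Fin m) ℝ).toBasis.ext
  intro i
  rw [← latPt_single e i]
  exact h _

end Pool.Agent.ZStr
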