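import Pool.Agent.ZStr.Defs

/-!
# The ball compactification of a finite dimensional space (module BALL)
-/

namespace Pool.Agent.ZStr

open Set Topology Filter
open scoped unitInterval Pointwise

/-- `ℝ^m` is an absolute retract. -/
theorem isAR_euclidean (m : ℕ) : IsAR (EuclideanSpace ℝ (Fin m)) := by
  refine ⟨inferInstance, inferInstance, inferInstance, inferInstance, ?_⟩
  intro Y _ _ e he
  let _ : MetricSpace Y := TopologicalSpace.metrizableSpaceMetric Y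
  obtain ⟨g, hg⟩ := ContinuousMap.exists_extension he
    (ContinuousMap.id (EuclideanSpace ℝ (Fin m)))
  refine ⟨univ, isOpen_univ, subset_univ _, fun u => g u,
    g.continuous.comp continuous_subtype_val, fun x hx => ?_⟩
  exact DFunLike.congr_fun hg x

/-- The radial embedding of `ℝ^m` in the closed unit ball. -/
noncomputable def toBall (m : ℕ) (v : EuclideanSpace ℝ (Fin m)) :
    Metric.closedBall (0 : EuclideanSpace ℝ (Fin m)) 1 :=
  ⟨(1 + ‖v‖)⁻¹ • v, by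
    rw [mem_closedBall_zero_iff, norm_smul, norm_inv, Real.norm_of_nonneg (by positivity),
      inv_mul_le_iff₀ (by positivity)]
    linarith⟩

lemma ball_norm_toBall (m : ℕ) (v : EuclideanSpace ℝ (Fin m)) :
    ‖(toBall m v : EuclideanSpace ℝ (Fin m))‖ = 1 - (1 + ‖v‖)⁻¹ := by
  have h : (0 : ℝ) < 1 + ‖v‖ := by positivity
  change ‖(1 + ‖v‖)⁻¹ • v‖ = _
  rw [norm_smul, norm_inv, Real.norm_of_nonneg h.le]
  field_simp
  ring

lemma ball_mem_range_iff (m : ℕ) (x : Metric.closedBall (0 : EuclideanSpace ℝ (Fin m)) 1) :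
    x ∈ range (toBall m) ↔ ‖(x : EuclideanSpace ℝ (Fin m))‖ < 1 := by
  constructor
  · rintro ⟨v, rfl⟩
    rw [ball_norm_toBall]
    have h : (0 : ℝ) < (1 + ‖v‖)⁻¹ := by positivity
    linarith
  · intro h
    have h1 : 0 < 1 - ‖(x : EuclideanSpace ℝ (Fin m))‖ := by linarith
    refine ⟨(1 - ‖(x : EuclideanSpace ℝ (Fin m))‖)⁻¹ • (x : EuclideanSpace ℝ (Fin m)), ?_⟩
    apply Subtype.ext
    change (1 + ‖_‖)⁻¹ • _ = _
    rw [norm_smul, norm_inv, Real.norm_of_nonneg h1.le, smul_smul]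
    have : (1 + (1 - ‖(x : EuclideanSpace ℝ (Fin m))‖)⁻¹ * ‖(x : EuclideanSpace ℝ (Fin m))‖)⁻¹
        * (1 - ‖(x : EuclideanSpace ℝ (Fin m))‖)⁻¹ = 1 := by
      field_simp
      ring
    rw [this, one_smul]

lemma ball_continuous_toBall (m : ℕ) : Continuous (toBall m) := by
  refine Continuous.subtype_mk ?_ _
  have h : ∀ v : EuclideanSpace ℝ (Fin m), 1 + ‖v‖ ≠ 0 := fun v => by positivity
  exact ((continuous_const.add continuous_norm).inv₀ h).smul continuous_id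

lemma ball_isOpenEmbedding (m : ℕ) : IsOpenEmbedding (toBall m) := by
  have hopen : IsOpen (range (toBall m)) := by
    have : range (toBall m) = {x : Metric.closedBall (0 : EuclideanSpace ℝ (Fin m)) 1 |
        ‖(x : EuclideanSpace ℝ (Fin m))‖ < 1} := by
      ext x; exact ball_mem_range_iff m x
    rw [this]
    exact isOpen_lt continuous_subtype_val.norm continuous_const
  -- the inverse map
  let inv : Metric.closedBall (0 : EuclideanSpace ℝ (Fin m)) 1 → EuclideanSpace ℝ (Fin m) :=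
    fun x => (1 - ‖(x : EuclideanSpace ℝ (Fin m))‖)⁻¹ • (x : EuclideanSpace ℝ (Fin m))
  have hinv : ∀ v, inv (toBall m v) = v := by
    intro v
    have h : (0 : ℝ) < 1 + ‖v‖ := by positivity
    change (1 - ‖(toBall m v : EuclideanSpace ℝ (Fin m))‖)⁻¹ • ((1 + ‖v‖)⁻¹ • v) = v
    rw [ball_norm_toBall, smul_smul]
    have : (1 - (1 - (1 + ‖v‖)⁻¹))⁻¹ * (1 + ‖v‖)⁻¹ = 1 := by
      field_simp
      ring
    rw [this, one_smul]
  have hinj : Function.Injective (toBall m) := fun a b hab => by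
    rw [← hinv a, ← hinv b, hab]
  have hind : IsInducing (toBall m) := by
    rw [isInducing_iff_nhds]
    intro v
    refine le_antisymm ((ball_continuous_toBall m).tendsto v).le_comap ?_
    have hc : ContinuousAt inv (toBall m v) := by
      have h0 := (ball_mem_range_iff m (toBall m v)).1 ⟨v, rfl⟩
      have h1 : 1 - ‖(toBall m v : EuclideanSpace ℝ (Fin m))‖ ≠ 0 := by linarith
      exact ((continuousAt_const.sub continuous_subtype_val.norm.continuousAt).inv₀ h1).smul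
        continuous_subtype_val.continuousAt
    intro s hs
    rw [mem_comap]
    refine ⟨inv ⁻¹' s, hc (by rwa [hinv]), fun w hw => ?_⟩
    have : inv (toBall m w) ∈ s := hw
    rwa [hinv] at this
  exact ⟨⟨hind, hinj⟩, hopen⟩

lemma ball_denseRange (m : ℕ) : DenseRange (toBall m) := by
  intro x
  have hmem : ∀ n : ℕ, ‖(1 - 1 / ((n : ℝ) + 1)) • (x : EuclideanSpace ℝ (Fin m))‖
      ≤ 1 - 1 / ((n : ℝ) + 1) := by
    intro n
    have h1 : 0 ≤ 1 - 1 / ((n : ℝ) + 1) := by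
      rw [sub_nonneg, div_le_one (by positivity)]
      linarith [(Nat.cast_nonneg n : (0 : ℝ) ≤ n)]
    have h2 : ‖(x : EuclideanSpace ℝ (Fin m))‖ ≤ 1 := mem_closedBall_zero_iff.1 x.2
    rw [norm_smul, Real.norm_of_nonneg h1]
    nlinarith
  let y : ℕ → Metric.closedBall (0 : EuclideanSpace ℝ (Fin m)) 1 := fun n =>
    ⟨(1 - 1 / ((n : ℝ) + 1)) • (x : EuclideanSpace ℝ (Fin m)), by
      rw [mem_closedBall_zero_iff]
      have h3 : 0 < 1 / ((n : ℝ) + 1) := by positivity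
      linarith [hmem n]⟩
  refine mem_closure_of_tendsto (f := y) (b := atTop) ?_ (Eventually.of_forall fun n => ?_)
  · rw [tendsto_subtype_rng]
    have h1 : Tendsto (fun n : ℕ => (1 - 1 / ((n : ℝ) + 1)) • (x : EuclideanSpace ℝ (Fin m)))
        atTop (𝓝 (((1 : ℝ) - 0) • (x : EuclideanSpace ℝ (Fin m)))) :=
      (tendsto_const_nhds.sub tendsto_one_div_add_atTop_nhds_zero_nat).smul_const _
    rw [sub_zero, one_smul] at h1
    exact h1
  · rw [ball_mem_range_iff]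
    have h3 : 0 < 1 / ((n : ℝ) + 1) := by positivity
    exact lt_of_le_of_lt (hmem n) (by linarith)

lemma ball_isZSet (m : ℕ) : IsZSet (range (toBall m))ᶜ := by
  refine ⟨(ball_isOpenEmbedding m).isOpen_range.isClosed_compl, ?_⟩
  have hb : ∀ p : Metric.closedBall (0 : EuclideanSpace ℝ (Fin m)) 1 × I,
      ‖(1 - (p.2 : ℝ)) • (p.1 : EuclideanSpace ℝ (Fin m))‖ ≤ 1 - (p.2 : ℝ) := by
    intro p
    have h1 : 0 ≤ 1 - (p.2 : ℝ) := by linarith [p.2.2.2]
    have h2 : ‖(p.1 : EuclideanSpace ℝ (Fin m))‖ ≤ 1 := mem_closedBall_zero_iff.1 p.1.2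
    rw [norm_smul, Real.norm_of_nonneg h1]
    nlinarith
  refine ⟨fun p => ⟨(1 - (p.2 : ℝ)) • (p.1 : EuclideanSpace ℝ (Fin m)), by
    rw [mem_closedBall_zero_iff]
    linarith [hb p, p.2.2.1]⟩, ?_, ?_, ?_⟩
  · refine Continuous.subtype_mk ?_ _
    fun_prop
  · intro y
    apply Subtype.ext
    simp
  · intro t ht y
    rw [mem_compl_iff, not_not, ball_mem_range_iff]
    have h0 : (0 : ℝ) < t := ht
    have := hb (y, t)
    simp only at this ⊢
    linarith

lemma ball_dist_le (m : ℕ) (u v : EuclideanSpace ℝ (Fin m)) (ρ : ℝ) (hρ : 0 ≤ ρ)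
    (hu : ρ ≤ ‖u‖) :
    dist (toBall m u) (toBall m v) ≤ 2 * ‖u - v‖ / (1 + ρ) := by
  rw [Subtype.dist_eq, dist_eq_norm]
  change ‖(1 + ‖u‖)⁻¹ • u - (1 + ‖v‖)⁻¹ • v‖ ≤ _
  have hu0 : (0 : ℝ) < 1 + ‖u‖ := by positivity
  have hv0 : (0 : ℝ) < 1 + ‖v‖ := by positivity
  have e1 : (1 + ‖u‖)⁻¹ • u - (1 + ‖v‖)⁻¹ • v
      = (1 + ‖u‖)⁻¹ • (u - v) + ((1 + ‖u‖)⁻¹ - (1 + ‖v‖)⁻¹) • v := by
    module
  rw [e1]
  have h1 : ‖(1 + ‖u‖)⁻¹ • (u - v)‖ ≤ ‖u - v‖ / (1 + ρ) := by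
    rw [norm_smul, norm_inv, Real.norm_of_nonneg hu0.le, inv_mul_eq_div]
    gcongr
  have h2 : ‖((1 + ‖u‖)⁻¹ - (1 + ‖v‖)⁻¹) • v‖ ≤ ‖u - v‖ / (1 + ρ) := by
    have e2 : (1 + ‖u‖)⁻¹ - (1 + ‖v‖)⁻¹ = (‖v‖ - ‖u‖) / ((1 + ‖u‖) * (1 + ‖v‖)) := by
      field_simp
      ring
    rw [norm_smul, e2, norm_div, Real.norm_eq_abs, Real.norm_of_nonneg (by positivity)]
    have h3 : |‖v‖ - ‖u‖| ≤ ‖u - v‖ := by
      rw [norm_sub_rev]
      exact abs_norm_sub_norm_le v u
    calc |‖v‖ - ‖u‖| / ((1 + ‖u‖) * (1 + ‖v‖)) * ‖v‖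
        = (|‖v‖ - ‖u‖| / (1 + ‖u‖)) * (‖v‖ / (1 + ‖v‖)) := by field_simp
      _ ≤ (‖u - v‖ / (1 + ρ)) * 1 := by
          gcongr
          rw [div_le_one hv0]
          linarith
      _ = _ := mul_one _
  calc _ ≤ ‖(1 + ‖u‖)⁻¹ • (u - v)‖ + ‖((1 + ‖u‖)⁻¹ - (1 + ‖v‖)⁻¹) • v‖ := norm_add_le _ _
    _ ≤ ‖u - v‖ / (1 + ρ) + ‖u - v‖ / (1 + ρ) := add_le_add h1 h2
    _ = _ := by ring

lemma ball_control (m : ℕ) : ControlCondition (EuclideanSpace ℝ (Fin m))
    (Metric.closedBall (0 : EuclideanSpace ℝ (Fin m)) 1) (toBall m) := by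
  intro R hR 𝒰 hopen hcov
  obtain ⟨δ, hδ, hleb⟩ := lebesgue_number_lemma_of_metric_sUnion
    (isCompact_univ : IsCompact (univ : Set (Metric.closedBall (0 : EuclideanSpace ℝ (Fin m)) 1)))
    hopen hcov.ge
  obtain ⟨ρ, hρ0, hρ⟩ : ∃ ρ : ℝ, 0 ≤ ρ ∧ 2 * R / (1 + ρ) < δ := by
    refine ⟨2 * R / δ, by positivity, ?_⟩
    rw [div_lt_iff₀ (by positivity)]
    have : δ * (2 * R / δ) = 2 * R := by field_simp
    nlinarith
  refine ⟨Metric.closedBall 0 ρ, isCompact_closedBall 0 ρ, fun A hA hdiam => ?_⟩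
  rcases A.eq_empty_or_nonempty with rfl | ⟨a, ha⟩
  · obtain ⟨U, hU, -⟩ := hleb (toBall m 0) (mem_univ _)
    exact ⟨U, hU, by simp⟩
  · obtain ⟨U, hU, hball⟩ := hleb (toBall m a) (mem_univ _)
    refine ⟨U, hU, ?_⟩
    rintro _ ⟨b, hb, rfl⟩
    apply hball
    rw [Metric.mem_ball, dist_comm]
    have h1 : ρ ≤ ‖a‖ := by
      have := hA ha
      rw [mem_compl_iff, mem_closedBall_zero_iff, not_le] at this
      exact this.le
    have h2 : ‖a - b‖ < R := by
      have h3 := lt_of_le_of_lt (Metric.edist_le_ediam_of_mem ha hb) hdiam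
      rw [edist_dist, ENNReal.ofReal_lt_ofReal_iff hR, dist_eq_norm] at h3
      exact h3
    refine lt_of_le_of_lt (ball_dist_le m a b ρ hρ0 h1) (lt_of_le_of_lt ?_ hρ)
    gcongr

/-- The closed ball is a model Z-geometry on `ℝ^m`. -/
theorem ball_isModelZGeometry (m : ℕ) :
    IsModelZGeometry (EuclideanSpace ℝ (Fin m))
      (Metric.closedBall (0 : EuclideanSpace ℝ (Fin m)) 1) (toBall m) := by
  refine ⟨⟨inferInstance, isAR_euclidean m, {0}, isCompact_singleton, fun x => ?_⟩,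
    isCompact_iff_compactSpace.1 (isCompact_closedBall _ _), inferInstance,
    ball_isOpenEmbedding m, ball_denseRange m, ball_isZSet m, ball_control m⟩
  exact ⟨IsometryEquiv.addRight x, 0, rfl, by simp⟩

/-- Invertible linear maps extend to the ball compactification, at infinity. -/
theorem ball_linear (m : ℕ) (A : EuclideanSpace ℝ (Fin m) ≃ₗ[ℝ] EuclideanSpace ℝ (Fin m)) :
    ∃ α : Metric.closedBall (0 : EuclideanSpace ℝ (Fin m)) 1 →
        Metric.closedBall (0 : EuclideanSpace ℝ (Fin m)) 1,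
      (∀ x, x ∉ range (toBall m) → α x ∉ range (toBall m)) ∧
      ∀ {β : Type} (l : Filter β) (u : β → EuclideanSpace ℝ (Fin m))
        (x : Metric.closedBall (0 : EuclideanSpace ℝ (Fin m)) 1), x ∉ range (toBall m) →
        Tendsto (fun b => toBall m (u b)) l (𝓝 x) →
        Tendsto (fun b => toBall m (A (u b))) l (𝓝 (α x)) := by
  have hAc : Continuous A :=
    LinearMap.continuous_of_finiteDimensional
      (A : EuclideanSpace ℝ (Fin m) →ₗ[ℝ] EuclideanSpace ℝ (Fin m))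
  have hpos : ∀ w : Metric.closedBall (0 : EuclideanSpace ℝ (Fin m)) 1,
      0 < (1 - ‖(w : EuclideanSpace ℝ (Fin m))‖) + ‖A w‖ := by
    intro w
    have h1 : ‖(w : EuclideanSpace ℝ (Fin m))‖ ≤ 1 := mem_closedBall_zero_iff.1 w.2
    rcases eq_or_ne (w : EuclideanSpace ℝ (Fin m)) 0 with h | h
    · rw [h, map_zero, norm_zero]; norm_num
    · have : 0 < ‖A w‖ := norm_pos_iff.2 (by simpa using h)
      linarith
  have hmem : ∀ w : Metric.closedBall (0 : EuclideanSpace ℝ (Fin m)) 1,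
      ‖((1 - ‖(w : EuclideanSpace ℝ (Fin m))‖) + ‖A w‖)⁻¹ • A w‖
        = ‖A w‖ / ((1 - ‖(w : EuclideanSpace ℝ (Fin m))‖) + ‖A w‖) := by
    intro w
    rw [norm_smul, norm_inv, Real.norm_of_nonneg (hpos w).le, inv_mul_eq_div]
  let α : Metric.closedBall (0 : EuclideanSpace ℝ (Fin m)) 1 →
      Metric.closedBall (0 : EuclideanSpace ℝ (Fin m)) 1 := fun w =>
    ⟨((1 - ‖(w : EuclideanSpace ℝ (Fin m))‖) + ‖A w‖)⁻¹ • A w, by
      rw [mem_closedBall_zero_iff, hmem, div_le_one (hpos w)]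
      have h1 : ‖(w : EuclideanSpace ℝ (Fin m))‖ ≤ 1 := mem_closedBall_zero_iff.1 w.2
      linarith⟩
  have hα : Continuous α := by
    refine Continuous.subtype_mk ?_ _
    refine Continuous.smul (Continuous.inv₀ ?_ fun w => (hpos w).ne') ?_
    · exact (continuous_const.sub continuous_subtype_val.norm).add
        (hAc.comp continuous_subtype_val).norm
    · exact hAc.comp continuous_subtype_val
  have hcomm : ∀ v, α (toBall m v) = toBall m (A v) := by
    intro v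
    apply Subtype.ext
    have h : (0 : ℝ) < 1 + ‖v‖ := by positivity
    change ((1 - ‖(toBall m v : EuclideanSpace ℝ (Fin m))‖)
      + ‖A ((1 + ‖v‖)⁻¹ • v)‖)⁻¹ • A ((1 + ‖v‖)⁻¹ • v) = (1 + ‖A v‖)⁻¹ • A v
    rw [ball_norm_toBall, map_smul, norm_smul, norm_inv, Real.norm_of_nonneg h.le, smul_smul]
    congr 1
    have h2 : (0 : ℝ) < 1 + ‖A v‖ := by positivity
    field_simp
    ring_nf
    field_simp
    ring
  refine ⟨α, fun x hx => ?_, fun l u x hx hlim => ?_⟩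
  · rw [ball_mem_range_iff, not_lt] at hx ⊢
    have h1 : ‖(x : EuclideanSpace ℝ (Fin m))‖ ≤ 1 := mem_closedBall_zero_iff.1 x.2
    have h2 : ‖(x : EuclideanSpace ℝ (Fin m))‖ = 1 := le_antisymm h1 hx
    change 1 ≤ ‖((1 - ‖(x : EuclideanSpace ℝ (Fin m))‖) + ‖A x‖)⁻¹ • A x‖
    rw [hmem]
    have h3 := hpos x
    rw [h2] at h3 ⊢
    rw [le_div_iff₀ h3]
    linarith
  · have := (hα.tendsto x).comp hlim
    refine this.congr fun b => ?_
    exact hcomm (u b)

end Pool.Agent.ZStr
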