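import Pool.Agent.ZStr.ARProd
import Pool.Agent.ZStr.Ball
import Pool.Agent.ZStr.AffineAux

/-!
# Affine actions: extensions by free abelian groups are of type `F*_AR` (module AFFINE)
-/

namespace Pool.Agent.ZStr

open Set Topology Filter
open scoped unitInterval Pointwise

section

variable {G : Type*} [Group G] (N : Subgroup G) [N.Normal]

/-- The cocycle `c(g,q) = g σ(q) σ(g q)⁻¹` of the section `σ = Quotient.out` of `G → G ⧸ N`. -/
noncomputable def affC (g : G) (q : G ⧸ N) : N :=
  ⟨g * q.out * (((g : G ⧸ N) * q).out)⁻¹, by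
    rw [← QuotientGroup.eq_one_iff, QuotientGroup.mk_mul, QuotientGroup.mk_mul,
      QuotientGroup.mk_inv, QuotientGroup.out_eq', QuotientGroup.out_eq', mul_inv_cancel]⟩

/-- The conjugation by `g`, as an endomorphism of the normal subgroup `N`. -/
def affConj (g : G) : N →* N := (MulAut.conjNormal g : MulAut N).toMonoidHom

@[simp] lemma affConj_coe (g : G) (n : N) : (affConj N g n : G) = g * n * g⁻¹ := rfl

lemma affC_mul (g h : G) (q : G ⧸ N) :
    affC N (g * h) q = affConj N g (affC N h q) * affC N g ((h : G ⧸ N) * q) := by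
  apply Subtype.ext
  simp only [affC, affConj_coe, Subgroup.coe_mul, QuotientGroup.mk_mul]
  rw [mul_assoc (g : G ⧸ N) (h : G ⧸ N) q]
  group

lemma affC_of_mem (n : N) (q : G ⧸ N) : affC N (n : G) q = n := by
  apply Subtype.ext
  have h1 : ((n : G) : G ⧸ N) = 1 := (QuotientGroup.eq_one_iff _).mpr n.2
  simp [affC, h1]

variable {m : ℕ} (e : N ≃* Multiplicative (Fin m → ℤ))

lemma affConj_latMap_mul (g h : G) (v : EuclideanSpace ℝ (Fin m)) :
    latMap e (affConj N (g * h)) v = latMap e (affConj N g) (latMap e (affConj N h) v) := by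
  have h1 : latMap e (affConj N (g * h)) =
      (latMap e (affConj N g)).comp (latMap e (affConj N h)) := by
    apply latPt_ext e
    intro n
    rw [LinearMap.comp_apply, latMap_latPt, latMap_latPt, latMap_latPt]
    congr 1
    apply Subtype.ext
    simp only [affConj_coe]
    group
  rw [h1]
  rfl

lemma affConj_latMap_of_mem (n : N) (v : EuclideanSpace ℝ (Fin m)) :
    latMap e (affConj N (n : G)) v = v := by
  have h1 : latMap e (affConj N (n : G)) = LinearMap.id := by
    apply latPt_ext e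
    intro n'
    rw [latMap_latPt, LinearMap.id_apply]
    have h2 : affConj N (n : G) n' = n * n' * n⁻¹ := Subtype.ext (by simp)
    rw [h2, latPt_mul, latPt_mul, latPt_inv]
    abel
  rw [h1]
  rfl

variable {Y : Type} [MulAction (G ⧸ N) Y] (χ : (G ⧸ N) → Y → ℝ)

/-- The translation part of the affine action. -/
noncomputable def affS (g : G) (y : Y) : EuclideanSpace ℝ (Fin m) :=
  ∑ᶠ q : G ⧸ N, χ q y • latPt e (affC N g q)

lemma affS_mul (hfin : ∀ y, (Function.support fun q => χ q y).Finite)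
    (hχ : ∀ p q y, χ (p * q) (p • y) = χ q y) (g h : G) (y : Y) :
    affS N e χ (g * h) y =
      latMap e (affConj N g) (affS N e χ h y) + affS N e χ g ((h : G ⧸ N) • y) := by
  have hf1 : ∀ (F : (G ⧸ N) → EuclideanSpace ℝ (Fin m)),
      (Function.support fun q => χ q y • F q).Finite := fun F =>
    (hfin y).subset fun q hq => by
      rw [Function.mem_support] at hq ⊢
      intro h0
      exact hq (by rw [h0, zero_smul])
  have h1 : affS N e χ g ((h : G ⧸ N) • y) =
      ∑ᶠ q : G ⧸ N, χ q y • latPt e (affC N g ((h : G ⧸ N) * q)) := by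
    unfold affS
    rw [← finsum_comp_equiv (Equiv.mulLeft (h : G ⧸ N))]
    apply finsum_congr
    intro q
    simp only [Equiv.coe_mulLeft, hχ]
  have h2 : latMap e (affConj N g) (affS N e χ h y) =
      ∑ᶠ q : G ⧸ N, χ q y • latPt e (affConj N g (affC N h q)) := by
    unfold affS
    rw [map_finsum _ (hf1 _)]
    apply finsum_congr
    intro q
    rw [map_smul, latMap_latPt]
  rw [h1, h2, ← finsum_add_distrib (hf1 _) (hf1 _)]
  unfold affS
  apply finsum_congr
  intro q
  rw [affC_mul, latPt_mul, smul_add]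

omit [MulAction (G ⧸ N) Y] in
lemma affS_of_mem (hsum : ∀ y, ∑ᶠ q, χ q y = 1) (n : N) (y : Y) :
    affS N e χ (n : G) y = latPt e n := by
  unfold affS
  simp only [affC_of_mem]
  rw [← finsum_smul, hsum, one_smul]

/-- The affine action on `Y × ℝ^m`. -/
@[reducible] noncomputable def affAction
    (hfin : ∀ y, (Function.support fun q => χ q y).Finite)
    (hsum : ∀ y, ∑ᶠ q, χ q y = 1) (hχ : ∀ p q y, χ (p * q) (p • y) = χ q y) :
    MulAction G (Y × EuclideanSpace ℝ (Fin m)) where
  smul g p := ((g : G ⧸ N) • p.1, latMap e (affConj N g) p.2 + affS N e χ g p.1)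
  one_smul p := by
    have h1 := affConj_latMap_of_mem N e 1 p.2
    have h2 := affS_of_mem N e χ hsum 1 p.1
    rw [latPt_one] at h2
    rw [Subgroup.coe_one] at h1 h2
    change (((1 : G) : G ⧸ N) • p.1, latMap e (affConj N 1) p.2 + affS N e χ 1 p.1) = p
    rw [h1, h2, QuotientGroup.mk_one, one_smul, add_zero]
  mul_smul g h p := by
    change (((g * h : G) : G ⧸ N) • p.1,
        latMap e (affConj N (g * h)) p.2 + affS N e χ (g * h) p.1) =
      ((g : G ⧸ N) • ((h : G ⧸ N) • p.1),
        latMap e (affConj N g) (latMap e (affConj N h) p.2 + affS N e χ h p.1) +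
          affS N e χ g ((h : G ⧸ N) • p.1))
    rw [QuotientGroup.mk_mul, mul_smul, affConj_latMap_mul, affS_mul N e χ hfin hχ, map_add,
      add_assoc]

end

/-- If `N ≅ ℤ^m` is normal in `G` and `G ⧸ N` is of type `F*_AR`, then so is `G`.
(The action on `Y × ℝ^m` is `g (y, v) = (g y, A_g v + ∑_q χ_q(y) c(g,q))`, where `A_g` is the
linear extension of the conjugation, `χ_q` is a `G ⧸ N`-equivariant partition of unity on `Y`
and `c(g,q) = g σ(q) σ(g q)⁻¹ ∈ N` for a section `σ` of `G → G ⧸ N`.) -/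
theorem typeFStarAR_of_free_abelian {G : Type*} [Group G] (N : Subgroup G) [N.Normal] (m : ℕ)
    (e : N ≃* Multiplicative (Fin m → ℤ)) (hQ : TypeFStarAR (G ⧸ N)) : TypeFStarAR G := by
  obtain ⟨Y, tY, aY, hAR, hcs, hp, hc⟩ := hQ
  have : LocallyCompactSpace Y := hAR.2.1
  have : TopologicalSpace.MetrizableSpace Y := hAR.2.2.2.1
  obtain ⟨χ, hχc, hχlf, hsum, hχ⟩ := affine_exists_pou hp hc
  have hfin : ∀ y, (Function.support fun q => χ q y).Finite := fun y => hχlf.point_finite y
  let act : MulAction G (Y × EuclideanSpace ℝ (Fin m)) := affAction N e χ hfin hsum hχ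
  have hact : ∀ (g : G) (p : Y × EuclideanSpace ℝ (Fin m)),
      g • p = ((g : G ⧸ N) • p.1, latMap e (affConj N g) p.2 + affS N e χ g p.1) :=
    fun g p => rfl
  have hactN : ∀ (n : N) (p : Y × EuclideanSpace ℝ (Fin m)),
      (n : G) • p = (p.1, p.2 + latPt e n) := by
    intro n p
    rw [hact, affConj_latMap_of_mem, affS_of_mem N e χ hsum]
    have h1 : ((n : G) : G ⧸ N) = 1 := (QuotientGroup.eq_one_iff _).mpr n.2
    rw [h1, one_smul]
  have hcont : ContinuousConstSMul G (Y × EuclideanSpace ℝ (Fin m)) := by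
    refine ⟨fun g => ?_⟩
    have h1 : Continuous (fun p : Y × EuclideanSpace ℝ (Fin m) =>
        (((g : G ⧸ N) • p.1, latMap e (affConj N g) p.2 + affS N e χ g p.1) :
          Y × EuclideanSpace ℝ (Fin m))) := by
      refine Continuous.prodMk ((continuous_const_smul (g : G ⧸ N)).comp continuous_fst) ?_
      refine Continuous.add ?_ ?_
      · exact (LinearMap.continuous_of_finiteDimensional _).comp continuous_snd
      · have h2 : Continuous (affS N e χ g) := by
          unfold affS
          refine continuous_finsum (fun q => (hχc q).smul continuous_const) ?_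
          refine hχlf.subset fun q y hy => ?_
          rw [Function.mem_support] at hy ⊢
          intro h0
          exact hy (by rw [h0, zero_smul])
        exact h2.comp continuous_fst
    exact h1
  refine ⟨Y × EuclideanSpace ℝ (Fin m), inferInstance, act, hAR.prod (isAR_euclidean m),
    hcont, ?_, ?_⟩
  · intro K hK
    have hK1 : IsCompact (Prod.fst '' K) := hK.image continuous_fst
    have hF := hp _ hK1
    have hgF : ∀ q : G ⧸ N,
        {g : G | (g : G ⧸ N) = q ∧ ((g • K) ∩ K).Nonempty}.Finite := by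
      intro q
      have hK2 : IsCompact (K ∪ (q.out • K)) := hK.union (hK.smul _)
      have hK3 : IsCompact (Prod.snd '' (K ∪ (q.out • K))) := hK2.image continuous_snd
      obtain ⟨R, hR⟩ := hK3.isBounded.exists_norm_le
      refine ((latPt_finite e (R + R)).image (fun n : N => (n : G) * q.out)).subset ?_
      rintro g ⟨hgq, p, hp1, hp2⟩
      have hmem : g * q.out⁻¹ ∈ N := by
        rw [← QuotientGroup.eq_one_iff, QuotientGroup.mk_mul, QuotientGroup.mk_inv,
          QuotientGroup.out_eq', hgq, mul_inv_cancel]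
      refine ⟨⟨g * q.out⁻¹, hmem⟩, ?_, by simp⟩
      obtain ⟨p', hp', rfl⟩ := hp1
      have h3 : g • p' = ((⟨g * q.out⁻¹, hmem⟩ : N) : G) • (q.out • p') := by
        rw [smul_smul]; simp
      have h4 : (g • p').2 = (q.out • p').2 + latPt e ⟨g * q.out⁻¹, hmem⟩ := by
        rw [h3, hactN]
      have h5 : ‖(g • p').2‖ ≤ R := hR _ ⟨_, Or.inl hp2, rfl⟩
      have h6 : ‖(q.out • p').2‖ ≤ R := hR _ ⟨_, Or.inr (smul_mem_smul_set hp'), rfl⟩
      have h7 : latPt e ⟨g * q.out⁻¹, hmem⟩ = (g • p').2 - (q.out • p').2 := by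
        rw [h4]; abel
      change ‖latPt e ⟨g * q.out⁻¹, hmem⟩‖ ≤ R + R
      rw [h7]
      exact (norm_sub_le _ _).trans (add_le_add h5 h6)
    refine (hF.biUnion fun q _ => hgF q).subset ?_
    rintro g ⟨p, hp1, hp2⟩
    simp only [mem_iUnion]
    refine ⟨(g : G ⧸ N), ?_, rfl, ⟨p, hp1, hp2⟩⟩
    obtain ⟨p', hp', rfl⟩ := hp1
    exact ⟨(g • p').1, ⟨p'.1, ⟨p', hp', rfl⟩, rfl⟩, ⟨g • p', hp2, rfl⟩⟩
  · obtain ⟨K, hK, hcov⟩ := hc
    refine ⟨K ×ˢ Metric.closedBall (0 : EuclideanSpace ℝ (Fin m)) m,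
      hK.prod (isCompact_closedBall _ _), ?_⟩
    rintro p
    obtain ⟨q, hq⟩ := hcov p.1
    rw [mem_smul_set_iff_inv_smul_mem] at hq
    obtain ⟨n, hn⟩ := latPt_cobounded e (q.out⁻¹ • p).2
    refine ⟨q.out * n, ?_⟩
    rw [mem_smul_set_iff_inv_smul_mem, mul_inv_rev, mul_smul]
    have h1 : ((n : G)⁻¹ : G) = ((n⁻¹ : N) : G) := by simp
    rw [h1, hactN]
    refine ⟨?_, ?_⟩
    · change (q.out⁻¹ • p).1 ∈ K
      rw [hact]
      change ((q.out⁻¹ : G) : G ⧸ N) • p.1 ∈ K
      rw [QuotientGroup.mk_inv, QuotientGroup.out_eq']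
      exact hq
    · change (q.out⁻¹ • p).2 + latPt e n⁻¹ ∈ Metric.closedBall 0 (m : ℝ)
      rw [mem_closedBall_zero_iff, latPt_inv, ← sub_eq_add_neg]
      exact hn

end Pool.Agent.ZStr
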