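import Pool.Agent.ZStr.Contr

/-!
# Boundary swapping (module ASSEMBLE)
-/

namespace Pool.Agent.ZStr

open Set Topology Filter
open scoped unitInterval

namespace Asm

variable {E M T : Type} [MetricSpace E] [ProperSpace E] [TopologicalSpace M]
    [TopologicalSpace T] [CompactSpace T] [T2Space T]

/-- The carrier of the compactification of `E`, as a set. -/
def carrier (j : M → T) (φ : E → M) : Set (OnePoint E × T) :=
  {q | (∃ e : E, q.1 = (e : OnePoint E) ∧ q.2 = j (φ e)) ∨ (q.1 = OnePoint.infty ∧ q.2 ∉ range j)}

/-- Points whose image tends to the boundary leave every compact set. -/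
theorem tendsto_cocompact_of (j : M → T) (hj : IsOpenEmbedding j) (φ : E → M)
    (hφ : Continuous φ) {α : Type*} (l : Filter α) (e : α → E) (ζ : T) (hζ : ζ ∉ range j)
    (h : Tendsto (fun a => j (φ (e a))) l (𝓝 ζ)) : Tendsto e l (cocompact E) := by
  rw [(hasBasis_cocompact (X := E)).tendsto_right_iff]
  intro K hK
  have hc : IsCompact ((fun x => j (φ x)) '' K) := hK.image (hj.continuous.comp hφ)
  have hmem : ((fun x => j (φ x)) '' K)ᶜ ∈ 𝓝 ζ := by
    refine hc.isClosed.isOpen_compl.mem_nhds ?_
    rintro ⟨x, -, hx⟩
    exact hζ ⟨φ x, hx⟩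
  filter_upwards [h hmem] with a ha hK'
  exact ha ⟨e a, hK', rfl⟩

theorem carrier_closed (j : M → T) (hj : IsOpenEmbedding j) (φ : E → M)
    (hφ : Continuous φ) (hφp : Tendsto φ (cocompact E) (cocompact M)) :
    IsClosed (carrier j φ) := by
  rw [isClosed_iff_ultrafilter]
  rintro ⟨x, ζ⟩ u hu hS
  have h1 : Tendsto (fun q : OnePoint E × T => q.1) u (𝓝 x) :=
    (continuous_fst.tendsto (x, ζ)).mono_left hu
  have h2 : Tendsto (fun q : OnePoint E × T => q.2) u (𝓝 ζ) :=
    (continuous_snd.tendsto (x, ζ)).mono_left hu
  have hM : LocallyCompactSpace M := hj.locallyCompactSpace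
  have hcase : (∀ᶠ q in (u : Filter (OnePoint E × T)), ∃ e : E, q.1 = (e : OnePoint E) ∧
      q.2 = j (φ e)) ∨ (∀ᶠ q in (u : Filter (OnePoint E × T)), q.1 = OnePoint.infty ∧
      q.2 ∉ range j) := by
    rw [← Ultrafilter.eventually_or]
    exact hS
  rcases hcase with hA | hB
  · -- interior points
    have hemp : ∃ e : OnePoint E × T → E, ∀ q, (∃ e : E, q.1 = (e : OnePoint E) ∧
        q.2 = j (φ e)) → q.1 = (e q : OnePoint E) ∧ q.2 = j (φ (e q)) := by
      obtain ⟨q, e, -⟩ := hA.exists
      classical
      refine ⟨fun q => if h : ∃ e : E, q.1 = (e : OnePoint E) ∧ q.2 = j (φ e) then h.choose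
        else e, fun q hq => ?_⟩
      simp only [dif_pos hq]
      exact hq.choose_spec
    obtain ⟨e, he⟩ := hemp
    have h1' : Tendsto (fun q => ((e q : E) : OnePoint E)) u (𝓝 x) := by
      refine h1.congr' ?_
      filter_upwards [hA] with q hq using (he q hq).1
    have h2' : Tendsto (fun q => j (φ (e q))) u (𝓝 ζ) := by
      refine h2.congr' ?_
      filter_upwards [hA] with q hq using (he q hq).2
    induction x using OnePoint.rec with
    | infty =>
      right
      refine ⟨rfl, ?_⟩
      rintro ⟨m, rfl⟩
      have h3 : Tendsto e u (cocompact E) := by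
        have h8 : Tendsto e u (comap (OnePoint.some : E → OnePoint E) (𝓝 OnePoint.infty)) :=
          tendsto_comap_iff.2 h1'
        rw [OnePoint.comap_coe_nhds_infty, coclosedCompact_eq_cocompact] at h8
        exact h8
      have h4 : Tendsto (fun q => φ (e q)) u (cocompact M) := hφp.comp h3
      have h5 : Tendsto (fun q => φ (e q)) u (𝓝 m) := by
        rw [hj.toIsEmbedding.tendsto_nhds_iff]
        exact h2'
      obtain ⟨K, hK, hKm⟩ := exists_compact_mem_nhds m
      have h6 := h4 hK.compl_mem_cocompact
      have h7 := h5 hKm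
      have h9 : ∀ᶠ q in (u : Filter (OnePoint E × T)), False := by
        filter_upwards [h6, h7] with q hq1 hq2 using hq1 hq2
      exact h9.exists.elim fun _ h => h
    | coe x =>
      left
      refine ⟨x, rfl, ?_⟩
      have h3 : Tendsto e u (𝓝 x) := by
        rw [OnePoint.isOpenEmbedding_coe.toIsEmbedding.tendsto_nhds_iff]
        exact h1'
      have h4 : Tendsto (fun q => j (φ (e q))) u (𝓝 (j (φ x))) :=
        ((hj.continuous.comp hφ).tendsto x).comp h3
      exact tendsto_nhds_unique h2' h4
  · right
    refine ⟨?_, ?_⟩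
    · have : Tendsto (fun q : OnePoint E × T => q.1) u (𝓝 OnePoint.infty) := by
        refine tendsto_const_nhds.congr' ?_
        filter_upwards [hB] with q hq using hq.1.symm
      exact tendsto_nhds_unique h1 this
    · have hcl : IsClosed (range j)ᶜ := hj.isOpen_range.isClosed_compl
      exact hcl.mem_of_tendsto h2 (by filter_upwards [hB] with q hq using hq.2)

/-- The size function on the compactification: `1 / (1 + dist e e0)` on `E`, zero at infinity. -/
noncomputable def usize (e0 : E) (x : OnePoint E) : ℝ :=
  OnePoint.elim x 0 (fun e : E => (1 + dist e e0)⁻¹)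

theorem usize_coe (e0 e : E) : usize e0 (e : OnePoint E) = (1 + dist e e0)⁻¹ := rfl

theorem usize_infty (e0 : E) : usize e0 (OnePoint.infty : OnePoint E) = 0 := rfl

theorem usize_pos (e0 e : E) : 0 < usize e0 (e : OnePoint E) := by
  rw [usize_coe]
  have := dist_nonneg (x := e) (y := e0)
  positivity

theorem usize_continuous (e0 : E) : Continuous (usize e0) := by
  rw [continuous_iff_continuousAt]
  intro x
  induction x using OnePoint.rec with
  | infty =>
    rw [OnePoint.continuousAt_infty']
    have h1 : Tendsto (fun e : E => (1 + dist e e0)⁻¹) (cocompact E) (𝓝 0) := by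
      refine tendsto_inv_atTop_zero.comp ?_
      exact tendsto_atTop_add_const_left _ _ (tendsto_dist_right_cocompact_atTop e0)
    rw [coclosedCompact_eq_cocompact]
    exact h1
  | coe x =>
    rw [OnePoint.continuousAt_coe]
    have h1 : Continuous (fun e : E => (1 + dist e e0)⁻¹) := by
      refine Continuous.inv₀ (by fun_prop) fun e => ?_
      have := dist_nonneg (x := e) (y := e0)
      positivity
    exact h1.continuousAt

variable (j : M → T) (φ : E → M)

/-- The embedding of `E` in the carrier. -/
def emb (e : E) : carrier j φ := ⟨((e : OnePoint E), j (φ e)), Or.inl ⟨e, rfl, rfl⟩⟩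

/-- The projection to `T`. -/
def proj (z : carrier j φ) : T := z.1.2

theorem proj_continuous : Continuous (proj j φ) := continuous_snd.comp continuous_subtype_val

theorem mem_range_emb_iff (z : carrier j φ) :
    z ∈ range (emb j φ) ↔ z.1.1 ≠ OnePoint.infty := by
  constructor
  · rintro ⟨e, rfl⟩
    exact OnePoint.coe_ne_infty e
  · intro h
    rcases z.2 with ⟨e, h1, h2⟩ | ⟨h1, -⟩
    · refine ⟨e, ?_⟩
      apply Subtype.ext
      exact Prod.ext h1.symm h2.symm
    · exact absurd h1 h

theorem not_mem_range_emb {z : carrier j φ} (hz : z ∉ range (emb j φ)) :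
    z.1.1 = OnePoint.infty ∧ proj j φ z ∉ range j := by
  have h1 : z.1.1 = OnePoint.infty := by
    by_contra h
    exact hz ((mem_range_emb_iff j φ z).2 h)
  rcases z.2 with ⟨e, h2, -⟩ | h2
  · rw [h2] at h1
    exact absurd h1 (OnePoint.coe_ne_infty e)
  · exact h2

theorem emb_continuous (hj : IsOpenEmbedding j) (hφ : Continuous φ) :
    Continuous (emb j φ) := by
  refine Continuous.subtype_mk ?_ _
  exact OnePoint.continuous_coe.prodMk (hj.continuous.comp hφ)

theorem emb_isOpenEmbedding (hj : IsOpenEmbedding j) (hφ : Continuous φ) :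
    IsOpenEmbedding (emb j φ) := by
  refine ⟨?_, ?_⟩
  · refine IsEmbedding.of_comp (emb_continuous j φ hj hφ)
      (g := fun z : carrier j φ => z.1.1) (continuous_fst.comp continuous_subtype_val) ?_
    exact OnePoint.isOpenEmbedding_coe.toIsEmbedding
  · have : range (emb j φ) = (fun z : carrier j φ => z.1.1) ⁻¹' {OnePoint.infty}ᶜ := by
      ext z
      rw [mem_range_emb_iff]
      rfl
    rw [this]
    exact isOpen_compl_singleton.preimage (continuous_fst.comp continuous_subtype_val)

/-- Convergence to a boundary point. -/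
theorem tendsto_emb (hj : IsOpenEmbedding j) (hφ : Continuous φ) {z : carrier j φ}
    (hz : z ∉ range (emb j φ)) {α : Type*} (l : Filter α) (e : α → E)
    (h : Tendsto (fun a => j (φ (e a))) l (𝓝 (proj j φ z))) :
    Tendsto (fun a => emb j φ (e a)) l (𝓝 z) := by
  obtain ⟨h1, h2⟩ := not_mem_range_emb j φ hz
  rw [tendsto_subtype_rng]
  have h3 : Tendsto e l (cocompact E) := tendsto_cocompact_of j hj φ hφ l e _ h2 h
  have h4 : Tendsto (fun a => ((e a : E) : OnePoint E)) l (𝓝 z.1.1) := by
    rw [h1]
    have h8 : Tendsto e l (comap (OnePoint.some : E → OnePoint E) (𝓝 OnePoint.infty)) := by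
      rw [OnePoint.comap_coe_nhds_infty, coclosedCompact_eq_cocompact]
      exact h3
    exact tendsto_comap_iff.1 h8
  have h5 := h4.prodMk_nhds h
  exact h5

end Asm

open Asm in
/-- BOUNDARY SWAPPING.  Let `T` be a compactification of `M` with a Z-set boundary, and let
`φ : E → M`, `ψ : M → E` be maps with `ψ φ` homotopic to the identity, everything controlled at
infinity of `T`.  Then the boundary of `T` can be attached to `E`. -/
theorem assemble {E M T : Type} [MetricSpace E] [ProperSpace E] [TopologicalSpace M]
    [TopologicalSpace T] [CompactSpace T] [T2Space T] (e0 : E)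
    (j : M → T) (hj : IsOpenEmbedding j) (hjd : DenseRange j) (hz : IsZSet (range j)ᶜ)
    (φ : E → M) (hφ : Continuous φ) (ψ : M → E) (hψ : Continuous ψ)
    (h : E × I → E) (hh : Continuous h) (h0 : ∀ e, h (e, 0) = e) (h1 : ∀ e, h (e, 1) = ψ (φ e))
    (hφp : Tendsto φ (cocompact E) (cocompact M))
    (c1 : ∀ {α : Type} (l : Filter α) (e : α → E) (s : α → I) (ζ : T), ζ ∉ range j →
      Tendsto (fun a => j (φ (e a))) l (𝓝 ζ) →
      Tendsto (fun a => j (φ (h (e a, s a)))) l (𝓝 ζ))
    (c2 : ∀ {α : Type} (l : Filter α) (w : α → M) (ζ : T), ζ ∉ range j →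
      Tendsto (fun a => j (w a)) l (𝓝 ζ) →
      Tendsto (fun a => j (φ (ψ (w a)))) l (𝓝 ζ))
    (c3 : ∀ (R : ℝ) {α : Type} (l : Filter α) (e e' : α → E) (ζ : T), ζ ∉ range j →
      (∀ᶠ a in l, dist (e a) (e' a) ≤ R) →
      Tendsto (fun a => j (φ (e a))) l (𝓝 ζ) →
      Tendsto (fun a => j (φ (e' a))) l (𝓝 ζ)) :
    ∃ (Eb : Type) (_ : TopologicalSpace Eb) (i : E → Eb) (π : Eb → T),
      CompactSpace Eb ∧ T2Space Eb ∧ IsOpenEmbedding i ∧ DenseRange i ∧
      IsZSet (range i)ᶜ ∧ ControlCondition E Eb i ∧
      Continuous π ∧ (∀ e, π (i e) = j (φ e)) ∧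
      (∀ ζ : T, ζ ∉ range j → ∃ z : Eb, z ∉ range i ∧ π z = ζ) ∧
      (∀ z : Eb, z ∉ range i → π z ∉ range j ∧
        ∀ {α : Type} (l : Filter α) (e : α → E),
          Tendsto (fun a => j (φ (e a))) l (𝓝 (π z)) → Tendsto (fun a => i (e a)) l (𝓝 z)) := by
  have hcpt : CompactSpace (carrier j φ) :=
    isCompact_iff_compactSpace.1 (carrier_closed j hj φ hφ hφp).isCompact
  have ht2 : T2Space (carrier j φ) := inferInstance
  have hemb := emb_isOpenEmbedding j φ hj hφ
  have hlast : ∀ z : carrier j φ, z ∉ range (emb j φ) → proj j φ z ∉ range j ∧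
        ∀ {α : Type} (l : Filter α) (e : α → E),
          Tendsto (fun a => j (φ (e a))) l (𝓝 (proj j φ z)) →
          Tendsto (fun a => emb j φ (e a)) l (𝓝 z) := fun z hz =>
    ⟨(not_mem_range_emb j φ hz).2, fun l e hl => tendsto_emb j φ hj hφ hz l e hl⟩
  refine ⟨carrier j φ, inferInstance, emb j φ, proj j φ, hcpt, ht2, hemb, ?_, ?_, ?_,
    proj_continuous j φ, fun e => rfl, ?_, hlast⟩
  · -- density
    intro z
    by_cases hz : z ∈ range (emb j φ)
    · exact subset_closure hz
    · obtain ⟨h2, h3⟩ := hlast z hz
      have hne : (comap j (𝓝 (proj j φ z))).NeBot := comap_neBot fun t ht => by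
        obtain ⟨_, h5, w, rfl⟩ := mem_closure_iff_nhds.1 (hjd (proj j φ z)) t ht
        exact ⟨w, h5⟩
      have h4 : Tendsto (fun w => j w) (comap j (𝓝 (proj j φ z))) (𝓝 (proj j φ z)) :=
        tendsto_comap
      exact mem_closure_of_tendsto (h3 _ ψ (c2 _ _ _ h2 h4))
        (Eventually.of_forall fun w => mem_range_self _)
  · -- Z-set
    obtain ⟨hcl, G, hG, hG0, hGt⟩ := hz
    have hGr : ∀ (e : E) (s : I), G (j (φ e), s) ∈ range j := by
      intro e s
      by_cases hs : 0 < s
      · by_contra hcon
        exact hGt s hs _ hcon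
      · have : s = 0 := le_antisymm (not_lt.1 hs) s.2.1
        rw [this, hG0]
        exact mem_range_self _
    have hGr' : ∀ (ζ : T) (s : I), 0 < s → G (ζ, s) ∈ range j := by
      intro ζ s hs
      by_contra hcon
      exact hGt s hs _ hcon
    have : Nonempty M := ⟨φ e0⟩
    let jinv : T → M := Function.invFun j
    have hjinv : ∀ m, jinv (j m) = m := Function.leftInverse_invFun hj.injective
    have hjinv' : ∀ ζ ∈ range j, j (jinv ζ) = ζ := by
      rintro ζ ⟨m, rfl⟩
      rw [hjinv]
    have hjc : ∀ ζ ∈ range j, ContinuousAt jinv ζ := by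
      rintro ζ ⟨m, rfl⟩
      rw [← hj.continuousAt_iff]
      have : jinv ∘ j = id := funext hjinv
      rw [this]
      exact continuousAt_id
    let u : carrier j φ → ℝ := fun z => usize e0 z.1.1
    have huc : Continuous u :=
      (usize_continuous e0).comp (continuous_fst.comp continuous_subtype_val)
    have hu0 : ∀ z, z ∉ range (emb j φ) → u z = 0 := by
      intro z hz
      simp only [u, (not_mem_range_emb j φ hz).1, usize_infty]
    have hup : ∀ e : E, 0 < u (emb j φ e) := fun e => usize_pos e0 e
    have hunn : ∀ z, 0 ≤ u z := by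
      intro z
      by_cases hz : z ∈ range (emb j φ)
      · obtain ⟨e, rfl⟩ := hz
        exact (hup e).le
      · exact (hu0 z hz).ge
    -- the inverse of the embedding
    have : Nonempty E := ⟨e0⟩
    let q : carrier j φ → E := Function.invFun (emb j φ)
    have hq : ∀ e, q (emb j φ e) = e := Function.leftInverse_invFun hemb.injective
    let clampI : ℝ → I := projIcc 0 1 zero_le_one
    have hclc : Continuous clampI := continuous_projIcc
    have hcl0 : ∀ {s : ℝ}, s ≤ 0 → clampI s = 0 := fun hs => projIcc_of_le_left _ hs
    have hcl1 : clampI 1 = 1 := projIcc_right zero_le_one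
    have hclpos : ∀ {s : ℝ}, 0 < s → 0 < clampI s := by
      intro s hs
      rw [← Subtype.coe_lt_coe]
      simp only [clampI, coe_projIcc]
      exact lt_max_of_lt_right (lt_min one_pos hs)
    -- the two pieces
    let P1 : carrier j φ × I → carrier j φ := fun x =>
      emb j φ (h (q x.1, clampI ((x.2 : ℝ) / u x.1)))
    let P2 : carrier j φ × I → carrier j φ := fun x =>
      emb j φ (ψ (jinv (G (proj j φ x.1, clampI ((x.2 : ℝ) - u x.1)))))
    classical
    let H : carrier j φ × I → carrier j φ := fun x =>
      if (x.2 : ℝ) ≤ u x.1 then (if x.1 ∈ range (emb j φ) then P1 x else x.1) else P2 x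
    have hHi : ∀ (e : E) (t : I), (t : ℝ) ≤ u (emb j φ e) →
        H (emb j φ e, t) = emb j φ (h (e, clampI ((t : ℝ) / u (emb j φ e)))) := by
      intro e t ht
      simp only [H, P1, if_pos ht, if_pos (mem_range_self e), hq]
    refine ⟨hemb.isOpen_range.isClosed_compl, H, ?_, ?_, ?_⟩
    · rw [continuous_iff_continuousAt]
      rintro ⟨z, t⟩
      by_cases hz : z ∈ range (emb j φ)
      · -- interior points
        obtain ⟨e, rfl⟩ := hz
        have hemb2 : IsOpenEmbedding (Prod.map (emb j φ) (id : I → I)) :=
          hemb.prodMap IsOpenEmbedding.id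
        have hce : Continuous (H ∘ Prod.map (emb j φ) (id : I → I)) := by
          have hfun : H ∘ Prod.map (emb j φ) (id : I → I) = fun x : E × I =>
              if (x.2 : ℝ) ≤ u (emb j φ x.1) then
                emb j φ (h (x.1, clampI ((x.2 : ℝ) / u (emb j φ x.1))))
              else emb j φ (ψ (jinv (G (j (φ x.1),
                clampI ((x.2 : ℝ) - u (emb j φ x.1)))))) := by
            funext x
            simp only [Function.comp, Prod.map, id, H, P1, P2, if_pos (mem_range_self x.1), hq]
            rfl
          rw [hfun]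
          have hec := emb_continuous j φ hj hφ
          have huec : Continuous fun x : E × I => u (emb j φ x.1) :=
            huc.comp (hec.comp continuous_fst)
          refine Continuous.if_le ?_ ?_ (by fun_prop) huec ?_
          · refine hec.comp (hh.comp (continuous_fst.prodMk (hclc.comp ?_)))
            exact Continuous.div (by fun_prop) huec fun x => (hup x.1).ne'
          · refine hec.comp (hψ.comp ?_)
            rw [continuous_iff_continuousAt]
            intro x
            have hG' : ContinuousAt (fun x : E × I => G (j (φ x.1),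
                clampI ((x.2 : ℝ) - u (emb j φ x.1)))) x := by
              refine Continuous.continuousAt (hG.comp ?_)
              refine (hj.continuous.comp (hφ.comp continuous_fst)).prodMk (hclc.comp ?_)
              exact Continuous.sub (by fun_prop) huec
            exact (hjc _ (hGr _ _)).comp_of_eq hG' rfl
          · intro x hx
            have h2 : (x.2 : ℝ) / u (emb j φ x.1) = 1 := by
              rw [hx, div_self (hup x.1).ne']
            rw [h2, hcl1, h1, hx, sub_self, hcl0 le_rfl, hG0, hjinv]
        exact hemb2.continuousAt_iff.1 (hce.continuousAt (x := (e, t)))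
      · have hu0z : u z = 0 := hu0 z hz
        obtain ⟨hπ, hlim⟩ := hlast z hz
        by_cases ht : 0 < t
        · -- boundary point, positive time
          have hlt : u z < (t : ℝ) := by rw [hu0z]; exact ht
          have hev : H =ᶠ[𝓝 (z, t)] P2 := by
            have h2 : ∀ᶠ x : carrier j φ × I in 𝓝 (z, t), u x.1 < (x.2 : ℝ) := by
              refine IsOpen.mem_nhds (isOpen_lt (huc.comp continuous_fst) (by fun_prop)) ?_
              exact hlt
            filter_upwards [h2] with x hx
            simp only [H, if_neg (not_le.2 hx)]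
          refine ContinuousAt.congr ?_ hev.symm
          have hec := emb_continuous j φ hj hφ
          have hG' : ContinuousAt (fun x : carrier j φ × I => G (proj j φ x.1,
                clampI ((x.2 : ℝ) - u x.1))) (z, t) := by
            refine Continuous.continuousAt (hG.comp ?_)
            refine ((proj_continuous j φ).comp continuous_fst).prodMk (hclc.comp ?_)
            exact Continuous.sub (by fun_prop) (huc.comp continuous_fst)
          have hr : G (proj j φ z, clampI ((t : ℝ) - u z)) ∈ range j :=
            hGr' _ _ (hclpos (sub_pos.2 hlt))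
          have h3 : ContinuousAt (fun x : carrier j φ × I => jinv (G (proj j φ x.1,
                clampI ((x.2 : ℝ) - u x.1)))) (z, t) :=
            (hjc _ hr).comp_of_eq hG' rfl
          exact (hec.comp hψ).continuousAt.comp h3
        · -- boundary point, time zero
          have ht0 : t = 0 := le_antisymm (not_lt.1 ht) t.2.1
          subst ht0
          have hHz : H (z, 0) = z := by
            have : ((0 : I) : ℝ) ≤ u z := by rw [hu0z]; simp
            simp only [H, if_pos this, if_neg hz]
          have hgoal : Tendsto H (𝓝 (z, 0)) (𝓝 z) := by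
            -- three pieces
            let A1 : Set (carrier j φ × I) := {x | (x.2 : ℝ) ≤ u x.1 ∧ x.1 ∈ range (emb j φ)}
            let A2 : Set (carrier j φ × I) := {x | (x.2 : ℝ) ≤ u x.1 ∧ x.1 ∉ range (emb j φ)}
            let A3 : Set (carrier j φ × I) := {x | ¬ (x.2 : ℝ) ≤ u x.1}
            have hcov : 𝓝 ((z, 0) : carrier j φ × I) ≤
                (𝓝 (z, 0) ⊓ 𝓟 A1) ⊔ ((𝓝 (z, 0) ⊓ 𝓟 A2) ⊔ (𝓝 (z, 0) ⊓ 𝓟 A3)) := by
              rw [← inf_sup_left, ← inf_sup_left, sup_principal, sup_principal]
              refine le_inf le_rfl ?_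
              refine le_principal_iff.2 (mem_of_superset univ_mem fun x _ => ?_)
              by_cases hx : (x.2 : ℝ) ≤ u x.1
              · by_cases hx2 : x.1 ∈ range (emb j φ)
                · exact Or.inl ⟨hx, hx2⟩
                · exact Or.inr (Or.inl ⟨hx, hx2⟩)
              · exact Or.inr (Or.inr hx)
            have hfst : Tendsto (fun x : carrier j φ × I => x.1) (𝓝 (z, 0)) (𝓝 z) :=
              continuous_fst.tendsto (z, 0)
            have hπt : Tendsto (fun x : carrier j φ × I => proj j φ x.1) (𝓝 (z, 0))
                (𝓝 (proj j φ z)) := ((proj_continuous j φ).tendsto z).comp hfst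
            refine Tendsto.mono_left ?_ hcov
            refine Tendsto.sup ?_ (Tendsto.sup ?_ ?_)
            · -- A1
              have h2 : Tendsto (fun x : carrier j φ × I => j (φ (q x.1)))
                  (𝓝 (z, 0) ⊓ 𝓟 A1) (𝓝 (proj j φ z)) := by
                refine (hπt.mono_left inf_le_left).congr' ?_
                refine mem_inf_of_right (mem_principal.2 fun x hx => ?_)
                obtain ⟨e, he⟩ := hx.2
                change proj j φ x.1 = j (φ (q x.1))
                rw [← he, hq]
                rfl
              have h3 := hlim _ _ (c1 _ (fun x : carrier j φ × I => q x.1)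
                (fun x => clampI ((x.2 : ℝ) / u x.1)) _ hπ h2)
              refine h3.congr' ?_
              refine mem_inf_of_right (mem_principal.2 fun x hx => ?_)
              simp only [mem_ofPred_eq, H, P1, if_pos hx.1, if_pos hx.2]
            · -- A2
              refine (hfst.mono_left inf_le_left).congr' ?_
              refine mem_inf_of_right (mem_principal.2 fun x hx => ?_)
              simp only [mem_ofPred_eq, H, if_pos hx.1, if_neg hx.2]
            · -- A3
              have hGz : Tendsto (fun x : carrier j φ × I => G (proj j φ x.1,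
                  clampI ((x.2 : ℝ) - u x.1))) (𝓝 (z, 0)) (𝓝 (proj j φ z)) := by
                have hc : Continuous (fun x : carrier j φ × I => G (proj j φ x.1,
                    clampI ((x.2 : ℝ) - u x.1))) := by
                  refine hG.comp ?_
                  refine ((proj_continuous j φ).comp continuous_fst).prodMk (hclc.comp ?_)
                  exact Continuous.sub (by fun_prop) (huc.comp continuous_fst)
                have := hc.tendsto (z, 0)
                simp only [hu0z] at this
                rw [hcl0 (by simp), hG0] at this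
                exact this
              have h2 : Tendsto (fun x : carrier j φ × I => j (jinv (G (proj j φ x.1,
                  clampI ((x.2 : ℝ) - u x.1))))) (𝓝 (z, 0) ⊓ 𝓟 A3) (𝓝 (proj j φ z)) := by
                refine (hGz.mono_left inf_le_left).congr' ?_
                refine mem_inf_of_right (mem_principal.2 fun x hx => ?_)
                exact (hjinv' _ (hGr' _ _ (hclpos (sub_pos.2 (not_le.1 hx))))).symm
              have h3 := hlim _ _ (c2 _ _ _ hπ h2)
              refine h3.congr' ?_
              refine mem_inf_of_right (mem_principal.2 fun x hx => ?_)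
              simp only [mem_ofPred_eq, H, P2]
              rw [if_neg hx]
          change Tendsto H (𝓝 (z, 0)) (𝓝 (H (z, 0)))
          rw [hHz]
          exact hgoal
    · intro z
      have h2 : ((0 : I) : ℝ) ≤ u z := by simpa using hunn z
      by_cases hz : z ∈ range (emb j φ)
      · obtain ⟨e, rfl⟩ := hz
        rw [hHi e 0 h2]
        have : clampI (((0 : I) : ℝ) / u (emb j φ e)) = 0 := hcl0 (by simp)
        rw [this, h0]
      · simp only [H, if_pos h2, if_neg hz]
    · intro t ht z
      rw [notMem_compl_iff]
      by_cases h2 : (t : ℝ) ≤ u z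
      · have hz : z ∈ range (emb j φ) := by
          by_contra hz
          rw [hu0 z hz] at h2
          exact absurd ht (not_lt.2 h2)
        simp only [H, if_pos h2, if_pos hz]
        exact mem_range_self _
      · simp only [H, if_neg h2]
        exact mem_range_self _
  · -- control
    have hne : Nonempty (carrier j φ) := ⟨emb j φ e0⟩
    refine control_of_filter _ hemb fun R l hR z hz hl => ?_
    obtain ⟨hπ, hlim⟩ := hlast z hz
    refine hlim _ _ (c3 R l (fun a => a.1) (fun a => a.2) _ hπ hR ?_)
    exact ((proj_continuous j φ).tendsto z).comp hl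
  · intro ζ hζ
    refine ⟨⟨(OnePoint.infty, ζ), Or.inr ⟨rfl, hζ⟩⟩, ?_, rfl⟩
    rw [mem_range_emb_iff]
    simp

end Pool.Agent.ZStr
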