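import Pool.Agent.ZStr.PolyCF

/-!
# Groups with cyclic or finite factors: kernels, finiteness, homomorphisms to `ℤ`
(module POLYCF2)
-/

namespace Pool.Agent.ZStr

/-- A nontrivial homomorphism from a cyclic group to `ℤ` is injective. -/
theorem injective_of_isCyclic {C : Type*} [Group C] [IsCyclic C]
    (ψ : C →* Multiplicative ℤ) (hψ : ψ ≠ 1) : Function.Injective ψ := by
  obtain ⟨g, hg⟩ := IsCyclic.exists_generator (α := C)
  have hg1 : ψ g ≠ 1 := by
    intro h
    apply hψ
    ext x
    obtain ⟨m, rfl⟩ := hg x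
    simp [map_zpow, h]
  rw [injective_iff_map_eq_one]
  intro x hx
  obtain ⟨m, rfl⟩ := hg x
  have h1 : (ψ g) ^ m = 1 := by rw [← map_zpow]; exact hx
  have h2 : m * Multiplicative.toAdd (ψ g) = 0 := by
    have := congrArg Multiplicative.toAdd h1
    simpa [toAdd_zpow] using this
  rcases mul_eq_zero.mp h2 with h3 | h3
  · simp [h3]
  · exact absurd (Multiplicative.toAdd.injective (by simpa using h3)) hg1

/-- A homomorphism from a finite group to `ℤ` is trivial. -/
theorem eq_one_of_finite {C : Type*} [Group C] [Finite C]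
    (ψ : C →* Multiplicative ℤ) : ψ = 1 := by
  ext x
  have h1 : (ψ x) ^ (Nat.card C) = 1 := by rw [← map_pow, pow_card_eq_one', map_one]
  have h2 : (Nat.card C : ℤ) * Multiplicative.toAdd (ψ x) = 0 := by
    have := congrArg Multiplicative.toAdd h1
    simpa [toAdd_pow] using this
  rcases mul_eq_zero.mp h2 with h3 | h3
  · exact absurd (by exact_mod_cast h3) (Nat.card_pos (α := C)).ne'
  · simpa using h3

/-- The kernel of a nontrivial homomorphism to `ℤ` has fewer infinite factors. -/
theorem IsPolyCF.ker {n : ℕ} {P : Type*} [Group P] (h : IsPolyCF (n + 1) P)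
    (χ : P →* Multiplicative ℤ) (hχ : χ ≠ 1) : IsPolyCF n χ.ker := by
  classical
  obtain ⟨k, H, s, h0, hk, hs, hstep⟩ := h
  -- the first index at which `χ` is nontrivial
  have hex : ∃ i, ¬ H i ≤ χ.ker := by
    refine ⟨k, fun hle => hχ ?_⟩
    ext x
    have : x ∈ χ.ker := hle (by rw [hk]; trivial)
    simpa using this
  have hnk : ¬ H k ≤ χ.ker := by
    intro hle
    apply hχ
    ext x
    have : x ∈ χ.ker := hle (by rw [hk]; trivial)
    simpa using this
  obtain ⟨i, hi1, hi2, hik⟩ : ∃ i, H i ≤ χ.ker ∧ ¬ H (i + 1) ≤ χ.ker ∧ i < k := by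
    have hmin : ∀ m, m < Nat.find hex → H m ≤ χ.ker := fun m hm => by
      by_contra hc
      exact Nat.find_min hex hm hc
    have hfind := Nat.find_spec hex
    have hjk : Nat.find hex ≤ k := Nat.find_min' hex hnk
    rcases Nat.eq_zero_or_eq_succ_pred (Nat.find hex) with h1 | h1
    · exfalso
      apply hfind
      rw [h1, h0]
      exact bot_le
    · refine ⟨(Nat.find hex).pred, hmin _ ?_, ?_, ?_⟩
      · omega
      · rw [← Nat.succ_eq_add_one, ← h1]; exact hfind
      · omega
  -- the factor at `i` is infinite cyclic and `χ` is injective on it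
  obtain ⟨hle, hN, hc, hfin⟩ := hstep i hik
  let ψ : (H (i + 1)) ⧸ (H i).subgroupOf (H (i + 1)) →* Multiplicative ℤ :=
    QuotientGroup.lift _ (χ.comp (H (i + 1)).subtype) (fun x hx => by
      have := hi1 (Subgroup.mem_subgroupOf.mp hx)
      simpa using this)
  have hψ : ψ ≠ 1 := by
    intro h1
    apply hi2
    intro x hx
    have h2 : ψ (QuotientGroup.mk (⟨x, hx⟩ : H (i + 1))) = 1 := by rw [h1]; rfl
    have h3 : ψ (QuotientGroup.mk (⟨x, hx⟩ : H (i + 1))) = χ x := rfl
    rw [h3] at h2
    exact h2
  have hnf : ¬ Finite ((H (i + 1)) ⧸ (H i).subgroupOf (H (i + 1))) := by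
    intro hf
    exact hψ (eq_one_of_finite ψ)
  have his : i ∈ s := by
    by_contra hc'
    exact hnf (hfin hc')
  have hcyc : IsCyclic ((H (i + 1)) ⧸ (H i).subgroupOf (H (i + 1))) := by
    rcases hc with hc | hc
    · exact hc
    · exact absurd hc hnf
  have hinj := injective_of_isCyclic ψ hψ
  have hkey : ∀ x ∈ H (i + 1), x ∈ χ.ker → x ∈ H i := by
    intro x hx hxk
    have h3 : ψ (QuotientGroup.mk (⟨x, hx⟩ : H (i + 1))) = χ x := rfl
    have h4 : (QuotientGroup.mk (⟨x, hx⟩ : H (i + 1)) :
        (H (i + 1)) ⧸ (H i).subgroupOf (H (i + 1))) = 1 := by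
      apply hinj
      rw [h3, map_one]
      exact hxk
    rw [QuotientGroup.eq_one_iff] at h4
    exact h4
  refine ⟨k, fun m => (H m).comap χ.ker.subtype, s.erase i, ?_, ?_, ?_, ?_⟩
  · ext x
    simp only [h0, Subgroup.mem_comap, Subgroup.mem_bot]
    exact map_eq_one_iff _ χ.ker.subtype_injective
  · simp [hk]
  · rw [Finset.card_erase_of_mem his]
    omega
  · intro m hm
    obtain ⟨hle', hN', hc', hfin'⟩ := hstep m hm
    refine ⟨Subgroup.comap_mono hle', ?_⟩
    obtain ⟨hN'', φ, hφ⟩ := exists_factor_injection χ.ker.subtype (H m) (H (m + 1))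
      ((H m).comap χ.ker.subtype) ((H (m + 1)).comap χ.ker.subtype)
      (fun x _ => Iff.rfl) (fun x hx => hx)
    refine ⟨hN'', ?_, fun hms => ?_⟩
    · rcases hc' with hc' | hc'
      · exact Or.inl (isCyclic_of_injective φ hφ)
      · exact Or.inr (Finite.of_injective φ hφ)
    · by_cases hmi : m = i
      · subst hmi
        have htop : ((H m).comap χ.ker.subtype).subgroupOf ((H (m + 1)).comap χ.ker.subtype) =
            ⊤ := by
          rw [Subgroup.subgroupOf_eq_top]
          intro x hx
          exact hkey x.1 hx x.2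
        show Finite (((H (m + 1)).comap χ.ker.subtype) ⧸
          ((H m).comap χ.ker.subtype).subgroupOf ((H (m + 1)).comap χ.ker.subtype))
        rw [htop]
        have : Subsingleton (((H (m + 1)).comap χ.ker.subtype) ⧸
            (⊤ : Subgroup ((H (m + 1)).comap χ.ker.subtype))) :=
          QuotientGroup.subsingleton_quotient_top
        infer_instance
      · have hms' : m ∉ s := fun hms' => hms (Finset.mem_erase.mpr ⟨hmi, hms'⟩)
        have := hfin' hms'
        exact Finite.of_injective φ hφ

/-- A group without infinite factors is finite. -/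
theorem IsPolyCF.finite {P : Type*} [Group P] (h : IsPolyCF 0 P) : Finite P := by
  obtain ⟨k, H, s, h0, hk, hs, hstep⟩ := h
  have hs' : s = ∅ := Finset.card_eq_zero.mp (Nat.le_zero.mp hs)
  have key : ∀ i ≤ k, Finite (H i) := by
    intro i
    induction i with
    | zero =>
      intro _
      rw [h0]
      infer_instance
    | succ i ih =>
      intro hi
      have h1 := ih (by omega)
      obtain ⟨hle, hN, hc, hfin⟩ := hstep i (by omega)
      have h2 := hfin (by simp [hs'])
      have h3 : Finite ((H i).subgroupOf (H (i + 1))) :=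
        Finite.of_equiv (H i) (Subgroup.subgroupOfEquivOfLe hle).symm.toEquiv
      exact Finite.of_equiv _ (Subgroup.groupEquivQuotientProdSubgroup
        (s := (H i).subgroupOf (H (i + 1)))).symm
  have h1 := key k le_rfl
  rw [hk] at h1
  exact Finite.of_equiv _ Subgroup.topEquiv.toEquiv

/-- An infinite group of the class has a finite index subgroup with a nontrivial homomorphism
to `ℤ`. -/
theorem IsPolyCF.exists_hom {n : ℕ} {P : Type*} [Group P] (h : IsPolyCF n P) [Infinite P] :
    ∃ (Q : Subgroup P) (χ : Q →* Multiplicative ℤ), Q.FiniteIndex ∧ χ ≠ 1 := by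
  obtain ⟨k, H, s, h0, hk, hs, hstep⟩ := h
  have key : ∀ i ≤ k, Infinite (H i) → ∃ (Q : Subgroup P) (χ : Q →* Multiplicative ℤ),
      Q ≤ H i ∧ Q.relIndex (H i) ≠ 0 ∧ χ ≠ 1 := by
    intro i
    induction i with
    | zero =>
      intro _ hinf
      rw [h0] at hinf
      exact absurd (inferInstance : Finite (⊥ : Subgroup P)) (not_finite_iff_infinite.mpr hinf)
    | succ i ih =>
      intro hi hinf
      obtain ⟨hle, hN, hc, hfin⟩ := hstep i (by omega)
      by_cases hf : Finite ((H (i + 1)) ⧸ (H i).subgroupOf (H (i + 1)))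
      · have hinf' : Infinite (H i) := by
          rw [← not_finite_iff_infinite]
          intro hfi
          have h3 : Finite ((H i).subgroupOf (H (i + 1))) :=
            Finite.of_equiv (H i) (Subgroup.subgroupOfEquivOfLe hle).symm.toEquiv
          have h4 : Finite (H (i + 1)) := Finite.of_equiv _
            (Subgroup.groupEquivQuotientProdSubgroup
              (s := (H i).subgroupOf (H (i + 1)))).symm
          exact not_finite_iff_infinite.mpr hinf h4
        obtain ⟨Q, χ, hQ, hQ2, hχ⟩ := ih (by omega) hinf'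
        refine ⟨Q, χ, hQ.trans hle, ?_, hχ⟩
        rw [← Subgroup.relIndex_mul_relIndex Q (H i) (H (i + 1)) hQ hle]
        refine mul_ne_zero hQ2 ?_
        exact Subgroup.index_ne_zero_of_finite
      · have hcyc : IsCyclic ((H (i + 1)) ⧸ (H i).subgroupOf (H (i + 1))) := by
          rcases hc with hc | hc
          · exact hc
          · exact absurd hc hf
        have hinfq : Infinite ((H (i + 1)) ⧸ (H i).subgroupOf (H (i + 1))) :=
          not_finite_iff_infinite.mp hf
        let e : Multiplicative ℤ ≃* ((H (i + 1)) ⧸ (H i).subgroupOf (H (i + 1))) :=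
          intCyclicMulEquiv
        refine ⟨H (i + 1), (e.symm.toMonoidHom).comp (QuotientGroup.mk' _), le_rfl, ?_, ?_⟩
        · rw [Subgroup.relIndex_self]
          exact one_ne_zero
        · intro h1
          obtain ⟨x, hx⟩ := QuotientGroup.mk'_surjective _ (e (Multiplicative.ofAdd 1))
          have h2 : e.symm (QuotientGroup.mk' _ x) = 1 := DFunLike.congr_fun h1 x
          rw [hx, MulEquiv.symm_apply_apply] at h2
          exact absurd (congrArg Multiplicative.toAdd h2) (by simp)
  have hinf : Infinite (H k) := by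
    rw [hk]
    exact Infinite.of_surjective _ Subgroup.topEquiv.toEquiv.surjective
  obtain ⟨Q, χ, _, hQ, hχ⟩ := key k le_rfl hinf
  refine ⟨Q, χ, ⟨?_⟩, hχ⟩
  rw [hk, Subgroup.relIndex_top_right] at hQ
  exact hQ

end Pool.Agent.ZStr
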