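import Mathlib

/-!
# Polycyclic and virtually polycyclic groups (definitions)
-/

namespace Pool.Agent.ZStr

/-- A group is *polycyclic* if it has a subnormal series from the trivial subgroup to the whole
group with cyclic factors. -/
def IsPolycyclic (P : Type*) [Group P] : Prop :=
  ∃ (n : ℕ) (H : ℕ → Subgroup P), H 0 = ⊥ ∧ H n = ⊤ ∧ ∀ i < n, H i ≤ H (i + 1) ∧
    ∃ _ : ((H i).subgroupOf (H (i + 1))).Normal,
      IsCyclic (H (i + 1) ⧸ (H i).subgroupOf (H (i + 1)))

/-- A group is *virtually polycyclic* if it has a polycyclic subgroup of finite index. -/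
def IsVirtuallyPolycyclic (N : Type*) [Group N] : Prop :=
  ∃ P : Subgroup N, P.FiniteIndex ∧ IsPolycyclic P

end Pool.Agent.ZStr
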