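import Pool.Agent.ZStr.PolyCF

/-!
# Virtual surjections onto `ℤ^m` (module VIRTSURJ)
-/

namespace Pool.Agent.ZStr

/-- `N` has a subgroup of finite index with a surjection onto `ℤ^m`. -/
def VirtSurj {G : Type*} [Group G] (N : Subgroup G) (m : ℕ) : Prop :=
  ∃ M : Subgroup G, M ≤ N ∧ M.relIndex N ≠ 0 ∧
    ∃ τ : M →* Multiplicative (Fin m → ℤ), Function.Surjective τ

/-- If the image of `σ : M → ℤ^r` contains a nonzero multiple of every basis vector, then a
subgroup of finite index of `M` surjects onto `ℤ^r`. -/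
theorem VirtSurj.of_multiples {G : Type*} [Group G] {N M : Subgroup G} (hMN : M ≤ N)
    (hidx : M.relIndex N ≠ 0) {r : ℕ} (σ : M →* Multiplicative (Fin r → ℤ)) (K : ℤ)
    (hK : K ≠ 0) (h : ∀ i : Fin r, ∃ x : M, Multiplicative.toAdd (σ x) = Pi.single i K) :
    VirtSurj N r := by
  classical
  -- all multiples of `K` are in the image
  have hall : ∀ z : Fin r → ℤ, ∃ x : M, Multiplicative.toAdd (σ x) = fun i => K * z i := by
    let S : AddSubgroup (Fin r → ℤ) :=
      { carrier := {z | ∃ x : M, Multiplicative.toAdd (σ x) = z}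
        zero_mem' := ⟨1, by simp⟩
        add_mem' := by
          rintro a b ⟨x, hx⟩ ⟨y, hy⟩
          exact ⟨x * y, by rw [map_mul, toAdd_mul, hx, hy]⟩
        neg_mem' := by
          rintro a ⟨x, hx⟩
          exact ⟨x⁻¹, by rw [map_inv, toAdd_inv, hx]⟩ }
    intro z
    have hz : (fun i => K * z i) = ∑ i, z i • (Pi.single i K : Fin r → ℤ) := by
      funext j
      rw [Finset.sum_apply]
      simp only [Pi.smul_apply, Pi.single_apply, smul_eq_mul, mul_ite, mul_zero]
      rw [Finset.sum_ite_eq Finset.univ j]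
      simp [mul_comm]
    have : (fun i => K * z i) ∈ S := by
      rw [hz]
      exact S.sum_mem (fun i _ => S.zsmul_mem (h i) (z i))
    exact this
  -- the subgroup of elements with image divisible by `K`
  have : NeZero K.natAbs := ⟨Int.natAbs_ne_zero.mpr hK⟩
  let q : (Fin r → ℤ) →+ (Fin r → ZMod K.natAbs) :=
    (Int.castAddHom (ZMod K.natAbs)).compLeft (Fin r)
  let ψ : M →* Multiplicative (Fin r → ZMod K.natAbs) := (AddMonoidHom.toMultiplicative q).comp σ
  have hker : ∀ x : M, x ∈ ψ.ker ↔ ∀ i, K ∣ Multiplicative.toAdd (σ x) i := by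
    intro x
    rw [MonoidHom.mem_ker]
    have h1 : ψ x = 1 ↔ q (Multiplicative.toAdd (σ x)) = 0 := Iff.rfl
    rw [h1, funext_iff]
    refine forall_congr' fun i => ?_
    have h2 : q (Multiplicative.toAdd (σ x)) i
        = ((Multiplicative.toAdd (σ x) i : ℤ) : ZMod K.natAbs) := rfl
    rw [h2, Pi.zero_apply, ZMod.intCast_zmod_eq_zero_iff_dvd, Int.natAbs_dvd]
  have : ψ.ker.FiniteIndex := Subgroup.finiteIndex_ker ψ
  let D : Subgroup M := ψ.ker
  let e : D ≃* D.map M.subtype := D.equivMapOfInjective M.subtype M.subtype_injective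
  let σ0 : D →* Multiplicative (Fin r → ℤ) :=
    { toFun := fun x => Multiplicative.ofAdd (fun i => Multiplicative.toAdd (σ (x : M)) i / K)
      map_one' := by
        rw [← ofAdd_zero]
        congr 1
        funext i
        simp
      map_mul' := by
        intro x y
        rw [← ofAdd_add]
        congr 1
        funext i
        have hx : K ∣ Multiplicative.toAdd (σ (x : M)) i := (hker x).1 x.2 i
        have h3 : Multiplicative.toAdd (σ ((x * y : D) : M)) i
            = Multiplicative.toAdd (σ (x : M)) i + Multiplicative.toAdd (σ (y : M)) i := by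
          rw [Subgroup.coe_mul, map_mul, toAdd_mul]; rfl
        rw [h3, Int.add_ediv_of_dvd_left hx]
        rfl }
  refine ⟨D.map M.subtype, ?_, ?_, σ0.comp e.symm.toMonoidHom, ?_⟩
  · exact (Subgroup.map_subtype_le D).trans hMN
  · refine Subgroup.relIndex_ne_zero_trans (K := M) ?_ hidx
    have h4 : (D.map M.subtype).subgroupOf M = D := by
      ext x
      simp [Subgroup.mem_subgroupOf]
    rw [Subgroup.relIndex, h4]
    exact Subgroup.FiniteIndex.index_ne_zero
  · intro z
    obtain ⟨x, hx⟩ := hall (Multiplicative.toAdd z)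
    have hxD : x ∈ D := (hker x).2 (fun i => by rw [hx]; exact Dvd.intro _ rfl)
    refine ⟨e ⟨x, hxD⟩, ?_⟩
    rw [MonoidHom.comp_apply]
    have h5 : e.symm.toMonoidHom (e ⟨x, hxD⟩) = ⟨x, hxD⟩ := e.symm_apply_apply _
    rw [h5]
    change Multiplicative.ofAdd (fun i => Multiplicative.toAdd (σ x) i / K) = z
    rw [hx]
    apply Multiplicative.toAdd.injective
    funext i
    exact Int.mul_ediv_cancel_left _ hK

/-- The maximality argument: if no subgroup of finite index of `N` surjects onto `ℤ^(m+1)` then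
the kernel of `σ₁ : C → ℤ^m` with image of finite index is contained in the kernel of any other
homomorphism `C → ℤ^m`. -/
theorem ker_le_of_not_virtSurj {G : Type*} [Group G] {N C : Subgroup G} (hCN : C ≤ N)
    (hidx : C.relIndex N ≠ 0) {m : ℕ} (hmax : ¬ VirtSurj N (m + 1))
    (σ₁ σ₂ : C →* Multiplicative (Fin m → ℤ)) (D : ℤ) (hD : D ≠ 0)
    (h : ∀ i : Fin m, ∃ x : C, Multiplicative.toAdd (σ₁ x) = Pi.single i D) (x : C)
    (hx : σ₁ x = 1) : σ₂ x = 1 := by
  classical
  by_contra hne
  apply hmax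
  obtain ⟨j, hj⟩ : ∃ j, Multiplicative.toAdd (σ₂ x) j ≠ 0 := by
    by_contra hcon
    push Not at hcon
    apply hne
    apply Multiplicative.toAdd.injective
    funext j
    exact hcon j
  set c : ℤ := Multiplicative.toAdd (σ₂ x) j with hc
  let σ : C →* Multiplicative (Fin (m + 1) → ℤ) :=
    { toFun := fun y => Multiplicative.ofAdd
        (Fin.cons (Multiplicative.toAdd (σ₂ y) j) (Multiplicative.toAdd (σ₁ y)) :
          Fin (m + 1) → ℤ)
      map_one' := by
        rw [← ofAdd_zero]
        congr 1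
        funext i
        refine Fin.cases ?_ (fun k => ?_) i <;> simp
      map_mul' := by
        intro y z
        rw [← ofAdd_add]
        congr 1
        funext i
        refine Fin.cases ?_ (fun k => ?_) i <;> simp }
  have hσ0 : ∀ y, Multiplicative.toAdd (σ y) 0 = Multiplicative.toAdd (σ₂ y) j := fun y => rfl
  have hσs : ∀ y k, Multiplicative.toAdd (σ y) (Fin.succ k) = Multiplicative.toAdd (σ₁ y) k :=
    fun y k => rfl
  refine VirtSurj.of_multiples hCN hidx σ (D * c) (mul_ne_zero hD hj) (fun i => ?_)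
  refine Fin.cases ?_ (fun k => ?_) i
  · refine ⟨x ^ D, ?_⟩
    funext l
    rw [map_zpow, toAdd_zpow]
    refine Fin.cases ?_ (fun k => ?_) l
    · rw [Pi.smul_apply, hσ0, Pi.single_eq_same, smul_eq_mul]
    · rw [Pi.smul_apply, hσs, hx, Pi.single_eq_of_ne (Fin.succ_ne_zero k)]
      simp
  · obtain ⟨y, hy⟩ := h k
    refine ⟨y ^ c * x ^ (-(Multiplicative.toAdd (σ₂ y) j)), ?_⟩
    funext l
    rw [map_mul, toAdd_mul, map_zpow σ, map_zpow σ, toAdd_zpow, toAdd_zpow, Pi.add_apply,
      Pi.smul_apply, Pi.smul_apply]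
    refine Fin.cases ?_ (fun k' => ?_) l
    · rw [hσ0, hσ0, ← hc, Pi.single_eq_of_ne (Fin.succ_ne_zero k).symm, smul_eq_mul, smul_eq_mul]
      ring
    · rw [hσs, hσs, hx, hy]
      by_cases hkk : k' = k
      · subst hkk
        simp [mul_comm]
      · rw [Pi.single_eq_of_ne hkk, Pi.single_eq_of_ne (fun h => hkk (Fin.succ_injective _ h))]
        simp

end Pool.Agent.ZStr
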