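import Pool.Agent.ZStr.RelLin
import Pool.Agent.ZStr.PolyDefs
import Pool.Agent.ZStr.VirtSurj
import Pool.Agent.ZStr.PolyCF2

/-!
# Commensurated virtually polycyclic subgroups: the algebraic induction (module COMMPOLY)
-/

namespace Pool.Agent.ZStr

/-- A virtually polycyclic group is in the class. -/
theorem IsVirtuallyPolycyclic.isPolyCF {P : Type*} [Group P] (h : IsVirtuallyPolycyclic P) :
    ∃ n, IsPolyCF n P := by
  classical
  obtain ⟨Q, hQ, n, H, h0, hn, hstep⟩ := h
  -- the normal core
  let C : Subgroup P := Q.normalCore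
  have hCQ : C ≤ Q := Q.normalCore_le
  have hCfin : C.FiniteIndex := inferInstance
  let K : ℕ → Subgroup P := fun i =>
    if i ≤ n then ((H i).map Q.subtype) ⊓ C else ⊤
  have hKle : ∀ i, i ≤ n → K i = ((H i).map Q.subtype) ⊓ C := fun i hi => if_pos hi
  have hKn : K n = C := by
    rw [hKle n le_rfl, hn, ← MonoidHom.range_eq_map, Subgroup.range_subtype]
    exact inf_eq_right.2 hCQ
  refine ⟨n, n + 1, K, Finset.range n, ?_, ?_, by simp, ?_⟩
  · rw [hKle 0 (Nat.zero_le _), h0]
    simp
  · exact if_neg (by omega)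
  · intro i hi
    rcases Nat.lt_succ_iff_lt_or_eq.1 hi with hi | hi
    · -- a factor of the polycyclic series
      obtain ⟨hle, hN, hc⟩ := hstep i hi
      have hKi : K i = ((H i).map Q.subtype) ⊓ C := hKle i hi.le
      have hKi1 : K (i + 1) = ((H (i + 1)).map Q.subtype) ⊓ C := hKle (i + 1) hi
      rw [hKi, hKi1]
      refine ⟨inf_le_inf_right _ (Subgroup.map_mono hle), ?_⟩
      have hmem : ∀ (L : Subgroup Q) (x : P) (hx : x ∈ C),
          x ∈ L.map Q.subtype ↔ (⟨x, hCQ hx⟩ : Q) ∈ L := by
        intro L x hx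
        constructor
        · rintro ⟨y, hy, hyx⟩
          have : (⟨x, hCQ hx⟩ : Q) = y := Subtype.ext hyx.symm
          rw [this]; exact hy
        · intro h
          exact ⟨_, h, rfl⟩
      let g : ((((H (i + 1)).map Q.subtype) ⊓ C : Subgroup P)) →* H (i + 1) :=
        { toFun := fun x => ⟨⟨x, hCQ x.2.2⟩, (hmem _ _ x.2.2).1 x.2.1⟩
          map_one' := rfl
          map_mul' := fun x y => rfl }
      obtain ⟨hN', φ, hφ⟩ := exists_factor_injection' (((H i).map Q.subtype) ⊓ C) (H i) g
        (fun x => by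
          rw [Subgroup.mem_inf]
          constructor
          · intro h
            exact (hmem _ _ h.2).1 h.1
          · intro h
            exact ⟨(hmem _ _ x.2.2).2 h, x.2.2⟩)
      exact ⟨hN', Or.inl (isCyclic_of_injective φ hφ), fun h => absurd (Finset.mem_range.2 hi) h⟩
    · subst hi
      have hKn1 : K (i + 1) = ⊤ := if_neg (by omega)
      rw [hKn, hKn1]
      refine ⟨le_top, ?_⟩
      have hCn : C.Normal := inferInstance
      have hN : (C.subgroupOf ⊤).Normal := inferInstance
      have hF : Finite ((⊤ : Subgroup P) ⧸ C.subgroupOf ⊤) := inferInstance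
      exact ⟨hN, Or.inr hF, fun _ => hF⟩

/-- Groups of the class with `n` infinite factors do not surject onto `ℤ^m` for `m > n`. -/
theorem IsPolyCF.le_of_surjective {n : ℕ} : ∀ {P : Type*} [Group P] (_ : IsPolyCF n P) {m : ℕ}
    (τ : P →* Multiplicative (Fin m → ℤ)) (_ : Function.Surjective τ), m ≤ n := by
  induction n with
  | zero =>
    intro P _ h m τ hτ
    have hP := h.finite
    by_contra hm
    have hm' : 0 < m := by omega
    have hfin : Finite (Multiplicative (Fin m → ℤ)) := Finite.of_surjective τ hτ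
    have : Infinite (Fin m → ℤ) := by
      have : Nonempty (Fin m) := ⟨⟨0, hm'⟩⟩
      infer_instance
    exact this.not_finite (inferInstanceAs (Finite (Multiplicative (Fin m → ℤ))))
  | succ n ih =>
    intro P _ h m τ hτ
    rcases m with _ | m
    · omega
    · let χ : P →* Multiplicative ℤ :=
        { toFun := fun x => Multiplicative.ofAdd (Multiplicative.toAdd (τ x) 0)
          map_one' := by simp
          map_mul' := by intro x y; simp }
      have hχ : χ ≠ 1 := by
        intro h1
        obtain ⟨x, hx⟩ := hτ (Multiplicative.ofAdd (fun _ => 1))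
        have h2 : χ x = 1 := by rw [h1]; rfl
        have h3 : χ x = Multiplicative.ofAdd 1 := by
          change Multiplicative.ofAdd (Multiplicative.toAdd (τ x) 0) = _
          rw [hx]; rfl
        rw [h2] at h3
        exact absurd (congrArg Multiplicative.toAdd h3) (by simp)
      let τ' : χ.ker →* Multiplicative (Fin m → ℤ) :=
        { toFun := fun x => Multiplicative.ofAdd
            (fun i => Multiplicative.toAdd (τ (x : P)) (Fin.succ i))
          map_one' := by
            rw [← ofAdd_zero]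
            congr 1
            funext i
            simp
          map_mul' := by
            intro x y
            rw [← ofAdd_add]
            congr 1
            funext i
            simp }
      have hτ' : Function.Surjective τ' := by
        intro z
        obtain ⟨x, hx⟩ := hτ (Multiplicative.ofAdd (Fin.cons 0 (Multiplicative.toAdd z)))
        have hxk : x ∈ χ.ker := by
          rw [MonoidHom.mem_ker]
          change Multiplicative.ofAdd (Multiplicative.toAdd (τ x) 0) = 1
          rw [hx]; rfl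
        refine ⟨⟨x, hxk⟩, ?_⟩
        apply Multiplicative.toAdd.injective
        funext i
        change Multiplicative.toAdd (τ x) (Fin.succ i) = _
        rw [hx]; rfl
      have := ih (h.ker χ hχ) τ' hτ'
      omega

theorem VirtSurj.le {G : Type*} [Group G] {N : Subgroup G} {n m : ℕ} (h : IsPolyCF n N)
    (hv : VirtSurj N m) : m ≤ n := by
  obtain ⟨M, hMN, _, τ, hτ⟩ := hv
  exact (h.of_injective (Subgroup.inclusion hMN) (Subgroup.inclusion_injective hMN)).le_of_surjective
    τ hτ

theorem virtSurj_one {G : Type*} [Group G] {N : Subgroup G} {n : ℕ} (h : IsPolyCF n N)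
    (hinf : Infinite N) : VirtSurj N 1 := by
  obtain ⟨Q, χ, hQ, hχ⟩ := h.exists_hom
  obtain ⟨x, hx⟩ : ∃ x, χ x ≠ 1 := by
    by_contra hcon
    push Not at hcon
    exact hχ (MonoidHom.ext hcon)
  let e : Q ≃* Q.map N.subtype := Q.equivMapOfInjective N.subtype N.subtype_injective
  let χ' : Q →* Multiplicative (Fin 1 → ℤ) :=
    { toFun := fun y => Multiplicative.ofAdd (fun _ => Multiplicative.toAdd (χ y))
      map_one' := by
        rw [← ofAdd_zero]
        congr 1
        funext i
        simp
      map_mul' := by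
        intro y z
        rw [← ofAdd_add]
        congr 1
        funext i
        simp }
  refine VirtSurj.of_multiples (M := Q.map N.subtype) (Subgroup.map_subtype_le Q) ?_
    (χ'.comp e.symm.toMonoidHom) (Multiplicative.toAdd (χ x))
    (fun h0 => hx (Multiplicative.toAdd.injective h0)) (fun i => ⟨e x, ?_⟩)
  · have h4 : (Q.map N.subtype).subgroupOf N = Q := by
      ext x
      simp [Subgroup.mem_subgroupOf]
    rw [Subgroup.relIndex, h4]
    exact Subgroup.FiniteIndex.index_ne_zero
  · have h5 : e.symm.toMonoidHom (e x) = x := e.symm_apply_apply _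
    rw [MonoidHom.comp_apply, h5]
    funext j
    have : j = i := Subsingleton.elim _ _
    subst this
    rw [Pi.single_eq_same]
    rfl

/-! ### the canonical quotient -/

theorem conjSub_commensurable {G : Type*} [Group G] (g : G) {A B : Subgroup G}
    (h : A.Commensurable B) : (conjSub g A).Commensurable (conjSub g B) := by
  have hinj : Function.Injective (MulAut.conj g).toMonoidHom := (MulAut.conj g).injective
  refine ⟨?_, ?_⟩
  · rw [conjSub, conjSub, Subgroup.relIndex_map_map_of_injective _ _ hinj]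
    exact h.1
  · rw [conjSub, conjSub, Subgroup.relIndex_map_map_of_injective _ _ hinj]
    exact h.2

theorem IsCommensurated.of_commensurable {G : Type*} [Group G] {A B : Subgroup G}
    (hA : IsCommensurated A) (h : A.Commensurable B) : IsCommensurated B := fun g =>
  ((conjSub_commensurable g h).symm.trans (hA g)).trans h

theorem mem_conjSub' {G : Type*} [Group G] (g : G) (A : Subgroup G) (x : G) :
    x ∈ conjSub g A ↔ g⁻¹ * x * g ∈ A := by
  constructor
  · rintro ⟨a, ha, rfl⟩
    have : g⁻¹ * (MulAut.conj g).toMonoidHom a * g = a := by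
      change g⁻¹ * (g * a * g⁻¹) * g = a
      group
    rw [this]; exact ha
  · intro h
    refine ⟨g⁻¹ * x * g, h, ?_⟩
    change g * (g⁻¹ * x * g) * g⁻¹ = x
    group

theorem mem_kerSub {G : Type*} [Group G] {N : Subgroup G} {m : ℕ}
    (τ : N →* Multiplicative (Fin m → ℤ)) (x : G) :
    x ∈ kerSub τ ↔ ∃ hx : x ∈ N, τ ⟨x, hx⟩ = 1 := by
  constructor
  · rintro ⟨y, hy, rfl⟩
    exact ⟨y.2, hy⟩
  · rintro ⟨hx, h⟩
    exact ⟨⟨x, hx⟩, h, rfl⟩

theorem kerSub_le {G : Type*} [Group G] {N : Subgroup G} {m : ℕ}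
    (τ : N →* Multiplicative (Fin m → ℤ)) : kerSub τ ≤ N := Subgroup.map_subtype_le _

/-- If `m` is maximal, kernels of surjections onto `ℤ^m` are commensurated. -/
theorem kerSub_isCommensurated {G : Type*} [Group G] {N M : Subgroup G} (hMN : M ≤ N)
    (hidx : M.relIndex N ≠ 0) (hN : IsCommensurated N) {m : ℕ} (hmax : ¬ VirtSurj N (m + 1))
    (τ : M →* Multiplicative (Fin m → ℤ)) (hτ : Function.Surjective τ) :
    IsCommensurated (kerSub τ) := by
  intro g
  have hMcomm : M.Commensurable N := ⟨hidx, by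
    rw [Subgroup.relIndex_eq_one.2 hMN]; exact one_ne_zero⟩
  have hM : (conjSub g M).Commensurable M := (hN.of_commensurable hMcomm.symm) g
  set C : Subgroup G := M ⊓ conjSub g M with hC
  have hCM : C ≤ M := inf_le_left
  have hCM' : C ≤ conjSub g M := inf_le_right
  have hi1 : C.relIndex M ≠ 0 := by
    rw [hC, Subgroup.inf_relIndex_left]; exact hM.1
  have hi2 : C.relIndex (conjSub g M) ≠ 0 := by
    rw [hC, Subgroup.inf_relIndex_right]; exact hM.2
  have hCN : C.relIndex N ≠ 0 := Subgroup.relIndex_ne_zero_trans hi1 hidx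
  let σ₁ : C →* Multiplicative (Fin m → ℤ) := τ.comp (Subgroup.inclusion hCM)
  let σ₂ : C →* Multiplicative (Fin m → ℤ) :=
    { toFun := fun x => τ ⟨g⁻¹ * x * g, (mem_conjSub' g M x).1 (hCM' x.2)⟩
      map_one' := by
        rw [← map_one τ]
        congr 1
        apply Subtype.ext
        simp
      map_mul' := by
        intro x y
        rw [← map_mul τ]
        congr 1
        apply Subtype.ext
        change g⁻¹ * ((x : G) * y) * g = (g⁻¹ * x * g) * (g⁻¹ * y * g)
        group }
  -- multiples of the basis vectors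
  have hmul : ∀ (L : Subgroup G) (hL : C.relIndex L ≠ 0) (a : G) (ha : a ∈ L),
      a ^ (C.relIndex L).factorial ∈ C := by
    intro L hL a ha
    exact (Subgroup.pow_mem_of_relIndex_ne_zero_of_dvd hL ha
      (fun k hk hk' => Nat.dvd_factorial hk hk')).1
  have h1 : ∀ i : Fin m, ∃ x : C, Multiplicative.toAdd (σ₁ x)
      = Pi.single i (((C.relIndex M).factorial : ℕ) : ℤ) := by
    intro i
    obtain ⟨y, hy⟩ := hτ (Multiplicative.ofAdd (Pi.single i 1))
    refine ⟨⟨(y : G) ^ (C.relIndex M).factorial, hmul M hi1 y y.2⟩, ?_⟩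
    have : Subgroup.inclusion hCM ⟨(y : G) ^ (C.relIndex M).factorial, hmul M hi1 y y.2⟩
        = y ^ (C.relIndex M).factorial := Subtype.ext rfl
    change Multiplicative.toAdd (τ (Subgroup.inclusion hCM _)) = _
    rw [this, map_pow, hy, toAdd_pow, toAdd_ofAdd]
    funext j
    rw [Pi.smul_apply]
    by_cases hij : j = i
    · subst hij; simp
    · simp [Pi.single_eq_of_ne hij]
  have h2 : ∀ i : Fin m, ∃ x : C, Multiplicative.toAdd (σ₂ x)
      = Pi.single i (((C.relIndex (conjSub g M)).factorial : ℕ) : ℤ) := by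
    intro i
    obtain ⟨y, hy⟩ := hτ (Multiplicative.ofAdd (Pi.single i 1))
    have hyc : g * (y : G) * g⁻¹ ∈ conjSub g M := by
      rw [mem_conjSub']
      have : g⁻¹ * (g * (y : G) * g⁻¹) * g = y := by group
      rw [this]; exact y.2
    refine ⟨⟨(g * (y : G) * g⁻¹) ^ (C.relIndex (conjSub g M)).factorial,
      hmul _ hi2 _ hyc⟩, ?_⟩
    change Multiplicative.toAdd (τ _) = _
    have : (⟨g⁻¹ * ((g * (y : G) * g⁻¹) ^ (C.relIndex (conjSub g M)).factorial) * g,
        (mem_conjSub' g M _).1 (hCM' (hmul _ hi2 _ hyc))⟩ : M)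
        = y ^ (C.relIndex (conjSub g M)).factorial := by
      apply Subtype.ext
      change g⁻¹ * ((g * (y : G) * g⁻¹) ^ (C.relIndex (conjSub g M)).factorial) * g = _
      rw [conj_pow]
      rw [Subgroup.coe_pow]
      group
    rw [this, map_pow, hy, toAdd_pow, toAdd_ofAdd]
    funext j
    rw [Pi.smul_apply]
    by_cases hij : j = i
    · subst hij; simp
    · simp [Pi.single_eq_of_ne hij]
  have hne1 : (((C.relIndex M).factorial : ℕ) : ℤ) ≠ 0 := by
    exact_mod_cast (Nat.factorial_pos _).ne'
  have hne2 : (((C.relIndex (conjSub g M)).factorial : ℕ) : ℤ) ≠ 0 := by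
    exact_mod_cast (Nat.factorial_pos _).ne'
  have k12 := ker_le_of_not_virtSurj (hCM.trans hMN) hCN hmax σ₁ σ₂ _ hne1 h1
  have k21 := ker_le_of_not_virtSurj (hCM.trans hMN) hCN hmax σ₂ σ₁ _ hne2 h2
  -- the two kernels have the same intersection with `C`
  have hEq : kerSub τ ⊓ C = conjSub g (kerSub τ) ⊓ C := by
    ext x
    constructor
    · rintro ⟨hx, hxC⟩
      obtain ⟨hxM, hx1⟩ := (mem_kerSub τ x).1 hx
      exact ⟨(mem_conjSub' g (kerSub τ) x).2 ((mem_kerSub τ _).2
        ⟨(mem_conjSub' g M x).1 (hCM' hxC), k12 ⟨x, hxC⟩ hx1⟩), hxC⟩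
    · rintro ⟨hx, hxC⟩
      obtain ⟨hxM, hx1⟩ := (mem_kerSub τ _).1 ((mem_conjSub' g (kerSub τ) x).1 hx)
      exact ⟨(mem_kerSub τ x).2 ⟨hCM hxC, k21 ⟨x, hxC⟩ hx1⟩, hxC⟩
  have hA1 : (kerSub τ ⊓ C).relIndex (kerSub τ) ≠ 0 := by
    rw [Subgroup.inf_relIndex_left]
    exact fun h0 => hi1 (Subgroup.relIndex_eq_zero_of_le_right (kerSub_le τ) h0)
  have hconj : conjSub g (kerSub τ) ≤ conjSub g M := Subgroup.map_mono (kerSub_le τ)
  have hA2 : (conjSub g (kerSub τ) ⊓ C).relIndex (conjSub g (kerSub τ)) ≠ 0 := by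
    rw [Subgroup.inf_relIndex_left]
    exact fun h0 => hi2 (Subgroup.relIndex_eq_zero_of_le_right hconj h0)
  refine ⟨?_, ?_⟩
  · exact fun h0 => hA1 (Subgroup.relIndex_eq_zero_of_le_left (hEq.le.trans inf_le_left) h0)
  · exact fun h0 => hA2 (Subgroup.relIndex_eq_zero_of_le_left (hEq.ge.trans inf_le_left) h0)

/-- CANONICAL QUOTIENT.  An infinite commensurated subgroup `N` in the class has a finite index
subgroup `N'` with a surjective homomorphism `τ : N' → ℤ^m`, `m ≥ 1`, whose kernel is
commensurated in `G`.  (Take `m` maximal.) -/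
theorem exists_commensurated_kernel {G : Type*} [Group G] (N : Subgroup G) {n : ℕ}
    (h : IsPolyCF n N) (hinf : Infinite N) (hN : IsCommensurated N) :
    ∃ (N' : Subgroup G) (m : ℕ) (τ : N' →* Multiplicative (Fin m → ℤ)),
      N'.Commensurable N ∧ IsPolyCF n N' ∧ 0 < m ∧ Function.Surjective τ ∧
      IsCommensurated (kerSub τ) := by
  classical
  have h1 : VirtSurj N 1 := virtSurj_one h hinf
  have hn1 : 1 ≤ n := VirtSurj.le h h1
  let m := Nat.findGreatest (VirtSurj N) n
  have hm : VirtSurj N m := Nat.findGreatest_spec hn1 h1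
  have hm1 : 1 ≤ m := Nat.le_findGreatest hn1 h1
  have hmax : ¬ VirtSurj N (m + 1) := by
    intro hv
    have := VirtSurj.le h hv
    exact Nat.findGreatest_is_greatest (Nat.lt_succ_self m) this hv
  obtain ⟨M, hMN, hidx, τ, hτ⟩ := hm
  refine ⟨M, m, τ, ⟨hidx, ?_⟩, h.of_injective (Subgroup.inclusion hMN)
    (Subgroup.inclusion_injective hMN), hm1, hτ, kerSub_isCommensurated hMN hidx hN hmax τ hτ⟩
  rw [Subgroup.relIndex_eq_one.2 hMN]; exact one_ne_zero

/-- The kernel has fewer infinite factors. -/
theorem IsPolyCF.of_kerSub {G : Type*} [Group G] {N : Subgroup G} {n m : ℕ}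
    (h : IsPolyCF (n + 1) N) (τ : N →* Multiplicative (Fin m → ℤ)) (hm : 0 < m)
    (hτ : Function.Surjective τ) : IsPolyCF n (kerSub τ) := by
  let i0 : Fin m := ⟨0, hm⟩
  let χ : N →* Multiplicative ℤ :=
    { toFun := fun x => Multiplicative.ofAdd (Multiplicative.toAdd (τ x) i0)
      map_one' := by simp
      map_mul' := by intro x y; simp }
  have hχ : χ ≠ 1 := by
    intro h1
    obtain ⟨x, hx⟩ := hτ (Multiplicative.ofAdd (fun _ => 1))
    have h2 : χ x = 1 := by rw [h1]; rfl
    have h3 : χ x = Multiplicative.ofAdd 1 := by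
      change Multiplicative.ofAdd (Multiplicative.toAdd (τ x) i0) = _
      rw [hx]; rfl
    rw [h2] at h3
    exact absurd (congrArg Multiplicative.toAdd h3) (by simp)
  have hker := h.ker χ hχ
  let f : kerSub τ →* χ.ker :=
    { toFun := fun x => ⟨⟨x, ((mem_kerSub τ x).1 x.2).1⟩, by
        rw [MonoidHom.mem_ker]
        change Multiplicative.ofAdd (Multiplicative.toAdd (τ _) i0) = 1
        rw [((mem_kerSub τ x).1 x.2).2]; rfl⟩
      map_one' := rfl
      map_mul' := fun x y => rfl }
  refine hker.of_injective f (fun x y hxy => ?_)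
  have := congrArg (fun z : χ.ker => ((z : N) : G)) hxy
  exact Subtype.ext this

/-- THE INDUCTION, for the class `IsPolyCF`. -/
theorem polyCF_induction {G : Type*} [Group G] (Pr : Subgroup G → Prop)
    (h1 : ∀ A B : Subgroup G, A.Commensurable B → Pr A → Pr B)
    (h2 : ∀ (N : Subgroup G) (m : ℕ) (τ : N →* Multiplicative (Fin m → ℤ)),
      Function.Surjective τ → IsCommensurated N → IsCommensurated (kerSub τ) → Pr N →
      Pr (kerSub τ))
    (n : ℕ) (N : Subgroup G) (hn : IsPolyCF n N) (hc : IsCommensurated N) (hP : Pr N) :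
    Pr ⊥ := by
  induction n generalizing N with
  | zero =>
    have := hn.finite
    refine h1 N ⊥ ⟨?_, ?_⟩ hP
    · rw [Subgroup.relIndex_bot_right]; exact one_ne_zero
    · rw [Subgroup.relIndex_bot_left]; exact Nat.card_pos.ne'
  | succ n ih =>
    rcases finite_or_infinite N with hf | hinf
    · refine h1 N ⊥ ⟨?_, ?_⟩ hP
      · rw [Subgroup.relIndex_bot_right]; exact one_ne_zero
      · rw [Subgroup.relIndex_bot_left]; exact Nat.card_pos.ne'
    · obtain ⟨N', m, τ, hcomm, hcf, hm, hτ, hker⟩ := exists_commensurated_kernel N hn hinf hc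
      have hP' : Pr N' := h1 N N' hcomm.symm hP
      have hc' : IsCommensurated N' := hc.of_commensurable hcomm.symm
      exact ih (kerSub τ) (hcf.of_kerSub τ hm hτ) hker (h2 N' m τ hτ hc' hker hP')

/-- THE INDUCTION. -/
theorem comm_poly_induction {G : Type*} [Group G] (Pr : Subgroup G → Prop)
    (h1 : ∀ A B : Subgroup G, A.Commensurable B → Pr A → Pr B)
    (h2 : ∀ (N : Subgroup G) (m : ℕ) (τ : N →* Multiplicative (Fin m → ℤ)),
      Function.Surjective τ → IsCommensurated N → IsCommensurated (kerSub τ) → Pr N →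
      Pr (kerSub τ))
    (N : Subgroup G) (hN : IsVirtuallyPolycyclic N) (hc : IsCommensurated N) (hP : Pr N) :
    Pr ⊥ := by
  obtain ⟨n, hn⟩ := hN.isPolyCF
  exact polyCF_induction Pr h1 h2 n N hn hc hP

end Pool.Agent.ZStr
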