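import Pool.Agent.ZStr.Defs

/-!
# Conjugations extending to the boundary (definition used in Theorem III)
-/

namespace Pool.Agent.ZStr

open Set Topology Filter
open scoped unitInterval Pointwise

/-- Conjugation by elements of `G`, as far as it is defined on `N`, extends to the boundary of
the compactification `iX : X → Xb` of the `N`-space `X`: for every `g` there is a map `α` of the
boundary such that `m • x0 → x` implies `(g m g⁻¹) • x0 → α x` (for `m`, `g m g⁻¹` in `N`). -/
def ConjugationExtends {G : Type*} [Group G] (N : Subgroup G) {X Xb : Type} [MetricSpace X]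
    [MulAction N X] [TopologicalSpace Xb] (iX : X → Xb) (x0 : X) : Prop :=
  ∀ g : G, ∃ α : Xb → Xb, (∀ x, x ∉ range iX → α x ∉ range iX) ∧
    ∀ {β : Type} (l : Filter β) (m m' : β → N) (x : Xb), x ∉ range iX →
      (∀ᶠ b in l, ((m' b : N) : G) = g * (m b : G) * g⁻¹) →
      Tendsto (fun b => iX (m b • x0)) l (𝓝 x) → Tendsto (fun b => iX (m' b • x0)) l (𝓝 (α x))

end Pool.Agent.ZStr
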