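import Pool.Agent.ZStr.Defs

/-!
# Contractions and nets (module CONTR)
-/

namespace Pool.Agent.ZStr

open Set Topology Filter
open scoped unitInterval

/-- A contractible space contracts to any of its points. -/
theorem exists_contraction (E : Type*) [TopologicalSpace E] [ContractibleSpace E] (e0 : E) :
    ∃ K : E × I → E, Continuous K ∧ (∀ e, K (e, 0) = e) ∧ (∀ e, K (e, 1) = e0) := by
  obtain ⟨y, ⟨F⟩⟩ := id_nullhomotopic E
  obtain ⟨p⟩ : Nonempty (Path y e0) := (PathConnectedSpace.joined y e0)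
  let G : (ContinuousMap.const E y).Homotopy (ContinuousMap.const E e0) :=
    p.toHomotopyConst
  let H := F.trans G
  refine ⟨fun x => H (x.2, x.1), ?_, ?_, ?_⟩
  · exact H.continuous.comp (by fun_prop)
  · intro e
    simp [H]
  · intro e
    simp [H]

/-- A continuous function on `E × [0,1]`, `E` proper, is bounded by a function of `|e|`. -/
theorem bound_of_continuous {E : Type*} [MetricSpace E] [ProperSpace E] (e0 : E)
    (f : E × I → ℝ) (hf : Continuous f) :
    ∃ R : ℝ → ℝ, Monotone R ∧ (∀ t, 0 ≤ R t) ∧ ∀ e s, f (e, s) ≤ R (dist e e0) := by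
  have hb : ∀ t : ℝ, BddAbove (insert 0 (f '' (Metric.closedBall e0 t ×ˢ (univ : Set I)))) := by
    intro t
    refine BddAbove.insert _ ?_
    exact (((isCompact_closedBall e0 t).prod isCompact_univ).image hf).bddAbove
  refine ⟨fun t => sSup (insert 0 (f '' (Metric.closedBall e0 t ×ˢ (univ : Set I)))), ?_, ?_, ?_⟩
  · intro a b hab
    refine csSup_le_csSup (hb b) ⟨0, mem_insert _ _⟩ ?_
    exact insert_subset_insert (image_mono (prod_mono (Metric.closedBall_subset_closedBall hab)
      le_rfl))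
  · intro t
    exact le_csSup (hb t) (mem_insert _ _)
  · intro e s
    refine le_csSup (hb _) (mem_insert_of_mem _ ⟨(e, s), ⟨?_, mem_univ _⟩, rfl⟩)
    exact Metric.mem_closedBall.2 le_rfl

/-- From a Z-set homotopy and a contraction of `X` one gets a homotopy of the compactification
contracting it to a point of `X`, instantly into `X`. -/
theorem exists_Zcontraction {X Xb : Type*} [TopologicalSpace X] [TopologicalSpace Xb]
    [ContractibleSpace X] (i : X → Xb) (hi : IsOpenEmbedding i) (hz : IsZSet (range i)ᶜ)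
    (x0 : X) :
    ∃ K : Xb × I → Xb, Continuous K ∧ (∀ x, K (x, 0) = x) ∧ (∀ x, K (x, 1) = i x0) ∧
      ∀ x (t : I), 0 < t → K (x, t) ∈ range i := by
  obtain ⟨-, H, hHc, hH0, hH1⟩ := hz
  obtain ⟨C, hCc, hC0, hC1⟩ := exists_contraction X x0
  have hmem : ∀ x (t : I), 0 < t → H (x, t) ∈ range i := fun x t ht => by
    have := hH1 t ht x
    rwa [notMem_compl_iff] at this
  let e := hi.isEmbedding.toHomeomorph
  let g : Xb → X := fun x => e.symm ⟨H (x, 1), hmem x 1 one_pos⟩
  have hgc : Continuous g := by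
    refine e.symm.continuous.comp ?_
    exact Continuous.subtype_mk (hHc.comp (by fun_prop)) _
  have hig : ∀ x, i (g x) = H (x, 1) := by
    intro x
    have h := e.apply_symm_apply ⟨H (x, 1), hmem x 1 one_pos⟩
    have h2 := congrArg Subtype.val h
    exact h2
  let F : (ContinuousMap.id Xb).Homotopy ⟨fun x => H (x, 1), hHc.comp (by fun_prop)⟩ :=
    { toFun := fun x => H (x.2, x.1)
      continuous_toFun := hHc.comp (by fun_prop)
      map_zero_left := fun x => hH0 x
      map_one_left := fun x => rfl }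
  let G : (⟨fun x => H (x, 1), hHc.comp (by fun_prop)⟩ : C(Xb, Xb)).Homotopy
      (ContinuousMap.const Xb (i x0)) :=
    { toFun := fun x => i (C (g x.2, x.1))
      continuous_toFun := hi.continuous.comp (hCc.comp (by fun_prop))
      map_zero_left := fun x => by
        change i (C (g x, 0)) = H (x, 1)
        rw [hC0, hig]
      map_one_left := fun x => by
        change i (C (g x, 1)) = i x0
        rw [hC1] }
  refine ⟨fun x => (F.trans G) (x.2, x.1), (F.trans G).continuous.comp (by fun_prop), ?_, ?_, ?_⟩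
  · intro x; simp
  · intro x; simp
  · intro x t ht
    change (F.trans G) (t, x) ∈ range i
    rw [ContinuousMap.Homotopy.trans_apply]
    split_ifs with h
    · refine hmem x _ ?_
      rw [← Subtype.coe_lt_coe]
      change (0 : ℝ) < 2 * (t : ℝ)
      have : (0 : ℝ) < t := ht
      linarith
    · exact mem_range_self _

/-- A compactification with a Z-set boundary of a second countable metrizable space is
metrizable. -/
theorem metrizable_of_zset {X Xb : Type*} [TopologicalSpace X] [TopologicalSpace Xb]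
    [SecondCountableTopology X] [T3Space X] [CompactSpace Xb] [T2Space Xb] (i : X → Xb)
    (hi : IsOpenEmbedding i) (hz : IsZSet (range i)ᶜ) :
    TopologicalSpace.MetrizableSpace Xb := by
  obtain ⟨-, H, hHc, hH0, hH1⟩ := hz
  have hmem : ∀ x (t : I), 0 < t → H (x, t) ∈ range i := fun x t ht => by
    have := hH1 t ht x
    rwa [notMem_compl_iff] at this
  let e := hi.isEmbedding.toHomeomorph
  let s : ℕ → I := fun n => ⟨1 / ((n : ℝ) + 1), by positivity, by
    rw [div_le_one (by positivity)]; linarith [(Nat.cast_nonneg n : (0 : ℝ) ≤ n)]⟩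
  have hs : ∀ n, 0 < s n := fun n => by
    rw [← Subtype.coe_lt_coe]
    change (0 : ℝ) < 1 / ((n : ℝ) + 1)
    positivity
  have hslim : Tendsto s atTop (𝓝 0) := by
    rw [tendsto_subtype_rng]
    exact tendsto_one_div_add_atTop_nhds_zero_nat
  let Φ : Xb → (ℕ → X) := fun x n => e.symm ⟨H (x, s n), hmem x _ (hs n)⟩
  have hΦc : Continuous Φ := by
    refine continuous_pi fun n => ?_
    refine e.symm.continuous.comp ?_
    exact Continuous.subtype_mk (hHc.comp (by fun_prop)) _
  have hiΦ : ∀ x n, i (Φ x n) = H (x, s n) := by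
    intro x n
    have h := e.apply_symm_apply ⟨H (x, s n), hmem x _ (hs n)⟩
    exact congrArg Subtype.val h
  have hinj : Function.Injective Φ := by
    intro x y hxy
    have h1 : ∀ z : Xb, Tendsto (fun n => H (z, s n)) atTop (𝓝 z) := by
      intro z
      have h : Tendsto (fun n => H (z, s n)) atTop (𝓝 (H (z, 0))) :=
        (hHc.tendsto (z, 0)).comp (tendsto_const_nhds.prodMk_nhds hslim)
      rwa [hH0] at h
    have h2 : (fun n => H (x, s n)) = fun n => H (y, s n) := by
      funext n
      rw [← hiΦ, ← hiΦ, hxy]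
    have h3 := h1 x
    rw [h2] at h3
    exact tendsto_nhds_unique h3 (h1 y)
  have hX : TopologicalSpace.MetrizableSpace X :=
    TopologicalSpace.metrizableSpace_of_t3_secondCountable X
  exact (hΦc.isClosedEmbedding hinj).isEmbedding.metrizableSpace

/-- Pairs of points have extended diameter their distance. -/
theorem ediam_pair_lt {X : Type*} [MetricSpace X] {x x' : X} {R : ℝ} (h : dist x x' ≤ R) :
    Metric.ediam ({x, x'} : Set X) < ENNReal.ofReal (|R| + 1) := by
  rw [Metric.ediam_pair, edist_dist]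
  refine (ENNReal.ofReal_lt_ofReal_iff (by positivity)).2 ?_
  have := le_abs_self R
  linarith

/-- The control condition in terms of filters: points at bounded distance have the same
limits at infinity. -/
theorem control_filter {X Xb : Type} [MetricSpace X] [ProperSpace X] [TopologicalSpace Xb]
    [CompactSpace Xb] [T2Space Xb] (i : X → Xb) (hi : IsOpenEmbedding i)
    (hc : ControlCondition X Xb i) (R : ℝ) {α : Type*} (l : Filter α) (u u' : α → X)
    (hR : ∀ᶠ a in l, dist (u a) (u' a) ≤ R) (x : Xb) (hx : x ∉ range i)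
    (hu : Tendsto (fun a => i (u a)) l (𝓝 x)) : Tendsto (fun a => i (u' a)) l (𝓝 x) := by
  rw [(nhds_basis_opens x).tendsto_right_iff]
  rintro V ⟨hxV, hVo⟩
  obtain ⟨F, hFx, hFc, hFV⟩ := exists_mem_nhds_isClosed_subset (hVo.mem_nhds hxV)
  obtain ⟨C, hC, hCA⟩ := hc (|R| + 1) (by positivity) {V, Fᶜ}
    (by
      intro U hU
      rcases hU with rfl | hU
      · exact hVo
      · rw [mem_singleton_iff.1 hU]; exact hFc.isOpen_compl)
    (by
      rw [sUnion_pair]
      refine eq_univ_of_forall fun y => ?_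
      by_cases hy : y ∈ F
      · exact Or.inl (hFV hy)
      · exact Or.inr hy)
  have hC' : IsCompact (Metric.cthickening |R| C) := hC.cthickening
  have hev : ∀ᶠ a in l, i (u a) ∉ i '' (Metric.cthickening |R| C) := by
    have h0 : (i '' (Metric.cthickening |R| C))ᶜ ∈ 𝓝 x := by
      refine (hC'.image hi.continuous).isClosed.isOpen_compl.mem_nhds ?_
      rintro ⟨c, -, rfl⟩
      exact hx (mem_range_self _)
    exact hu h0
  filter_upwards [hev, hR, hu.eventually hFx] with a h1 h2 h3
  have h4 : u a ∉ C := fun h => h1 (mem_image_of_mem _ (Metric.self_subset_cthickening _ h))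
  have h5 : u' a ∉ C := fun h => by
    refine h1 (mem_image_of_mem _ ?_)
    refine Metric.mem_cthickening_of_dist_le (u a) (u' a) _ C h (h2.trans (le_abs_self R))
  have h6 : ({u a, u' a} : Set X) ⊆ Cᶜ := by
    rintro y (rfl | hy)
    · exact h4
    · rw [mem_singleton_iff.1 hy]; exact h5
  obtain ⟨U, hU, hUs⟩ := hCA _ h6 (ediam_pair_lt h2)
  rcases hU with rfl | hU
  · exact hUs (mem_image_of_mem _ (Or.inr rfl))
  · rw [mem_singleton_iff.1 hU] at hUs
    exact absurd h3 (hUs (mem_image_of_mem _ (Or.inl rfl)))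

/-- The control condition in quantitative form, for a metric on the compactification. -/
theorem control_metric {X Xb : Type} [MetricSpace X] [ProperSpace X] [MetricSpace Xb]
    [CompactSpace Xb] (i : X → Xb) (hi : IsOpenEmbedding i)
    (hc : ControlCondition X Xb i) (x0 : X) (R ε : ℝ) (hε : 0 < ε) :
    ∃ D : ℝ, ∀ x x' : X, D ≤ dist x x0 → dist x x' ≤ R → dist (i x) (i x') < ε := by
  obtain ⟨C, hC, hCA⟩ := hc (|R| + 1) (by positivity)
    (range fun y : Xb => Metric.ball y (ε / 2))
    (by rintro U ⟨y, rfl⟩; exact Metric.isOpen_ball)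
    (eq_univ_of_forall fun y => ⟨_, ⟨y, rfl⟩, Metric.mem_ball_self (by positivity)⟩)
  obtain ⟨r, hr⟩ := hC.isBounded.subset_closedBall x0
  refine ⟨r + |R| + 1, fun x x' h1 h2 => ?_⟩
  have h0 := abs_nonneg R
  have h3 := le_abs_self R
  have h4 : x ∉ C := fun h => by
    have := Metric.mem_closedBall.1 (hr h)
    linarith
  have h5 : x' ∉ C := fun h => by
    have h6 := Metric.mem_closedBall.1 (hr h)
    have h7 := dist_triangle x x' x0
    linarith
  have h6 : ({x, x'} : Set X) ⊆ Cᶜ := by
    rintro y (rfl | hy)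
    · exact h4
    · rw [mem_singleton_iff.1 hy]; exact h5
  obtain ⟨U, ⟨y, rfl⟩, hUs⟩ := hCA _ h6 (ediam_pair_lt h2)
  have h7 : dist (i x) y < ε / 2 := hUs (mem_image_of_mem _ (Or.inl rfl))
  have h8 : dist (i x') y < ε / 2 := hUs (mem_image_of_mem _ (Or.inr rfl))
  have h9 := dist_triangle_right (i x) (i x') y
  linarith

/-- The converse of `control_filter`: the control condition from convergence of ultrafilters
(or filters). -/
theorem control_of_filter {X Xb : Type} [MetricSpace X] [ProperSpace X] [TopologicalSpace Xb]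
    [CompactSpace Xb] [T2Space Xb] [Nonempty Xb] (i : X → Xb) (hi : IsOpenEmbedding i)
    (h : ∀ (R : ℝ) (l : Filter (X × X)), (∀ᶠ a in l, dist a.1 a.2 ≤ R) →
      ∀ z : Xb, z ∉ range i → Tendsto (fun a => i a.1) l (𝓝 z) →
        Tendsto (fun a => i a.2) l (𝓝 z)) :
    ControlCondition X Xb i := by
  intro R hR 𝒰 hUo hUc
  by_contra hcon
  push Not at hcon
  obtain ⟨y0⟩ := (inferInstance : Nonempty Xb)
  obtain ⟨U0, hU0, hy0⟩ : ∃ U ∈ 𝒰, y0 ∈ U := by
    have : y0 ∈ ⋃₀ 𝒰 := by rw [hUc]; trivial
    exact this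
  -- the index point
  have hXne : Nonempty X := by
    obtain ⟨A, -, -, hA⟩ := hcon ∅ isCompact_empty
    have := hA U0 hU0
    rw [not_subset] at this
    obtain ⟨_, ⟨a, -, rfl⟩, -⟩ := this
    exact ⟨a⟩
  obtain ⟨x0⟩ := hXne
  have hstep : ∀ n : ℕ, ∃ A : Set X, A ⊆ (Metric.closedBall x0 n)ᶜ ∧
      Metric.ediam A < ENNReal.ofReal R ∧ ∀ U ∈ 𝒰, ¬ i '' A ⊆ U := fun n => by
    obtain ⟨A, h1, h2, h3⟩ := hcon _ (isCompact_closedBall x0 n)
    exact ⟨A, h1, h2, h3⟩
  choose A hA1 hA2 hA3 using hstep
  have hAne : ∀ n, (A n).Nonempty := by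
    intro n
    by_contra hne
    rw [not_nonempty_iff_eq_empty] at hne
    refine hA3 n U0 hU0 ?_
    rw [hne, image_empty]
    exact empty_subset _
  choose a ha using hAne
  -- an ultrafilter on the naturals
  let φ : Ultrafilter ℕ := hyperfilter ℕ
  have hφ : (φ : Filter ℕ) ≤ atTop := by
    exact Nat.hyperfilter_le_atTop
  obtain ⟨z, -, hz⟩ := (isCompact_univ (X := Xb)).ultrafilter_le_nhds (φ.map fun n => i (a n))
    (by simp)
  have hza : Tendsto (fun n => i (a n)) φ (𝓝 z) := hz
  have hzr : z ∉ range i := by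
    rintro ⟨y, rfl⟩
    have h1 : Tendsto a φ (𝓝 y) := (hi.isEmbedding.tendsto_nhds_iff).2 hza
    have h2 : ∀ᶠ n in (φ : Filter ℕ), dist (a n) y < 1 := (Metric.tendsto_nhds.1 h1) 1 one_pos
    have h3 : ∀ᶠ n : ℕ in (φ : Filter ℕ), dist x0 y + 1 < n :=
      hφ (eventually_gt_atTop (⌈dist x0 y + 1⌉₊) |>.mono fun n hn => by
        have := Nat.le_ceil (dist x0 y + 1)
        have h4 : ((⌈dist x0 y + 1⌉₊ : ℕ) : ℝ) < n := by exact_mod_cast hn
        linarith)
    obtain ⟨n, hn1, hn2⟩ := (h2.and h3).exists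
    have h5 := hA1 n (ha n)
    rw [mem_compl_iff, Metric.mem_closedBall, not_le] at h5
    have h6 := dist_triangle (a n) y x0
    rw [dist_comm y x0] at h6
    linarith
  obtain ⟨U, hU, hzU⟩ : ∃ U ∈ 𝒰, z ∈ U := by
    have : z ∈ ⋃₀ 𝒰 := by rw [hUc]; trivial
    exact this
  have hb : ∀ n, ∃ b ∈ A n, i b ∉ U := by
    intro n
    have := hA3 n U hU
    rw [not_subset] at this
    obtain ⟨_, ⟨b, hb, rfl⟩, hbU⟩ := this
    exact ⟨b, hb, hbU⟩
  choose b hb hbU using hb
  have hdist : ∀ n, dist (a n) (b n) ≤ R := by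
    intro n
    have h1 : edist (a n) (b n) ≤ Metric.ediam (A n) := Metric.edist_le_ediam_of_mem (ha n) (hb n)
    have h2 := h1.trans_lt (hA2 n)
    rw [edist_dist] at h2
    exact ((ENNReal.ofReal_lt_ofReal_iff hR).1 h2).le
  have h1 : Tendsto (fun p : X × X => i p.1) (Filter.map (fun n => (a n, b n)) φ) (𝓝 z) := by
    rw [tendsto_map'_iff]
    exact hza
  have h2 := h R (Filter.map (fun n => (a n, b n)) φ)
    (by rw [eventually_map]; exact Eventually.of_forall hdist) z hzr h1
  rw [tendsto_map'_iff] at h2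
  have h3 : ∀ᶠ n in (φ : Filter ℕ), i (b n) ∈ U := h2.eventually ((hUo U hU).mem_nhds hzU)
  obtain ⟨n, hn⟩ := h3.exists
  exact hbU n hn

end Pool.Agent.ZStr
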