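import Pool.Agent.ZStr.Setup

/-!
# Cut-off functions for the three nets (module CUTOFF)
-/

namespace Pool.Agent.ZStr

open Set Topology Filter
open scoped unitInterval

/-- Local finiteness of an orbit. -/
theorem orbit_finite {H P : Type*} [Group H] [MetricSpace P] [MulAction H P]
    (e0 : P) (hfin : ∀ r : ℝ, {g : H | dist (g • e0) e0 ≤ r}.Finite)
    (p : P) (s : ℝ) : {g : H | dist p (g • e0) ≤ s}.Finite := by
  refine (hfin (s + dist p e0)).subset fun g hg => ?_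
  have h1 : dist p (g • e0) ≤ s := hg
  have h2 : dist (g • e0) e0 ≤ dist (g • e0) p + dist p e0 := dist_triangle _ _ _
  rw [dist_comm (g • e0) p] at h2
  change dist (g • e0) e0 ≤ s + dist p e0
  linarith

/-- Bounded multiplicity of an orbit of a group of isometries. -/
theorem orbit_mult {H P : Type*} [Group H] [MetricSpace P] [MulAction H P]
    [IsIsometricSMul H P] (e0 : P) (hfin : ∀ r : ℝ, {g : H | dist (g • e0) e0 ≤ r}.Finite)
    (r : ℝ) : ∃ n : ℕ, ∀ p : P, {g : H | dist p (g • e0) < 2 * r}.encard ≤ n := by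
  refine ⟨(hfin (4 * r)).toFinset.card, fun p => ?_⟩
  rcases {g : H | dist p (g • e0) < 2 * r}.eq_empty_or_nonempty with h | ⟨g1, hg1⟩
  · rw [h, encard_empty]
    exact bot_le
  · have hsub : {g : H | dist p (g • e0) < 2 * r} ⊆
        (fun h => g1 * h) '' ((hfin (4 * r)).toFinset : Set H) := by
      intro g hg
      refine ⟨g1⁻¹ * g, ?_, by simp⟩
      have h1 : dist p (g1 • e0) < 2 * r := hg1
      have h2 : dist p (g • e0) < 2 * r := hg
      have h3 : dist ((g1⁻¹ * g) • e0) e0 = dist (g • e0) (g1 • e0) := by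
        rw [← dist_smul g1 ((g1⁻¹ * g) • e0) e0, smul_smul, mul_inv_cancel_left]
      have h4 : dist (g • e0) (g1 • e0) ≤ dist (g • e0) p + dist p (g1 • e0) :=
        dist_triangle _ _ _
      rw [dist_comm (g • e0) p] at h4
      simp only [Finite.coe_toFinset]
      change dist ((g1⁻¹ * g) • e0) e0 ≤ 4 * r
      rw [h3]
      linarith
    calc {g : H | dist p (g • e0) < 2 * r}.encard
        ≤ ((fun h => g1 * h) '' ((hfin (4 * r)).toFinset : Set H)).encard :=
          encard_le_encard hsub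
      _ ≤ ((hfin (4 * r)).toFinset : Set H).encard := encard_image_le _ _
      _ = _ := encard_coe_eq_coe_finsetCard _

namespace Setup

variable {G : Type*} [Group G] {N : Subgroup G} {E X Y : Type}
    [MetricSpace E] [MetricSpace X] [MetricSpace Y]
    [MulAction G E] [MulAction N X] [MulAction G Y] (S : Setup G N E X Y)

/-- Cut-offs on `E` for the net `g e0`. -/
theorem cutoffE (r0 : ℝ) : ∃ (r : ℝ) (n : ℕ) (τ : G → E → ℝ), r0 ≤ r ∧ 0 < r ∧
    (∀ i, Continuous (τ i)) ∧ (∀ i p, 0 ≤ τ i p ∧ τ i p ≤ 1) ∧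
      LocallyFinite (fun i => {p | 0 < τ i p}) ∧ (∀ p, {i | 0 < τ i p}.encard ≤ n) ∧
      (∀ p, ∃ i, τ i p = 1) ∧ (∀ g p, 0 < τ g p ↔ dist p (g • S.e0) < 2 * r) := by
  have := S.isoE
  obtain ⟨r1, hr1⟩ := S.netE
  have hr : 0 < max (max r0 r1) 1 := lt_of_lt_of_le one_pos (le_max_right _ _)
  obtain ⟨n, hn⟩ := orbit_mult (H := G) S.e0 S.finE (max (max r0 r1) 1)
  obtain ⟨τ, h1, h2, h3, h4, h5, h6⟩ := netCutoff (fun g : G => g • S.e0)
    (max (max r0 r1) 1) hr
    (fun p => by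
      obtain ⟨g, hg⟩ := hr1 p
      exact ⟨g, hg.trans ((le_max_right r0 r1).trans (le_max_left _ _))⟩)
    n hn (fun p s => orbit_finite S.e0 S.finE p s)
  exact ⟨_, n, τ, (le_max_left r0 r1).trans (le_max_left _ _), hr, h1, h2, h3, h4, h5, h6⟩

/-- Cut-offs on `X` for the net `n x0`. -/
theorem cutoffX (r0 : ℝ) : ∃ (r : ℝ) (n : ℕ) (τ : N → X → ℝ), r0 ≤ r ∧ 0 < r ∧
    (∀ i, Continuous (τ i)) ∧ (∀ i p, 0 ≤ τ i p ∧ τ i p ≤ 1) ∧
      LocallyFinite (fun i => {p | 0 < τ i p}) ∧ (∀ p, {i | 0 < τ i p}.encard ≤ n) ∧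
      (∀ p, ∃ i, τ i p = 1) ∧ (∀ g p, 0 < τ g p ↔ dist p (g • S.x0) < 2 * r) := by
  have := S.isoX
  obtain ⟨r1, hr1⟩ := S.netX
  have hr : 0 < max (max r0 r1) 1 := lt_of_lt_of_le one_pos (le_max_right _ _)
  obtain ⟨n, hn⟩ := orbit_mult (H := N) S.x0 S.finX (max (max r0 r1) 1)
  obtain ⟨τ, h1, h2, h3, h4, h5, h6⟩ := netCutoff (fun g : N => g • S.x0)
    (max (max r0 r1) 1) hr
    (fun p => by
      obtain ⟨g, hg⟩ := hr1 p
      exact ⟨g, hg.trans ((le_max_right r0 r1).trans (le_max_left _ _))⟩)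
    n hn (fun p s => orbit_finite S.x0 S.finX p s)
  exact ⟨_, n, τ, (le_max_left r0 r1).trans (le_max_left _ _), hr, h1, h2, h3, h4, h5, h6⟩

/-- The map from a set of left cosets, whose representatives move `y0` close to `y`, to the
finite set of `finY` is injective. -/
theorem coset_encard_le (J : G ⧸ N → G) (hJ : ∀ q, (J q : G ⧸ N) = q) (r : ℝ) :
    ∃ n : ℕ, ∀ y : Y, {q : G ⧸ N | dist y (J q • S.y0) ≤ r}.encard ≤ n := by
  classical
  have := S.isoY
  obtain ⟨F, hF⟩ := S.finY (2 * r)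
  refine ⟨F.card, fun y => ?_⟩
  rcases {q : G ⧸ N | dist y (J q • S.y0) ≤ r}.eq_empty_or_nonempty with h | ⟨q1, hq1⟩
  · rw [h, encard_empty]
    exact bot_le
  · have key : ∀ q ∈ {q : G ⧸ N | dist y (J q • S.y0) ≤ r},
        ∃ f ∈ F, f⁻¹ * ((J q1)⁻¹ * J q) ∈ N := by
      intro q hq
      apply hF
      have h1 : dist y (J q1 • S.y0) ≤ r := hq1
      have h2 : dist y (J q • S.y0) ≤ r := hq
      have h3 : dist (((J q1)⁻¹ * J q) • S.y0) S.y0 = dist (J q • S.y0) (J q1 • S.y0) := by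
        rw [← dist_smul (J q1) (((J q1)⁻¹ * J q) • S.y0) S.y0, smul_smul,
          mul_inv_cancel_left]
      have h4 : dist (J q • S.y0) (J q1 • S.y0) ≤ dist (J q • S.y0) y + dist y (J q1 • S.y0) :=
        dist_triangle _ _ _
      rw [dist_comm (J q • S.y0) y] at h4
      rw [h3]
      linarith
    choose! φ hφF hφ using key
    have hinj : InjOn φ {q : G ⧸ N | dist y (J q • S.y0) ≤ r} := by
      intro q hq q' hq' hqq
      have h1 := hφ q hq
      have h2 := hφ q' hq'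
      rw [hqq] at h1
      have h3 : ((φ q')⁻¹ * ((J q1)⁻¹ * J q))⁻¹ * ((φ q')⁻¹ * ((J q1)⁻¹ * J q')) ∈ N :=
        N.mul_mem (N.inv_mem h1) h2
      have h4 : (J q)⁻¹ * J q' ∈ N := by
        have h5 : ((φ q')⁻¹ * ((J q1)⁻¹ * J q))⁻¹ * ((φ q')⁻¹ * ((J q1)⁻¹ * J q'))
            = (J q)⁻¹ * J q' := by group
        rwa [h5] at h3
      rw [← hJ q, ← hJ q']
      exact QuotientGroup.eq.2 h4
    calc {q : G ⧸ N | dist y (J q • S.y0) ≤ r}.encard
        = (φ '' {q : G ⧸ N | dist y (J q • S.y0) ≤ r}).encard := hinj.encard_image.symm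
      _ ≤ (F : Set G).encard := encard_le_encard (by
          rintro _ ⟨q, hq, rfl⟩
          exact hφF q hq)
      _ = _ := encard_coe_eq_coe_finsetCard _

/-- Cut-offs on `X × Y` for a net `(n x0, g y0)`, `g` in a system `J` of representatives of the
left cosets of `N`. -/
theorem cutoffXY (r0 : ℝ) : ∃ (r : ℝ) (n : ℕ) (J : G ⧸ N → G) (τ : N × (G ⧸ N) → X × Y → ℝ),
    r0 ≤ r ∧ 0 < r ∧
    (∀ i, Continuous (τ i)) ∧ (∀ i p, 0 ≤ τ i p ∧ τ i p ≤ 1) ∧
      LocallyFinite (fun i => {p | 0 < τ i p}) ∧ (∀ p, {i | 0 < τ i p}.encard ≤ n) ∧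
      (∀ p, ∃ i, τ i p = 1) ∧
      (∀ i p, 0 < τ i p ↔ (dist p.1 (i.1 • S.x0) < 2 * r ∧ dist p.2 (J i.2 • S.y0) < 2 * r)) := by
  have := S.isoX
  have := S.isoY
  obtain ⟨r1, hr1⟩ := S.netX
  obtain ⟨r2, hr2⟩ := S.netY
  obtain ⟨C, hC⟩ := S.bddN
  set r : ℝ := max (max r0 (max r1 (r2 + C))) 1 with hr_def
  have hr : 0 < r := lt_of_lt_of_le one_pos (le_max_right _ _)
  have hr1r : r1 ≤ r := ((le_max_left _ _).trans (le_max_right _ _)).trans (le_max_left _ _)
  have hr2r : r2 + C ≤ r := ((le_max_right _ _).trans (le_max_right _ _)).trans (le_max_left _ _)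
  have hJ : ∀ q : G ⧸ N, ((Quotient.out q : G) : G ⧸ N) = q := fun q => Quotient.out_eq' q
  obtain ⟨n1, hn1⟩ := orbit_mult (H := N) S.x0 S.finX r
  obtain ⟨n2, hn2⟩ := S.coset_encard_le (fun q => Quotient.out q) hJ (2 * r)
  obtain ⟨τ, h1, h2, h3, h4, h5, h6⟩ := netCutoff
    (fun i : N × (G ⧸ N) => ((i.1 • S.x0, (Quotient.out i.2 : G) • S.y0) : X × Y)) r hr
    (fun p => by
      obtain ⟨m, hm⟩ := hr1 p.1
      obtain ⟨g, hg⟩ := hr2 p.2
      refine ⟨(m, (g : G ⧸ N)), ?_⟩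
      rw [Prod.dist_eq]
      apply max_le (hm.trans hr1r)
      have h7 : g⁻¹ * (Quotient.out (g : G ⧸ N) : G) ∈ N :=
        QuotientGroup.eq.1 (hJ (g : G ⧸ N)).symm
      have h8 : dist (g • S.y0) ((Quotient.out (g : G ⧸ N) : G) • S.y0) ≤ C := by
        have h9 := hC _ h7
        rw [← dist_smul g, smul_smul, mul_inv_cancel_left, dist_comm] at h9
        exact h9
      have h10 := dist_triangle p.2 (g • S.y0) ((Quotient.out (g : G ⧸ N) : G) • S.y0)
      change dist p.2 ((Quotient.out (g : G ⧸ N) : G) • S.y0) ≤ r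
      linarith)
    (n1 * n2)
    (fun p => by
      have hsub : {i : N × (G ⧸ N) | dist p ((i.1 • S.x0, (Quotient.out i.2 : G) • S.y0) : X × Y)
          < 2 * r} ⊆ {m : N | dist p.1 (m • S.x0) < 2 * r} ×ˢ
            {q : G ⧸ N | dist p.2 ((Quotient.out q : G) • S.y0) ≤ 2 * r} := by
        intro i hi
        have h7 : dist p ((i.1 • S.x0, (Quotient.out i.2 : G) • S.y0) : X × Y) < 2 * r := hi
        rw [Prod.dist_eq, max_lt_iff] at h7
        exact ⟨h7.1, h7.2.le⟩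
      have h8 := encard_le_encard hsub
      rw [encard_prod] at h8
      push_cast
      exact h8.trans (mul_le_mul' (hn1 p.1) (hn2 p.2)))
    (fun p s => by
      have h7 : {m : N | dist p.1 (m • S.x0) ≤ s}.Finite := orbit_finite S.x0 S.finX p.1 s
      obtain ⟨n3, hn3⟩ := S.coset_encard_le (fun q => Quotient.out q) hJ s
      have h8 : {q : G ⧸ N | dist p.2 ((Quotient.out q : G) • S.y0) ≤ s}.Finite :=
        finite_of_encard_le_coe (hn3 p.2)
      refine (h7.prod h8).subset fun i hi => ?_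
      have h9 : dist p ((i.1 • S.x0, (Quotient.out i.2 : G) • S.y0) : X × Y) ≤ s := hi
      rw [Prod.dist_eq, max_le_iff] at h9
      exact h9)
  refine ⟨r, n1 * n2, fun q => Quotient.out q, τ,
    (le_max_left _ _).trans (le_max_left _ _), hr, h1, h2, h3, h4, h5, fun i p => ?_⟩
  rw [h6, Prod.dist_eq, max_lt_iff]

end Setup

end Pool.Agent.ZStr
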