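import Mathlib

/-!
# Z-structures on groups: definitions (problem MP_b6d158_gt)

Definitions of Z-sets, absolute (neighbourhood) retracts, proper and cocompact actions,
groups of type `F*_AR`, model Z-geometries, Z-structures and EZ-structures, following the
conventions of the problem file.
-/

namespace Pool.Agent.ZStr

open Set Topology Filter
open scoped unitInterval Pointwise

/-- A closed subset `A` of `Y` is a *Z-set* if there is a homotopy `H : Y × [0,1] → Y` with
`H_0 = id` and `H_t(Y)` disjoint from `A` for all `t > 0`. -/
def IsZSet {Y : Type*} [TopologicalSpace Y] (A : Set Y) : Prop :=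
  IsClosed A ∧ ∃ H : Y × I → Y, Continuous H ∧ (∀ y, H (y, 0) = y) ∧
    ∀ t : I, 0 < t → ∀ y, H (y, t) ∉ A

/-- An *absolute neighbourhood retract*: a locally compact, separable, metrizable space `X`
such that whenever `X` is embedded as a closed subset of a metrizable space `Y`, some
neighbourhood of (the image of) `X` in `Y` retracts onto it. -/
def IsANR (X : Type) [TopologicalSpace X] : Prop :=
  LocallyCompactSpace X ∧ TopologicalSpace.SeparableSpace X ∧
  TopologicalSpace.MetrizableSpace X ∧
  ∀ (Y : Type) [TopologicalSpace Y] [TopologicalSpace.MetrizableSpace Y] (e : X → Y),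
    IsClosedEmbedding e →
      ∃ U : Set Y, IsOpen U ∧ range e ⊆ U ∧
        ∃ r : U → X, Continuous r ∧ ∀ (x : X) (hx : e x ∈ U), r ⟨e x, hx⟩ = x

/-- An *absolute retract*: a contractible absolute neighbourhood retract. -/
def IsAR (X : Type) [TopologicalSpace X] : Prop :=
  ContractibleSpace X ∧ IsANR X

/-- The action of the (discrete) group `G` on `X` is *proper*: every compact set meets only
finitely many of its translates. -/
def ProperlyActs (G : Type*) (X : Type*) [Group G] [TopologicalSpace X] [MulAction G X] :
    Prop :=
  ∀ K : Set X, IsCompact K → {g : G | ((g • K) ∩ K).Nonempty}.Finite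

/-- The action of `G` on `X` is *cocompact*: the translates of some compact set cover. -/
def CocompactlyActs (G : Type*) (X : Type*) [Group G] [TopologicalSpace X] [MulAction G X] :
    Prop :=
  ∃ K : Set X, IsCompact K ∧ ∀ x : X, ∃ g : G, x ∈ g • K

/-- `G` is of *type `F*_AR`*: some absolute retract carries a proper cocompact action of `G`
by homeomorphisms. -/
def TypeFStarAR (G : Type*) [Group G] : Prop :=
  ∃ (X : Type) (_ : TopologicalSpace X) (_ : MulAction G X),
    IsAR X ∧ ContinuousConstSMul G X ∧ ProperlyActs G X ∧ CocompactlyActs G X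

/-- A *model geometry*: a proper metric absolute retract whose isometry group acts
cocompactly. -/
def IsModelGeometry (X : Type) [MetricSpace X] : Prop :=
  ProperSpace X ∧ IsAR X ∧ ∃ K : Set X, IsCompact K ∧ ∀ x : X, ∃ f : X ≃ᵢ X, x ∈ f '' K

/-- The *control condition* for a map `i : X → Xb` (a compactification): for every `R > 0` and
every open cover of `Xb` there is a compact `C ⊆ X` such that every subset of `X \ C` of
diameter less than `R` has its image in a single member of the cover. -/
def ControlCondition (X : Type) [MetricSpace X] (Xb : Type) [TopologicalSpace Xb]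
    (i : X → Xb) : Prop :=
  ∀ R : ℝ, 0 < R → ∀ 𝒰 : Set (Set Xb), (∀ U ∈ 𝒰, IsOpen U) → ⋃₀ 𝒰 = univ →
    ∃ C : Set X, IsCompact C ∧ ∀ A : Set X, A ⊆ Cᶜ → Metric.ediam A < ENNReal.ofReal R →
      ∃ U ∈ 𝒰, i '' A ⊆ U

/-- A *model Z-geometry* `(Xb, Z, d)`, given by a map `i : X → Xb`: `X` is a model geometry,
`Xb` is a compactification of `X` (compact Hausdorff, `i` a dense open embedding), the
complement `Z` of `X` in `Xb` is a Z-set and the control condition holds. -/
def IsModelZGeometry (X : Type) [MetricSpace X] (Xb : Type) [TopologicalSpace Xb]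
    (i : X → Xb) : Prop :=
  IsModelGeometry X ∧ CompactSpace Xb ∧ T2Space Xb ∧ IsOpenEmbedding i ∧ DenseRange i ∧
    IsZSet (range i)ᶜ ∧ ControlCondition X Xb i

/-- `G` admits a *Z-structure*: a model Z-geometry together with a proper cocompact action of
`G` by isometries. -/
def HasZStructure (G : Type*) [Group G] : Prop :=
  ∃ (X : Type) (_ : MetricSpace X) (_ : MulAction G X)
    (Xb : Type) (_ : TopologicalSpace Xb) (i : X → Xb),
    IsModelZGeometry X Xb i ∧ IsIsometricSMul G X ∧ ProperlyActs G X ∧ CocompactlyActs G X

/-- `G` admits an *EZ-structure*: a Z-structure for which the action on `X` extends to a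
continuous action on the compactification. -/
def HasEZStructure (G : Type*) [Group G] : Prop :=
  ∃ (X : Type) (_ : MetricSpace X) (_ : MulAction G X)
    (Xb : Type) (_ : TopologicalSpace Xb) (i : X → Xb),
    IsModelZGeometry X Xb i ∧ IsIsometricSMul G X ∧ ProperlyActs G X ∧ CocompactlyActs G X ∧
    ∃ _ : MulAction G Xb, ContinuousConstSMul G Xb ∧ ∀ (g : G) (x : X), i (g • x) = g • i x

end Pool.Agent.ZStr
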