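import Pool.Agent.ZStr.Main
import Pool.Agent.ZStr.ConjDefs

/-!
# The equivariant extension theorem (module EZ, Theorem III)
-/

namespace Pool.Agent.ZStr

open Set Topology Filter
open scoped unitInterval Pointwise

namespace Setup

variable {G : Type*} [Group G] {N : Subgroup G} {E X Y : Type}
    [MetricSpace E] [MetricSpace X] [MetricSpace Y]
    [MulAction G E] [MulAction N X] [MulAction G Y] (S : Setup G N E X Y)

include S in
/-- The subgroup `{m ∈ N : g m g⁻¹ ∈ N}` has finite index in `N`. -/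
theorem finite_conj_reps (g : G) : ∃ U : Finset N, ∀ n : N, ∃ m u : N, u ∈ U ∧ n = m * u ∧
    g * (m : G) * g⁻¹ ∈ N := by
  classical
  obtain ⟨C, hC⟩ := S.bddN
  obtain ⟨F, hF⟩ := S.finY (C + dist (g⁻¹ • S.y0) S.y0)
  let s : G → N := fun f => if h : ∃ n : N, f⁻¹ * ((n : G) * g⁻¹) ∈ N then h.choose else 1
  have hs : ∀ (f : G) (n : N), f⁻¹ * ((n : G) * g⁻¹) ∈ N → f⁻¹ * ((s f : G) * g⁻¹) ∈ N := by
    intro f n hn
    have h : ∃ n : N, f⁻¹ * ((n : G) * g⁻¹) ∈ N := ⟨n, hn⟩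
    simp only [s, dif_pos h]
    exact h.choose_spec
  refine ⟨F.image (fun f => (s f)⁻¹), fun n => ?_⟩
  obtain ⟨f, hf, hfn⟩ := hF (((n⁻¹ : N) : G) * g⁻¹) (by
    have h1 := hC _ (n⁻¹).2
    have h2 : dist ((((n⁻¹ : N) : G) * g⁻¹) • S.y0) (((n⁻¹ : N) : G) • S.y0)
        = dist (g⁻¹ • S.y0) S.y0 := by
      rw [mul_smul, S.dist_smulY]
    have h3 := dist_triangle ((((n⁻¹ : N) : G) * g⁻¹) • S.y0) (((n⁻¹ : N) : G) • S.y0) S.y0
    linarith)
  have hsf := hs f n⁻¹ hfn
  refine ⟨n * s f, (s f)⁻¹, Finset.mem_image_of_mem _ hf, by group, ?_⟩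
  have h4 := N.mul_mem (N.inv_mem hfn) hsf
  have h5 : (f⁻¹ * (((n⁻¹ : N) : G) * g⁻¹))⁻¹ * (f⁻¹ * ((s f : G) * g⁻¹))
      = g * ((n * s f : N) : G) * g⁻¹ := by
    push_cast
    group
  rwa [h5] at h4

/-- Conjugation by `g` distorts `X` by a bounded function. -/
theorem conj_bound (g : G) : ∃ b : ℝ → ℝ, Monotone b ∧ ∀ m m' : N,
    (m' : G) = g * (m : G) * g⁻¹ →
      dist (m' • S.x0) S.x0 ≤ b (dist (m • S.x0) S.x0) ∧
      dist (m • S.x0) S.x0 ≤ b (dist (m' • S.x0) S.x0) := by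
  classical
  let P := {q : N × N // ((q.2 : N) : G) = g * (q.1 : G) * g⁻¹}
  obtain ⟨b1, hb1, hb10, hb1b⟩ := exists_monotone_bound
    (fun q : P => dist (q.1.1 • S.x0) S.x0) (fun q : P => dist (q.1.2 • S.x0) S.x0) (by
      intro r
      have hfin := S.finX r
      refine ⟨∑ m ∈ hfin.toFinset, (if h : g * (m : G) * g⁻¹ ∈ N then
        dist ((⟨_, h⟩ : N) • S.x0) S.x0 else 0), ?_⟩
      rintro ⟨⟨m, m'⟩, hq⟩ hm
      have hm' : m ∈ hfin.toFinset := hfin.mem_toFinset.2 hm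
      have hin : g * (m : G) * g⁻¹ ∈ N := by
        rw [← show (m' : G) = g * (m : G) * g⁻¹ from hq]
        exact m'.2
      have heq : m' = ⟨g * (m : G) * g⁻¹, hin⟩ := Subtype.ext hq
      have hle := Finset.single_le_sum (f := fun m : N => (if h : g * (m : G) * g⁻¹ ∈ N then
        dist ((⟨_, h⟩ : N) • S.x0) S.x0 else 0)) (s := hfin.toFinset) (by
          intro k _
          split_ifs
          · exact dist_nonneg
          · exact le_rfl) hm'
      simp only [dif_pos hin] at hle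
      rw [← heq] at hle
      exact hle)
  obtain ⟨b2, hb2, hb20, hb2b⟩ := exists_monotone_bound
    (fun q : P => dist (q.1.2 • S.x0) S.x0) (fun q : P => dist (q.1.1 • S.x0) S.x0) (by
      intro r
      have hfin := S.finX r
      refine ⟨∑ m ∈ hfin.toFinset, (if h : g⁻¹ * (m : G) * g ∈ N then
        dist ((⟨_, h⟩ : N) • S.x0) S.x0 else 0), ?_⟩
      rintro ⟨⟨m, m'⟩, hq⟩ hm
      have hm' : m' ∈ hfin.toFinset := hfin.mem_toFinset.2 hm
      have hq' : (m' : G) = g * (m : G) * g⁻¹ := hq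
      have heq' : (m : G) = g⁻¹ * (m' : G) * g := by
        rw [hq']
        group
      have hin : g⁻¹ * (m' : G) * g ∈ N := by
        rw [← heq']
        exact m.2
      have heq : m = ⟨g⁻¹ * (m' : G) * g, hin⟩ := Subtype.ext heq'
      have hle := Finset.single_le_sum (f := fun m : N => (if h : g⁻¹ * (m : G) * g ∈ N then
        dist ((⟨_, h⟩ : N) • S.x0) S.x0 else 0)) (s := hfin.toFinset) (by
          intro k _
          split_ifs
          · exact dist_nonneg
          · exact le_rfl) hm'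
      simp only [dif_pos hin] at hle
      rw [← heq] at hle
      exact hle)
  refine ⟨fun t => b1 t + b2 t, hb1.add hb2, fun m m' hm => ⟨?_, ?_⟩⟩
  · have h1 := hb1b ⟨(m, m'), hm⟩
    have h2 := hb20 (dist (m • S.x0) S.x0)
    dsimp only at h1 ⊢
    linarith
  · have h1 := hb2b ⟨(m, m'), hm⟩
    have h2 := hb10 (dist (m' • S.x0) S.x0)
    dsimp only at h1 ⊢
    linarith

/-- The defect of equivariance of the coordinates under left multiplication by `g`. -/
theorem shift_bound (g : G) (U : Finset N) : ∃ c : ℝ → ℝ, Monotone c ∧ (∀ t, 0 ≤ c t) ∧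
    ∀ h : G, ∀ u ∈ U, dist (S.p (g * (u : G) * ((S.p h : N) : G)⁻¹ * h) • S.x0) S.x0 ≤
      c (dist (h • S.y0) S.y0) := by
  classical
  obtain ⟨c, hc, hc0, hcb⟩ := S.bound_of_invariant
    (fun h => ∑ u ∈ U, dist (S.p (g * (u : G) * ((S.p h : N) : G)⁻¹ * h) • S.x0) S.x0) (by
      intro n h
      refine Finset.sum_congr rfl fun u _ => ?_
      rw [S.hp]
      have : g * (u : G) * ((n * S.p h : N) : G)⁻¹ * ((n : G) * h)
          = g * (u : G) * ((S.p h : N) : G)⁻¹ * h := by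
        push_cast
        group
      rw [this])
  refine ⟨c, hc, hc0, fun h u hu => le_trans ?_ (hcb h)⟩
  exact Finset.single_le_sum
    (f := fun u : N => dist (S.p (g * (u : G) * ((S.p h : N) : G)⁻¹ * h) • S.x0) S.x0)
    (fun _ _ => dist_nonneg) hu

end Setup

/-- Points whose image in `T` tends to the boundary have sizes tending to infinity. -/
theorem size_tendsto_of_bdry {X Y T : Type} [TopologicalSpace X] [TopologicalSpace Y]
    [TopologicalSpace T] [T2Space T]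
    (lX : X → ℝ) (hlX1 : ∀ x, 1 ≤ lX x) (hlXp : Tendsto lX (cocompact X) atTop)
    (lY : Y → ℝ) (hlY1 : ∀ y, 1 ≤ lY y) (hlYp : Tendsto lY (cocompact Y) atTop)
    (j : X × Y → T) (hj : Continuous j) (ζ : T) (hζ : ζ ∉ range j)
    {α : Type*} (l : Filter α) (w : α → X × Y) (hw : Tendsto (fun a => j (w a)) l (𝓝 ζ)) :
    Tendsto (fun a => lX (w a).1 + lY (w a).2) l atTop := by
  rw [tendsto_atTop]
  intro M
  obtain ⟨K1, hK1, hK1s⟩ := mem_cocompact.1 (hlXp.eventually_gt_atTop M)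
  obtain ⟨K2, hK2, hK2s⟩ := mem_cocompact.1 (hlYp.eventually_gt_atTop M)
  have hKc : IsCompact (j '' (K1 ×ˢ K2)) := (hK1.prod hK2).image hj
  have hnot : (j '' (K1 ×ˢ K2))ᶜ ∈ 𝓝 ζ := by
    apply hKc.isClosed.isOpen_compl.mem_nhds
    rintro ⟨v, _, hv⟩
    exact hζ ⟨v, hv⟩
  filter_upwards [hw hnot] with a ha
  have hq' : ¬ ((w a).1 ∈ K1 ∧ (w a).2 ∈ K2) := fun h => ha ⟨w a, ⟨h.1, h.2⟩, rfl⟩
  have h1 := hlX1 (w a).1
  have h2 := hlY1 (w a).2
  by_cases h3 : (w a).1 ∈ K1
  · have h4 : (w a).2 ∉ K2 := fun h => hq' ⟨h3, h⟩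
    have h5 : M < lY (w a).2 := hK2s h4
    linarith
  · have h5 : M < lX (w a).1 := hK1s h3
    linarith

/-- The parameter of the join does not change in the limit if the two sizes change by a bounded
amount. -/
theorem param_tendsto {X Y : Type} (lX : X → ℝ) (hlX1 : ∀ x, 1 ≤ lX x)
    (lY : Y → ℝ) (hlY1 : ∀ y, 1 ≤ lY y) {α : Type*} (l : Filter α) (w w' : α → X × Y)
    (hsum : Tendsto (fun a => lX (w a).1 + lY (w a).2) l atTop) (C D : ℝ)
    (hX : ∀ᶠ a in l, |lX (w' a).1 - lX (w a).1| ≤ C)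
    (hY : ∀ᶠ a in l, |lY (w' a).2 - lY (w a).2| ≤ D) (s : ℝ)
    (ht : Tendsto (fun a => lX (w a).1 / (lX (w a).1 + lY (w a).2)) l (𝓝 s)) :
    Tendsto (fun a => lX (w' a).1 / (lX (w' a).1 + lY (w' a).2)) l (𝓝 s) := by
  have hpos : ∀ v : X × Y, 0 < lX v.1 + lY v.2 := fun v => by
    have h1 := hlX1 v.1
    have h2 := hlY1 v.2
    linarith
  have hbig : Tendsto (fun a => lX (w' a).1 + lY (w' a).2) l atTop := by
    have h1 : Tendsto (fun a => lX (w a).1 + lY (w a).2 + (-(C + D))) l atTop :=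
      tendsto_atTop_add_const_right _ _ hsum
    refine tendsto_atTop_mono' _ ?_ h1
    filter_upwards [hX, hY] with a h2 h3
    have h4 := (abs_le.1 h2).1
    have h5 := (abs_le.1 h3).1
    linarith
  have hdiff : Tendsto (fun a => lX (w' a).1 / (lX (w' a).1 + lY (w' a).2)
      - lX (w a).1 / (lX (w a).1 + lY (w a).2)) l (𝓝 0) := by
    have hq0 : Tendsto (fun a => (C + D) / (lX (w' a).1 + lY (w' a).2)) l (𝓝 0) :=
      tendsto_const_nhds.div_atTop hbig
    refine squeeze_zero_norm' ?_ hq0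
    filter_upwards [hX, hY] with a h2 h3
    rw [Real.norm_eq_abs]
    have hne := (hpos (w a)).ne'
    have hlX0 := hlX1 (w a).1
    have hlY0 := hlY1 (w a).2
    refine ratio_close (L := lX (w a).1 + lY (w a).2)
      (div_nonneg (by linarith) (hpos (w a)).le)
      ((div_le_one (hpos (w a))).2 (by linarith)) (hpos (w' a)) ?_ ?_
    · rw [div_mul_cancel₀ _ hne]
      exact h2
    · rw [sub_mul, div_mul_cancel₀ _ hne, one_mul]
      simpa using h3
  have := hdiff.add ht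
  simpa using this

/-- A group action on `E` whose elements extend continuously to the compactification extends to
a continuous action. -/
theorem mulAction_of_ext {G : Type*} [Group G] {E Eb : Type} [MulAction G E]
    [TopologicalSpace Eb] [T2Space Eb] (i : E → Eb) (hd : DenseRange i)
    (hext : ∀ g : G, ∃ F : Eb → Eb, Continuous F ∧ ∀ e, F (i e) = i (g • e)) :
    ∃ _ : MulAction G Eb, ContinuousConstSMul G Eb ∧ ∀ (g : G) (e : E), i (g • e) = g • i e := by
  choose F hF hFi using hext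
  let act : MulAction G Eb :=
    { smul := fun g z => F g z
      one_smul := fun z => by
        have h : F 1 = id := hd.equalizer (hF 1) continuous_id (by
          funext e
          simp [hFi])
        change F 1 z = z
        rw [h]
        rfl
      mul_smul := fun g g' z => by
        have h : F (g * g') = F g ∘ F g' := hd.equalizer (hF _) ((hF g).comp (hF g')) (by
          funext e
          simp [hFi, mul_smul])
        change F (g * g') z = F g (F g' z)
        rw [h]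
        rfl }
  exact ⟨act, ⟨hF⟩, fun g e => (hFi g e).symm⟩

/-- The model Z-geometry on `E` constructed in the extension theorem, in the equivariant case. -/
theorem ez_core {G : Type*} [Group G] {N : Subgroup G} {E X Y Xb Yb : Type}
    [MetricSpace E] [MetricSpace X] [MetricSpace Y] [MulAction G E] [MulAction N X]
    [MulAction G Y] [TopologicalSpace Xb] [TopologicalSpace Yb]
    [CompactSpace Xb] [T2Space Xb] [CompactSpace Yb] [T2Space Yb]
    (S : Setup G N E X Y)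
    (iX : X → Xb) (hiX : IsOpenEmbedding iX) (hzX : IsZSet (range iX)ᶜ)
    (hcX : ControlCondition X Xb iX) (hconj : ConjugationExtends N iX S.x0)
    (iY : Y → Yb) (hiY : IsOpenEmbedding iY) (hdY : DenseRange iY)
    (hzY : IsZSet (range iY)ᶜ) (hcY : ControlCondition Y Yb iY)
    (hYext : ∀ g : G, ∃ f : Yb → Yb, Continuous f ∧ ∀ y, f (iY y) = iY (g • y)) :
    ∃ (Eb : Type) (_ : TopologicalSpace Eb) (i : E → Eb),
      CompactSpace Eb ∧ T2Space Eb ∧ IsOpenEmbedding i ∧ DenseRange i ∧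
      IsZSet (range i)ᶜ ∧ ControlCondition E Eb i ∧
      ∀ g : G, ∃ F : Eb → Eb, Continuous F ∧ ∀ e, F (i e) = i (g • e) := by
  have := S.properE
  have := S.properX
  have := S.properY
  have := S.contrX
  have := S.contrY
  have := S.isoE
  have := S.isoX
  have := S.isoY
  have hcountG : Countable G := S.countableG
  obtain ⟨φ, ψ, h, hφ, hψ, hh, h0, h1, hφp, ⟨ρ1, c1, hc1, hn1⟩, ⟨ρ2, c2, hc2, hn2⟩, hn3, hn4⟩ :=
    S.coarse_data
  choose ρ3 c3 hc3 hn3 using hn3
  obtain ⟨r, hr⟩ := S.netE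
  obtain ⟨ρ4, c4, hc4, hn4⟩ := hn4 r
  choose U hU using S.finite_conj_reps
  choose cg hcg hcg0 hcgb using fun g => S.shift_bound g (U g)
  choose bg hbg hbgb using S.conj_bound
  let ρJ : Fin 4 ⊕ (ℕ ⊕ G) → ℝ := Sum.elim ![ρ1, ρ2, ρ4, ρ4]
    (Sum.elim (fun n => ρ3 (n : ℝ)) (fun _ => 0))
  let cJ : Fin 4 ⊕ (ℕ ⊕ G) → ℝ → ℝ := Sum.elim ![c1, c2, c4, fun a => c4 (a + ρ4)]
    (Sum.elim (fun n => c3 (n : ℝ)) (fun g a => cg g (a + dist (g • S.y0) S.y0)))
  let bJ : Fin 4 ⊕ (ℕ ⊕ G) → ℝ → ℝ := Sum.elim (fun _ s => s) (Sum.elim (fun _ s => s) bg)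
  have hcJ : ∀ q, Monotone (cJ q) := by
    rintro (q | n | g)
    · fin_cases q
      · exact hc1
      · exact hc2
      · exact hc4
      · exact fun a b hab => hc4 (by linarith)
    · exact hc3 _
    · exact fun a b hab => hcg g (by linarith)
  have hbJ : ∀ q, Monotone (bJ q) := by
    rintro (q | n | g)
    · exact monotone_id
    · exact monotone_id
    · exact hbg g
  obtain ⟨en, hen⟩ := exists_surjective_nat (Fin 4 ⊕ (ℕ ⊕ G))
  obtain ⟨κX, κY, T, topT, j, hκX, hκXm, hκX1, hκXt, hκY, hκYm, hκY1, hκYt, hj, hz, hctrl,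
    hslow, -⟩ :=
    exists_joinCompactification iX hiX hzX hcX iY hiY hzY hcY S.x0 S.y0 (ρJ ∘ en) (cJ ∘ en)
      (fun k => hcJ (en k)) (bJ ∘ en) (fun k => hbJ (en k))
  have hctrlJ : ∀ q : Fin 4 ⊕ (ℕ ⊕ G), ∀ {α : Type} (l : Filter α) (w w' : α → X × Y) (ζ : T),
      ζ ∉ range j → (∀ᶠ a in l, Near S.y0 (ρJ q) (cJ q) (w a) (w' a)) →
      Tendsto (fun a => j (w a)) l (𝓝 ζ) → Tendsto (fun a => j (w' a)) l (𝓝 ζ) := by
    intro q
    obtain ⟨k, rfl⟩ := hen q
    exact hctrl k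
  have hslowG : ∀ g : G, ∃ B : ℝ, ∀ s, κX (bg g s) ≤ κX s + B := by
    intro g
    obtain ⟨k, hk⟩ := hen (Sum.inr (Sum.inr g))
    obtain ⟨B, hB⟩ := hslow k
    refine ⟨B, fun s => ?_⟩
    have := hB s
    simpa only [Function.comp, hk, bJ, Sum.elim_inr] using this
  have := hj.compact
  have := hj.t2
  obtain ⟨Eb, topEb, i, π, hcpt, ht2, hiE, hdE, hzE, hcE, hπ, hπi, hπs, hπl⟩ :=
    assemble S.e0 j hj.emb hj.dense hz φ hφ ψ hψ h hh h0 h1 hφp
      (fun {α} l e s ζ hζ hl =>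
        hctrlJ (Sum.inl 0) l (fun a => φ (e a)) (fun a => φ (h (e a, s a))) ζ hζ
          (Eventually.of_forall fun a => hn1 (e a) (s a)) hl)
      (fun {α} l w ζ hζ hl =>
        hctrlJ (Sum.inl 1) l w (fun a => φ (ψ (w a))) ζ hζ
          (Eventually.of_forall fun a => hn2 (w a)) hl)
      (fun R {α} l e e' ζ hζ hR hl => by
        refine hctrlJ (Sum.inr (Sum.inl ⌈R⌉₊)) l (fun a => φ (e a)) (fun a => φ (e' a)) ζ hζ ?_ hl
        filter_upwards [hR] with a ha
        exact hn3 (⌈R⌉₊ : ℝ) (e a) (e' a) (ha.trans (Nat.le_ceil R)))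
  refine ⟨Eb, topEb, i, hcpt, ht2, hiE, hdE, hzE, hcE, fun g => ?_⟩
  have hdi : IsDenseInducing i := ⟨hiE.isInducing, hdE⟩
  have hgc : Continuous fun e : E => i (g • e) :=
    hiE.continuous.comp (continuous_const_smul g)
  refine ⟨hdi.extend (fun e => i (g • e)), hdi.continuous_extend fun z => ?_,
    fun e => hdi.extend_eq hgc e⟩
  by_cases hzr : z ∈ range i
  · obtain ⟨e, rfl⟩ := hzr
    refine ⟨i (g • e), ?_⟩
    rw [← hdi.isInducing.nhds_eq_comap]
    exact hgc.tendsto e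
  -- a boundary point
  obtain ⟨hπz, -⟩ := hπl z hzr
  set l := comap i (𝓝 z) with hl
  have hlne : l.NeBot := hdi.comap_nhds_neBot z
  have hiz : Tendsto i l (𝓝 z) := tendsto_comap
  have hφz : Tendsto (fun e => j (φ e)) l (𝓝 (π z)) := by
    refine (((hπ.tendsto z).comp hiz).congr fun e => ?_)
    exact hπi e
  choose hh' hhr using hr
  -- the points `w`
  have hwz : Tendsto (fun e => j ((S.p (hh' e) • S.x0, hh' e • S.y0) : X × Y)) l (𝓝 (π z)) :=
    hctrlJ (Sum.inl 2) l φ _ (π z) hπz (Eventually.of_forall fun e => hn4 e (hh' e) (hhr e)) hφz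
  obtain ⟨x, y, s, hlab⟩ := hj.bdry (π z) hπz
  obtain ⟨hts, hxs, hys⟩ := (hlab.conv l _).1 hwz
  choose m u hu hmu hmN using hU g
  let m' : N → N := fun n => ⟨g * (m n : G) * g⁻¹, hmN n⟩
  obtain ⟨α, hα, hαt⟩ := hconj g
  obtain ⟨f, hf, hfi⟩ := hYext g
  obtain ⟨f', hf', hfi'⟩ := hYext g⁻¹
  have hff : ∀ y, f' (f y) = y := by
    have : f' ∘ f = id := hdY.equalizer (hf'.comp hf) continuous_id (by
      funext y
      simp [hfi, hfi'])
    intro y
    exact congrFun this y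
  have hfy : y ∉ range iY → f y ∉ range iY := by
    rintro hy ⟨y1, hy1⟩
    apply hy
    refine ⟨g⁻¹ • y1, ?_⟩
    rw [← hfi', hy1, hff]
  -- the bound for `U`
  obtain ⟨BU, hBU⟩ : ∃ B : ℝ, ∀ v ∈ U g, dist (v • S.x0) S.x0 ≤ B := by
    refine ⟨∑ v ∈ U g, dist (v • S.x0) S.x0, fun v hv => ?_⟩
    exact Finset.single_le_sum (f := fun v : N => dist (v • S.x0) S.x0)
      (fun _ _ => dist_nonneg) hv
  have hmd : ∀ n : N, dist (n • S.x0) (m n • S.x0) ≤ BU := by
    intro n
    have h2 : n • S.x0 = m n • (u n • S.x0) := by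
      rw [smul_smul, ← hmu n]
    rw [h2, dist_smul]
    exact hBU _ (hu n)
  -- coordinates of `w''`
  have hX'' : 0 < s → Tendsto (fun e => iX (m' (S.p (hh' e)) • S.x0)) l (𝓝 (α x)) := by
    intro hs
    refine hαt l (fun e => m (S.p (hh' e))) (fun e => m' (S.p (hh' e))) x (hlab.hx hs)
      (Eventually.of_forall fun e => rfl) ?_
    exact control_filter iX hiX hcX BU l (fun e => S.p (hh' e) • S.x0)
      (fun e => m (S.p (hh' e)) • S.x0) (Eventually.of_forall fun e => hmd _) x (hlab.hx hs)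
      (hxs hs)
  have hY'' : s < 1 → Tendsto (fun e => iY ((g * hh' e) • S.y0)) l (𝓝 (f y)) := by
    intro hs
    refine ((hf.tendsto y).comp (hys hs)).congr fun e => ?_
    rw [mul_smul]
    exact hfi _
  -- the sizes
  have hlXp : Tendsto (fun x : X => κX (dist x S.x0)) (cocompact X) atTop :=
    hκXt.comp (tendsto_dist_right_cocompact_atTop S.x0)
  have hlYp : Tendsto (fun y : Y => κY (dist y S.y0)) (cocompact Y) atTop :=
    hκYt.comp (tendsto_dist_right_cocompact_atTop S.y0)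
  have hsum := size_tendsto_of_bdry (fun x : X => κX (dist x S.x0)) (fun _ => hκX1 _) hlXp
    (fun y : Y => κY (dist y S.y0)) (fun _ => hκY1 _) hlYp j hj.emb.continuous (π z) hπz l _ hwz
  obtain ⟨B, hB⟩ := hslowG g
  have hLX : ∀ a b : ℝ, |κX a - κX b| ≤ |a - b| := by
    intro a b
    have := hκX.dist_le_mul a b
    simpa [Real.dist_eq] using this
  have hLY : ∀ a b : ℝ, |κY a - κY b| ≤ |a - b| := by
    intro a b
    have := hκY.dist_le_mul a b
    simpa [Real.dist_eq] using this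
  have hsX : ∀ n : N, |κX (dist (m' n • S.x0) S.x0) - κX (dist (n • S.x0) S.x0)| ≤ B + BU := by
    intro n
    have h2 := hbgb g (m n) (m' n) rfl
    have h3 : κX (dist (m' n • S.x0) S.x0) ≤ κX (dist (m n • S.x0) S.x0) + B :=
      (hκXm h2.1).trans (hB _)
    have h4 : κX (dist (m n • S.x0) S.x0) ≤ κX (dist (m' n • S.x0) S.x0) + B :=
      (hκXm h2.2).trans (hB _)
    have h5 : |κX (dist (n • S.x0) S.x0) - κX (dist (m n • S.x0) S.x0)| ≤ BU :=
      (hLX _ _).trans ((abs_dist_sub_le _ _ _).trans (hmd n))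
    have h6 := abs_le.1 h5
    rw [abs_le]
    constructor
    · linarith [h6.1, h6.2]
    · linarith [h6.1, h6.2]
  have hsY : ∀ k : G, |κY (dist ((g * k) • S.y0) S.y0) - κY (dist (k • S.y0) S.y0)| ≤
      dist (g • S.y0) S.y0 := by
    intro k
    refine (hLY _ _).trans ?_
    have h2 : dist (k • S.y0) S.y0 = dist ((g * k) • S.y0) (g • S.y0) := by
      rw [mul_smul, dist_smul]
    rw [h2, dist_comm _ S.y0, dist_comm _ (g • S.y0)]
    refine (abs_dist_sub_le _ _ _).trans ?_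
    rw [dist_comm]
  have ht'' := param_tendsto (fun x : X => κX (dist x S.x0)) (fun _ => hκX1 _)
    (fun y : Y => κY (dist y S.y0)) (fun _ => hκY1 _) l
    (fun e => ((S.p (hh' e) • S.x0, hh' e • S.y0) : X × Y))
    (fun e => ((m' (S.p (hh' e)) • S.x0, (g * hh' e) • S.y0) : X × Y)) hsum (B + BU)
    (dist (g • S.y0) S.y0) (Eventually.of_forall fun e => hsX _)
    (Eventually.of_forall fun e => hsY _) s hts
  obtain ⟨ζ', hζ', hlab'⟩ := hj.real (α x) (f y) s hlab.nonneg hlab.le_one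
    (fun hs => hα x (hlab.hx hs)) (fun hs => hfy (hlab.hy hs)) l
    (fun e => ((m' (S.p (hh' e)) • S.x0, (g * hh' e) • S.y0) : X × Y)) hlne ht'' hX'' hY''
  have hw'' : Tendsto (fun e => j ((m' (S.p (hh' e)) • S.x0, (g * hh' e) • S.y0) : X × Y)) l
      (𝓝 ζ') := (hlab'.conv l _).2 ⟨ht'', hX'', hY''⟩
  -- the points `w'`
  have hw' : Tendsto (fun e => j ((S.p (g * hh' e) • S.x0, (g * hh' e) • S.y0) : X × Y)) l
      (𝓝 ζ') := by
    refine hctrlJ (Sum.inr (Sum.inr g)) l _ _ ζ' hζ' (Eventually.of_forall fun e => ?_) hw''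
    refine ⟨?_, ?_⟩
    · change dist ((g * hh' e) • S.y0) ((g * hh' e) • S.y0) ≤ 0
      rw [dist_self]
    · change dist (m' (S.p (hh' e)) • S.x0) (S.p (g * hh' e) • S.x0) ≤
        cg g (dist ((g * hh' e) • S.y0) S.y0 + dist (g • S.y0) S.y0)
      have h2 : S.p (g * hh' e) = m' (S.p (hh' e)) *
          S.p (g * ((u (S.p (hh' e)) : N) : G) * ((S.p (hh' e) : N) : G)⁻¹ * hh' e) := by
        rw [← S.hp]
        congr 1
        have h3 : ((S.p (hh' e) : N) : G) = (m (S.p (hh' e)) : G) * (u (S.p (hh' e)) : G) := by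
          rw [← Subgroup.coe_mul, ← hmu]
        change g * hh' e = (g * (m (S.p (hh' e)) : G) * g⁻¹) *
          (g * ((u (S.p (hh' e)) : N) : G) * ((S.p (hh' e) : N) : G)⁻¹ * hh' e)
        rw [h3]
        group
      rw [h2, mul_smul, dist_smul, dist_comm]
      refine (hcgb g (hh' e) _ (hu _)).trans (hcg g ?_)
      have h4 : dist (hh' e • S.y0) S.y0 = dist ((g * hh' e) • S.y0) (g • S.y0) := by
        rw [mul_smul, dist_smul]
      rw [h4]
      have h5 := dist_triangle ((g * hh' e) • S.y0) S.y0 (g • S.y0)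
      rw [dist_comm S.y0 (g • S.y0)] at h5
      exact h5
  have hfin : Tendsto (fun e => j (φ (g • e))) l (𝓝 ζ') := by
    refine hctrlJ (Sum.inl 3) l _ _ ζ' hζ' (Eventually.of_forall fun e => ?_) hw'
    have h2 : dist (g • e) ((g * hh' e) • S.e0) ≤ r := by
      rw [mul_smul, dist_smul]
      exact hhr e
    exact (hn4 (g • e) (g * hh' e) h2).symm hc4
  obtain ⟨z', hz', hπz'⟩ := hπs ζ' hζ'
  refine ⟨z', (hπl z' hz').2 l (fun e => g • e) ?_⟩
  rw [hπz']
  exact hfin

/-- THE EQUIVARIANT EXTENSION THEOREM (Theorem III). -/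
theorem ez_extension {G : Type*} [Group G] (hG : TypeFStarAR G) (N : Subgroup G)
    (X : Type) [MetricSpace X] [MulAction N X] [IsIsometricSMul N X]
    (hpX : ProperlyActs N X) (hcX : CocompactlyActs N X)
    (Xb : Type) [TopologicalSpace Xb] (iX : X → Xb) (hX : IsModelZGeometry X Xb iX) (x0 : X)
    (hconj : ConjugationExtends N iX x0)
    (Y : Type) [MetricSpace Y] [MulAction G Y] [IsIsometricSMul G Y]
    (Yb : Type) [TopologicalSpace Yb] (iY : Y → Yb) (hY : IsModelZGeometry Y Yb iY)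
    (hYext : ∀ g : G, ∃ f : Yb → Yb, Continuous f ∧ ∀ y, f (iY y) = iY (g • y))
    (hcoc : CocompactlyActs G Y) (y0 : Y)
    (hbdd : ∃ C : ℝ, ∀ n ∈ N, dist (n • y0) y0 ≤ C)
    (hfin : ∀ r : ℝ, ∃ F : Finset G, ∀ g : G, dist (g • y0) y0 ≤ r → ∃ f ∈ F, f⁻¹ * g ∈ N) :
    HasEZStructure G := by
  obtain ⟨E, mE, aE, hAR, hprop, hiso, hpE, hcE⟩ := hG.exists_metric
  obtain ⟨⟨hpropX, hARX, -⟩, hcptX, ht2X, hiX, -, hzX, hctX⟩ := hX
  obtain ⟨⟨hpropY, hARY, -⟩, hcptY, ht2Y, hiY, hdY, hzY, hctY⟩ := hY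
  have := hAR.1
  have := hARX.1
  have := hARY.1
  have : Nonempty E := inferInstance
  obtain ⟨p, hp⟩ := exists_equivariant_proj N
  let S : Setup G N E X Y :=
    { e0 := Classical.arbitrary E, x0 := x0, y0 := y0,
      properE := inferInstance, properX := inferInstance, properY := inferInstance,
      isoE := inferInstance, isoX := inferInstance, isoY := inferInstance,
      contrE := inferInstance, contrX := inferInstance, contrY := inferInstance,
      finE := fin_of_proper hpE _, netE := net_of_cocompact hcE _,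
      finX := fin_of_proper hpX _, netX := net_of_cocompact hcX _,
      netY := net_of_cocompact hcoc _, bddN := hbdd, finY := hfin, p := p, hp := hp }
  obtain ⟨Eb, topEb, i, hcpt, ht2, hiE, hdE, hzE, hctE, hext⟩ :=
    ez_core S iX hiX hzX hctX hconj iY hiY hdY hzY hctY hYext
  obtain ⟨act, hact, hacti⟩ := mulAction_of_ext i hdE hext
  refine ⟨E, mE, aE, Eb, topEb, i, ⟨⟨hprop, hAR, ?_⟩, hcpt, ht2, hiE, hdE, hzE, hctE⟩,
    hiso, hpE, hcE, act, hact, hacti⟩
  obtain ⟨K, hK, hcov⟩ := hcE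
  refine ⟨K, hK, fun x => ?_⟩
  obtain ⟨g, hg⟩ := hcov x
  exact ⟨IsometryEquiv.constSMul g, by simpa [Set.mem_smul_set] using hg⟩

end Pool.Agent.ZStr
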