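import Pool.Agent.ZStr.Defs

/-!
# The join compactification of a product (module JOIN)
-/

namespace Pool.Agent.ZStr

open Set Topology Filter
open scoped unitInterval

/-- The point `ζ` of `T` has the label `(x, y, s)`: a map `w` into `X × Y` tends to `ζ` (along a
filter, through `j`) iff `t ∘ w → s`, `w.1 → x` if `s > 0`, and `w.2 → y` if `s < 1`. -/
structure IsLabel {X Y Xb Yb T : Type} [TopologicalSpace Xb] [TopologicalSpace Yb]
    [TopologicalSpace T] (iX : X → Xb) (iY : Y → Yb) (t : X × Y → ℝ) (j : X × Y → T)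
    (ζ : T) (x : Xb) (y : Yb) (s : ℝ) : Prop where
  nonneg : 0 ≤ s
  le_one : s ≤ 1
  hx : 0 < s → x ∉ range iX
  hy : s < 1 → y ∉ range iY
  conv : ∀ {α : Type} (l : Filter α) (w : α → X × Y),
    Tendsto (fun a => j (w a)) l (𝓝 ζ) ↔
      (Tendsto (fun a => t (w a)) l (𝓝 s) ∧
        (0 < s → Tendsto (fun a => iX (w a).1) l (𝓝 x)) ∧
        (s < 1 → Tendsto (fun a => iY (w a).2) l (𝓝 y)))

/-- `j : X × Y → T` is the join compactification with parameter `t`. -/
structure IsJoin {X Y Xb Yb T : Type} [TopologicalSpace X] [TopologicalSpace Y]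
    [TopologicalSpace Xb] [TopologicalSpace Yb]
    [TopologicalSpace T] (iX : X → Xb) (iY : Y → Yb) (t : X × Y → ℝ) (j : X × Y → T) : Prop where
  compact : CompactSpace T
  t2 : T2Space T
  emb : IsOpenEmbedding j
  dense : DenseRange j
  bdry : ∀ ζ : T, ζ ∉ range j → ∃ (x : Xb) (y : Yb) (s : ℝ), IsLabel iX iY t j ζ x y s
  real : ∀ (x : Xb) (y : Yb) (s : ℝ), 0 ≤ s → s ≤ 1 → (0 < s → x ∉ range iX) →
    (s < 1 → y ∉ range iY) → ∀ {α : Type} (l : Filter α) (w : α → X × Y), l.NeBot →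
      Tendsto (fun a => t (w a)) l (𝓝 s) →
      (0 < s → Tendsto (fun a => iX (w a).1) l (𝓝 x)) →
      (s < 1 → Tendsto (fun a => iY (w a).2) l (𝓝 y)) →
      ∃ ζ : T, ζ ∉ range j ∧ IsLabel iX iY t j ζ x y s

/-! ### The model of the join -/

/-- The space in which the join is realised. -/
abbrev JSp (Xb Yb : Type) [TopologicalSpace Xb] [TopologicalSpace Yb] : Type :=
  (C(Xb, ℝ) → ℝ) × (C(Yb, ℝ) → ℝ) × ℝ

/-- The map `(x, y, s) ↦ (s • ι x, (1 - s) • ι y, s)`. -/
def jPsi {Xb Yb : Type} [TopologicalSpace Xb] [TopologicalSpace Yb] (x : Xb) (y : Yb) (s : ℝ) :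
    JSp Xb Yb :=
  (fun f => s * f x, fun g => (1 - s) * g y, s)

theorem jPsi_continuous {Xb Yb : Type} [TopologicalSpace Xb] [TopologicalSpace Yb] :
    Continuous (fun p : Xb × Yb × ℝ => jPsi p.1 p.2.1 p.2.2) := by
  unfold jPsi
  refine Continuous.prodMk ?_ (Continuous.prodMk ?_ (by fun_prop))
  · exact continuous_pi fun f => by fun_prop
  · exact continuous_pi fun g => by fun_prop

theorem tendsto_of_forall_continuousMap {Xb : Type} [TopologicalSpace Xb] [CompactSpace Xb]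
    [T2Space Xb] {α : Type*} {l : Filter α} {u : α → Xb} {x : Xb}
    (h : ∀ f : C(Xb, ℝ), Tendsto (fun a => f (u a)) l (𝓝 (f x))) : Tendsto u l (𝓝 x) := by
  rw [tendsto_nhds]
  intro U hU hx
  obtain ⟨f, hf0, hf1, -⟩ := exists_continuous_zero_one_of_isClosed (isClosed_singleton (x := x))
    hU.isClosed_compl (disjoint_singleton_left.2 (fun h => h hx))
  have h0 : f x = 0 := hf0 rfl
  have h1 := h f
  rw [h0] at h1
  have h2 : ∀ᶠ a in l, f (u a) < 1 := h1.eventually (gt_mem_nhds zero_lt_one)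
  filter_upwards [h2] with a ha
  by_contra hc
  have h3 : f (u a) = 1 := hf1 hc
  rw [h3] at ha
  exact lt_irrefl _ ha

theorem jPsi_tendsto_iff {Xb Yb : Type} [TopologicalSpace Xb] [TopologicalSpace Yb]
    [CompactSpace Xb] [T2Space Xb] [CompactSpace Yb] [T2Space Yb] {α : Type*} {l : Filter α}
    {u : α → Xb} {v : α → Yb} {τ : α → ℝ} {x : Xb} {y : Yb} {s : ℝ} (h0 : 0 ≤ s) (h1 : s ≤ 1) :
    Tendsto (fun a => jPsi (u a) (v a) (τ a)) l (𝓝 (jPsi x y s)) ↔
      (Tendsto τ l (𝓝 s) ∧ (0 < s → Tendsto u l (𝓝 x)) ∧ (s < 1 → Tendsto v l (𝓝 y))) := by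
  unfold jPsi
  rw [Prod.tendsto_iff, Prod.tendsto_iff, tendsto_pi_nhds, tendsto_pi_nhds]
  constructor
  · rintro ⟨hu, hv, hτ⟩
    refine ⟨hτ, fun hs => ?_, fun hs => ?_⟩
    · apply tendsto_of_forall_continuousMap
      intro f
      have h2 := (hu f).div hτ hs.ne'
      have h3 : s * f x / s = f x := by field_simp
      simp only [h3] at h2
      refine h2.congr' ?_
      have h4 : ∀ᶠ a in l, 0 < τ a := hτ.eventually (lt_mem_nhds hs)
      filter_upwards [h4] with a ha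
      simp only [Pi.div_apply]
      field_simp
    · apply tendsto_of_forall_continuousMap
      intro g
      have hs' : (1 - s) ≠ 0 := by linarith
      have h2 := (hv g).div (tendsto_const_nhds.sub hτ : Tendsto (fun a => 1 - τ a) l _) hs'
      have h3 : (1 - s) * g y / (1 - s) = g y := by field_simp
      simp only [h3] at h2
      refine h2.congr' ?_
      have h4 : ∀ᶠ a in l, τ a < 1 := hτ.eventually (gt_mem_nhds hs)
      filter_upwards [h4] with a ha
      simp only [Pi.div_apply]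
      have h5 : 1 - τ a ≠ 0 := by linarith
      field_simp
  · rintro ⟨hτ, hu, hv⟩
    refine ⟨fun f => ?_, fun g => ?_, hτ⟩
    · rcases h0.lt_or_eq with hs | hs
      · exact hτ.mul (((map_continuous f).tendsto x).comp (hu hs))
      · subst hs
        simp only [zero_mul]
        refine squeeze_zero_norm (a := fun a => |τ a| * ‖f‖) (fun a => ?_) ?_
        · rw [norm_mul, Real.norm_eq_abs]
          exact mul_le_mul_of_nonneg_left (f.norm_coe_le_norm _) (abs_nonneg _)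
        · have h2 : Tendsto (fun a => |τ a| * ‖f‖) l (𝓝 (|(0:ℝ)| * ‖f‖)) :=
            (hτ.abs).mul_const _
          simpa using h2
    · rcases h1.lt_or_eq with hs | hs
      · exact (tendsto_const_nhds.sub hτ).mul (((map_continuous g).tendsto y).comp (hv hs))
      · subst hs
        simp only [sub_self, zero_mul]
        refine squeeze_zero_norm (a := fun a => |1 - τ a| * ‖g‖) (fun a => ?_) ?_
        · rw [norm_mul, Real.norm_eq_abs]
          exact mul_le_mul_of_nonneg_left (g.norm_coe_le_norm _) (abs_nonneg _)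
        · have h2 : Tendsto (fun a => |1 - τ a| * ‖g‖) l (𝓝 (|(1:ℝ) - 1| * ‖g‖)) :=
            ((tendsto_const_nhds.sub hτ).abs).mul_const _
          simpa using h2

theorem eq_of_jPsi_eq {Xb Yb : Type} [TopologicalSpace Xb] [TopologicalSpace Yb]
    [CompactSpace Xb] [T2Space Xb] [CompactSpace Yb] [T2Space Yb] {x x' : Xb} {y y' : Yb}
    {s s' : ℝ} (h0 : 0 ≤ s) (h1 : s ≤ 1) (h : jPsi x y s = jPsi x' y' s') :
    s' = s ∧ (0 < s → x' = x) ∧ (s < 1 → y' = y) := by
  have h2 : Tendsto (fun _ : Unit => jPsi x' y' s') ⊤ (𝓝 (jPsi x y s)) := by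
    rw [← h]
    exact tendsto_const_nhds
  have h3 := (jPsi_tendsto_iff (u := fun _ : Unit => x') (v := fun _ => y') (τ := fun _ => s')
    h0 h1).1 h2
  refine ⟨tendsto_const_nhds_iff.1 h3.1, fun hs => tendsto_const_nhds_iff.1 (h3.2.1 hs),
    fun hs => tendsto_const_nhds_iff.1 (h3.2.2 hs)⟩

/-- An embedding with dense range of a locally compact space into a Hausdorff space is open. -/
theorem isOpenEmbedding_of_denseRange {A T : Type*} [TopologicalSpace A] [TopologicalSpace T]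
    [LocallyCompactSpace A] [T2Space T] {j : A → T} (hj : IsEmbedding j) (hd : DenseRange j) :
    IsOpenEmbedding j := by
  refine ⟨hj, ?_⟩
  rw [isOpen_iff_mem_nhds]
  rintro _ ⟨a, rfl⟩
  obtain ⟨K, hK, haK⟩ := exists_compact_mem_nhds a
  rw [hj.nhds_eq_comap, mem_comap] at haK
  obtain ⟨V, hV, hVK⟩ := haK
  obtain ⟨U, hUV, hU, haU⟩ := mem_nhds_iff.1 hV
  refine mem_of_superset (hU.mem_nhds haU) ?_
  have h1 : U ⊆ closure (U ∩ range j) := hd.open_subset_closure_inter hU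
  have h2 : U ∩ range j ⊆ j '' K := by
    rintro _ ⟨hz, b, rfl⟩
    exact ⟨b, hVK (hUV hz), rfl⟩
  have h3 : IsClosed (j '' K) := (hK.image hj.continuous).isClosed
  exact (h1.trans (closure_minimal h2 h3)).trans (image_subset_range _ _)

/-- A point at which one coordinate stays inside and the parameter is positive is not at
infinity: the other coordinate stays in a compact set. -/
theorem join_bounded {X Y : Type} [TopologicalSpace X] [TopologicalSpace Y]
    (lX : X → ℝ) (hlX : Continuous lX) (hlX1 : ∀ x, 1 ≤ lX x)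
    (lY : Y → ℝ) (hlY1 : ∀ y, 1 ≤ lY y)
    (hlYp : Tendsto lY (cocompact Y) atTop) {α : Type*} {l : Filter α} {w : α → X × Y} {x : X}
    {s : ℝ} (hs : 0 < s) (ht : Tendsto (fun a => lX (w a).1 / (lX (w a).1 + lY (w a).2)) l (𝓝 s))
    (hx : Tendsto (fun a => (w a).1) l (𝓝 x)) :
    ∃ K : Set Y, IsCompact K ∧ ∀ᶠ a in l, (w a).2 ∈ K := by
  have h1 : Tendsto (fun a => lX (w a).1) l (𝓝 (lX x)) := (hlX.tendsto x).comp hx
  have h2 : ∀ᶠ a in l, lX (w a).1 < lX x + 1 := h1.eventually (gt_mem_nhds (by linarith))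
  have h3 : ∀ᶠ a in l, s / 2 < lX (w a).1 / (lX (w a).1 + lY (w a).2) :=
    ht.eventually (lt_mem_nhds (by linarith))
  have h4 : {y : Y | (lX x + 1) / (s / 2) ≤ lY y} ∈ cocompact Y :=
    hlYp (Ici_mem_atTop _)
  obtain ⟨K, hK, hKs⟩ := mem_cocompact.1 h4
  refine ⟨K, hK, ?_⟩
  filter_upwards [h2, h3] with a ha hb
  by_contra hc
  have h5 : (lX x + 1) / (s / 2) ≤ lY (w a).2 := hKs hc
  have h6 := hlX1 (w a).1
  have h7 := hlY1 (w a).2
  rw [lt_div_iff₀ (by linarith)] at hb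
  rw [div_le_iff₀ (by linarith)] at h5
  nlinarith

/-- EXISTENCE OF THE JOIN COMPACTIFICATION.  (Hint: with `ι : Xb → (C(Xb, ℝ) → ℝ)` and similarly
for `Yb`, let `F (x, y) = (t • ι x, (1 - t) • ι y, t)`, and `T = closure (range F)`.) -/
theorem exists_join {X Y Xb Yb : Type} [TopologicalSpace X] [TopologicalSpace Y]
    [TopologicalSpace Xb] [TopologicalSpace Yb]
    [CompactSpace Xb] [T2Space Xb] [CompactSpace Yb] [T2Space Yb]
    (iX : X → Xb) (hiX : IsOpenEmbedding iX) (iY : Y → Yb) (hiY : IsOpenEmbedding iY)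
    (lX : X → ℝ) (hlX : Continuous lX) (hlX1 : ∀ x, 1 ≤ lX x)
    (hlXp : Tendsto lX (cocompact X) atTop)
    (lY : Y → ℝ) (hlY : Continuous lY) (hlY1 : ∀ y, 1 ≤ lY y)
    (hlYp : Tendsto lY (cocompact Y) atTop) :
    ∃ (T : Type) (_ : TopologicalSpace T) (j : X × Y → T),
      IsJoin iX iY (fun w => lX w.1 / (lX w.1 + lY w.2)) j := by
  classical
  set t : X × Y → ℝ := fun w => lX w.1 / (lX w.1 + lY w.2) with ht
  have hpos : ∀ w : X × Y, 0 < lX w.1 + lY w.2 := fun w => by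
    have := hlX1 w.1; have := hlY1 w.2; linarith
  have ht0 : ∀ w, 0 < t w := fun w => div_pos (by have := hlX1 w.1; linarith) (hpos w)
  have ht1 : ∀ w, t w < 1 := fun w => by
    rw [ht]
    simp only
    rw [div_lt_one (hpos w)]
    have := hlY1 w.2
    linarith
  have htc : Continuous t := by
    refine Continuous.div (by fun_prop) (by fun_prop) (fun w => (hpos w).ne')
  -- the map
  set F : X × Y → JSp Xb Yb := fun w => jPsi (iX w.1) (iY w.2) (t w) with hF
  have hFc : Continuous F := by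
    have h1 : Continuous fun w : X × Y => ((iX w.1, iY w.2, t w) : Xb × Yb × ℝ) := by
      have := hiX.continuous
      have := hiY.continuous
      fun_prop
    exact jPsi_continuous.comp h1
  -- the compact set containing everything
  have hKc : IsCompact ((fun p : Xb × Yb × ℝ => jPsi p.1 p.2.1 p.2.2) ''
      (univ ×ˢ (univ ×ˢ Icc (0:ℝ) 1))) :=
    (isCompact_univ.prod (isCompact_univ.prod isCompact_Icc)).image jPsi_continuous
  have hFK : range F ⊆ (fun p : Xb × Yb × ℝ => jPsi p.1 p.2.1 p.2.2) ''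
      (univ ×ˢ (univ ×ˢ Icc (0:ℝ) 1)) := by
    rintro _ ⟨w, rfl⟩
    exact ⟨(iX w.1, iY w.2, t w), ⟨mem_univ _, mem_univ _, (ht0 w).le, (ht1 w).le⟩, rfl⟩
  have hTc : IsCompact (closure (range F)) := by
    exact hKc.of_isClosed_subset isClosed_closure (closure_minimal hFK hKc.isClosed)
  let T : Type := closure (range F)
  let j : X × Y → T := fun w => ⟨F w, subset_closure ⟨w, rfl⟩⟩
  have hjc : Continuous j := hFc.subtype_mk _
  have hjv : ∀ w, ((j w : T) : JSp Xb Yb) = F w := fun w => rfl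
  have hTcomp : CompactSpace T := isCompact_iff_compactSpace.1 hTc
  have hT2 : T2Space T := inferInstance
  have hdense : DenseRange j := by
    intro z
    rw [mem_closure_iff_nhds]
    intro V hV
    obtain ⟨U, hU, hUV⟩ := mem_nhds_induced (Subtype.val : T → _) z V |>.1 hV
    obtain ⟨p, hpU, w, rfl⟩ := mem_closure_iff_nhds.1 z.2 U hU
    exact ⟨j w, hUV hpU, w, rfl⟩
  -- convergence in T
  have hconvT : ∀ {α : Type} (l : Filter α) (w : α → X × Y) (ζ : T) (x : Xb) (y : Yb) (s : ℝ),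
      0 ≤ s → s ≤ 1 → (ζ : JSp Xb Yb) = jPsi x y s →
      (Tendsto (fun a => j (w a)) l (𝓝 ζ) ↔
      (Tendsto (fun a => t (w a)) l (𝓝 s) ∧
        (0 < s → Tendsto (fun a => iX (w a).1) l (𝓝 x)) ∧
        (s < 1 → Tendsto (fun a => iY (w a).2) l (𝓝 y)))) := by
    intro α l w ζ x y s h0 h1 hζ
    rw [tendsto_subtype_rng, hζ]
    exact jPsi_tendsto_iff h0 h1
  -- j is an embedding
  have hind : IsInducing j := by
    rw [isInducing_iff_nhds]
    intro w0
    apply le_antisymm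
    · exact (hjc.tendsto w0).le_comap
    · have h2 : Tendsto (fun w : X × Y => j w) (comap j (𝓝 (j w0))) (𝓝 (j w0)) := tendsto_comap
      have h3 := (hconvT (comap j (𝓝 (j w0))) (fun w => w) (j w0) (iX w0.1) (iY w0.2) (t w0)
        (ht0 w0).le (ht1 w0).le rfl).1 h2
      have h4 : Tendsto (fun w : X × Y => w.1) (comap j (𝓝 (j w0))) (𝓝 w0.1) :=
        hiX.isInducing.tendsto_nhds_iff.2 (h3.2.1 (ht0 w0))
      have h5 : Tendsto (fun w : X × Y => w.2) (comap j (𝓝 (j w0))) (𝓝 w0.2) :=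
        hiY.isInducing.tendsto_nhds_iff.2 (h3.2.2 (ht1 w0))
      have h6 : Tendsto (fun w : X × Y => (w.1, w.2)) (comap j (𝓝 (j w0))) (𝓝 (w0.1, w0.2)) :=
        h4.prodMk_nhds h5
      exact h6
  have hinj : Function.Injective j := by
    intro w w' h
    have h1 : F w = F w' := congrArg Subtype.val h
    obtain ⟨-, h2, h3⟩ := eq_of_jPsi_eq (ht0 w).le (ht1 w).le h1
    exact Prod.ext (hiX.injective (h2 (ht0 w))).symm (hiY.injective (h3 (ht1 w))).symm
  have hlcX : LocallyCompactSpace X := hiX.locallyCompactSpace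
  have hlcY : LocallyCompactSpace Y := hiY.locallyCompactSpace
  have hemb : IsOpenEmbedding j := isOpenEmbedding_of_denseRange ⟨hind, hinj⟩ hdense
  -- labels
  have hlabel : ∀ (ζ : T) (x : Xb) (y : Yb) (s : ℝ), 0 ≤ s → s ≤ 1 → (0 < s → x ∉ range iX) →
      (s < 1 → y ∉ range iY) → (ζ : JSp Xb Yb) = jPsi x y s → IsLabel iX iY t j ζ x y s := by
    intro ζ x y s h0 h1 hx hy hζ
    exact ⟨h0, h1, hx, hy, fun l w => hconvT l w ζ x y s h0 h1 hζ⟩
  refine ⟨T, inferInstance, j, ⟨hTcomp, hT2, hemb, hdense, ?_, ?_⟩⟩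
  · intro ζ hζ
    -- an ultrafilter on X × Y converging to ζ
    have h1 : (comap j (𝓝 ζ)).NeBot := by
      rw [comap_neBot_iff]
      intro V hV
      obtain ⟨_, hz, w, rfl⟩ := mem_closure_iff_nhds.1 (hdense ζ) V hV
      exact ⟨w, hz⟩
    obtain ⟨𝒰, h𝒰⟩ := @Ultrafilter.exists_le _ (comap j (𝓝 ζ)) h1
    have h2 : Tendsto j (𝒰 : Filter (X × Y)) (𝓝 ζ) := tendsto_comap.mono_left h𝒰
    obtain ⟨x, -, hx⟩ := isCompact_univ.ultrafilter_le_nhds (𝒰.map fun w : X × Y => iX w.1)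
      (by simp)
    obtain ⟨y, -, hy⟩ := isCompact_univ.ultrafilter_le_nhds (𝒰.map fun w : X × Y => iY w.2)
      (by simp)
    obtain ⟨s, hs, hst⟩ := (isCompact_Icc (a := (0:ℝ)) (b := 1)).ultrafilter_le_nhds
      (𝒰.map t) (by
        rw [le_principal_iff, Ultrafilter.coe_map]
        exact mem_map.2 (Filter.univ_mem' fun w => ⟨(ht0 w).le, (ht1 w).le⟩))
    have hx' : Tendsto (fun w : X × Y => iX w.1) 𝒰 (𝓝 x) := hx
    have hy' : Tendsto (fun w : X × Y => iY w.2) 𝒰 (𝓝 y) := hy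
    have hs' : Tendsto t 𝒰 (𝓝 s) := hst
    have hζv : (ζ : JSp Xb Yb) = jPsi x y s := by
      have h3 : Tendsto F 𝒰 (𝓝 (ζ : JSp Xb Yb)) := (continuous_subtype_val.tendsto ζ).comp h2
      have h4 : Tendsto F 𝒰 (𝓝 (jPsi x y s)) :=
        (jPsi_tendsto_iff hs.1 hs.2).2 ⟨hs', fun _ => hx', fun _ => hy'⟩
      exact tendsto_nhds_unique h3 h4
    refine ⟨x, y, s, hlabel ζ x y s hs.1 hs.2 ?_ ?_ hζv⟩
    · rintro hs0 ⟨x0, rfl⟩
      have h3 : Tendsto (fun w : X × Y => w.1) 𝒰 (𝓝 x0) :=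
        hiX.isInducing.tendsto_nhds_iff.2 hx'
      obtain ⟨K, hK, hKe⟩ := join_bounded lX hlX hlX1 lY hlY1 hlYp (w := fun w : X × Y => w) hs0
        hs' h3
      obtain ⟨y0, -, hy0⟩ := hK.ultrafilter_le_nhds (𝒰.map fun w : X × Y => w.2) (by
        rw [le_principal_iff]
        exact hKe)
      have h4 : Tendsto (fun w : X × Y => w.2) 𝒰 (𝓝 y0) := hy0
      have h5 : Tendsto (fun w : X × Y => (w.1, w.2)) 𝒰 (𝓝 (x0, y0)) := h3.prodMk_nhds h4
      have h6 : Tendsto j 𝒰 (𝓝 (j (x0, y0))) := (hjc.tendsto _).comp h5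
      exact hζ ⟨(x0, y0), (tendsto_nhds_unique h2 h6).symm⟩
    · rintro hs1 ⟨y0, rfl⟩
      have h3 : Tendsto (fun w : X × Y => w.2) 𝒰 (𝓝 y0) :=
        hiY.isInducing.tendsto_nhds_iff.2 hy'
      have hs'' : Tendsto (fun w : X × Y => lY w.2 / (lY w.2 + lX w.1)) 𝒰 (𝓝 (1 - s)) := by
        have h7 : Tendsto (fun w : X × Y => 1 - t w) 𝒰 (𝓝 (1 - s)) := tendsto_const_nhds.sub hs'
        refine h7.congr fun w => ?_
        have h8 := hpos w
        have h9 : lY w.2 + lX w.1 ≠ 0 := by linarith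
        have h10 : lX w.1 + lY w.2 ≠ 0 := h8.ne'
        simp only [ht]
        rw [eq_div_iff h9, add_comm (lY w.2), sub_mul, div_mul_cancel₀ _ h10]
        ring
      obtain ⟨K, hK, hKe⟩ := join_bounded lY hlY hlY1 lX hlX1 hlXp
        (w := fun w : X × Y => (w.2, w.1)) (by linarith : 0 < 1 - s) hs'' h3
      obtain ⟨x0, -, hx0⟩ := hK.ultrafilter_le_nhds (𝒰.map fun w : X × Y => w.1) (by
        rw [le_principal_iff]
        exact hKe)
      have h4 : Tendsto (fun w : X × Y => w.1) 𝒰 (𝓝 x0) := hx0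
      have h5 : Tendsto (fun w : X × Y => (w.1, w.2)) 𝒰 (𝓝 (x0, y0)) := h4.prodMk_nhds h3
      have h6 : Tendsto j 𝒰 (𝓝 (j (x0, y0))) := (hjc.tendsto _).comp h5
      exact hζ ⟨(x0, y0), (tendsto_nhds_unique h2 h6).symm⟩
  · intro x y s h0 h1 hx hy α l w hl hts hxs hys
    have h2 : Tendsto (fun a => F (w a)) l (𝓝 (jPsi x y s)) :=
      (jPsi_tendsto_iff h0 h1).2 ⟨hts, hxs, hys⟩
    have h3 : jPsi x y s ∈ closure (range F) :=
      mem_closure_of_tendsto h2 (Filter.Eventually.of_forall fun a => ⟨w a, rfl⟩)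
    refine ⟨⟨jPsi x y s, h3⟩, ?_, hlabel _ x y s h0 h1 hx hy rfl⟩
    rintro ⟨w0, hw0⟩
    have h4 : F w0 = jPsi x y s := congrArg Subtype.val hw0
    obtain ⟨h5, h6, -⟩ := eq_of_jPsi_eq (ht0 w0).le (ht1 w0).le h4
    exact hx (by rw [h5]; exact ht0 w0) ⟨w0.1, (h6 (ht0 w0)).symm⟩

end Pool.Agent.ZStr
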