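import Pool.Agent.ZStr.Join

/-!
# The boundary of the join compactification is a Z-set (module JOINZ)
-/

namespace Pool.Agent.ZStr

open Set Topology Filter
open scoped unitInterval

/-- A family of points `Θ (f a, r a)` with `r a → 0` tends to `x0`, if `Θ (·, 0)` is the
constant map `x0`, by compactness of the first factor. -/
theorem theta_tendsto_zero {X Xb : Type} [TopologicalSpace X] [TopologicalSpace Xb]
    [CompactSpace Xb] (Θ : Xb × ℝ → X) (hΘ : Continuous Θ) (x0 : X)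
    (h0 : ∀ x r, r ≤ 0 → Θ (x, r) = x0) {α : Type*} (l : Filter α) (f : α → Xb) (r : α → ℝ)
    (hr : Tendsto r l (𝓝 0)) : Tendsto (fun a => Θ (f a, r a)) l (𝓝 x0) := by
  intro V hV
  obtain ⟨U, hUV, hUo, hU0⟩ := mem_nhds_iff.1 hV
  have hopen : IsOpen (Θ ⁻¹' U) := hUo.preimage hΘ
  obtain ⟨A, B, _, hB, hAu, hBv, hAB⟩ := generalized_tube_lemma
    (isCompact_univ : IsCompact (univ : Set Xb)) (isCompact_singleton : IsCompact ({0} : Set ℝ))
    hopen (by
      rintro ⟨x, s⟩ ⟨_, hs⟩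
      have hs0 : s = 0 := hs
      change Θ (x, s) ∈ U
      rw [h0 x s hs0.le]
      exact hU0)
  have hB0 : B ∈ 𝓝 (0 : ℝ) := hB.mem_nhds (hBv rfl)
  have hev : ∀ᶠ a in l, r a ∈ B := hr.eventually hB0
  change ∀ᶠ a in l, Θ (f a, r a) ∈ V
  filter_upwards [hev] with a ha
  exact hUV (hAB ⟨hAu (mem_univ _), ha⟩)

/-- The quotient estimate for the homotopy at infinity. -/
theorem ratio_close {a b t L C D : ℝ} (h0 : 0 ≤ t) (h1 : t ≤ 1) (hab : 0 < a + b)
    (ha : |a - t * L| ≤ C) (hb : |b - (1 - t) * L| ≤ D) :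
    |a / (a + b) - t| ≤ (C + D) / (a + b) := by
  have h : a / (a + b) - t = ((1 - t) * (a - t * L) - t * (b - (1 - t) * L)) / (a + b) := by
    field_simp
    ring
  rw [h, abs_div, abs_of_pos hab]
  apply div_le_div_of_nonneg_right _ hab.le
  have hC : 0 ≤ C := (abs_nonneg _).trans ha
  have hD : 0 ≤ D := (abs_nonneg _).trans hb
  calc |(1 - t) * (a - t * L) - t * (b - (1 - t) * L)|
      ≤ |(1 - t) * (a - t * L)| + |t * (b - (1 - t) * L)| := abs_sub _ _
    _ = (1 - t) * |a - t * L| + t * |b - (1 - t) * L| := by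
        rw [abs_mul, abs_mul, abs_of_nonneg h0, abs_of_nonneg (sub_nonneg.2 h1)]
    _ ≤ 1 * C + 1 * D := by
        apply add_le_add
        · exact mul_le_mul (by linarith) ha (abs_nonneg _) zero_le_one
        · exact mul_le_mul h1 hb (abs_nonneg _) zero_le_one
    _ = C + D := by ring

/-- Every point of `T` has a label, in the weak sense that convergence to the point implies
convergence of the coordinates. -/
theorem exists_weak_label {X Y Xb Yb T : Type} [TopologicalSpace X] [TopologicalSpace Y]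
    [TopologicalSpace Xb] [TopologicalSpace Yb] [TopologicalSpace T]
    (iX : X → Xb) (hiX : Continuous iX) (iY : Y → Yb) (hiY : Continuous iY)
    (t : X × Y → ℝ) (ht : Continuous t) (ht01 : ∀ w, 0 ≤ t w ∧ t w ≤ 1)
    (j : X × Y → T) (hj : IsJoin iX iY t j) (ζ : T) :
    ∃ (x : Xb) (y : Yb) (s : ℝ), 0 ≤ s ∧ s ≤ 1 ∧
      ∀ {α : Type} (l : Filter α) (w : α → X × Y), Tendsto (fun a => j (w a)) l (𝓝 ζ) →
        (Tendsto (fun a => t (w a)) l (𝓝 s) ∧
        (0 < s → Tendsto (fun a => iX (w a).1) l (𝓝 x)) ∧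
        (s < 1 → Tendsto (fun a => iY (w a).2) l (𝓝 y))) := by
  by_cases hζ : ζ ∈ range j
  · obtain ⟨w0, rfl⟩ := hζ
    refine ⟨iX w0.1, iY w0.2, t w0, (ht01 w0).1, (ht01 w0).2, fun {α} l w hw => ?_⟩
    have hw0 : Tendsto w l (𝓝 w0) := hj.emb.isInducing.tendsto_nhds_iff.2 hw
    refine ⟨(ht.tendsto w0).comp hw0, fun _ => ?_, fun _ => ?_⟩
    · exact ((hiX.comp continuous_fst).tendsto w0).comp hw0
    · exact ((hiY.comp continuous_snd).tendsto w0).comp hw0
  · obtain ⟨x, y, s, hl⟩ := hj.bdry ζ hζ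
    exact ⟨x, y, s, hl.nonneg, hl.le_one, fun {α} l w hw => (hl.conv l w).1 hw⟩

/-- The boundary of the join compactification is a Z-set.  The homotopy is, on `X × Y`,
`G_u (x, y) = (ΘX (x, t / u), ΘY (y, (1 - t) / u))` for `u > 0`. -/
theorem join_zset {X Y Xb Yb T : Type} [TopologicalSpace X] [TopologicalSpace Y]
    [TopologicalSpace Xb] [TopologicalSpace Yb] [TopologicalSpace T]
    [CompactSpace Xb] [T2Space Xb] [CompactSpace Yb] [T2Space Yb]
    (iX : X → Xb) (hiX : IsOpenEmbedding iX) (iY : Y → Yb) (hiY : IsOpenEmbedding iY)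
    (lX : X → ℝ) (hlX : Continuous lX) (hlX1 : ∀ x, 1 ≤ lX x)
    (hlXp : Tendsto lX (cocompact X) atTop)
    (lY : Y → ℝ) (hlY : Continuous lY) (hlY1 : ∀ y, 1 ≤ lY y)
    (hlYp : Tendsto lY (cocompact Y) atTop)
    (j : X × Y → T) (hj : IsJoin iX iY (fun w => lX w.1 / (lX w.1 + lY w.2)) j)
    (x0 : X) (ΘX : Xb × ℝ → X) (hΘX : Continuous ΘX) (hΘX0 : ∀ x r, r ≤ 0 → ΘX (x, r) = x0)
    (hΘXt : ∀ x : Xb, Tendsto (fun q : Xb × ℝ => iX (ΘX q)) (𝓝 x ×ˢ atTop) (𝓝 x))
    (CX : ℝ) (hΘXl : ∀ (x : X) (r : ℝ), 0 ≤ r → |lX (ΘX (iX x, r)) - min (lX x) r| ≤ CX)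
    (y0 : Y) (ΘY : Yb × ℝ → Y) (hΘY : Continuous ΘY) (hΘY0 : ∀ y r, r ≤ 0 → ΘY (y, r) = y0)
    (hΘYt : ∀ y : Yb, Tendsto (fun q : Yb × ℝ => iY (ΘY q)) (𝓝 y ×ˢ atTop) (𝓝 y))
    (CY : ℝ) (hΘYl : ∀ (y : Y) (r : ℝ), 0 ≤ r → |lY (ΘY (iY y, r)) - min (lY y) r| ≤ CY) :
    IsZSet (range j)ᶜ := by
  classical
  have := hj.compact
  have := hj.t2
  set t : X × Y → ℝ := fun w => lX w.1 / (lX w.1 + lY w.2) with ht_def
  have hpos : ∀ w : X × Y, 0 < lX w.1 + lY w.2 := fun w => by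
    have h1 := hlX1 w.1
    have h2 := hlY1 w.2
    linarith
  have htc : Continuous t := by
    apply Continuous.div
    · exact hlX.comp continuous_fst
    · exact (hlX.comp continuous_fst).add (hlY.comp continuous_snd)
    · exact fun w => (hpos w).ne'
  have ht01 : ∀ w, 0 < t w ∧ t w < 1 := fun w => by
    have h1 := hlX1 w.1
    have h2 := hlY1 w.2
    constructor
    · exact div_pos (by linarith) (hpos w)
    · rw [ht_def]
      change lX w.1 / (lX w.1 + lY w.2) < 1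
      rw [div_lt_one (hpos w)]
      linarith
  -- the homotopy on the interior
  set GG : (X × Y) × I → X × Y := fun q =>
    (ΘX (iX q.1.1, t q.1 / (q.2 : ℝ)), ΘY (iY q.1.2, (1 - t q.1) / (q.2 : ℝ))) with hGG
  set F : (X × Y) × I → T := fun q => if (q.2 : ℝ) = 0 then j q.1 else j (GG q) with hF
  have hdi : IsDenseInducing (Prod.map j (id : I → I)) :=
    IsDenseInducing.prodMap ⟨hj.emb.isInducing, hj.dense⟩ ⟨IsInducing.id, denseRange_id⟩
  have hfst : ∀ (ζ : T) (u0 : I),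
      Tendsto (fun q : (X × Y) × I => j q.1) (comap (Prod.map j (id : I → I)) (𝓝 (ζ, u0)))
        (𝓝 ζ) := fun ζ u0 =>
    ((continuous_fst.tendsto (ζ, u0)).comp tendsto_comap)
  have hsnd : ∀ (ζ : T) (u0 : I),
      Tendsto (fun q : (X × Y) × I => (q.2 : ℝ)) (comap (Prod.map j (id : I → I)) (𝓝 (ζ, u0)))
        (𝓝 (u0 : ℝ)) := fun ζ u0 =>
    (((continuous_subtype_val.comp continuous_snd).tendsto (ζ, u0)).comp tendsto_comap)
  -- limit at positive time
  have hA : ∀ (ζ : T) (u0 : I), 0 < (u0 : ℝ) → ∃ c ∈ range j,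
      Tendsto F (comap (Prod.map j (id : I → I)) (𝓝 (ζ, u0))) (𝓝 c) := by
    intro ζ u0 hu0
    obtain ⟨x, y, s, hs0, hs1, hlab⟩ := exists_weak_label iX hiX.continuous iY hiY.continuous
      t htc (fun w => ⟨(ht01 w).1.le, (ht01 w).2.le⟩) j hj ζ
    obtain ⟨hts, hxs, hys⟩ := hlab (comap (Prod.map j (id : I → I)) (𝓝 (ζ, u0)))
      (fun q => q.1) (hfst ζ u0)
    have hu := hsnd ζ u0
    refine ⟨j (ΘX (x, s / u0), ΘY (y, (1 - s) / u0)), mem_range_self _, ?_⟩
    have h1 : Tendsto (fun q : (X × Y) × I => ΘX (iX q.1.1, t q.1 / (q.2 : ℝ)))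
        (comap (Prod.map j (id : I → I)) (𝓝 (ζ, u0))) (𝓝 (ΘX (x, s / u0))) := by
      have hdiv : Tendsto (fun q : (X × Y) × I => t q.1 / (q.2 : ℝ))
          (comap (Prod.map j (id : I → I)) (𝓝 (ζ, u0))) (𝓝 (s / u0)) := hts.div hu hu0.ne'
      rcases hs0.lt_or_eq with hs | hs
      · exact (hΘX.tendsto (x, s / u0)).comp ((hxs hs).prodMk_nhds hdiv)
      · rw [← hs] at hdiv ⊢
        rw [zero_div] at hdiv ⊢
        rw [hΘX0 x 0 le_rfl]
        exact theta_tendsto_zero ΘX hΘX x0 hΘX0 _ _ _ hdiv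
    have h2 : Tendsto (fun q : (X × Y) × I => ΘY (iY q.1.2, (1 - t q.1) / (q.2 : ℝ)))
        (comap (Prod.map j (id : I → I)) (𝓝 (ζ, u0))) (𝓝 (ΘY (y, (1 - s) / u0))) := by
      have hdiv : Tendsto (fun q : (X × Y) × I => (1 - t q.1) / (q.2 : ℝ))
          (comap (Prod.map j (id : I → I)) (𝓝 (ζ, u0))) (𝓝 ((1 - s) / u0)) :=
        (tendsto_const_nhds.sub hts).div hu hu0.ne'
      rcases hs1.lt_or_eq with hs | hs
      · exact (hΘY.tendsto (y, (1 - s) / u0)).comp ((hys hs).prodMk_nhds hdiv)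
      · rw [hs, sub_self, zero_div] at hdiv ⊢
        rw [hΘY0 y 0 le_rfl]
        exact theta_tendsto_zero ΘY hΘY y0 hΘY0 _ _ _ hdiv
    have h3 : Tendsto (fun q => j (GG q)) (comap (Prod.map j (id : I → I)) (𝓝 (ζ, u0)))
        (𝓝 (j (ΘX (x, s / u0), ΘY (y, (1 - s) / u0)))) :=
      (hj.emb.continuous.tendsto _).comp (h1.prodMk_nhds h2)
    refine h3.congr' ?_
    filter_upwards [hu.eventually (lt_mem_nhds hu0)] with q hq
    simp only [hF]
    rw [if_neg (ne_of_gt hq)]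
  -- limit at time zero
  have hB : ∀ ζ : T, Tendsto F (comap (Prod.map j (id : I → I)) (𝓝 (ζ, (0 : I)))) (𝓝 ζ) := by
    intro ζ
    set l := comap (Prod.map j (id : I → I)) (𝓝 (ζ, (0 : I))) with hl
    refine Tendsto.if ((hfst ζ 0).mono_left inf_le_left) ?_
    set l' := l ⊓ 𝓟 {q : (X × Y) × I | ¬ ((q.2 : ℝ) = 0)} with hl'
    have hj1 : Tendsto (fun q : (X × Y) × I => j q.1) l' (𝓝 ζ) :=
      (hfst ζ 0).mono_left inf_le_left
    have hu : Tendsto (fun q : (X × Y) × I => (q.2 : ℝ)) l' (𝓝[>] 0) := by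
      rw [tendsto_nhdsWithin_iff]
      refine ⟨?_, ?_⟩
      · exact (hsnd ζ 0).mono_left (inf_le_left : l' ≤ l)
      · filter_upwards [mem_inf_of_right (mem_principal_self _)] with q hq
        exact lt_of_le_of_ne q.2.2.1 (Ne.symm hq)
    have huinv : Tendsto (fun q : (X × Y) × I => (q.2 : ℝ)⁻¹) l' atTop :=
      tendsto_inv_nhdsGT_zero.comp hu
    have hupos : ∀ᶠ q : (X × Y) × I in l', 0 < (q.2 : ℝ) :=
      (tendsto_nhdsWithin_iff.1 hu).2
    obtain ⟨x, y, s, hs0, hs1, hlab⟩ := exists_weak_label iX hiX.continuous iY hiY.continuous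
      t htc (fun w => ⟨(ht01 w).1.le, (ht01 w).2.le⟩) j hj ζ
    obtain ⟨hts, hxs, hys⟩ := hlab l' (fun q => q.1) hj1
    -- the coordinates of `GG` converge
    have hX : ∀ (x' : Xb) (s' : ℝ), 0 < s' →
        Tendsto (fun q : (X × Y) × I => t q.1) l' (𝓝 s') →
        Tendsto (fun q : (X × Y) × I => iX q.1.1) l' (𝓝 x') →
        Tendsto (fun q : (X × Y) × I => iX (GG q).1) l' (𝓝 x') := by
      intro x' s' hs' h1 h2
      have h3 : Tendsto (fun q : (X × Y) × I => t q.1 / (q.2 : ℝ)) l' atTop := by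
        simpa only [div_eq_mul_inv] using h1.pos_mul_atTop hs' huinv
      exact (hΘXt x').comp (h2.prodMk h3)
    have hY : ∀ (y' : Yb) (s' : ℝ), s' < 1 →
        Tendsto (fun q : (X × Y) × I => t q.1) l' (𝓝 s') →
        Tendsto (fun q : (X × Y) × I => iY q.1.2) l' (𝓝 y') →
        Tendsto (fun q : (X × Y) × I => iY (GG q).2) l' (𝓝 y') := by
      intro y' s' hs' h1 h2
      have h3 : Tendsto (fun q : (X × Y) × I => (1 - t q.1) / (q.2 : ℝ)) l' atTop := by
        have h4 : Tendsto (fun q : (X × Y) × I => 1 - t q.1) l' (𝓝 (1 - s')) :=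
          tendsto_const_nhds.sub h1
        simpa only [div_eq_mul_inv] using h4.pos_mul_atTop (sub_pos.2 hs') huinv
      exact (hΘYt y').comp (h2.prodMk h3)
    by_cases hζ : ζ ∈ range j
    · obtain ⟨w0, rfl⟩ := hζ
      have hw : Tendsto (fun q : (X × Y) × I => q.1) l' (𝓝 w0) :=
        hj.emb.isInducing.tendsto_nhds_iff.2 hj1
      have h1 := hX (iX w0.1) (t w0) (ht01 w0).1 ((htc.tendsto w0).comp hw)
        (((hiX.continuous.comp continuous_fst).tendsto w0).comp hw)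
      have h2 := hY (iY w0.2) (t w0) (ht01 w0).2 ((htc.tendsto w0).comp hw)
        (((hiY.continuous.comp continuous_snd).tendsto w0).comp hw)
      have h1' : Tendsto (fun q : (X × Y) × I => (GG q).1) l' (𝓝 w0.1) :=
        hiX.isInducing.tendsto_nhds_iff.2 h1
      have h2' : Tendsto (fun q : (X × Y) × I => (GG q).2) l' (𝓝 w0.2) :=
        hiY.isInducing.tendsto_nhds_iff.2 h2
      exact (hj.emb.continuous.tendsto w0).comp (h1'.prodMk_nhds h2')
    · obtain ⟨x1, y1, s1, hl1⟩ := hj.bdry ζ hζ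
      obtain ⟨hts1, hxs1, hys1⟩ := (hl1.conv l' (fun q => q.1)).1 hj1
      refine (hl1.conv l' GG).2 ⟨?_, fun h => hX x1 s1 h hts1 (hxs1 h),
        fun h => hY y1 s1 h hts1 (hys1 h)⟩
      -- `lX + lY` tends to infinity
      have hsum : Tendsto (fun q : (X × Y) × I => lX q.1.1 + lY q.1.2) l' atTop := by
        rw [tendsto_atTop]
        intro M
        obtain ⟨K1, hK1, hK1s⟩ := mem_cocompact.1 (hlXp.eventually_gt_atTop M)
        obtain ⟨K2, hK2, hK2s⟩ := mem_cocompact.1 (hlYp.eventually_gt_atTop M)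
        have hKc : IsCompact (j '' (K1 ×ˢ K2)) := (hK1.prod hK2).image hj.emb.continuous
        have hnot : (j '' (K1 ×ˢ K2))ᶜ ∈ 𝓝 ζ := by
          apply hKc.isClosed.isOpen_compl.mem_nhds
          rintro ⟨w, _, hw⟩
          exact hζ ⟨w, hw⟩
        filter_upwards [hj1 hnot] with q hq
        have hq' : ¬ (q.1.1 ∈ K1 ∧ q.1.2 ∈ K2) := fun h => hq ⟨q.1, ⟨h.1, h.2⟩, rfl⟩
        have h1 := hlX1 q.1.1
        have h2 := hlY1 q.1.2
        by_cases h3 : q.1.1 ∈ K1
        · have h4 : q.1.2 ∉ K2 := fun h => hq' ⟨h3, h⟩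
          have h5 : M < lY q.1.2 := hK2s h4
          linarith
        · have h5 : M < lX q.1.1 := hK1s h3
          linarith
      -- the quotient
      have hL : Tendsto (fun q : (X × Y) × I => min (lX q.1.1 + lY q.1.2) (q.2 : ℝ)⁻¹) l'
          atTop := by
        rw [tendsto_atTop]
        intro M
        filter_upwards [hsum.eventually_ge_atTop M, huinv.eventually_ge_atTop M] with q h1 h2
        exact le_min h1 h2
      have hest : ∀ᶠ q : (X × Y) × I in l',
          |lX (GG q).1 - t q.1 * min (lX q.1.1 + lY q.1.2) (q.2 : ℝ)⁻¹| ≤ CX ∧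
          |lY (GG q).2 - (1 - t q.1) * min (lX q.1.1 + lY q.1.2) (q.2 : ℝ)⁻¹| ≤ CY := by
        filter_upwards [hupos] with q hq
        have hne := (hpos q.1).ne'
        have e1 : t q.1 * (lX q.1.1 + lY q.1.2) = lX q.1.1 := by
          rw [ht_def]
          change lX q.1.1 / (lX q.1.1 + lY q.1.2) * (lX q.1.1 + lY q.1.2) = lX q.1.1
          exact div_mul_cancel₀ _ hne
        have e2 : (1 - t q.1) * (lX q.1.1 + lY q.1.2) = lY q.1.2 := by
          rw [sub_mul, e1]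
          ring
        constructor
        · have h1 := hΘXl q.1.1 (t q.1 / (q.2 : ℝ)) (div_nonneg (ht01 q.1).1.le hq.le)
          have h2 : t q.1 * min (lX q.1.1 + lY q.1.2) (q.2 : ℝ)⁻¹
              = min (lX q.1.1) (t q.1 / (q.2 : ℝ)) := by
            rw [mul_min_of_nonneg _ _ (ht01 q.1).1.le, e1, div_eq_mul_inv]
          rw [h2]
          exact h1
        · have h1 := hΘYl q.1.2 ((1 - t q.1) / (q.2 : ℝ))
            (div_nonneg (sub_nonneg.2 (ht01 q.1).2.le) hq.le)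
          have h2 : (1 - t q.1) * min (lX q.1.1 + lY q.1.2) (q.2 : ℝ)⁻¹
              = min (lY q.1.2) ((1 - t q.1) / (q.2 : ℝ)) := by
            rw [mul_min_of_nonneg _ _ (sub_nonneg.2 (ht01 q.1).2.le), e2, div_eq_mul_inv]
          rw [h2]
          exact h1
      have hdiff : Tendsto (fun q : (X × Y) × I => t (GG q) - t q.1) l' (𝓝 0) := by
        have hbig : Tendsto (fun q : (X × Y) × I => lX (GG q).1 + lY (GG q).2) l' atTop := by
          have h1 : Tendsto (fun q : (X × Y) × I =>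
              min (lX q.1.1 + lY q.1.2) (q.2 : ℝ)⁻¹ + (-(CX + CY))) l' atTop :=
            tendsto_atTop_add_const_right _ _ hL
          refine tendsto_atTop_mono' _ ?_ h1
          filter_upwards [hest] with q hq
          have h2 := (abs_le.1 hq.1).1
          have h3 := (abs_le.1 hq.2).1
          nlinarith [h2, h3]
        have hq0 : Tendsto (fun q : (X × Y) × I => (CX + CY) / (lX (GG q).1 + lY (GG q).2)) l'
            (𝓝 0) := tendsto_const_nhds.div_atTop hbig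
        refine squeeze_zero_norm' ?_ hq0
        filter_upwards [hest] with q hq
        rw [Real.norm_eq_abs]
        exact ratio_close (ht01 q.1).1.le (ht01 q.1).2.le (hpos (GG q)) hq.1 hq.2
      have := hdiff.add hts1
      simpa using this
  have hlim : ∀ b : T × I, ∃ c, Tendsto F (comap (Prod.map j (id : I → I)) (𝓝 b)) (𝓝 c) := by
    rintro ⟨ζ, u⟩
    by_cases hu : (u : ℝ) = 0
    · have hu' : u = 0 := Subtype.ext hu
      subst hu'
      exact ⟨ζ, hB ζ⟩
    · obtain ⟨c, _, hc⟩ := hA ζ u (lt_of_le_of_ne u.2.1 (Ne.symm hu))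
      exact ⟨c, hc⟩
  refine ⟨hj.emb.isOpen_range.isClosed_compl, hdi.extend F, hdi.continuous_extend hlim,
    fun ζ => hdi.extend_eq_of_tendsto (hB ζ), fun u hu ζ => ?_⟩
  obtain ⟨c, hc, hc'⟩ := hA ζ u (by exact_mod_cast hu)
  rw [hdi.extend_eq_of_tendsto hc']
  simpa using hc

end Pool.Agent.ZStr
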