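import Pool.Agent.ZStr.Defs

/-!
# Slow scales adapted to a Z-contraction (module SCALE)
-/

namespace Pool.Agent.ZStr

open Set Topology Filter
open scoped unitInterval

/-- A `1`-Lipschitz monotone scale with prescribed values at the radii `R n`. -/
theorem scaleFun_exists (R : ℕ → ℕ) (hR : StrictMono R) :
    ∃ κ : ℝ → ℝ, LipschitzWith 1 κ ∧ Monotone κ ∧ (∀ s, 1 ≤ κ s) ∧
      (∀ n : ℕ, κ (R n) = n + 1) := by
  have hbdd : ∀ t : ℝ, BddBelow (range fun n : ℕ => ((n : ℝ) + 1 + max 0 (t - R n))) := by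
    intro t
    refine ⟨1, ?_⟩
    rintro _ ⟨n, rfl⟩
    have h1 : (0 : ℝ) ≤ n := Nat.cast_nonneg n
    have h2 : (0 : ℝ) ≤ max 0 (t - R n) := le_max_left _ _
    simp only
    linarith
  have hstep : ∀ s t : ℝ, (⨅ n : ℕ, ((n : ℝ) + 1 + max 0 (s - R n))) ≤
      (⨅ n : ℕ, ((n : ℝ) + 1 + max 0 (t - R n))) + max 0 (s - t) := by
    intro s t
    rw [← sub_le_iff_le_add]
    refine le_ciInf fun n => ?_
    rw [sub_le_iff_le_add]
    refine (ciInf_le (hbdd s) n).trans ?_
    have h1 : max 0 (s - (R n : ℝ)) ≤ max 0 (t - R n) + max 0 (s - t) := by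
      refine max_le (add_nonneg (le_max_left _ _) (le_max_left _ _)) ?_
      have h2 := le_max_right 0 (t - (R n : ℝ))
      have h3 := le_max_right 0 (s - t)
      linarith
    linarith
  refine ⟨fun t => ⨅ n : ℕ, ((n : ℝ) + 1 + max 0 (t - R n)), ?_, ?_, ?_, ?_⟩
  · refine LipschitzWith.of_dist_le_mul fun s t => ?_
    rw [NNReal.coe_one, one_mul, Real.dist_eq, Real.dist_eq, abs_sub_le_iff]
    have h1 := hstep s t
    have h2 := hstep t s
    have h3 : max 0 (s - t) ≤ |s - t| := max_le (abs_nonneg _) (le_abs_self _)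
    have h4 : max 0 (t - s) ≤ |s - t| := by
      rw [abs_sub_comm]
      exact max_le (abs_nonneg _) (le_abs_self _)
    constructor <;> linarith
  · intro s t hst
    have h1 := hstep s t
    have h2 : max 0 (s - t) = 0 := max_eq_left (by linarith)
    rw [h2, add_zero] at h1
    exact h1
  · intro s
    refine le_ciInf fun n => ?_
    have h1 : (0 : ℝ) ≤ n := Nat.cast_nonneg n
    have h2 : (0 : ℝ) ≤ max 0 (s - R n) := le_max_left _ _
    linarith
  · intro n
    apply le_antisymm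
    · refine (ciInf_le (hbdd _) n).trans ?_
      simp
    · refine le_ciInf fun k => ?_
      rcases le_total n k with h | h
      · have h1 : (n : ℝ) ≤ k := by exact_mod_cast h
        have h2 : (0 : ℝ) ≤ max 0 ((R n : ℝ) - R k) := le_max_left _ _
        linarith
      · have h3 : R k + (n - k) ≤ R n := by
          have h4 := hR.add_le_nat (n - k) k
          rw [Nat.sub_add_cancel h] at h4
          omega
        have h5 : (R k : ℝ) + ((n : ℝ) - k) ≤ R n := by
          rw [← Nat.cast_sub h]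
          exact_mod_cast h3
        have h6 := le_max_right 0 ((R n : ℝ) - R k)
        linarith

/-- A continuous decreasing function with prescribed values at the natural numbers. -/
theorem speedFun_exists (a : ℕ → ℝ) (ha0 : a 0 = 1) (hpos : ∀ n, 0 < a n) (hanti : Antitone a) :
    ∃ f : ℝ → ℝ, Continuous f ∧ (∀ r, f r ≤ 1) ∧ (∀ r, 0 < f r) ∧
      (∀ (n : ℕ) r, (n : ℝ) ≤ r → f r ≤ a n) ∧ (∀ (n : ℕ) r, r ≤ (n : ℝ) → a n ≤ f r) := by
  have hle1 : ∀ n, a n ≤ 1 := fun n => ha0 ▸ hanti (Nat.zero_le n)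
  have hbdd : ∀ r : ℝ, BddAbove (range fun n : ℕ => min (a n) (max 0 ((n : ℝ) + 1 - r))) := by
    intro r
    refine ⟨1, ?_⟩
    rintro _ ⟨n, rfl⟩
    exact (min_le_left _ _).trans (hle1 n)
  have hstep : ∀ s t : ℝ, (⨆ n : ℕ, min (a n) (max 0 ((n : ℝ) + 1 - s))) ≤
      (⨆ n : ℕ, min (a n) (max 0 ((n : ℝ) + 1 - t))) + |s - t| := by
    intro s t
    refine ciSup_le fun n => ?_
    refine le_trans ?_ (add_le_add_left (le_ciSup (hbdd t) n) _)
    have h1 : max 0 ((n : ℝ) + 1 - s) ≤ max 0 ((n : ℝ) + 1 - t) + |s - t| := by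
      refine max_le (add_nonneg (le_max_left _ _) (abs_nonneg _)) ?_
      have h2 := le_max_right 0 ((n : ℝ) + 1 - t)
      have h3 : t - s ≤ |s - t| := by
        rw [abs_sub_comm]
        exact le_abs_self _
      linarith
    show min (a n) (max 0 ((n : ℝ) + 1 - s)) ≤ min (a n) (max 0 ((n : ℝ) + 1 - t)) + |s - t|
    rw [← min_add_add_right]
    refine le_min ((min_le_left _ _).trans ?_) ((min_le_right _ _).trans h1)
    have := abs_nonneg (s - t)
    linarith
  have hle : ∀ (n : ℕ) r, r ≤ (n : ℝ) →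
      a n ≤ ⨆ k : ℕ, min (a k) (max 0 ((k : ℝ) + 1 - r)) := by
    intro n r hr
    refine le_trans ?_ (le_ciSup (hbdd r) n)
    refine le_min le_rfl ?_
    refine (hle1 n).trans (le_trans ?_ (le_max_right _ _))
    linarith
  refine ⟨fun r => ⨆ n : ℕ, min (a n) (max 0 ((n : ℝ) + 1 - r)), ?_, ?_, ?_, ?_, hle⟩
  · have : LipschitzWith 1 (fun r : ℝ => ⨆ n : ℕ, min (a n) (max 0 ((n : ℝ) + 1 - r))) := by
      refine LipschitzWith.of_dist_le_mul fun s t => ?_
      rw [NNReal.coe_one, one_mul, Real.dist_eq, Real.dist_eq, abs_sub_le_iff]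
      have h1 := hstep s t
      have h2 := hstep t s
      rw [abs_sub_comm t s] at h2
      constructor <;> linarith
    exact this.continuous
  · intro r
    exact ciSup_le fun n => (min_le_left _ _).trans (hle1 n)
  · intro r
    obtain ⟨n, hn⟩ := exists_nat_ge r
    exact (hpos n).trans_le (hle n r hn)
  · intro n r hr
    refine ciSup_le fun k => ?_
    rcases le_or_gt n k with h | h
    · exact (min_le_left _ _).trans (hanti h)
    · have h1 : (k : ℝ) + 1 ≤ n := by exact_mod_cast h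
      have h2 : max 0 ((k : ℝ) + 1 - r) = 0 := max_eq_left (by linarith)
      refine (min_le_right _ _).trans ?_
      rw [h2]
      exact (hpos n).le

/-- A set of points of `X` whose image is contained in a compact set inside `range i` is
contained in a ball. -/
theorem ball_of_compact {X Xb : Type} [MetricSpace X] [ProperSpace X] [TopologicalSpace Xb]
    (i : X → Xb) (hi : IsOpenEmbedding i) (x0 : X) (S : Set Xb) (hS : IsCompact S)
    (hSi : S ⊆ range i) : ∃ R : ℕ, S ⊆ i '' Metric.closedBall x0 R := by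
  have h1 : IsCompact (i ⁻¹' S) := (hi.isInducing.isCompact_preimage_iff hSi).2 hS
  obtain ⟨r, hr⟩ := h1.isBounded.subset_closedBall x0
  obtain ⟨n, hn⟩ := exists_nat_ge r
  refine ⟨n, fun y hy => ?_⟩
  obtain ⟨x, rfl⟩ := hSi hy
  exact ⟨x, Metric.closedBall_subset_closedBall hn (hr hy), rfl⟩

/-- SCALE LEMMA.  `K` is a homotopy of the compactification `Xb` of `X`, contracting it to
`i x0`, instantly into `X`.  For every requirement `m` there are radii `R n` growing at least as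
fast as `m` prescribes, a scale `κ` (`1`-Lipschitz, monotone, `≥ 1`, with `κ (R n) = n + 1`) and
a reparametrised contraction `Θ ( · , r)`, `r ∈ ℝ`, with values in `X`, constant `x0` for
`r ≤ 0`, tending to the identity for `r → ∞`, and such that in the scale `κ` the size of
`Θ (x, r)` is the minimum of `r` and the size of `x`, up to an additive constant. -/
theorem exists_scale {X Xb : Type} [MetricSpace X] [ProperSpace X] [TopologicalSpace Xb]
    [CompactSpace Xb] [T2Space Xb] (i : X → Xb) (hi : IsOpenEmbedding i) (x0 : X)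
    (K : Xb × I → Xb) (hK : Continuous K) (hK0 : ∀ x, K (x, 0) = x) (hK1 : ∀ x, K (x, 1) = i x0)
    (hKt : ∀ x (t : I), 0 < t → K (x, t) ∈ range i)
    (m : ℕ → ℕ → ℕ) :
    ∃ (R : ℕ → ℕ) (κ : ℝ → ℝ) (Θ : Xb × ℝ → X) (C : ℝ),
      StrictMono R ∧ (∀ n, m n (R n) ≤ R (n + 1)) ∧
      LipschitzWith 1 κ ∧ Monotone κ ∧ (∀ s, 1 ≤ κ s) ∧ (∀ n : ℕ, κ (R n) = n + 1) ∧
      Continuous Θ ∧ (∀ x r, r ≤ 0 → Θ (x, r) = x0) ∧
      (∀ x : Xb, Tendsto (fun q : Xb × ℝ => i (Θ q)) (𝓝 x ×ˢ atTop) (𝓝 x)) ∧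
      (∀ (x : X) (r : ℝ), 0 ≤ r →
        |κ (dist (Θ (i x, r)) x0) - min (κ (dist x x0)) r| ≤ C) := by
  -- one step of the recursion
  have hstep : ∀ (n : ℕ) (p : ℕ × {a : ℝ // 0 < a ∧ a ≤ 1}),
      ∃ q : ℕ × {a : ℝ // 0 < a ∧ a ≤ 1}, p.1 < q.1 ∧ m n p.1 ≤ q.1 ∧
        (q.2 : ℝ) ≤ (p.2 : ℝ) / 2 ∧
        (∀ (x : Xb) (s : I), (s : ℝ) ≤ (q.2 : ℝ) → x ∉ i '' Metric.ball x0 q.1 →
          K (x, s) ∉ i '' Metric.closedBall x0 p.1) ∧
        (∀ (x : Xb) (s : I), (p.2 : ℝ) ≤ (s : ℝ) → K (x, s) ∈ i '' Metric.closedBall x0 q.1) ∧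
        (∀ (x : X) (s : I), dist x x0 ≤ p.1 →
          K (i x, s) ∈ i '' Metric.closedBall x0 q.1) := by
    rintro n ⟨R, ⟨a, ha0, ha1⟩⟩
    simp only
    -- the compact sets of (ii), (iii)
    have hc2 : IsCompact (K '' (univ ×ˢ {s : I | a ≤ (s : ℝ)})) := by
      refine IsCompact.image (isCompact_univ.prod ?_) hK
      exact (isClosed_le continuous_const continuous_subtype_val).isCompact
    have hc2r : K '' (univ ×ˢ {s : I | a ≤ (s : ℝ)}) ⊆ range i := by
      rintro _ ⟨⟨x, s⟩, ⟨-, hs⟩, rfl⟩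
      refine hKt x s ?_
      rw [← Subtype.coe_lt_coe]
      exact ha0.trans_le hs
    obtain ⟨R2, hR2⟩ := ball_of_compact i hi x0 _ hc2 hc2r
    have hc3 : IsCompact (K '' ((i '' Metric.closedBall x0 R) ×ˢ (univ : Set I))) := by
      refine IsCompact.image (IsCompact.prod ?_ isCompact_univ) hK
      exact (isCompact_closedBall x0 _).image hi.continuous
    have hc3r : K '' ((i '' Metric.closedBall x0 R) ×ˢ (univ : Set I)) ⊆ range i := by
      rintro _ ⟨⟨x, s⟩, ⟨hx, -⟩, rfl⟩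
      rcases eq_or_lt_of_le (unitInterval.nonneg s) with h | h
      · have hs : s = 0 := by
          apply Subtype.ext
          exact h.symm
        rw [hs, hK0]
        obtain ⟨y, -, rfl⟩ := hx
        exact ⟨y, rfl⟩
      · refine hKt x s ?_
        rw [← Subtype.coe_lt_coe]
        exact h
    obtain ⟨R3, hR3⟩ := ball_of_compact i hi x0 _ hc3 hc3r
    set Q : ℕ := max (max (R + 1) (m n R)) (max R2 R3) with hQ
    have hQ1 : R < Q := by omega
    have hQ2 : m n R ≤ Q := by omega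
    have hQ3 : R2 ≤ Q := by omega
    have hQ4 : R3 ≤ Q := by omega
    have hmon : ∀ S : ℕ, S ≤ Q →
        i '' Metric.closedBall x0 (S : ℝ) ⊆ i '' Metric.closedBall x0 (Q : ℝ) := by
      intro S hS
      refine image_mono (Metric.closedBall_subset_closedBall ?_)
      exact_mod_cast hS
    -- (i)
    have hcl : IsCompact ((i '' Metric.ball x0 Q)ᶜ) :=
      (hi.isOpenMap _ Metric.isOpen_ball).isClosed_compl.isCompact
    have hev : ∀ᶠ s : I in 𝓝 0, ∀ x ∈ (i '' Metric.ball x0 Q)ᶜ,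
        K (x, s) ∉ i '' Metric.closedBall x0 R := by
      refine IsCompact.eventually_forall_of_forall_eventually hcl fun x hx => ?_
      have hopen : IsOpen {z : I × Xb | K (z.2, z.1) ∉ i '' Metric.closedBall x0 R} := by
        have h1 : IsClosed (i '' Metric.closedBall x0 (R : ℝ)) :=
          ((isCompact_closedBall x0 _).image hi.continuous).isClosed
        exact (h1.preimage (hK.comp continuous_swap)).isOpen_compl
      refine hopen.mem_nhds ?_
      show K (x, 0) ∉ i '' Metric.closedBall x0 R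
      rw [hK0]
      rintro ⟨y, hy, rfl⟩
      refine hx ⟨y, ?_, rfl⟩
      rw [Metric.mem_closedBall] at hy
      rw [Metric.mem_ball]
      refine hy.trans_lt ?_
      exact_mod_cast hQ1
    rw [Metric.eventually_nhds_iff] at hev
    obtain ⟨ε, hε, hev⟩ := hev
    refine ⟨(Q, ⟨min (a / 2) (ε / 2), lt_min (by linarith) (by linarith),
      (min_le_left _ _).trans (by linarith)⟩), hQ1, hQ2, min_le_left _ _, ?_, ?_, ?_⟩
    · intro x s hs hx
      refine hev ?_ x hx
      rw [Subtype.dist_eq, Real.dist_eq, Set.Icc.coe_zero, sub_zero,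
        abs_of_nonneg s.2.1]
      have : (s : ℝ) ≤ ε / 2 := hs.trans (min_le_right _ _)
      linarith
    · intro x s hs
      exact hmon R2 hQ3 (hR2 ⟨(x, s), ⟨mem_univ _, hs⟩, rfl⟩)
    · intro x s hx
      exact hmon R3 hQ4 (hR3 ⟨(i x, s), ⟨⟨x, hx, rfl⟩, mem_univ _⟩, rfl⟩)
  obtain ⟨R, a, hR, hRm, ha0, hapos, hahalf, hi1, hi2, hi3⟩ : ∃ (R : ℕ → ℕ) (a : ℕ → ℝ),
      StrictMono R ∧ (∀ n, m n (R n) ≤ R (n + 1)) ∧ a 0 = 1 ∧ (∀ n, 0 < a n) ∧
      (∀ n, a (n + 1) ≤ a n / 2) ∧
      (∀ (n : ℕ) (x : Xb) (s : I), (s : ℝ) ≤ a (n + 1) →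
        x ∉ i '' Metric.ball x0 (R (n + 1)) → K (x, s) ∉ i '' Metric.closedBall x0 (R n)) ∧
      (∀ (n : ℕ) (x : Xb) (s : I), a n ≤ (s : ℝ) →
        K (x, s) ∈ i '' Metric.closedBall x0 (R (n + 1))) ∧
      (∀ (n : ℕ) (x : X) (s : I), dist x x0 ≤ R n →
        K (i x, s) ∈ i '' Metric.closedBall x0 (R (n + 1))) := by
    choose step hs1 hs2 hs3 hs4 hs5 hs6 using hstep
    let P : ℕ → ℕ × {a : ℝ // 0 < a ∧ a ≤ 1} := fun n =>
      Nat.rec (0, ⟨1, one_pos, le_rfl⟩) (fun k p => step k p) n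
    have hPs : ∀ n, P (n + 1) = step n (P n) := fun n => rfl
    refine ⟨fun n => (P n).1, fun n => ((P n).2 : ℝ), ?_, ?_, rfl, fun n => (P n).2.2.1,
      ?_, ?_, ?_, ?_⟩
    · exact strictMono_nat_of_lt_succ fun n => by
        show (P n).1 < (P (n + 1)).1
        rw [hPs]
        exact hs1 n (P n)
    · intro n
      show m n (P n).1 ≤ (P (n + 1)).1
      rw [hPs]
      exact hs2 n (P n)
    · intro n
      show ((P (n + 1)).2 : ℝ) ≤ ((P n).2 : ℝ) / 2
      rw [hPs]
      exact hs3 n (P n)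
    · intro n
      show ∀ (x : Xb) (s : I), (s : ℝ) ≤ ((P (n + 1)).2 : ℝ) →
        x ∉ i '' Metric.ball x0 ((P (n + 1)).1) → K (x, s) ∉ i '' Metric.closedBall x0 ((P n).1)
      rw [hPs]
      exact hs4 n (P n)
    · intro n
      show ∀ (x : Xb) (s : I), ((P n).2 : ℝ) ≤ (s : ℝ) →
        K (x, s) ∈ i '' Metric.closedBall x0 ((P (n + 1)).1)
      rw [hPs]
      exact hs5 n (P n)
    · intro n
      show ∀ (x : X) (s : I), dist x x0 ≤ ((P n).1 : ℝ) →
        K (i x, s) ∈ i '' Metric.closedBall x0 ((P (n + 1)).1)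
      rw [hPs]
      exact hs6 n (P n)
  have haanti : Antitone a := antitone_nat_of_succ_le fun n => by
    have h1 := hahalf n
    have h2 := hapos n
    linarith
  have hapow : ∀ n, a n ≤ (1 / 2) ^ n := by
    intro n
    induction n with
    | zero => rw [ha0, pow_zero]
    | succ n ih =>
      have h1 := hahalf n
      rw [pow_succ]
      linarith
  obtain ⟨κ, hκL, hκm, hκ1, hκR⟩ := scaleFun_exists R hR
  obtain ⟨f, hfc, hf1, hfpos, hfle, hfge⟩ := speedFun_exists a ha0 hapos haanti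
  let F : ℝ → I := fun r => ⟨f r, (hfpos r).le, hf1 r⟩
  have hFc : Continuous F := hfc.subtype_mk _
  have hmem : ∀ q : Xb × ℝ, K (q.1, F q.2) ∈ range i := by
    intro q
    refine hKt _ _ ?_
    rw [← Subtype.coe_lt_coe]
    exact hfpos q.2
  let Θ : Xb × ℝ → X := fun q => hi.isEmbedding.toHomeomorph.symm ⟨K (q.1, F q.2), hmem q⟩
  have hΘ : ∀ q, i (Θ q) = K (q.1, F q.2) := by
    intro q
    have h1 := hi.isEmbedding.toHomeomorph.apply_symm_apply ⟨K (q.1, F q.2), hmem q⟩
    have h2 := congrArg Subtype.val h1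
    exact h2
  have hΘc : Continuous Θ := by
    refine hi.isEmbedding.toHomeomorph.symm.continuous.comp (Continuous.subtype_mk ?_ _)
    exact hK.comp (continuous_fst.prodMk (hFc.comp continuous_snd))
  have hball : ∀ (q : Xb × ℝ) (T : ℝ), K (q.1, F q.2) ∈ i '' Metric.closedBall x0 T →
      dist (Θ q) x0 ≤ T := by
    rintro q T ⟨y, hy, hyq⟩
    rw [← hΘ] at hyq
    rw [← hi.injective hyq]
    exact hy
  refine ⟨R, κ, Θ, 3, hR, hRm, hκL, hκm, hκ1, hκR, hΘc, ?_, ?_, ?_⟩
  · intro x r hr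
    apply hi.injective
    rw [hΘ]
    have h1 : f r = 1 := le_antisymm (hf1 r) (by
      have := hfge 0 r (by simpa using hr)
      rwa [ha0] at this)
    have h2 : F r = 1 := Subtype.ext h1
    show K (x, F r) = i x0
    rw [h2, hK1]
  · intro x
    have hF0 : Tendsto F atTop (𝓝 0) := by
      rw [tendsto_subtype_rng]
      rw [Set.Icc.coe_zero]
      rw [Metric.tendsto_atTop]
      intro ε hε
      obtain ⟨n, hn⟩ := exists_pow_lt_of_lt_one hε (by norm_num : (1 / 2 : ℝ) < 1)
      refine ⟨n, fun r hr => ?_⟩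
      rw [Real.dist_eq, sub_zero, abs_of_pos (hfpos r)]
      exact ((hfle n r hr).trans (hapow n)).trans_lt hn
    have h1 : Tendsto (fun q : Xb × ℝ => (q.1, F q.2)) (𝓝 x ×ˢ atTop) (𝓝 (x, 0)) := by
      rw [nhds_prod_eq]
      exact tendsto_id.prodMap hF0
    have h2 : Tendsto (fun q : Xb × ℝ => K (q.1, F q.2)) (𝓝 x ×ˢ atTop) (𝓝 (K (x, 0))) :=
      (hK.tendsto _).comp h1
    rw [hK0] at h2
    refine h2.congr fun q => ?_
    exact (hΘ q).symm
  · intro x r hr
    -- the natural number `k` with `|x| ≤ R k`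
    have hex : ∃ k : ℕ, dist x x0 ≤ R k := by
      obtain ⟨k, hk⟩ := exists_nat_ge (dist x x0)
      refine ⟨k, hk.trans ?_⟩
      exact_mod_cast hR.id_le k
    have hup1 : κ (dist (Θ (i x, r)) x0) ≤ κ (dist x x0) + 2 := by
      classical
      obtain ⟨hk, hkmin⟩ : dist x x0 ≤ R (Nat.find hex) ∧ ∀ j < Nat.find hex, R j < dist x x0 :=
        ⟨Nat.find_spec hex, fun j hj => not_le.1 (Nat.find_min hex hj)⟩
      set k := Nat.find hex
      have h1 : dist (Θ (i x, r)) x0 ≤ R (k + 1) := hball _ _ (hi3 k x _ hk)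
      have h2 : κ (dist (Θ (i x, r)) x0) ≤ k + 2 := by
        refine (hκm h1).trans ?_
        rw [hκR]
        push_cast
        linarith
      rcases Nat.eq_zero_or_pos k with h0 | h0
      · have h3 := hκ1 (dist x x0)
        rw [h0] at h2
        push_cast at h2
        linarith
      · obtain ⟨j, hj⟩ : ∃ j, k = j + 1 := ⟨k - 1, by omega⟩
        have h4 : (R j : ℝ) < dist x x0 := hkmin j (by omega)
        have h5 := hκm h4.le
        rw [hκR] at h5
        rw [hj] at h2
        push_cast at h2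
        linarith
    have hup2 : κ (dist (Θ (i x, r)) x0) ≤ r + 3 := by
      have h1 : r ≤ ((⌊r⌋₊ + 1 : ℕ) : ℝ) := by
        push_cast
        exact (Nat.lt_floor_add_one r).le
      have h2 : dist (Θ (i x, r)) x0 ≤ R (⌊r⌋₊ + 1 + 1) :=
        hball _ _ (hi2 _ _ _ (hfge _ _ h1))
      have h3 := hκm h2
      rw [hκR] at h3
      push_cast at h3
      have h4 := Nat.floor_le hr
      linarith
    have hlow : min (κ (dist x x0)) r ≤ κ (dist (Θ (i x, r)) x0) + 2 := by
      classical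
      by_contra hcon
      push Not at hcon
      -- take `j = ⌊min - 2⌋ + 1`
      have hmin1 := (lt_min_iff.1 hcon).1
      have hmin2 := (lt_min_iff.1 hcon).2
      have hge := hκ1 (dist (Θ (i x, r)) x0)
      set y := κ (dist (Θ (i x, r)) x0) with hy
      -- `j` with `j ≤ y < j + 1`
      set j := ⌊y⌋₊ with hj
      have hj1 : (j : ℝ) ≤ y := Nat.floor_le (by linarith)
      have hj2 : y < j + 1 := Nat.lt_floor_add_one y
      -- `R (j + 1) ≤ |x|`
      have h1 : (R (j + 1) : ℝ) ≤ dist x x0 := by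
        by_contra h
        push Not at h
        have h2 := hκm h.le
        rw [hκR] at h2
        push_cast at h2
        linarith
      have h3 : ((j + 1 : ℕ) : ℝ) ≤ r := by
        push_cast
        linarith
      have h4 : K (i x, F r) ∉ i '' Metric.closedBall x0 (R j) := by
        refine hi1 j (i x) (F r) (hfle (j + 1) r h3) ?_
        rintro ⟨z, hz, hzx⟩
        rw [hi.injective hzx] at hz
        exact absurd (Metric.mem_ball.1 hz) (not_lt.2 h1)
      have h5 : (R j : ℝ) < dist (Θ (i x, r)) x0 := by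
        by_contra h
        push Not at h
        apply h4
        refine ⟨Θ (i x, r), h, ?_⟩
        exact hΘ (i x, r)
      have h6 := hκm h5.le
      rw [hκR] at h6
      linarith
    rw [abs_le]
    constructor
    · linarith
    · have h7 : κ (dist (Θ (i x, r)) x0) - 3 ≤ min (κ (dist x x0)) r :=
        le_min (by linarith) (by linarith)
      linarith

/-- Slowness of `κ` with respect to a given function, from fast growth of the radii. -/
theorem scale_slow (R : ℕ → ℕ) (hR : StrictMono R) (κ : ℝ → ℝ) (hκ : Monotone κ)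
    (hκ1 : ∀ s, 1 ≤ κ s) (hκR : ∀ n : ℕ, κ (R n) = n + 1) (b : ℝ → ℝ) (hb : Monotone b)
    (n0 : ℕ) (h : ∀ n, n0 ≤ n → b (R n) ≤ R (n + 1)) :
    ∃ B : ℝ, ∀ s, κ (b s) ≤ κ s + B := by
  classical
  refine ⟨n0 + 2, fun s => ?_⟩
  have hex : ∃ n : ℕ, n0 ≤ n ∧ s ≤ R n := by
    obtain ⟨k, hk⟩ := exists_nat_ge s
    refine ⟨max n0 k, le_max_left _ _, hk.trans ?_⟩
    have h1 : k ≤ R (max n0 k) := (le_max_right n0 k).trans (hR.id_le _)
    exact_mod_cast h1
  obtain ⟨⟨hn0, hn1⟩, hmin⟩ : (n0 ≤ Nat.find hex ∧ s ≤ R (Nat.find hex)) ∧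
      ∀ j < Nat.find hex, ¬ (n0 ≤ j ∧ s ≤ R j) :=
    ⟨Nat.find_spec hex, fun j hj => Nat.find_min hex hj⟩
  set n := Nat.find hex
  have h1 : κ (b s) ≤ n + 2 := by
    have h2 := hκ ((hb hn1).trans (h n hn0))
    rw [hκR] at h2
    push_cast at h2
    linarith
  rcases eq_or_lt_of_le hn0 with h3 | h3
  · have h4 := hκ1 s
    rw [← h3] at h1
    linarith
  · obtain ⟨j, hj⟩ : ∃ j, n = j + 1 := ⟨n - 1, by omega⟩
    have h4 : (R j : ℝ) < s := by
      by_contra h5
      push Not at h5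
      exact hmin j (by omega) ⟨by omega, h5⟩
    have h5 := hκ h4.le
    rw [hκR] at h5
    rw [hj] at h1
    push_cast at h1
    have h6 : (0 : ℝ) ≤ n0 := Nat.cast_nonneg n0
    linarith

end Pool.Agent.ZStr
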