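import Pool.Agent.ZStr.Join
import Pool.Agent.ZStr.Scale
import Pool.Agent.ZStr.Contr
import Pool.Agent.ZStr.JoinZ

/-!
# Control in the join compactification (module JOINC)
-/

namespace Pool.Agent.ZStr

open Set Topology Filter
open scoped unitInterval

/-- Two points of `X × Y` are *near*: their `Y`-coordinates are at distance at most `ρ`, their
`X`-coordinates at distance at most `c (|y|)`, where `|y| = dist y y0`. -/
def Near {X Y : Type} [MetricSpace X] [MetricSpace Y] (y0 : Y) (ρ : ℝ) (c : ℝ → ℝ)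
    (w w' : X × Y) : Prop :=
  dist w.2 w'.2 ≤ ρ ∧ dist w.1 w'.1 ≤ c (dist w.2 y0)

theorem Near.symm {X Y : Type} [MetricSpace X] [MetricSpace Y] {y0 : Y} {ρ : ℝ} {c : ℝ → ℝ}
    (hc : Monotone c) {w w' : X × Y} (h : Near y0 ρ c w w') :
    Near y0 ρ (fun a => c (a + ρ)) w' w := by
  refine ⟨by rw [dist_comm]; exact h.1, ?_⟩
  rw [dist_comm]
  refine h.2.trans (hc ?_)
  have h1 := dist_triangle w.2 w'.2 y0
  have h2 := h.1
  linarith

theorem dist_tendsto_of_boundary {X Xb : Type*} [MetricSpace X] [ProperSpace X]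
    [TopologicalSpace Xb] [T2Space Xb] (i : X → Xb) (hi : IsOpenEmbedding i) (x0 : X)
    {α : Type*} (l : Filter α) (u : α → X) (x : Xb) (hx : x ∉ range i)
    (h : Tendsto (fun a => i (u a)) l (𝓝 x)) :
    Tendsto (fun a => dist (u a) x0) l atTop := by
  have h1 : Tendsto u l (cocompact X) := by
    rw [(hasBasis_cocompact (X := X)).tendsto_right_iff]
    intro K hK
    have hc : IsCompact (i '' K) := hK.image hi.continuous
    have hmem : (i '' K)ᶜ ∈ 𝓝 x := by
      refine hc.isClosed.isOpen_compl.mem_nhds ?_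
      rintro ⟨y, -, hy⟩
      exact hx ⟨y, hy⟩
    filter_upwards [h hmem] with a ha hK'
    exact ha ⟨u a, hK', rfl⟩
  exact (tendsto_dist_right_cocompact_atTop x0).comp h1

/-- CONTROL IN THE JOIN, for one pair `(ρ, c)`. -/
theorem join_control {X Y Xb Yb T : Type} [MetricSpace X] [ProperSpace X] [MetricSpace Y]
    [ProperSpace Y] [MetricSpace Xb] [CompactSpace Xb] [TopologicalSpace Yb]
    [CompactSpace Yb] [T2Space Yb] [TopologicalSpace T]
    (iX : X → Xb) (hiX : IsOpenEmbedding iX) (iY : Y → Yb) (hiY : IsOpenEmbedding iY)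
    (hcY : ControlCondition Y Yb iY) (x0 : X) (y0 : Y)
    (κX κY : ℝ → ℝ)
    (hκX : LipschitzWith 1 κX) (hκXm : Monotone κX) (hκX1 : ∀ s, 1 ≤ κX s)
    (hκXt : Tendsto κX atTop atTop)
    (hκY : LipschitzWith 1 κY) (hκYm : Monotone κY) (hκY1 : ∀ s, 1 ≤ κY s)
    (hκYt : Tendsto κY atTop atTop)
    (j : X × Y → T)
    (hj : IsJoin iX iY
      (fun w => κX (dist w.1 x0) / (κX (dist w.1 x0) + κY (dist w.2 y0))) j)
    (ρ : ℝ) (c : ℝ → ℝ) (hc : Monotone c)
    (hdbl : ∃ B : ℝ, ∀ s, κX (2 * s) ≤ κX s + B)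
    (hslow : Tendsto (fun a => κX (2 * c (a + ρ)) / κY a) atTop (𝓝 0))
    (hclose : ∀ ε : ℝ, 0 < ε → ∃ D : ℝ → ℝ, Monotone D ∧
      (∀ R, ∀ x x' : X, D R ≤ dist x x0 → dist x x' ≤ R → dist (iX x) (iX x') < ε) ∧
      Tendsto (fun a => κX (D (c a)) / κY a) atTop (𝓝 0)) :
    ∀ {α : Type} (l : Filter α) (w w' : α → X × Y) (ζ : T), ζ ∉ range j →
      (∀ᶠ a in l, Near y0 ρ c (w a) (w' a)) →
      Tendsto (fun a => j (w a)) l (𝓝 ζ) → Tendsto (fun a => j (w' a)) l (𝓝 ζ) := by
  intro α l w w' ζ hζ hnear hw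
  by_cases hρ : ρ < 0
  · have : l = ⊥ := by
      rw [← Filter.eventually_false_iff_eq_bot]
      filter_upwards [hnear] with a ha
      have := ha.1
      have := dist_nonneg (x := (w a).2) (y := (w' a).2)
      linarith
    rw [this]
    exact tendsto_bot
  push Not at hρ
  obtain ⟨x, y, s, hl⟩ := hj.bdry ζ hζ
  obtain ⟨ht, hx, hy⟩ := (hl.conv l w).1 hw
  obtain ⟨B0, hB0⟩ := hdbl
  have hB0' : 0 ≤ B0 := by
    have := hB0 0
    simp at this
    exact this
  set A : α → ℝ := fun a => κX (dist (w a).1 x0) with hA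
  set B : α → ℝ := fun a => κY (dist (w a).2 y0) with hB
  set A' : α → ℝ := fun a => κX (dist (w' a).1 x0) with hA'
  set B' : α → ℝ := fun a => κY (dist (w' a).2 y0) with hB'
  have hA1 : ∀ a, 1 ≤ A a := fun a => hκX1 _
  have hB1 : ∀ a, 1 ≤ B a := fun a => hκY1 _
  have hA1' : ∀ a, 1 ≤ A' a := fun a => hκX1 _
  have hB1' : ∀ a, 1 ≤ B' a := fun a => hκY1 _
  -- the total size tends to infinity
  have hAinf : 0 < s → Tendsto A l atTop := fun hs =>
    hκXt.comp (dist_tendsto_of_boundary iX hiX x0 l (fun a => (w a).1) x (hl.hx hs) (hx hs))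
  have hBinf : s < 1 → Tendsto B l atTop := fun hs =>
    hκYt.comp (dist_tendsto_of_boundary iY hiY y0 l (fun a => (w a).2) y (hl.hy hs) (hy hs))
  have hAB : Tendsto (fun a => A a + B a) l atTop := by
    by_cases hs : 0 < s
    · refine tendsto_atTop_mono (fun a => ?_) (hAinf hs)
      have := hB1 a
      linarith
    · refine tendsto_atTop_mono (fun a => ?_) (hBinf (by linarith))
      have := hA1 a
      linarith
  refine (hl.conv l w').2 ⟨?_, ?_, ?_⟩
  · -- the parameters
    have hdiff : ∀ᶠ a in l, |A' a / (A' a + B' a) - A a / (A a + B a)| ≤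
        (B0 + ρ + κX (2 * c (dist (w a).2 y0))) / (A a + B a) := by
      filter_upwards [hnear] with a ha
      have h1 : |B' a - B a| ≤ ρ := by
        have h2 := hκY.dist_le_mul (dist (w' a).2 y0) (dist (w a).2 y0)
        rw [Real.dist_eq, Real.dist_eq, NNReal.coe_one, one_mul] at h2
        refine h2.trans ?_
        refine (abs_dist_sub_le _ _ _).trans ?_
        rw [dist_comm]
        exact ha.1
      have hkey : ∀ p q : X, dist p q ≤ c (dist (w a).2 y0) →
          κX (dist p x0) ≤ κX (dist q x0) + (B0 + κX (2 * c (dist (w a).2 y0))) := by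
        intro p q hpq
        have h3 : dist p x0 ≤ dist q x0 + c (dist (w a).2 y0) := by
          have := dist_triangle p q x0
          linarith
        have h4 : 0 ≤ κX (2 * c (dist (w a).2 y0)) := by
          have := hκX1 (2 * c (dist (w a).2 y0))
          linarith
        rcases le_total (dist q x0) (c (dist (w a).2 y0)) with h5 | h5
        · have h6 : κX (dist p x0) ≤ κX (2 * c (dist (w a).2 y0)) := hκXm (by linarith)
          have := hκX1 (dist q x0)
          linarith
        · have h6 : κX (dist p x0) ≤ κX (2 * dist q x0) := hκXm (by linarith)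
          have := hB0 (dist q x0)
          linarith
      have h2 : |A a - A' a| ≤ B0 + κX (2 * c (dist (w a).2 y0)) := by
        rw [abs_le]
        have h3 := hkey (w a).1 (w' a).1 ha.2
        have h4 := hkey (w' a).1 (w a).1 (by rw [dist_comm]; exact ha.2)
        constructor
        · simp only [hA, hA']
          linarith
        · simp only [hA, hA']
          linarith
      have hp1 : 0 < A a + B a := by linarith [hA1 a, hB1 a]
      have hp2 : 0 < A' a + B' a := by linarith [hA1' a, hB1' a]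
      have hid : A' a / (A' a + B' a) - A a / (A a + B a) =
          ((A' a - A a) * B' a + A' a * (B a - B' a)) / ((A a + B a) * (A' a + B' a)) := by
        field_simp
        ring
      rw [hid, abs_div, abs_of_pos (mul_pos hp1 hp2), div_le_div_iff₀ (mul_pos hp1 hp2) hp1]
      have h3 : |(A' a - A a) * B' a + A' a * (B a - B' a)| ≤
          (B0 + ρ + κX (2 * c (dist (w a).2 y0))) * (A' a + B' a) := by
        refine (abs_add_le _ _).trans ?_
        rw [abs_mul, abs_mul]
        have hb : |B' a| = B' a := abs_of_pos (by linarith [hB1' a])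
        have ha' : |A' a| = A' a := abs_of_pos (by linarith [hA1' a])
        rw [hb, ha', abs_sub_comm (A' a), abs_sub_comm (B a)]
        have h4 : 0 ≤ κX (2 * c (dist (w a).2 y0)) := by
          have := hκX1 (2 * c (dist (w a).2 y0))
          linarith
        have h5 := mul_le_mul_of_nonneg_right h2 (by linarith [hB1' a] : 0 ≤ B' a)
        have h6 := mul_le_mul_of_nonneg_left h1 (by linarith [hA1' a] : 0 ≤ A' a)
        have h7 : 0 ≤ ρ * B' a := mul_nonneg hρ (by linarith [hB1' a])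
        have h8 : 0 ≤ (B0 + κX (2 * c (dist (w a).2 y0))) * A' a :=
          mul_nonneg (by linarith) (by linarith [hA1' a])
        nlinarith
      have h4 := mul_le_mul_of_nonneg_right h3 hp1.le
      linarith
    have hzero : Tendsto (fun a => (B0 + ρ + κX (2 * c (dist (w a).2 y0))) / (A a + B a)) l
        (𝓝 0) := by
      have h1 : Tendsto (fun a => (B0 + ρ) / (A a + B a)) l (𝓝 0) :=
        tendsto_const_nhds.div_atTop hAB
      have h2 : Tendsto (fun a => κX (2 * c (dist (w a).2 y0)) / (A a + B a)) l (𝓝 0) := by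
        rw [Metric.tendsto_nhds]
        intro ε hε
        rw [Metric.tendsto_nhds] at hslow
        obtain ⟨a0, ha0⟩ := eventually_atTop.1 (hslow ε hε)
        have h3 : ∀ᶠ a in l, κX (2 * c a0) < ε * (A a + B a) := by
          have := (hAB.const_mul_atTop hε).eventually_gt_atTop (κX (2 * c a0))
          exact this
        filter_upwards [h3] with a ha
        have hp1 : 0 < A a + B a := by linarith [hA1 a, hB1 a]
        have hp : 0 < κX (2 * c (dist (w a).2 y0)) := by
          have := hκX1 (2 * c (dist (w a).2 y0))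
          linarith
        rw [Real.dist_eq, sub_zero, abs_of_pos (div_pos hp hp1), div_lt_iff₀ hp1]
        rcases le_total a0 (dist (w a).2 y0) with h4 | h4
        · have h5 := ha0 _ h4
          have hpB : 0 < κY (dist (w a).2 y0) := by
            have := hκY1 (dist (w a).2 y0)
            linarith
          have hpc : 0 < κX (2 * c (dist (w a).2 y0 + ρ)) := by
            have := hκX1 (2 * c (dist (w a).2 y0 + ρ))
            linarith
          rw [Real.dist_eq, sub_zero, abs_of_pos (div_pos hpc hpB), div_lt_iff₀ hpB] at h5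
          have h6 : κX (2 * c (dist (w a).2 y0)) ≤ κX (2 * c (dist (w a).2 y0 + ρ)) := by
            refine hκXm ?_
            have := hc (by linarith : dist (w a).2 y0 ≤ dist (w a).2 y0 + ρ)
            linarith
          have h7 : ε * κY (dist (w a).2 y0) ≤ ε * (A a + B a) := by
            refine mul_le_mul_of_nonneg_left ?_ hε.le
            have := hA1 a
            simp only [hB]
            linarith
          linarith
        · have h5 : κX (2 * c (dist (w a).2 y0)) ≤ κX (2 * c a0) := by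
            refine hκXm ?_
            have := hc h4
            linarith
          linarith
      have h3 := h1.add h2
      rw [add_zero] at h3
      refine h3.congr fun a => ?_
      rw [← add_div]
    have h1 : Tendsto (fun a => A' a / (A' a + B' a) - A a / (A a + B a)) l (𝓝 0) := by
      rw [tendsto_zero_iff_abs_tendsto_zero]
      refine tendsto_of_tendsto_of_tendsto_of_le_of_le' tendsto_const_nhds hzero
        (Eventually.of_forall fun a => abs_nonneg _) hdiff
    have h2 := h1.add ht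
    rw [zero_add] at h2
    refine h2.congr fun a => ?_
    simp only [hA, hB, hA', hB']
    ring
  · -- the X-coordinate
    intro hs
    have hx' := hx hs
    rw [Metric.tendsto_nhds]
    intro ε hε
    rw [Metric.tendsto_nhds] at hx'
    obtain ⟨D, hDm, hD, hDs⟩ := hclose (ε / 2) (half_pos hε)
    have hs2 : 0 < s / 2 := half_pos hs
    have ht2 : ∀ᶠ a in l, s / 2 < A a / (A a + B a) :=
      ht.eventually_const_lt (by linarith)
    rw [Metric.tendsto_nhds] at hDs
    obtain ⟨a0, ha0⟩ := eventually_atTop.1 (hDs (s / 2) hs2)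
    have hdist : Tendsto (fun a => dist (w a).1 x0) l atTop :=
      dist_tendsto_of_boundary iX hiX x0 l (fun a => (w a).1) x (hl.hx hs) (hx hs)
    filter_upwards [hx' (ε / 2) (half_pos hε), ht2, hdist.eventually_ge_atTop (D (c a0)),
      hnear] with a h1 h2 h3 h4
    have hp1 : 0 < A a + B a := by linarith [hA1 a, hB1 a]
    have h5 : D (c (dist (w a).2 y0)) ≤ dist (w a).1 x0 := by
      rcases le_total a0 (dist (w a).2 y0) with h6 | h6
      · have h7 := ha0 _ h6
        have hpB : 0 < κY (dist (w a).2 y0) := by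
          have := hκY1 (dist (w a).2 y0)
          linarith
        have hpD : 0 < κX (D (c (dist (w a).2 y0))) := by
          have := hκX1 (D (c (dist (w a).2 y0)))
          linarith
        rw [Real.dist_eq, sub_zero, abs_of_pos (div_pos hpD hpB), div_lt_iff₀ hpB] at h7
        rw [lt_div_iff₀ hp1] at h2
        by_contra hcon
        push Not at hcon
        have h8 : κX (dist (w a).1 x0) ≤ κX (D (c (dist (w a).2 y0))) := hκXm hcon.le
        have h9 : s / 2 * κY (dist (w a).2 y0) ≤ s / 2 * (A a + B a) := by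
          refine mul_le_mul_of_nonneg_left ?_ hs2.le
          have := hA1 a
          simp only [hB]
          linarith
        have h10 : A a = κX (dist (w a).1 x0) := rfl
        linarith
      · exact (hDm (hc h6)).trans h3
    have h6 := hD _ (w a).1 (w' a).1 h5 h4.2
    calc dist (iX (w' a).1) x ≤ dist (iX (w' a).1) (iX (w a).1) + dist (iX (w a).1) x :=
          dist_triangle _ _ _
      _ < ε / 2 + ε / 2 := by
          rw [dist_comm (iX (w' a).1)]
          exact add_lt_add h6 h1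
      _ = ε := add_halves ε
  · -- the Y-coordinate
    intro hs
    refine control_filter iY hiY hcY ρ l (fun a => (w a).2) (fun a => (w' a).2) ?_ y (hl.hy hs)
      (hy hs)
    filter_upwards [hnear] with a ha using ha.1

/-- The ratio of the two scales tends to zero. -/
theorem ratio_tendsto (RX RY : ℕ → ℕ) (κX κY : ℝ → ℝ) (hRY : StrictMono RY)
    (hκX1 : ∀ s, 1 ≤ κX s) (hκXm : Monotone κX) (hκXR : ∀ n : ℕ, κX (RX n) = n + 1)
    (hκY1 : ∀ s, 1 ≤ κY s) (hκYm : Monotone κY) (hκYR : ∀ n : ℕ, κY (RY n) = n + 1)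
    (hκYt : Tendsto κY atTop atTop)
    (f : ℝ → ℝ) (hf : Monotone f) (i0 : ℕ)
    (h : ∀ n, i0 ≤ n → f (RY ((n + 2) ^ 2)) ≤ RX (n + 1)) :
    Tendsto (fun a => κX (f a) / κY a) atTop (𝓝 0) := by
  have hbound : ∀ a : ℝ, (RY ((i0 + 1) ^ 2) : ℝ) ≤ a → κX (f a) ≤ 1 + Real.sqrt (κY a) := by
    intro a ha
    have hex : ∃ n : ℕ, i0 ≤ n ∧ a < RY ((n + 2) ^ 2) := by
      obtain ⟨m, hm⟩ := exists_nat_gt a
      refine ⟨max i0 m, le_max_left _ _, hm.trans_le ?_⟩
      have h1 : (max i0 m + 2) ^ 2 ≤ RY ((max i0 m + 2) ^ 2) := hRY.id_le _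
      have h2 : m ≤ (max i0 m + 2) ^ 2 := by
        have : m ≤ max i0 m := le_max_right _ _
        nlinarith
      exact_mod_cast h2.trans h1
    classical
    obtain ⟨h1, h2⟩ := Nat.find_spec hex
    set n := Nat.find hex with hn
    have h3 : (RY ((n + 1) ^ 2) : ℝ) ≤ a := by
      rcases Nat.eq_or_lt_of_le h1 with h4 | h4
      · rw [← h4]
        exact ha
      · have h5 := Nat.find_min hex (m := n - 1) (by omega)
        rw [not_and, not_lt] at h5
        have h6 := h5 (by omega)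
        have h7 : n - 1 + 2 = n + 1 := by omega
        rw [h7] at h6
        exact h6
    have h4 : κX (f a) ≤ n + 2 := by
      have h5 := (hf h2.le).trans (h n h1)
      have h6 := hκXm h5
      rw [hκXR] at h6
      push_cast at h6
      linarith
    have h5 : ((n : ℝ) + 1) ^ 2 ≤ κY a := by
      have h6 := hκYm h3
      rw [hκYR] at h6
      push_cast at h6
      linarith
    have h6 : (n : ℝ) + 1 ≤ Real.sqrt (κY a) := by
      apply Real.le_sqrt_of_sq_le
      exact h5
    linarith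
  have h1 : Tendsto (fun a => (1 + Real.sqrt (κY a)) / κY a) atTop (𝓝 0) := by
    have h2 : Tendsto (fun a => 1 / κY a) atTop (𝓝 0) := tendsto_const_nhds.div_atTop hκYt
    have h3 : Tendsto (fun a => 1 / Real.sqrt (κY a)) atTop (𝓝 0) :=
      tendsto_const_nhds.div_atTop (Real.tendsto_sqrt_atTop.comp hκYt)
    have h4 := h2.add h3
    rw [add_zero] at h4
    refine h4.congr fun a => ?_
    have h5 : 0 < κY a := by linarith [hκY1 a]
    have h6 : Real.sqrt (κY a) / κY a = 1 / Real.sqrt (κY a) := by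
      rw [div_eq_div_iff h5.ne' (Real.sqrt_pos.2 h5).ne', Real.mul_self_sqrt h5.le, one_mul]
    rw [add_div, h6]
  refine tendsto_of_tendsto_of_tendsto_of_le_of_le' tendsto_const_nhds h1
    (Eventually.of_forall fun a => ?_) ?_
  · have h2 : 0 < κY a := by linarith [hκY1 a]
    have h3 : 0 < κX (f a) := by linarith [hκX1 (f a)]
    positivity
  · filter_upwards [eventually_ge_atTop ((RY ((i0 + 1) ^ 2) : ℕ) : ℝ)] with a ha
    have h2 : 0 < κY a := by linarith [hκY1 a]
    exact div_le_div_of_nonneg_right (hbound a ha) h2.le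

/-- THE JOIN THEOREM: the compactification needed for the extension theorem. -/
theorem exists_joinCompactification {X Y Xb Yb : Type} [MetricSpace X] [ProperSpace X]
    [ContractibleSpace X] [MetricSpace Y] [ProperSpace Y] [ContractibleSpace Y]
    [TopologicalSpace Xb] [CompactSpace Xb] [T2Space Xb] [TopologicalSpace Yb]
    [CompactSpace Yb] [T2Space Yb]
    (iX : X → Xb) (hiX : IsOpenEmbedding iX) (hzX : IsZSet (range iX)ᶜ)
    (hcX : ControlCondition X Xb iX)
    (iY : Y → Yb) (hiY : IsOpenEmbedding iY) (hzY : IsZSet (range iY)ᶜ)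
    (hcY : ControlCondition Y Yb iY) (x0 : X) (y0 : Y)
    (ρ : ℕ → ℝ) (c : ℕ → ℝ → ℝ) (hc : ∀ k, Monotone (c k))
    (b : ℕ → ℝ → ℝ) (hb : ∀ k, Monotone (b k)) :
    ∃ (κX κY : ℝ → ℝ) (T : Type) (_ : TopologicalSpace T) (j : X × Y → T),
      LipschitzWith 1 κX ∧ Monotone κX ∧ (∀ s, 1 ≤ κX s) ∧ Tendsto κX atTop atTop ∧
      LipschitzWith 1 κY ∧ Monotone κY ∧ (∀ s, 1 ≤ κY s) ∧ Tendsto κY atTop atTop ∧
      IsJoin iX iY
        (fun w => κX (dist w.1 x0) / (κX (dist w.1 x0) + κY (dist w.2 y0))) j ∧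
      IsZSet (range j)ᶜ ∧
      (∀ k, ∀ {α : Type} (l : Filter α) (w w' : α → X × Y) (ζ : T), ζ ∉ range j →
        (∀ᶠ a in l, Near y0 (ρ k) (c k) (w a) (w' a)) →
        Tendsto (fun a => j (w a)) l (𝓝 ζ) → Tendsto (fun a => j (w' a)) l (𝓝 ζ)) ∧
      (∀ k, ∃ B : ℝ, ∀ s, κX (b k s) ≤ κX s + B) ∧
      (∀ k, Tendsto (fun a => κX (c k a) / κY a) atTop (𝓝 0)) := by
  have hmet : TopologicalSpace.MetrizableSpace Xb := metrizable_of_zset iX hiX hzX
  letI mXb : MetricSpace Xb := TopologicalSpace.metrizableSpaceMetric Xb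
  obtain ⟨KX, hKX, hKX0, hKX1, hKXt⟩ := exists_Zcontraction iX hiX hzX x0
  obtain ⟨KY, hKY, hKY0, hKY1, hKYt⟩ := exists_Zcontraction iY hiY hzY y0
  -- the scale on `Y`
  obtain ⟨RY, κY, ΘY, CY, hRY, -, hLY, hmY, h1Y, hYR, hΘY, hΘY0, hΘYt, hΘYl⟩ :=
    exists_scale iY hiY y0 KY hKY hKY0 hKY1 hKYt (fun _ _ => 0)
  -- the functions `D` for `ε = 1 / (n + 1)`
  have hD : ∀ n : ℕ, ∃ D : ℝ → ℝ, Monotone D ∧
      ∀ R, ∀ x x' : X, D R ≤ dist x x0 → dist x x' ≤ R → dist (iX x) (iX x') < 1 / (n + 1) := by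
    intro n
    have h1 : ∀ m : ℕ, ∃ D : ℝ, ∀ x x' : X, D ≤ dist x x0 → dist x x' ≤ m →
        dist (iX x) (iX x') < 1 / ((n : ℝ) + 1) := fun m =>
      control_metric iX hiX hcX x0 m _ (by positivity)
    choose D0 hD0 using h1
    refine ⟨fun R => ∑ m ∈ Finset.range (⌈R⌉₊ + 1), |D0 m|, ?_, ?_⟩
    · intro R R' hRR
      refine Finset.sum_le_sum_of_subset_of_nonneg ?_ fun _ _ _ => abs_nonneg _
      refine Finset.range_mono ?_
      have := Nat.ceil_mono hRR
      omega
    · intro R x x' hx hxx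
      refine hD0 ⌈R⌉₊ x x' ?_ (hxx.trans (Nat.le_ceil R))
      refine (le_abs_self _).trans (le_trans ?_ hx)
      refine Finset.single_le_sum (f := fun m => |D0 m|) (fun _ _ => abs_nonneg _) ?_
      exact Finset.mem_range.2 (Nat.lt_succ_self _)
  choose D hDm hD using hD
  -- the functions that must be small in the scale on `X`
  let f2 : ℕ → ℝ → ℝ := fun k a => 2 * c k (a + ρ k)
  let f3 : ℕ → ℝ → ℝ := fun k a => D k.unpair.1 (c k.unpair.2 a)
  have hf2 : ∀ k, Monotone (f2 k) := fun k p q hpq => by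
    have := hc k (by linarith : p + ρ k ≤ q + ρ k)
    simp only [f2]
    linarith
  have hf3 : ∀ k, Monotone (f3 k) := fun k p q hpq => hDm _ (hc _ hpq)
  let m : ℕ → ℕ → ℕ := fun n r => 2 * r + ∑ i ∈ Finset.range (n + 1),
    (⌈b i r⌉₊ + ⌈c i (RY ((n + 2) ^ 2))⌉₊ + ⌈f2 i (RY ((n + 2) ^ 2))⌉₊ +
      ⌈f3 i (RY ((n + 2) ^ 2))⌉₊)
  obtain ⟨RX, κX, ΘX, CX, hRX, hmRX, hLX, hmX, h1X, hXR, hΘX, hΘX0, hΘXt, hΘXl⟩ :=
    exists_scale iX hiX x0 KX hKX hKX0 hKX1 hKXt m
  have hm1 : ∀ n i, i ≤ n → ⌈b i (RX n)⌉₊ + ⌈c i (RY ((n + 2) ^ 2))⌉₊ +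
      ⌈f2 i (RY ((n + 2) ^ 2))⌉₊ + ⌈f3 i (RY ((n + 2) ^ 2))⌉₊ ≤ RX (n + 1) := by
    intro n i hi
    refine le_trans ?_ (hmRX n)
    refine le_trans ?_ (Nat.le_add_left _ _)
    exact Finset.single_le_sum (f := fun i => ⌈b i (RX n)⌉₊ + ⌈c i (RY ((n + 2) ^ 2))⌉₊ +
      ⌈f2 i (RY ((n + 2) ^ 2))⌉₊ + ⌈f3 i (RY ((n + 2) ^ 2))⌉₊) (fun _ _ => Nat.zero_le _)
      (Finset.mem_range.2 (Nat.lt_succ_of_le hi))
  have hmb : ∀ n i, i ≤ n → b i (RX n) ≤ RX (n + 1) := fun n i hi => by
    refine (Nat.le_ceil _).trans ?_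
    have := hm1 n i hi
    exact_mod_cast (by omega : ⌈b i (RX n)⌉₊ ≤ RX (n + 1))
  have hmc : ∀ n i, i ≤ n → c i (RY ((n + 2) ^ 2)) ≤ RX (n + 1) := fun n i hi => by
    refine (Nat.le_ceil _).trans ?_
    have := hm1 n i hi
    exact_mod_cast (by omega : ⌈c i (RY ((n + 2) ^ 2))⌉₊ ≤ RX (n + 1))
  have hmf2 : ∀ n i, i ≤ n → f2 i (RY ((n + 2) ^ 2)) ≤ RX (n + 1) := fun n i hi => by
    refine (Nat.le_ceil _).trans ?_
    have := hm1 n i hi
    exact_mod_cast (by omega : ⌈f2 i (RY ((n + 2) ^ 2))⌉₊ ≤ RX (n + 1))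
  have hmf3 : ∀ n i, i ≤ n → f3 i (RY ((n + 2) ^ 2)) ≤ RX (n + 1) := fun n i hi => by
    refine (Nat.le_ceil _).trans ?_
    have := hm1 n i hi
    exact_mod_cast (by omega : ⌈f3 i (RY ((n + 2) ^ 2))⌉₊ ≤ RX (n + 1))
  have hm2 : ∀ n, (2 : ℝ) * RX n ≤ RX (n + 1) := fun n => by
    have h1 : 2 * RX n ≤ RX (n + 1) := le_trans (Nat.le_add_right _ _) (hmRX n)
    exact_mod_cast h1
  have hκt : ∀ (R : ℕ → ℕ) (κ : ℝ → ℝ), Monotone κ → (∀ n : ℕ, κ (R n) = n + 1) →
      Tendsto κ atTop atTop := by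
    intro R κ hm hR
    refine tendsto_atTop_atTop.2 fun B => ⟨R ⌈B⌉₊, fun a ha => ?_⟩
    have h1 := hm ha
    rw [hR] at h1
    have h2 := Nat.le_ceil B
    linarith
  have htX := hκt RX κX hmX hXR
  have htY := hκt RY κY hmY hYR
  -- the join
  have hlX : Continuous fun x : X => κX (dist x x0) := hLX.continuous.comp (by fun_prop)
  have hlY : Continuous fun y : Y => κY (dist y y0) := hLY.continuous.comp (by fun_prop)
  have hlXp : Tendsto (fun x : X => κX (dist x x0)) (cocompact X) atTop :=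
    htX.comp (tendsto_dist_right_cocompact_atTop x0)
  have hlYp : Tendsto (fun y : Y => κY (dist y y0)) (cocompact Y) atTop :=
    htY.comp (tendsto_dist_right_cocompact_atTop y0)
  obtain ⟨T, topT, j, hj⟩ := exists_join iX hiX iY hiY (fun x => κX (dist x x0)) hlX
    (fun x => h1X _) hlXp (fun y => κY (dist y y0)) hlY (fun y => h1Y _) hlYp
  have hz : IsZSet (range j)ᶜ := join_zset iX hiX iY hiY (fun x => κX (dist x x0)) hlX
    (fun x => h1X _) hlXp (fun y => κY (dist y y0)) hlY (fun y => h1Y _) hlYp j hj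
    x0 ΘX hΘX hΘX0 hΘXt CX hΘXl y0 ΘY hΘY hΘY0 hΘYt CY hΘYl
  refine ⟨κX, κY, T, topT, j, hLX, hmX, h1X, htX, hLY, hmY, h1Y, htY, hj, hz, ?_, ?_, ?_⟩
  · intro k
    refine join_control iX hiX iY hiY hcY x0 y0 κX κY hLX hmX h1X htX hLY hmY h1Y htY j hj
      (ρ k) (c k) (hc k) ?_ ?_ ?_
    · exact scale_slow RX hRX κX hmX h1X hXR (fun s => 2 * s)
        (fun p q hpq => by simpa using hpq) 0 (fun n _ => hm2 n)
    · exact ratio_tendsto RX RY κX κY hRY h1X hmX hXR h1Y hmY hYR htY (f2 k) (hf2 k) k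
        (fun n hn => hmf2 n k hn)
    · intro ε hε
      obtain ⟨n, hn⟩ := exists_nat_one_div_lt hε
      refine ⟨D n, hDm n, fun R x x' hx hxx => (hD n R x x' hx hxx).trans hn, ?_⟩
      have h1 := ratio_tendsto RX RY κX κY hRY h1X hmX hXR h1Y hmY hYR htY
        (f3 (Nat.pair n k)) (hf3 _) (Nat.pair n k) (fun n' hn' => hmf3 n' _ hn')
      simp only [f3, Nat.unpair_pair] at h1
      exact h1
  · intro k
    exact scale_slow RX hRX κX hmX h1X hXR (b k) (hb k) k (fun n hn => hmb n k hn)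
  · intro k
    exact ratio_tendsto RX RY κX κY hRY h1X hmX hXR h1Y hmY hYR htY (c k) (hc k) k
      (fun n hn => hmc n k hn)

end Pool.Agent.ZStr
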