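import Pool.Agent.ZStr.Psi
import Pool.Agent.ZStr.JoinC

/-!
# Coarse equivalence of `E` and `X × Y` (module MAPS2)
-/

namespace Pool.Agent.ZStr

open Set Topology Filter
open scoped unitInterval

namespace Setup

variable {G : Type*} [Group G] {N : Subgroup G} {E X Y : Type}
    [MetricSpace E] [MetricSpace X] [MetricSpace Y]
    [MulAction G E] [MulAction N X] [MulAction G Y] (S : Setup G N E X Y)

/-- A uniform version of the control of `φX`: the bound is one monotone function of the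
maximum of the distance to `g e0` and of `|g y0|`. -/
theorem phiX_bound (φX : E → X)
    (hφXc : ∀ R : ℝ, ∃ c : ℝ → ℝ, Monotone c ∧ (∀ t, 0 ≤ c t) ∧ ∀ (e : E) (g : G),
      dist e (g • S.e0) ≤ R →
      dist (φX e) (S.p g • S.x0) ≤ c (dist (g • S.y0) S.y0)) :
    ∃ c : ℝ → ℝ, Monotone c ∧ (∀ t, 0 ≤ c t) ∧ ∀ (e : E) (g : G),
      dist (φX e) (S.p g • S.x0) ≤ c (max (dist e (g • S.e0)) (dist (g • S.y0) S.y0)) := by
  obtain ⟨c, hc, hc0, hcb⟩ := exists_monotone_bound
    (fun a : E × G => max (dist a.1 (a.2 • S.e0)) (dist (a.2 • S.y0) S.y0))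
    (fun a : E × G => dist (φX a.1) (S.p a.2 • S.x0)) (by
      intro r
      obtain ⟨c, hc, -, hcb⟩ := hφXc r
      exact ⟨c r, fun a ha => (hcb a.1 a.2 ((le_max_left _ _).trans ha)).trans
        (hc ((le_max_right _ _).trans ha))⟩)
  exact ⟨c, hc, hc0, fun e g => hcb (e, g)⟩

/-- The map `φY` is coarsely equivariant. -/
theorem phiY_equiv (φY : E → Y)
    (hφYc : ∀ R : ℝ, ∃ C : ℝ, 0 ≤ C ∧ ∀ (e : E) (g : G), dist e (g • S.e0) ≤ R →
      dist (φY e) (g • S.y0) ≤ C) :
    ∃ C : ℝ, 0 ≤ C ∧ ∀ (g : G) (e : E), dist (φY (g • e)) (g • φY e) ≤ C := by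
  obtain ⟨rE, hrE⟩ := S.netE
  obtain ⟨C, hC0, hC⟩ := hφYc rE
  refine ⟨2 * C, by linarith, fun g e => ?_⟩
  obtain ⟨k, hk⟩ := hrE e
  have h1 := hC e k hk
  have h2 : dist (g • e) ((g * k) • S.e0) ≤ rE := by
    rw [mul_smul, S.dist_smulE]
    exact hk
  have h3 := hC (g • e) (g * k) h2
  rw [mul_smul] at h3
  have h4 : dist (g • φY e) (g • k • S.y0) ≤ C := by
    rw [S.dist_smulY]
    exact h1
  have h5 := dist_triangle_right (φY (g • e)) (g • φY e) (g • k • S.y0)
  linarith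

/-- The pair `(φX, φY)` is proper. -/
theorem phi_proper (φX : E → X)
    (hφXc : ∀ R : ℝ, ∃ c : ℝ → ℝ, Monotone c ∧ (∀ t, 0 ≤ c t) ∧ ∀ (e : E) (g : G),
      dist e (g • S.e0) ≤ R →
      dist (φX e) (S.p g • S.x0) ≤ c (dist (g • S.y0) S.y0))
    (φY : E → Y)
    (hφYc : ∀ R : ℝ, ∃ C : ℝ, 0 ≤ C ∧ ∀ (e : E) (g : G), dist e (g • S.e0) ≤ R →
      dist (φY e) (g • S.y0) ≤ C) :
    Tendsto (fun e => (φX e, φY e)) (cocompact E) (cocompact (X × Y)) := by
  have := S.properE
  have := S.properX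
  have := S.properY
  rw [← Metric.cobounded_eq_cocompact, ← Metric.cobounded_eq_cocompact]
  rw [(Metric.hasBasis_cobounded_compl_closedBall S.e0).tendsto_iff
    (Metric.hasBasis_cobounded_compl_closedBall (S.x0, S.y0))]
  intro b _
  obtain ⟨rE, hrE⟩ := S.netE
  obtain ⟨C, hC0, hC⟩ := hφYc rE
  obtain ⟨c, hcm, hc0, hc⟩ := hφXc rE
  obtain ⟨c', hcm', hc0', hc'⟩ := S.coarse_inj (b + C)
    (fun _ => b + c (b + C) + dist S.x0 (S.p 1 • S.x0)) monotone_const
  refine ⟨rE + c' (b + C), trivial, fun e he hb => he ?_⟩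
  rw [Metric.mem_closedBall, Prod.dist_eq, max_le_iff] at hb
  obtain ⟨hbX, hbY⟩ := hb
  simp only at hbX hbY
  obtain ⟨g, hg⟩ := hrE e
  have h1 := hC e g hg
  have h2 : dist (g • S.y0) S.y0 ≤ b + C := by
    have := dist_triangle_left (g • S.y0) S.y0 (φY e)
    linarith
  have h3 := (hc e g hg).trans (hcm h2)
  have h4 : dist (S.p g • S.x0) (S.p 1 • S.x0) ≤
      b + c (b + C) + dist S.x0 (S.p 1 • S.x0) := by
    have := dist_triangle4 (S.p g • S.x0) (φX e) S.x0 (S.p 1 • S.x0)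
    rw [dist_comm (S.p g • S.x0) (φX e)] at this
    linarith
  have h5 := hc' g 1 (by rw [one_smul]; exact h2) h4
  rw [one_smul] at h5
  have h6 := hcm' h2
  have h7 := dist_triangle e (g • S.e0) S.e0
  rw [Metric.mem_closedBall]
  linarith

/-- COARSE DATA: everything about `E` needed for the boundary swapping. -/
theorem coarse_data :
    ∃ (φ : E → X × Y) (ψ : X × Y → E) (h : E × I → E),
      Continuous φ ∧ Continuous ψ ∧ Continuous h ∧
      (∀ e, h (e, 0) = e) ∧ (∀ e, h (e, 1) = ψ (φ e)) ∧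
      Tendsto φ (cocompact E) (cocompact (X × Y)) ∧
      (∃ (ρ : ℝ) (c : ℝ → ℝ), Monotone c ∧ ∀ e s, Near S.y0 ρ c (φ e) (φ (h (e, s)))) ∧
      (∃ (ρ : ℝ) (c : ℝ → ℝ), Monotone c ∧ ∀ w, Near S.y0 ρ c w (φ (ψ w))) ∧
      (∀ R : ℝ, ∃ (ρ : ℝ) (c : ℝ → ℝ), Monotone c ∧ ∀ e e', dist e e' ≤ R →
        Near S.y0 ρ c (φ e) (φ e')) ∧
      (∀ R : ℝ, ∃ (ρ : ℝ) (c : ℝ → ℝ), Monotone c ∧ ∀ e (g : G), dist e (g • S.e0) ≤ R →
        Near S.y0 ρ c (φ e) (S.p g • S.x0, g • S.y0)) := by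
  have := S.isoE
  have := S.isoY
  have := S.properE
  have := S.contrE
  have := S.countable_group
  have : Nonempty E := ⟨S.e0⟩
  obtain ⟨φX, hφX, hφXc⟩ := S.exists_phiX
  obtain ⟨φY, hφY, hφYc⟩ := S.exists_phiY
  obtain ⟨ψ, hψ, Cψ, cψ, hcψm, hcψ0, hψc⟩ := S.exists_psi φY hφY hφYc
  obtain ⟨K, hK, hK0, hK1, rK, hrKm, hrK0, hrK⟩ := S.exists_slabContraction φY hφY hφYc
  obtain ⟨RK, hRKm, hRK0, hRK⟩ := bound_of_continuous S.e0 (fun q => dist (K q) S.e0)
    (hK.dist continuous_const)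
  obtain ⟨cY, hcYm, hcY0, hcY⟩ := S.phiY_bound φY hφYc
  obtain ⟨cX, hcXm, hcX0, hcX⟩ := S.phiX_bound φX hφXc
  obtain ⟨Ce, hCe0, hCe⟩ := S.phiY_equiv φY hφYc
  obtain ⟨rE, hrE⟩ := S.netE
  -- (N4)
  have N4 : ∀ R : ℝ, ∃ (ρ : ℝ) (c : ℝ → ℝ), Monotone c ∧ ∀ e (g : G),
      dist e (g • S.e0) ≤ R →
        Near S.y0 ρ c ((fun e => (φX e, φY e)) e) (S.p g • S.x0, g • S.y0) := by
    intro R
    refine ⟨cY R, fun t => cX (max R (t + cY R)), ?_, ?_⟩
    · intro a b hab
      apply hcXm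
      apply max_le_max_left
      linarith
    · intro e g heg
      have h1 := (hcY e g).trans (hcYm heg)
      refine ⟨h1, (hcX e g).trans (hcXm ?_)⟩
      apply max_le_max heg
      have h2 := dist_triangle_left (g • S.y0) S.y0 (φY e)
      show dist (g • S.y0) S.y0 ≤ dist (φY e) S.y0 + cY R
      linarith
  -- (N2)
  have N2 : ∀ R : ℝ, ∃ (ρ : ℝ) (c : ℝ → ℝ), Monotone c ∧ ∀ e e', dist e e' ≤ R →
        Near S.y0 ρ c ((fun e => (φX e, φY e)) e) ((fun e => (φX e, φY e)) e') := by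
    intro R
    obtain ⟨ρ, c, hc, h⟩ := N4 (max rE (R + rE))
    refine ⟨ρ + ρ, fun t => c t + c (t + (ρ + ρ)), ?_, ?_⟩
    · intro a b hab
      have h1 := hc hab
      have h2 : a + (ρ + ρ) ≤ b + (ρ + ρ) := by linarith
      have h3 := hc h2
      simp only
      linarith
    · intro e e' hee
      obtain ⟨g, hg⟩ := hrE e
      have h1 := h e g (hg.trans (le_max_left _ _))
      have h2 := h e' g (by
        have := dist_triangle_left e' (g • S.e0) e
        exact le_trans (by linarith) (le_max_right _ _))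
      obtain ⟨h3, h4⟩ := h1
      obtain ⟨h5, h6⟩ := h2
      simp only at h3 h4 h5 h6
      have h7 := dist_triangle_right (φY e) (φY e') (g • S.y0)
      have h8 := dist_triangle_right (φX e) (φX e') (S.p g • S.x0)
      have h9 : dist (φY e') S.y0 ≤ dist (φY e) S.y0 + (ρ + ρ) := by
        have := dist_triangle_left (φY e') S.y0 (φY e)
        linarith
      have h10 := hc h9
      refine ⟨?_, ?_⟩
      · show dist (φY e) (φY e') ≤ ρ + ρ
        linarith
      · show dist (φX e) (φX e') ≤ _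
        linarith
  -- (N1)
  have N1 : ∀ w : X × Y, Near S.y0 Cψ
      (fun t => cψ t + cX (max (cψ t) (t + Cψ))) w ((fun e => (φX e, φY e)) (ψ w)) := by
    intro w
    obtain ⟨γ, h1, h2, h3, h4⟩ := hψc w
    refine ⟨?_, ?_⟩
    · rw [dist_comm]
      exact h3
    · have h5 := hcX (ψ w) γ
      have h6 : dist (γ • S.y0) S.y0 ≤ dist w.2 S.y0 + Cψ := by
        have := dist_triangle_left (γ • S.y0) S.y0 w.2
        linarith
      have h7 := hcXm (max_le_max h4 h6)
      have h8 := dist_triangle_right w.1 (φX (ψ w)) (S.p γ • S.x0)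
      show dist w.1 (φX (ψ w)) ≤ _
      linarith
  -- (N3): the homotopy
  obtain ⟨r, n, τ, -, hr, hτc, hτ01, hlf, hmult, hcov, hτ⟩ := S.cutoffE 0
  obtain ⟨D, hD0, hD⟩ := S.dist_y0_of_dist_e0 (4 * r)
  have hadj : ∀ i j : G, (∃ p, 0 < τ i p ∧ 0 < τ j p) →
      dist (i • S.e0) (j • S.e0) ≤ 4 * r := by
    rintro i j ⟨p, hi, hj⟩
    have h1 := (hτ i p).1 hi
    have h2 := (hτ j p).1 hj
    have h3 := dist_triangle_left (i • S.e0) (j • S.e0) p
    linarith
  have hadjY : ∀ i j : G, (∃ p, 0 < τ i p ∧ 0 < τ j p) →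
      dist (i • S.y0) (j • S.y0) ≤ D := fun i j hij => hD i j (hadj i j hij)
  have hsize : ∀ i j : G, (∃ p, 0 < τ i p ∧ 0 < τ j p) →
      dist (i • S.y0) S.y0 ≤ dist (j • S.y0) S.y0 + D := by
    intro i j hij
    have h1 := dist_triangle (i • S.y0) (j • S.y0) S.y0
    have h2 := hadjY i j hij
    linarith
  -- `ψ φ` is controlled
  obtain ⟨c', hcm', hc0', hc'⟩ := S.coarse_inj (cY (2 * r) + Cψ)
    (fun t => cX (max (2 * r) t) + cψ (t + cY (2 * r))) (by
      intro a b hab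
      have h1 := hcXm (max_le_max_left (2 * r) hab)
      have h2 : a + cY (2 * r) ≤ b + cY (2 * r) := by linarith
      have h3 := hcψm h2
      simp only
      linarith)
  have hψφ : ∀ (e : E) (i : G), dist e (i • S.e0) ≤ 2 * r →
      dist (φY (ψ (φX e, φY e))) (i • S.y0) ≤ Cψ + cY (2 * r) ∧
      dist (ψ (φX e, φY e)) (i • S.e0) ≤
        cψ (dist (i • S.y0) S.y0 + cY (2 * r)) + c' (dist (i • S.y0) S.y0) := by
    intro e i hi
    obtain ⟨γ, h1, h2, h3, h4⟩ := hψc (φX e, φY e)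
    simp only at h1 h2 h3 h4
    have h5 := (hcY e i).trans (hcYm hi)
    have h6 := (hcX e i).trans (hcXm (max_le_max_right (dist (i • S.y0) S.y0) hi))
    have h7 : dist (φY e) S.y0 ≤ dist (i • S.y0) S.y0 + cY (2 * r) := by
      have := dist_triangle (φY e) (i • S.y0) S.y0
      linarith
    have h8 := hcψm h7
    constructor
    · have := dist_triangle (φY (ψ (φX e, φY e))) (φY e) (i • S.y0)
      linarith
    · have h9 : dist (i • S.y0) (γ • S.y0) ≤ cY (2 * r) + Cψ := by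
        have := dist_triangle_left (i • S.y0) (γ • S.y0) (φY e)
        linarith
      have h10 : dist (S.p i • S.x0) (S.p γ • S.x0) ≤
          cX (max (2 * r) (dist (i • S.y0) S.y0)) +
            cψ (dist (i • S.y0) S.y0 + cY (2 * r)) := by
        have := dist_triangle_left (S.p i • S.x0) (S.p γ • S.x0) (φX e)
        linarith
      have h11 := hc' i γ h9 h10
      have h12 := dist_triangle_right (ψ (φX e, φY e)) (i • S.e0) (γ • S.e0)
      linarith
  let ρ : ℕ → ℝ := fun k => Nat.rec (Cψ + cY (2 * r) + (cY 0 + D))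
    (fun _ x => Ce + rK (x + Ce) + D) k
  have hρ0 : ρ 0 = Cψ + cY (2 * r) + (cY 0 + D) := rfl
  have hρS : ∀ k, ρ (k + 1) = Ce + rK (ρ k + Ce) + D := fun k => rfl
  let Q : ℕ → ℝ → ℝ := fun k => Nat.rec
    (fun t => 4 * r + (cψ (t + cY (2 * r)) + c' t))
    (fun _ f t => RK (f (t + D)) + 4 * r) k
  have hQ0 : ∀ t, Q 0 t = 4 * r + (cψ (t + cY (2 * r)) + c' t) := fun t => rfl
  have hQS : ∀ k t, Q (k + 1) t = RK (Q k (t + D)) + 4 * r := fun k t => rfl
  have hQm : ∀ k, Monotone (Q k) := by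
    intro k
    induction k with
    | zero =>
      intro a b hab
      rw [hQ0, hQ0]
      have h2 : a + cY (2 * r) ≤ b + cY (2 * r) := by linarith
      have h3 := hcψm h2
      have h4 := hcm' hab
      linarith
    | succ k ih =>
      intro a b hab
      rw [hQS, hQS]
      have h1 : a + D ≤ b + D := by linarith
      have h2 := hRKm (ih h1)
      linarith
  have hcjK := fun g : G => conj_contraction S.e0 K hK hK0 hK1 RK hRKm hRK g
  have hCψ : 0 ≤ Cψ := by
    obtain ⟨γ, h1, -⟩ := hψc (S.x0, S.y0)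
    exact dist_nonneg.trans h1
  -- control of the `Y`-coordinate along the conjugated slab contraction
  have hslab : ∀ (i : G) (m : E) (s : I) (b : ℝ), dist (φY m) (i • S.y0) ≤ b →
      dist (φY (i • K (i⁻¹ • m, s))) (i • S.y0) ≤ Ce + rK (b + Ce) := by
    intro i m s b hb
    have h1 : dist (φY (i⁻¹ • m)) S.y0 ≤ b + Ce := by
      have h2 := hCe i⁻¹ m
      have h3 : dist (i⁻¹ • φY m) S.y0 = dist (φY m) (i • S.y0) := by
        rw [← dist_smul i (i⁻¹ • φY m) S.y0, smul_inv_smul]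
      have h4 := dist_triangle (φY (i⁻¹ • m)) (i⁻¹ • φY m) S.y0
      linarith
    have h5 := (hrK (i⁻¹ • m) s).trans (hrKm h1)
    have h6 := hCe i (K (i⁻¹ • m, s))
    have h7 : dist (i • φY (K (i⁻¹ • m, s))) (i • S.y0) =
        dist (φY (K (i⁻¹ • m, s))) S.y0 := S.dist_smulY _ _ _
    have h8 := dist_triangle (φY (i • K (i⁻¹ • m, s))) (i • φY (K (i⁻¹ • m, s))) (i • S.y0)
    linarith
  obtain ⟨H, hH, hH0, hH1, hHA⟩ := patch_homotopic τ hτc hτ01 hlf n hmult hcov
    (fun g => g • S.e0)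
    (fun g q => g • K (g⁻¹ • q.1, q.2)) (fun g => (hcjK g).1) (fun g => (hcjK g).2.1)
    (fun g => (hcjK g).2.2.1)
    (fun c g => {e : E | dist (φY e) (g • S.y0) ≤ ρ c ∧
      dist e (g • S.e0) ≤ Q c (dist (g • S.y0) S.y0)})
    (fun i j hij => by
      have h1 := hadj i j hij
      have h2 := hadjY i j hij
      have h3 : dist (φY (i • S.e0)) (i • S.y0) ≤ cY 0 := by
        have := hcY (i • S.e0) i
        rwa [dist_self] at this
      have h4 := dist_triangle (φY (i • S.e0)) (i • S.y0) (j • S.y0)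
      have h5 := hcY0 (2 * r)
      have h6 := hcψ0 (dist (j • S.y0) S.y0 + cY (2 * r))
      have h7 := hc0' (dist (j • S.y0) S.y0)
      constructor
      · rw [hρ0]
        linarith
      · rw [hQ0]
        linarith)
    (fun c i j hij m hm s => by
      have h1 := hadj i j hij
      have h2 := hadjY i j hij
      have h3 := hslab i m s _ hm.1
      have h4 := (hcjK i).2.2.2 m s _ hm.2
      have h5 : dist (i • K (i⁻¹ • m, s)) (i • S.e0) ≤
        RK (Q c (dist (i • S.y0) S.y0)) := h4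
      have h6 := hRKm (hQm c (hsize i j hij))
      have h7 := dist_triangle (i • K (i⁻¹ • m, s)) (i • S.e0) (j • S.e0)
      have h8 := dist_triangle (φY (i • K (i⁻¹ • m, s))) (i • S.y0) (j • S.y0)
      constructor
      · show dist (φY (i • K (i⁻¹ • m, s))) (j • S.y0) ≤ ρ (c + 1)
        rw [hρS]
        linarith
      · show dist (i • K (i⁻¹ • m, s)) (j • S.e0) ≤ Q (c + 1) _
        rw [hQS]
        linarith)
    id (fun e => ψ (φX e, φY e)) continuous_id (hψ.comp (hφX.prodMk hφY))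
    (fun p i hi => by
      have h1 := (hτ i p).1 hi
      have h2 := (hcY p i).trans (hcYm h1.le)
      have h5 := hcY0 0
      have h6 := hcψ0 (dist (i • S.y0) S.y0 + cY (2 * r))
      have h7 := hc0' (dist (i • S.y0) S.y0)
      constructor
      · rw [hρ0]
        show dist (φY p) (i • S.y0) ≤ _
        linarith
      · rw [hQ0]
        show dist p (i • S.e0) ≤ _
        linarith)
    (fun p i hi => by
      have h1 := (hτ i p).1 hi
      obtain ⟨h2, h3⟩ := hψφ p i h1.le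
      have h5 := hcY0 0
      constructor
      · rw [hρ0]
        show dist (φY (ψ (φX p, φY p))) (i • S.y0) ≤ _
        linarith
      · rw [hQ0]
        show dist (ψ (φX p, φY p)) (i • S.e0) ≤ _
        linarith)
  refine ⟨fun e => (φX e, φY e), ψ, H, hφX.prodMk hφY, hψ, hH, hH0, hH1,
    S.phi_proper φX hφXc φY hφYc, ?_, ⟨Cψ, _, ?_, N1⟩, N2, N4⟩
  · refine ⟨cY (2 * r) + ρ n, fun t => cX (max (2 * r) (t + cY (2 * r))) +
      cX (max (Q n (t + cY (2 * r))) (t + cY (2 * r))), ?_, ?_⟩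
    · intro a b hab
      have h1 : a + cY (2 * r) ≤ b + cY (2 * r) := by linarith
      have h2 := hcXm (max_le_max_left (2 * r) h1)
      have h3 := hcXm (max_le_max (hQm n h1) h1)
      simp only
      linarith
    · intro e s
      obtain ⟨i, hi⟩ := hcov e
      have hi0 : 0 < τ i e := by rw [hi]; norm_num
      have h1 := (hτ i e).1 hi0
      obtain ⟨h2, h3⟩ := hHA e s i hi0
      have h4 := (hcY e i).trans (hcYm h1.le)
      have h5 : dist (i • S.y0) S.y0 ≤ dist (φY e) S.y0 + cY (2 * r) := by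
        have := dist_triangle_left (i • S.y0) S.y0 (φY e)
        linarith
      have h6 := (hcX e i).trans (hcXm (max_le_max h1.le h5))
      have h7 := (hcX (H (e, s)) i).trans (hcXm (max_le_max (h3.trans (hQm n h5)) h5))
      have h8 := dist_triangle_right (φY e) (φY (H (e, s))) (i • S.y0)
      have h9 := dist_triangle_right (φX e) (φX (H (e, s))) (S.p i • S.x0)
      refine ⟨?_, ?_⟩
      · show dist (φY e) (φY (H (e, s))) ≤ _
        linarith
      · show dist (φX e) (φX (H (e, s))) ≤ _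
        linarith
  · intro a b hab
    have h1 := hcψm hab
    have h2 : a + Cψ ≤ b + Cψ := by linarith
    have h3 := hcXm (max_le_max h1 h2)
    simp only
    linarith

end Setup

end Pool.Agent.ZStr
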