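import Pool.Agent.ZStr.Metric
import Pool.Agent.ZStr.Maps2
import Pool.Agent.ZStr.Assemble

/-!
# The extension theorem for Z-structures (module MAIN)
-/

namespace Pool.Agent.ZStr

open Set Topology Filter
open scoped unitInterval Pointwise

theorem net_of_cocompact {G X : Type*} [Group G] [MetricSpace X] [MulAction G X]
    [IsIsometricSMul G X] (h : CocompactlyActs G X) (x0 : X) :
    ∃ r : ℝ, ∀ x : X, ∃ g : G, dist x (g • x0) ≤ r := by
  obtain ⟨K, hK, hcov⟩ := h
  obtain ⟨r, hr⟩ := (Metric.isBounded_iff_subset_closedBall x0).1 hK.isBounded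
  refine ⟨r, fun x => ?_⟩
  obtain ⟨g, hg⟩ := hcov x
  obtain ⟨k, hk, rfl⟩ := hg
  refine ⟨g, ?_⟩
  have := hr hk
  simpa [dist_smul] using this

theorem fin_of_proper {G X : Type*} [Group G] [MetricSpace X] [ProperSpace X] [MulAction G X]
    (h : ProperlyActs G X) (x0 : X) (r : ℝ) : {g : G | dist (g • x0) x0 ≤ r}.Finite := by
  have hK : IsCompact (Metric.closedBall x0 (max r 0)) := isCompact_closedBall _ _
  refine (h _ hK).subset fun g hg => ?_
  refine ⟨g • x0, ⟨x0, ?_, rfl⟩, ?_⟩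
  · simp
  · exact Metric.mem_closedBall.2 (le_trans hg (le_max_left _ _))

/-- The set-up of the extension theorem, from the hypotheses of the theorem. -/
theorem exists_setup {G : Type*} [Group G] (N : Subgroup G) {E X Y : Type}
    [MetricSpace E] [MetricSpace X] [MetricSpace Y] [MulAction G E] [MulAction N X]
    [MulAction G Y] [IsIsometricSMul G E] [IsIsometricSMul N X] [IsIsometricSMul G Y]
    [ProperSpace E] [ProperSpace X] [ProperSpace Y]
    [ContractibleSpace E] [ContractibleSpace X] [ContractibleSpace Y]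
    (hpE : ProperlyActs G E) (hcE : CocompactlyActs G E)
    (hpX : ProperlyActs N X) (hcX : CocompactlyActs N X)
    (hcY : CocompactlyActs G Y) (y0 : Y)
    (hbdd : ∃ C : ℝ, ∀ n ∈ N, dist (n • y0) y0 ≤ C)
    (hfin : ∀ r : ℝ, ∃ F : Finset G, ∀ g : G, dist (g • y0) y0 ≤ r → ∃ f ∈ F, f⁻¹ * g ∈ N) :
    ∃ S : Setup G N E X Y, S.y0 = y0 := by
  obtain ⟨p, hp⟩ := exists_equivariant_proj N
  have : Nonempty E := inferInstance
  have : Nonempty X := inferInstance
  refine ⟨{ e0 := Classical.arbitrary E, x0 := Classical.arbitrary X, y0 := y0,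
            properE := inferInstance, properX := inferInstance, properY := inferInstance,
            isoE := inferInstance, isoX := inferInstance, isoY := inferInstance,
            contrE := inferInstance, contrX := inferInstance, contrY := inferInstance,
            finE := fin_of_proper hpE _, netE := net_of_cocompact hcE _,
            finX := fin_of_proper hpX _, netX := net_of_cocompact hcX _,
            netY := net_of_cocompact hcY _, bddN := hbdd, finY := hfin, p := p, hp := hp },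
          rfl⟩

/-- The model Z-geometry on `E` constructed in the extension theorem, together with the map to
the join. -/
theorem extension_core {G : Type*} [Group G] {N : Subgroup G} {E X Y Xb Yb : Type}
    [MetricSpace E] [MetricSpace X] [MetricSpace Y] [MulAction G E] [MulAction N X]
    [MulAction G Y] [TopologicalSpace Xb] [TopologicalSpace Yb]
    [CompactSpace Xb] [T2Space Xb] [CompactSpace Yb] [T2Space Yb]
    (S : Setup G N E X Y)
    (iX : X → Xb) (hiX : IsOpenEmbedding iX) (hzX : IsZSet (range iX)ᶜ)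
    (hcX : ControlCondition X Xb iX)
    (iY : Y → Yb) (hiY : IsOpenEmbedding iY) (hzY : IsZSet (range iY)ᶜ)
    (hcY : ControlCondition Y Yb iY) :
    ∃ (Eb : Type) (_ : TopologicalSpace Eb) (i : E → Eb),
      CompactSpace Eb ∧ T2Space Eb ∧ IsOpenEmbedding i ∧ DenseRange i ∧
      IsZSet (range i)ᶜ ∧ ControlCondition E Eb i := by
  have := S.properE
  have := S.properX
  have := S.properY
  have := S.contrX
  have := S.contrY
  obtain ⟨φ, ψ, h, hφ, hψ, hh, h0, h1, hφp, ⟨ρ1, c1, hc1, hn1⟩, ⟨ρ2, c2, hc2, hn2⟩, hn3, hn4⟩ :=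
    S.coarse_data
  choose ρ3 c3 hc3 hn3 using hn3
  let ρ : ℕ → ℝ := fun k => if k = 0 then ρ1 else if k = 1 then ρ2 else ρ3 ((k - 2 : ℕ) : ℝ)
  let c : ℕ → ℝ → ℝ := fun k =>
    if k = 0 then c1 else if k = 1 then c2 else c3 ((k - 2 : ℕ) : ℝ)
  have hc : ∀ k, Monotone (c k) := by
    intro k
    simp only [c]
    split_ifs
    · exact hc1
    · exact hc2
    · exact hc3 _
  obtain ⟨κX, κY, T, topT, j, -, -, -, -, -, -, -, -, hj, hz, hctrl, -, -⟩ :=
    exists_joinCompactification iX hiX hzX hcX iY hiY hzY hcY S.x0 S.y0 ρ c hc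
      (fun _ s => s) (fun _ => monotone_id)
  have := hj.compact
  have := hj.t2
  obtain ⟨Eb, topEb, i, π, hcpt, ht2, hiE, hdE, hzE, hcE, -⟩ :=
    assemble S.e0 j hj.emb hj.dense hz φ hφ ψ hψ h hh h0 h1 hφp
      (fun {α} l e s ζ hζ hl => by
        refine hctrl 0 l (fun a => φ (e a)) (fun a => φ (h (e a, s a))) ζ hζ ?_ hl
        exact Eventually.of_forall fun a => by simpa [ρ, c] using hn1 (e a) (s a))
      (fun {α} l w ζ hζ hl => by
        refine hctrl 1 l w (fun a => φ (ψ (w a))) ζ hζ ?_ hl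
        exact Eventually.of_forall fun a => by simpa [ρ, c] using hn2 (w a))
      (fun R {α} l e e' ζ hζ hR hl => by
        refine hctrl (⌈R⌉₊ + 2) l (fun a => φ (e a)) (fun a => φ (e' a)) ζ hζ ?_ hl
        filter_upwards [hR] with a ha
        have := hn3 (⌈R⌉₊ : ℝ) (e a) (e' a) (ha.trans (Nat.le_ceil R))
        simpa [ρ, c] using this)
  exact ⟨Eb, topEb, i, hcpt, ht2, hiE, hdE, hzE, hcE⟩

/-- THE EXTENSION THEOREM (Theorem I). -/
theorem extension_theorem {G : Type*} [Group G] (hG : TypeFStarAR G) (N : Subgroup G)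
    (hN : HasZStructure N)
    (Y : Type) [MetricSpace Y] [MulAction G Y] [IsIsometricSMul G Y]
    (Yb : Type) [TopologicalSpace Yb] (iY : Y → Yb) (hY : IsModelZGeometry Y Yb iY)
    (hcoc : CocompactlyActs G Y) (y0 : Y)
    (hbdd : ∃ C : ℝ, ∀ n ∈ N, dist (n • y0) y0 ≤ C)
    (hfin : ∀ r : ℝ, ∃ F : Finset G, ∀ g : G, dist (g • y0) y0 ≤ r → ∃ f ∈ F, f⁻¹ * g ∈ N) :
    HasZStructure G := by
  obtain ⟨E, mE, aE, hAR, hprop, hiso, hpE, hcE⟩ := hG.exists_metric
  obtain ⟨X, mX, aX, Xb, topXb, iX, hX, hisoX, hpX, hcX⟩ := hN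
  obtain ⟨⟨hpropX, hARX, -⟩, hcptX, ht2X, hiX, -, hzX, hctX⟩ := hX
  obtain ⟨⟨hpropY, hARY, -⟩, hcptY, ht2Y, hiY, -, hzY, hctY⟩ := hY
  have := hAR.1
  have := hARX.1
  have := hARY.1
  obtain ⟨S, hS⟩ := exists_setup N (E := E) (X := X) (Y := Y) hpE hcE hpX hcX hcoc y0 hbdd hfin
  obtain ⟨Eb, topEb, i, hcpt, ht2, hiE, hdE, hzE, hctE⟩ :=
    extension_core S iX hiX hzX hctX iY hiY hzY hctY
  refine ⟨E, mE, aE, Eb, topEb, i, ⟨⟨hprop, hAR, ?_⟩, hcpt, ht2, hiE, hdE, hzE, hctE⟩,
    hiso, hpE, hcE⟩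
  obtain ⟨K, hK, hcov⟩ := hcE
  refine ⟨K, hK, fun x => ?_⟩
  obtain ⟨g, hg⟩ := hcov x
  exact ⟨IsometryEquiv.constSMul g, by simpa [Set.mem_smul_set] using hg⟩

/-- The case of a normal subgroup. -/
theorem extension_normal {G : Type*} [Group G] (hG : TypeFStarAR G) (N : Subgroup G)
    [N.Normal] (hN : HasZStructure N) (hQ : HasZStructure (G ⧸ N)) :
    HasZStructure G := by
  obtain ⟨Y, mY, aY, Yb, topYb, iY, hY, hisoY, hpY, hcY⟩ := hQ
  let aG : MulAction G Y := MulAction.compHom Y (QuotientGroup.mk' N)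
  have hsmul : ∀ (g : G) (y : Y), g • y = (g : G ⧸ N) • y := fun g y => rfl
  have : IsIsometricSMul G Y := ⟨fun g => by
    have := (hisoY.isometry_smul (X := Y) (g : G ⧸ N))
    simpa [hsmul] using this⟩
  have : ProperSpace Y := hY.1.1
  have : ContractibleSpace Y := hY.1.2.1.1
  have : Nonempty Y := inferInstance
  have y0 : Y := Classical.arbitrary Y
  refine extension_theorem hG N hN Y Yb iY hY ?_ y0 ⟨0, ?_⟩ ?_
  · obtain ⟨K, hK, hcov⟩ := hcY
    refine ⟨K, hK, fun x => ?_⟩
    obtain ⟨q, hq⟩ := hcov x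
    obtain ⟨g, rfl⟩ := QuotientGroup.mk_surjective q
    exact ⟨g, hq⟩
  · intro n hn
    have : ((n : G) : G ⧸ N) = 1 := (QuotientGroup.eq_one_iff n).2 hn
    rw [hsmul, this, one_smul, dist_self]
  · intro r
    have hf := fin_of_proper hpY y0 r
    choose s hs using fun q : G ⧸ N => QuotientGroup.mk_surjective q
    classical
    refine ⟨hf.toFinset.image s, fun g hg => ?_⟩
    refine ⟨s (g : G ⧸ N), ?_, ?_⟩
    · refine Finset.mem_image_of_mem _ ?_
      simpa [hsmul] using hg
    · rw [← QuotientGroup.eq]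
      exact hs _

end Pool.Agent.ZStr
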