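import Pool.Agent.ZStr.Cutoff
import Pool.Agent.ZStr.Contr

/-!
# The coarse coordinate maps (module MAPS1)

`φY : E → Y`, `φX : E → X` and `j : X → E`, each by one application of the patch lemma.
-/

namespace Pool.Agent.ZStr

open Set Topology Filter
open scoped unitInterval

/-- The conjugate of a contraction to `m0` by an isometry `a`: a contraction to `a • m0`, whose
tracks starting in a ball around `a • m0` are bounded by a function of the radius. -/
theorem conj_contraction {H M : Type*} [Group H] [MetricSpace M] [MulAction H M]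
    [IsIsometricSMul H M] (m0 : M) (K : M × I → M) (hK : Continuous K)
    (hK0 : ∀ m, K (m, 0) = m) (hK1 : ∀ m, K (m, 1) = m0) (RK : ℝ → ℝ) (hRK : Monotone RK)
    (hR : ∀ m s, dist (K (m, s)) m0 ≤ RK (dist m m0)) (a : H) :
    Continuous (fun q : M × I => a • K (a⁻¹ • q.1, q.2)) ∧
    (∀ m, (fun q : M × I => a • K (a⁻¹ • q.1, q.2)) (m, 0) = m) ∧
    (∀ m, (fun q : M × I => a • K (a⁻¹ • q.1, q.2)) (m, 1) = a • m0) ∧
    ∀ m s b, dist m (a • m0) ≤ b →
      dist ((fun q : M × I => a • K (a⁻¹ • q.1, q.2)) (m, s)) (a • m0) ≤ RK b := by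
  refine ⟨?_, ?_, ?_, ?_⟩
  · exact (hK.comp ((continuous_fst.const_smul a⁻¹).prodMk continuous_snd)).const_smul a
  · intro m
    simp [hK0]
  · intro m
    simp [hK1]
  · intro m s b hb
    have h1 : dist (a⁻¹ • m) m0 = dist m (a • m0) := by
      rw [← dist_smul a (a⁻¹ • m) m0, smul_inv_smul]
    simp only [dist_smul]
    exact (hR _ _).trans (hRK (h1.le.trans hb))

namespace Setup

variable {G : Type*} [Group G] {N : Subgroup G} {E X Y : Type}
    [MetricSpace E] [MetricSpace X] [MetricSpace Y]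
    [MulAction G E] [MulAction N X] [MulAction G Y] (S : Setup G N E X Y)

include S in
/-- The group of a set-up is countable. -/
theorem countable_group : Countable G := by
  have h : (Set.univ : Set G) = ⋃ k : ℕ, {g : G | dist (g • S.e0) S.e0 ≤ k} := by
    refine Eq.symm (Set.eq_univ_of_forall fun g => ?_)
    obtain ⟨k, hk⟩ := exists_nat_ge (dist (g • S.e0) S.e0)
    exact Set.mem_iUnion.2 ⟨k, hk⟩
  rw [← Set.countable_univ_iff, h]
  exact Set.countable_iUnion fun k => (S.finE k).countable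

/-- The translates of `y0` by elements with nearby translates of `e0` are near each other. -/
theorem dist_y0_of_dist_e0 (R : ℝ) : ∃ C : ℝ, 0 ≤ C ∧ ∀ g g' : G,
    dist (g • S.e0) (g' • S.e0) ≤ R → dist (g • S.y0) (g' • S.y0) ≤ C := by
  obtain ⟨C, c, -, -, h⟩ := S.coarse_cont R
  exact ⟨max C 0, le_max_right _ _, fun g g' hg => ((h g g' hg).1).trans (le_max_left _ _)⟩

/-- The translates of `e0` by elements of `N` with nearby translates of `x0` are near each
other. -/
theorem dist_e0_of_dist_x0 (R : ℝ) : ∃ C : ℝ, 0 ≤ C ∧ ∀ n n' : N,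
    dist (n • S.x0) (n' • S.x0) ≤ R → dist ((n : G) • S.e0) ((n' : G) • S.e0) ≤ C := by
  haveI := S.isoX
  haveI := S.isoE
  obtain ⟨C, hC⟩ := ((S.finX R).image (fun n : N => dist ((n : G) • S.e0) S.e0)).bddAbove
  refine ⟨max C 0, le_max_right _ _, fun n n' h => ?_⟩
  have h1 : dist ((n'⁻¹ * n : N) • S.x0) S.x0 ≤ R := by
    rw [← dist_smul n', smul_smul, mul_inv_cancel_left]
    exact h
  have h2 : dist (((n'⁻¹ * n : N) : G) • S.e0) S.e0 ≤ C :=
    hC ⟨n'⁻¹ * n, h1, rfl⟩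
  have h3 : dist ((n : G) • S.e0) ((n' : G) • S.e0) =
      dist (((n'⁻¹ * n : N) : G) • S.e0) S.e0 := by
    rw [← dist_smul (n' : G) (((n'⁻¹ * n : N) : G) • S.e0) S.e0, smul_smul]
    simp
  rw [h3]
  exact h2.trans (le_max_left _ _)

/-- The `Y`-coordinate on `E`. -/
theorem exists_phiY : ∃ φY : E → Y, Continuous φY ∧
    ∀ R : ℝ, ∃ C : ℝ, 0 ≤ C ∧ ∀ (e : E) (g : G), dist e (g • S.e0) ≤ R →
      dist (φY e) (g • S.y0) ≤ C := by
  haveI := S.isoY
  haveI := S.isoE
  haveI := S.properY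
  haveI := S.contrY
  haveI := S.countable_group
  haveI : Nonempty Y := ⟨S.y0⟩
  obtain ⟨K, hK, hK0, hK1⟩ := exists_contraction Y S.y0
  obtain ⟨RK, hRKm, hRK0, hRK⟩ := bound_of_continuous S.y0 (fun q => dist (K q) S.y0)
    (hK.dist continuous_const)
  obtain ⟨r, n, τ, -, hr, hτc, hτ01, hlf, hmult, hcov, hτ⟩ := S.cutoffE 0
  obtain ⟨D, hD0, hD⟩ := S.dist_y0_of_dist_e0 (4 * r)
  have hadj : ∀ i j : G, (∃ p, 0 < τ i p ∧ 0 < τ j p) → dist (i • S.y0) (j • S.y0) ≤ D := by
    rintro i j ⟨p, hi, hj⟩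
    apply hD
    have h1 := (hτ i p).1 hi
    have h2 := (hτ j p).1 hj
    have h3 := dist_triangle_left (i • S.e0) (j • S.e0) p
    linarith
  let ρ : ℕ → ℝ := fun c => Nat.rec D (fun _ x => RK x + D) c
  have hcj := fun g : G => conj_contraction S.y0 K hK hK0 hK1 RK hRKm hRK g
  obtain ⟨F, hF, hFA, -⟩ := patch τ hτc hτ01 hlf n hmult hcov (fun g => g • S.y0)
    (fun g q => g • K (g⁻¹ • q.1, q.2)) (fun g => (hcj g).1) (fun g => (hcj g).2.1)
    (fun g => (hcj g).2.2.1) (fun c g => Metric.closedBall (g • S.y0) (ρ c))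
    (fun i j hij => Metric.mem_closedBall.2 (hadj i j hij))
    (fun c i j hij m hm s => by
      have h1 := (hcj i).2.2.2 m s _ (Metric.mem_closedBall.1 hm)
      have h2 := dist_triangle (i • K (i⁻¹ • m, s)) (i • S.y0) (j • S.y0)
      have h3 := hadj i j hij
      rw [Metric.mem_closedBall]
      show _ ≤ RK (ρ c) + D
      exact h2.trans (add_le_add h1 h3))
  refine ⟨F, hF, fun R => ?_⟩
  obtain ⟨C, hC0, hC⟩ := S.dist_y0_of_dist_e0 (2 * r + R)
  refine ⟨|ρ n| + C, by positivity, fun e g heg => ?_⟩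
  obtain ⟨i, hi⟩ := hcov e
  have hi0 : 0 < τ i e := by rw [hi]; norm_num
  have h1 := Metric.mem_closedBall.1 (hFA e i hi0)
  have h2 := (hτ i e).1 hi0
  have h3 : dist (i • S.e0) (g • S.e0) ≤ 2 * r + R :=
    (dist_triangle_left _ _ e).trans (add_le_add h2.le heg)
  have h4 := hC i g h3
  exact (dist_triangle _ (i • S.y0) _).trans (add_le_add (h1.trans (le_abs_self _)) h4)

/-- The `X`-coordinate on `E`. -/
theorem exists_phiX : ∃ φX : E → X, Continuous φX ∧
    ∀ R : ℝ, ∃ c : ℝ → ℝ, Monotone c ∧ (∀ t, 0 ≤ c t) ∧ ∀ (e : E) (g : G),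
      dist e (g • S.e0) ≤ R →
      dist (φX e) (S.p g • S.x0) ≤ c (dist (g • S.y0) S.y0) := by
  haveI := S.isoX
  haveI := S.isoE
  haveI := S.properX
  haveI := S.contrX
  haveI := S.countable_group
  haveI : Nonempty X := ⟨S.x0⟩
  obtain ⟨K, hK, hK0, hK1⟩ := exists_contraction X S.x0
  obtain ⟨RK, hRKm, hRK0, hRK⟩ := bound_of_continuous S.x0 (fun q => dist (K q) S.x0)
    (hK.dist continuous_const)
  obtain ⟨r, n, τ, -, hr, hτc, hτ01, hlf, hmult, hcov, hτ⟩ := S.cutoffE 0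
  obtain ⟨C, c, hcm, hc0, hCc⟩ := S.coarse_cont (4 * r)
  have hadj : ∀ i j : G, (∃ p, 0 < τ i p ∧ 0 < τ j p) →
      dist (i • S.y0) (j • S.y0) ≤ C ∧
        dist (S.p i • S.x0) (S.p j • S.x0) ≤ c (dist (i • S.y0) S.y0) := by
    rintro i j ⟨p, hi, hj⟩
    apply hCc
    have h1 := (hτ i p).1 hi
    have h2 := (hτ j p).1 hj
    have h3 := dist_triangle_left (i • S.e0) (j • S.e0) p
    linarith
  have hsize : ∀ i j : G, (∃ p, 0 < τ i p ∧ 0 < τ j p) →
      dist (i • S.y0) S.y0 ≤ dist (j • S.y0) S.y0 + C := by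
    intro i j hij
    have h1 := dist_triangle (i • S.y0) (j • S.y0) S.y0
    have h2 := (hadj i j hij).1
    linarith
  let ρ : ℕ → ℝ → ℝ := fun k => Nat.rec (fun t => c (t + C))
    (fun _ f t => RK (f (t + C)) + c (t + C)) k
  have hρ0 : ∀ t, ρ 0 t = c (t + C) := fun t => rfl
  have hρS : ∀ k t, ρ (k + 1) t = RK (ρ k (t + C)) + c (t + C) := fun k t => rfl
  have hρm : ∀ k, Monotone (ρ k) := by
    intro k
    induction k with
    | zero =>
      intro a b hab
      rw [hρ0, hρ0]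
      exact hcm (by linarith)
    | succ k ih =>
      intro a b hab
      rw [hρS, hρS]
      exact add_le_add (hRKm (ih (by linarith))) (hcm (by linarith))
  have hρn : ∀ k t, 0 ≤ ρ k t := by
    intro k
    cases k with
    | zero => intro t; rw [hρ0]; exact hc0 _
    | succ k => intro t; rw [hρS]; exact add_nonneg (hRK0 _) (hc0 _)
  have hcj := fun g : G => conj_contraction S.x0 K hK hK0 hK1 RK hRKm hRK (S.p g)
  obtain ⟨F, hF, hFA, -⟩ := patch τ hτc hτ01 hlf n hmult hcov (fun g => S.p g • S.x0)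
    (fun g q => S.p g • K ((S.p g)⁻¹ • q.1, q.2)) (fun g => (hcj g).1) (fun g => (hcj g).2.1)
    (fun g => (hcj g).2.2.1)
    (fun k g => Metric.closedBall (S.p g • S.x0) (ρ k (dist (g • S.y0) S.y0)))
    (fun i j hij => by
      rw [Metric.mem_closedBall, hρ0]
      exact (hadj i j hij).2.trans (hcm (hsize i j hij)))
    (fun k i j hij m hm s => by
      have h1 := (hcj i).2.2.2 m s _ (Metric.mem_closedBall.1 hm)
      have h2 := dist_triangle (S.p i • K ((S.p i)⁻¹ • m, s)) (S.p i • S.x0) (S.p j • S.x0)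
      have h3 := (hadj i j hij).2
      rw [Metric.mem_closedBall, hρS]
      exact h2.trans (add_le_add (h1.trans (hRKm (hρm k (hsize i j hij))))
        (h3.trans (hcm (hsize i j hij)))))
  refine ⟨F, hF, fun R => ?_⟩
  obtain ⟨C', c', hcm', hc0', hCc'⟩ := S.coarse_cont (2 * r + R)
  refine ⟨fun t => ρ n (t + C') + c' (t + C'), ?_, ?_, fun e g heg => ?_⟩
  · intro a b hab
    exact add_le_add (hρm n (by linarith)) (hcm' (by linarith))
  · intro t
    exact add_nonneg (hρn _ _) (hc0' _)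
  obtain ⟨i, hi⟩ := hcov e
  have hi0 : 0 < τ i e := by rw [hi]; norm_num
  have h1 := Metric.mem_closedBall.1 (hFA e i hi0)
  have h2 := (hτ i e).1 hi0
  have h3 : dist (i • S.e0) (g • S.e0) ≤ 2 * r + R :=
    (dist_triangle_left _ _ e).trans (add_le_add h2.le heg)
  have h4 := hCc' i g h3
  have h5 : dist (i • S.y0) S.y0 ≤ dist (g • S.y0) S.y0 + C' := by
    have := dist_triangle (i • S.y0) (g • S.y0) S.y0
    linarith [h4.1]
  exact (dist_triangle _ (S.p i • S.x0) _).trans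
    (add_le_add (h1.trans (hρm n h5)) (h4.2.trans (hcm' h5)))

/-- The inclusion of the fibre. -/
theorem exists_incl : ∃ jX : X → E, Continuous jX ∧
    ∀ R : ℝ, ∃ C : ℝ, 0 ≤ C ∧ ∀ (x : X) (n : N), dist x (n • S.x0) ≤ R →
      dist (jX x) ((n : G) • S.e0) ≤ C := by
  haveI := S.isoX
  haveI := S.isoE
  haveI := S.properE
  haveI := S.contrE
  haveI := S.countable_group
  haveI : Nonempty E := ⟨S.e0⟩
  obtain ⟨K, hK, hK0, hK1⟩ := exists_contraction E S.e0
  obtain ⟨RK, hRKm, hRK0, hRK⟩ := bound_of_continuous S.e0 (fun q => dist (K q) S.e0)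
    (hK.dist continuous_const)
  obtain ⟨r, n, τ, -, hr, hτc, hτ01, hlf, hmult, hcov, hτ⟩ := S.cutoffX 0
  obtain ⟨D, hD0, hD⟩ := S.dist_e0_of_dist_x0 (4 * r)
  have hadj : ∀ i j : N, (∃ p, 0 < τ i p ∧ 0 < τ j p) →
      dist ((i : G) • S.e0) ((j : G) • S.e0) ≤ D := by
    rintro i j ⟨p, hi, hj⟩
    apply hD
    have h1 := (hτ i p).1 hi
    have h2 := (hτ j p).1 hj
    have h3 := dist_triangle_left (i • S.x0) (j • S.x0) p
    linarith
  let ρ : ℕ → ℝ := fun c => Nat.rec D (fun _ x => RK x + D) c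
  have hcj := fun g : N => conj_contraction S.e0 K hK hK0 hK1 RK hRKm hRK (g : G)
  obtain ⟨F, hF, hFA, -⟩ := patch τ hτc hτ01 hlf n hmult hcov (fun g => (g : G) • S.e0)
    (fun g q => (g : G) • K ((g : G)⁻¹ • q.1, q.2)) (fun g => (hcj g).1)
    (fun g => (hcj g).2.1)
    (fun g => (hcj g).2.2.1) (fun c g => Metric.closedBall ((g : G) • S.e0) (ρ c))
    (fun i j hij => Metric.mem_closedBall.2 (hadj i j hij))
    (fun c i j hij m hm s => by
      have h1 := (hcj i).2.2.2 m s _ (Metric.mem_closedBall.1 hm)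
      have h2 := dist_triangle ((i : G) • K ((i : G)⁻¹ • m, s)) ((i : G) • S.e0)
        ((j : G) • S.e0)
      have h3 := hadj i j hij
      rw [Metric.mem_closedBall]
      show _ ≤ RK (ρ c) + D
      exact h2.trans (add_le_add h1 h3))
  refine ⟨F, hF, fun R => ?_⟩
  obtain ⟨C, hC0, hC⟩ := S.dist_e0_of_dist_x0 (2 * r + R)
  refine ⟨|ρ n| + C, by positivity, fun e g heg => ?_⟩
  obtain ⟨i, hi⟩ := hcov e
  have hi0 : 0 < τ i e := by rw [hi]; norm_num
  have h1 := Metric.mem_closedBall.1 (hFA e i hi0)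
  have h2 := (hτ i e).1 hi0
  have h3 : dist (i • S.x0) (g • S.x0) ≤ 2 * r + R :=
    (dist_triangle_left _ _ e).trans (add_le_add h2.le heg)
  have h4 := hC i g h3
  exact (dist_triangle _ ((i : G) • S.e0) _).trans
    (add_le_add (h1.trans (le_abs_self _)) h4)

end Setup

end Pool.Agent.ZStr
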