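import Mathlib

/-!
# Chain metrics (auxiliary file of module METRIC)

From a continuous pseudo-distance `d` whose balls form neighbourhood bases and whose unit balls
around compact sets are relatively compact, chains of steps of length `< 1/2` give a proper
metric with the same symmetries.
-/

namespace Pool.Agent.ZStr

open Set Topology Filter

/-- `Reach d x y r`: there is a chain from `x` to `y` with steps of length `< 1/2` and total
length `r`. -/
inductive Reach {E : Type*} (d : E → E → ℝ) (x : E) : E → ℝ → Prop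
  | refl : Reach d x x 0
  | step {y z : E} {r : ℝ} : Reach d x y r → d y z < 1 / 2 → Reach d x z (r + d y z)

namespace Reach

variable {E : Type*} {d : E → E → ℝ}

theorem trans {x y z : E} {r s : ℝ} (h1 : Reach d x y r) (h2 : Reach d y z s) :
    Reach d x z (r + s) := by
  induction h2 with
  | refl => simpa using h1
  | step h hlt ih =>
    rw [← add_assoc]
    exact Reach.step ih hlt

theorem single {x y : E} (h : d x y < 1 / 2) : Reach d x y (d x y) := by
  have := Reach.step (Reach.refl (d := d) (x := x)) h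
  simpa using this

theorem symm (hs : ∀ x y, d x y = d y x) {x y : E} {r : ℝ} (h : Reach d x y r) :
    Reach d y x r := by
  induction h with
  | refl => exact Reach.refl
  | @step y z r h hlt ih =>
    have h1 : Reach d z y (d z y) := single (by rw [hs]; exact hlt)
    have h2 := h1.trans ih
    rw [hs y z, add_comm]
    exact h2

theorem nonneg (hn : ∀ x y, 0 ≤ d x y) {x y : E} {r : ℝ} (h : Reach d x y r) : 0 ≤ r := by
  induction h with
  | refl => exact le_rfl
  | step h hlt ih => exact add_nonneg ih (hn _ _)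

theorem le (h0 : ∀ x, d x x = 0) (ht : ∀ x y z, d x z ≤ d x y + d y z) {x y : E} {r : ℝ}
    (h : Reach d x y r) : d x y ≤ r := by
  induction h with
  | refl => rw [h0]
  | @step y z r h hlt ih => exact (ht _ y _).trans (by linarith)

theorem map {f : E → E} (hf : ∀ x y, d (f x) (f y) = d x y) {x y : E} {r : ℝ}
    (h : Reach d x y r) : Reach d (f x) (f y) r := by
  induction h with
  | refl => exact Reach.refl
  | @step y z r h hlt ih =>
    rw [← hf y z]
    exact Reach.step ih (by rw [hf]; exact hlt)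

/-- Grouping of the steps of a chain. -/
theorem group (h0 : ∀ x, d x x = 0) (hn : ∀ x y, 0 ≤ d x y)
    (ht : ∀ x y z, d x z ≤ d x y + d y z)
    (C : ℕ → Set E) (hC : ∀ n, ∀ z ∈ C n, ∀ y, d z y < 1 → y ∈ C (n + 1)) {x y : E} {r : ℝ}
    (hx : x ∈ C 0) (h : Reach d x y r) :
    ∃ n : ℕ, ∃ z ∈ C n, ∃ s : ℝ, 0 ≤ s ∧ s < 1 / 2 ∧ d z y ≤ s ∧ (n : ℝ) / 2 + s ≤ r := by
  induction h with
  | refl => exact ⟨0, x, hx, 0, le_rfl, by norm_num, by rw [h0], by simp⟩
  | @step y y' r h hlt ih =>
    obtain ⟨n, z, hz, s, hs0, hs1, hs2, hs3⟩ := ih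
    have hd : 0 ≤ d y y' := hn y y'
    have h1 : d z y' ≤ s + d y y' := (ht z y y').trans (by linarith)
    by_cases hc : s + d y y' < 1 / 2
    · exact ⟨n, z, hz, s + d y y', by linarith, hc, h1, by linarith⟩
    · refine ⟨n + 1, y', hC n z hz y' (by linarith), 0, le_rfl, by norm_num, by rw [h0], ?_⟩
      push_cast
      linarith

end Reach

/-- The chain distance. -/
noncomputable def chainDist {E : Type*} (d : E → E → ℝ) (x y : E) : ℝ :=
  sInf {r | Reach d x y r}

section

variable {E : Type*} {d : E → E → ℝ}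

theorem chainDist_bddBelow (hn : ∀ x y, 0 ≤ d x y) (x y : E) :
    BddBelow {r | Reach d x y r} := ⟨0, fun _ h => Reach.nonneg hn h⟩

theorem chainDist_le (hn : ∀ x y, 0 ≤ d x y) {x y : E} {r : ℝ} (h : Reach d x y r) :
    chainDist d x y ≤ r := csInf_le (chainDist_bddBelow hn x y) h

theorem le_chainDist (hr : ∀ x y, ∃ r, Reach d x y r) {x y : E} {a : ℝ}
    (h : ∀ r, Reach d x y r → a ≤ r) : a ≤ chainDist d x y :=
  le_csInf (hr x y) h

theorem chainDist_self (hn : ∀ x y, 0 ≤ d x y) (hr : ∀ x y, ∃ r, Reach d x y r) (x : E) :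
    chainDist d x x = 0 :=
  le_antisymm (chainDist_le hn Reach.refl) (le_chainDist hr fun _ h => Reach.nonneg hn h)

theorem chainDist_comm (hs : ∀ x y, d x y = d y x) (x y : E) :
    chainDist d x y = chainDist d y x := by
  unfold chainDist
  congr 1
  ext r
  exact ⟨fun h => Reach.symm hs h, fun h => Reach.symm hs h⟩

theorem chainDist_triangle (hn : ∀ x y, 0 ≤ d x y) (hr : ∀ x y, ∃ r, Reach d x y r)
    (x y z : E) : chainDist d x z ≤ chainDist d x y + chainDist d y z := by
  have h1 : ∀ s, Reach d y z s → chainDist d x z - s ≤ chainDist d x y := by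
    intro s hs
    refine le_chainDist hr fun r h => ?_
    have := chainDist_le hn (h.trans hs)
    linarith
  have h2 : chainDist d x z - chainDist d x y ≤ chainDist d y z := by
    refine le_chainDist hr fun s hs => ?_
    have := h1 s hs
    linarith
  linarith

theorem d_le_chainDist (h0 : ∀ x, d x x = 0) (ht : ∀ x y z, d x z ≤ d x y + d y z)
    (hr : ∀ x y, ∃ r, Reach d x y r) (x y : E) : d x y ≤ chainDist d x y :=
  le_chainDist hr fun _ h => Reach.le h0 ht h

theorem chainDist_lt_iff (h0 : ∀ x, d x x = 0) (hn : ∀ x y, 0 ≤ d x y)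
    (ht : ∀ x y z, d x z ≤ d x y + d y z)
    (hr : ∀ x y, ∃ r, Reach d x y r) {x y : E} {e : ℝ} (he : e ≤ 1 / 2) :
    chainDist d x y < e ↔ d x y < e := by
  constructor
  · intro h
    exact (d_le_chainDist h0 ht hr x y).trans_lt h
  · intro h
    exact (chainDist_le hn (Reach.single (h.trans_le he))).trans_lt h

theorem chainDist_map {f : E → E} (hf : ∀ x y, d (f x) (f y) = d x y)
    (hn : ∀ x y, 0 ≤ d x y) (hr : ∀ x y, ∃ r, Reach d x y r) (x y : E) :
    chainDist d (f x) (f y) ≤ chainDist d x y :=
  le_chainDist hr fun _ h => chainDist_le hn (Reach.map hf h)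

end

/-- Connectedness gives chains. -/
theorem reach_of_connected {E : Type*} [TopologicalSpace E] [ConnectedSpace E] {d : E → E → ℝ}
    (hs : ∀ x y, d x y = d y x) (h0 : ∀ x, d x x = 0)
    (hc : Continuous fun p : E × E => d p.1 p.2) (x y : E) : ∃ r, Reach d x y r := by
  have hball : ∀ z : E, IsOpen {w | d z w < 1 / 2} := fun z =>
    isOpen_lt (hc.comp (by fun_prop : Continuous fun w : E => (z, w))) continuous_const
  have hcl : IsClopen {y | ∃ r, Reach d x y r} := by
    constructor
    · rw [← isOpen_compl_iff, isOpen_iff_mem_nhds]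
      intro z hz
      filter_upwards [(hball z).mem_nhds (by simp [h0])] with w hw
      intro ⟨r, hr⟩
      refine hz ⟨r + d w z, Reach.step hr ?_⟩
      rw [hs]
      exact hw
    · rw [isOpen_iff_mem_nhds]
      intro z ⟨r, hr⟩
      filter_upwards [(hball z).mem_nhds (by simp [h0])] with w hw
      exact ⟨r + d z w, Reach.step hr hw⟩
  have := hcl.eq_univ ⟨x, 0, Reach.refl⟩
  have hy : y ∈ {y | ∃ r, Reach d x y r} := by rw [this]; trivial
  exact hy

/-- **Proper metrics from local ones.** -/
theorem exists_proper_metric (E : Type*) [t : TopologicalSpace E] [ConnectedSpace E]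
    [T2Space E] (d : E → E → ℝ) (h0 : ∀ x, d x x = 0) (hn : ∀ x y, 0 ≤ d x y)
    (hs : ∀ x y, d x y = d y x) (ht : ∀ x y z, d x z ≤ d x y + d y z)
    (hc : Continuous fun p : E × E => d p.1 p.2)
    (hb : ∀ x, ∀ U ∈ 𝓝 x, ∃ e > 0, ∀ y, d x y < e → y ∈ U)
    (hcpt : ∀ A : Set E, IsCompact A → ∃ B : Set E, IsCompact B ∧
      ∀ x ∈ A, ∀ y, d x y < 1 → y ∈ B) :
    ∃ m : MetricSpace E, m.toPseudoMetricSpace.toUniformSpace.toTopologicalSpace = t ∧
      @ProperSpace E m.toPseudoMetricSpace ∧ ∀ x y : E, m.dist x y = chainDist d x y := by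
  have hr : ∀ x y, ∃ r, Reach d x y r := reach_of_connected hs h0 hc
  have hnhds : ∀ x : E, ∀ U : Set E, U ∈ 𝓝 x ↔ ∃ e > 0, ∀ y, chainDist d x y < e → y ∈ U := by
    intro x U
    constructor
    · intro hU
      obtain ⟨e, he, h⟩ := hb x U hU
      exact ⟨e, he, fun y hy => h y ((d_le_chainDist h0 ht hr x y).trans_lt hy)⟩
    · rintro ⟨e, he, h⟩
      have hopen : IsOpen {w | d x w < min e (1 / 2)} :=
        isOpen_lt (hc.comp (by fun_prop : Continuous fun w : E => (x, w))) continuous_const
      filter_upwards [hopen.mem_nhds (by simp [h0, he])] with w hw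
      apply h
      have := (chainDist_lt_iff h0 hn ht hr (x := x) (y := w) (min_le_right e (1 / 2))).2 hw
      exact this.trans_le (min_le_left _ _)
  let m : MetricSpace E :=
    { dist := chainDist d
      dist_self := chainDist_self hn hr
      dist_comm := chainDist_comm hs
      dist_triangle := chainDist_triangle hn hr
      eq_of_dist_eq_zero := by
        intro x y hxy
        by_contra hne
        have hU : ({y}ᶜ : Set E) ∈ 𝓝 x := isOpen_compl_singleton.mem_nhds hne
        obtain ⟨e, he, h⟩ := (hnhds x _).1 hU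
        have hxy' : chainDist d x y = 0 := hxy
        exact h y (by rw [hxy']; exact he) rfl }
  have htop : m.toPseudoMetricSpace.toUniformSpace.toTopologicalSpace = t := by
    refine TopologicalSpace.ext_nhds fun x => ?_
    ext U
    rw [hnhds x U]
    rw [@Metric.mem_nhds_iff E m.toPseudoMetricSpace]
    constructor
    · rintro ⟨e, he, h⟩
      refine ⟨e, he, fun y hy => h ?_⟩
      have : @dist E m.toPseudoMetricSpace.toDist y x < e := by
        rw [@dist_comm E m.toPseudoMetricSpace]
        exact hy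
      exact this
    · rintro ⟨e, he, h⟩
      refine ⟨e, he, fun y hy => h y ?_⟩
      have h1 : @dist E m.toPseudoMetricSpace.toDist y x < e := hy
      rw [@dist_comm E m.toPseudoMetricSpace] at h1
      exact h1
  refine ⟨m, htop, ?_, fun x y => rfl⟩
  -- properness
  choose F hF1 hF2 using hcpt
  refine @ProperSpace.mk E m.toPseudoMetricSpace ?_
  intro x r
  have hcompact : ∃ B : Set E, @IsCompact E t B ∧ ∀ y, chainDist d x y ≤ r → y ∈ B := by
    -- compact sets C n
    let C : ℕ → {A : Set E // IsCompact A} := fun n =>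
      Nat.rec ⟨{x}, isCompact_singleton⟩ (fun _ A => ⟨F A.1 A.2, hF1 A.1 A.2⟩) n
    have hC0 : (C 0).1 = {x} := rfl
    have hCs : ∀ n, (C (n + 1)).1 = F (C n).1 (C n).2 := fun n => rfl
    have hC : ∀ n, ∀ z ∈ (C n).1, ∀ y, d z y < 1 → y ∈ (C (n + 1)).1 := by
      intro n z hz y hy
      rw [hCs]
      exact hF2 _ _ z hz y hy
    refine ⟨⋃ n ∈ Finset.range (⌈2 * (r + 1)⌉₊ + 2), (C n).1, ?_, ?_⟩
    · exact Finset.isCompact_biUnion _ fun n _ => (C n).2
    · intro y hy
      obtain ⟨s, hs1, hs2⟩ : ∃ s, Reach d x y s ∧ s < r + 1 := by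
        obtain ⟨s, hs1, hs2⟩ := exists_lt_of_csInf_lt (hr x y)
          (show sInf {r | Reach d x y r} < r + 1 by
            have : chainDist d x y ≤ r := hy
            unfold chainDist at this
            linarith)
        exact ⟨s, hs1, hs2⟩
      obtain ⟨n, z, hz, u, hu0, hu1, hu2, hu3⟩ :=
        Reach.group h0 hn ht (fun n => (C n).1) hC (x := x) (y := y) (r := s) (by simp [hC0]) hs1
      have hy1 : y ∈ (C (n + 1)).1 := hC n z hz y (by linarith)
      refine mem_biUnion (x := n + 1) ?_ hy1
      simp only [Finset.coe_range, mem_Iio]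
      have h1 : (n : ℝ) < 2 * (r + 1) := by linarith
      have h2 : (n : ℝ) < ⌈2 * (r + 1)⌉₊ := h1.trans_le (Nat.le_ceil _)
      have h3 : n < ⌈2 * (r + 1)⌉₊ := by exact_mod_cast h2
      omega
  obtain ⟨B, hB1, hB2⟩ := hcompact
  have hB1' : @IsCompact E m.toPseudoMetricSpace.toUniformSpace.toTopologicalSpace B := by
    rw [htop]
    exact hB1
  refine @IsCompact.of_isClosed_subset E m.toPseudoMetricSpace.toUniformSpace.toTopologicalSpace
    _ _ hB1' (@Metric.isClosed_closedBall E m.toPseudoMetricSpace x r) ?_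
  intro y hy
  apply hB2
  have h1 : @dist E m.toPseudoMetricSpace.toDist y x ≤ r := hy
  rw [@dist_comm E m.toPseudoMetricSpace] at h1
  exact h1

end Pool.Agent.ZStr
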