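import Pool.Agent.ZStr.Defs
import Pool.Agent.ZStr.MetricAux

/-!
# Averaging a cut-off distance over a proper cocompact action (auxiliary file of module METRIC)
-/

namespace Pool.Agent.ZStr

open Set Topology Filter
open scoped unitInterval Pointwise

/-- A continuous distance function inducing the topology of a metrizable space, stated without
instances. -/
theorem exists_dist_fun (E : Type*) [TopologicalSpace E] [TopologicalSpace.MetrizableSpace E] :
    ∃ δ : E → E → ℝ, (∀ x, δ x x = 0) ∧ (∀ x y, 0 ≤ δ x y) ∧ (∀ x y, δ x y = δ y x) ∧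
      (∀ x y z, δ x z ≤ δ x y + δ y z) ∧ (Continuous fun p : E × E => δ p.1 p.2) ∧
      ∀ x, ∀ U ∈ 𝓝 x, ∃ e > 0, ∀ y, δ x y < e → y ∈ U := by
  let _ := TopologicalSpace.metrizableSpaceMetric E
  refine ⟨fun x y => dist x y, dist_self, fun x y => dist_nonneg, dist_comm, dist_triangle,
    continuous_dist, fun x U hU => ?_⟩
  obtain ⟨e, he, h⟩ := Metric.mem_nhds_iff.1 hU
  exact ⟨e, he, fun y hy => h (by rw [Metric.mem_ball, dist_comm]; exact hy)⟩

/-- A pseudo-distance that vanishes off a compact set `S` and is faithful near `K`. -/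
theorem exists_cutoff_dist (E : Type*) [TopologicalSpace E] [LocallyCompactSpace E]
    [TopologicalSpace.MetrizableSpace E] {K : Set E} (hK : IsCompact K) :
    ∃ (ρ : E → E → ℝ) (S : Set E), IsCompact S ∧ (∀ x, ρ x x = 0) ∧ (∀ x y, 0 ≤ ρ x y) ∧
      (∀ x y, ρ x y = ρ y x) ∧ (∀ x y z, ρ x z ≤ ρ x y + ρ y z) ∧
      (Continuous fun p : E × E => ρ p.1 p.2) ∧
      (∀ x y, ρ x y ≠ 0 → x ∈ S ∨ y ∈ S) ∧
      (∀ x ∈ K, ∀ U ∈ 𝓝 x, ∃ e > 0, ∀ y, ρ x y < e → y ∈ U) ∧
      ∀ x ∈ K, ∀ y, ρ x y < 1 → y ∈ S := by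
  obtain ⟨δ, h0, hn, hs, ht, hc, hb⟩ := exists_dist_fun E
  obtain ⟨τ, hτ1, -, hτc, hτ01⟩ := exists_continuous_one_zero_of_isCompact (X := E) hK
    isClosed_empty (disjoint_empty _)
  have hτn : ∀ x, 0 ≤ τ x := fun x => (hτ01 x).1
  have hτK : ∀ x ∈ K, τ x = 1 := fun x hx => hτ1 hx
  refine ⟨fun x y => min (δ x y + |τ x - τ y|) (τ x + τ y), tsupport τ, hτc, ?_, ?_, ?_, ?_, ?_,
    ?_, ?_, ?_⟩
  · intro x
    have := hτn x
    simp only [h0, sub_self, abs_zero, add_zero]
    exact min_eq_left (by linarith)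
  · intro x y
    have h1 := hτn x
    have h2 := hτn y
    exact le_min (add_nonneg (hn _ _) (abs_nonneg _)) (by linarith)
  · intro x y
    beta_reduce
    rw [hs x y, abs_sub_comm, add_comm (τ x)]
  · intro x y z
    have h1 := hτn x
    have h2 := hτn y
    have h3 := hτn z
    have h4 := ht x y z
    have h5 : |τ x - τ z| ≤ |τ x - τ y| + |τ y - τ z| := abs_sub_le _ _ _
    have h6 : τ x - τ y ≤ |τ x - τ y| := le_abs_self _
    have h6' : τ y - τ x ≤ |τ x - τ y| := by rw [abs_sub_comm]; exact le_abs_self _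
    have h7 : τ y - τ z ≤ |τ y - τ z| := le_abs_self _
    have h7' : τ z - τ y ≤ |τ y - τ z| := by rw [abs_sub_comm]; exact le_abs_self _
    have h8 := hn x y
    have h9 := hn y z
    beta_reduce
    rcases min_choice (δ x y + |τ x - τ y|) (τ x + τ y) with ha | ha <;>
    rcases min_choice (δ y z + |τ y - τ z|) (τ y + τ z) with hb' | hb' <;>
    rw [ha, hb']
    · exact (min_le_left _ _).trans (by linarith)
    · exact (min_le_right _ _).trans (by linarith)
    · exact (min_le_right _ _).trans (by linarith)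
    · exact (min_le_right _ _).trans (by linarith)
  · have h1 : Continuous fun p : E × E => τ p.1 := τ.continuous.comp continuous_fst
    have h2 : Continuous fun p : E × E => τ p.2 := τ.continuous.comp continuous_snd
    exact (hc.add (h1.sub h2).abs).min (h1.add h2)
  · intro x y hxy
    by_contra hcon
    push Not at hcon
    have h1 : τ x = 0 := image_eq_zero_of_notMem_tsupport hcon.1
    have h2 : τ y = 0 := image_eq_zero_of_notMem_tsupport hcon.2
    apply hxy
    simp only [h1, h2, add_zero, sub_self, abs_zero]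
    exact min_eq_right (hn _ _)
  · intro x hx U hU
    obtain ⟨e, he, h⟩ := hb x U hU
    refine ⟨min e 1, lt_min he one_pos, fun y hy => h y ?_⟩
    have h1 := hτK x hx
    have h2 := hτn y
    beta_reduce at hy
    rw [h1] at hy
    rcases min_lt_iff.1 hy with h3 | h3
    · have := abs_nonneg (1 - τ y)
      have := min_le_left e 1
      linarith
    · have := min_le_right e 1
      linarith
  · intro x hx y hy
    have h1 := hτK x hx
    have h2 := hτn y
    beta_reduce at hy
    rw [h1] at hy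
    rcases min_lt_iff.1 hy with h3 | h3
    · have h4 := le_abs_self (1 - τ y)
      have h5 := hn x y
      have h6 : 0 < τ y := by linarith
      exact subset_tsupport _ (by simp only [Function.mem_support]; exact h6.ne')
    · linarith

section

variable {G : Type*} [Group G] {E : Type*} [TopologicalSpace E] [MulAction G E]

theorem properlyActs_finite (hp : ProperlyActs G E) {A B : Set E} (hA : IsCompact A)
    (hB : IsCompact B) : {g : G | ∃ x ∈ A, g⁻¹ • x ∈ B}.Finite := by
  refine (hp (A ∪ B) (hA.union hB)).subset ?_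
  rintro g ⟨x, hx, hg⟩
  refine ⟨x, ?_, Or.inl hx⟩
  rw [mem_smul_set_iff_inv_smul_mem]
  exact Or.inr hg

end

/-- The averaged pseudo-distance. -/
noncomputable def avgDist {E : Type*} (G : Type*) [Group G] [MulAction G E] (ρ : E → E → ℝ)
    (x y : E) : ℝ := ∑ᶠ g : G, ρ (g⁻¹ • x) (g⁻¹ • y)

section

variable {G : Type*} [Group G] {E : Type*} [TopologicalSpace E] [MulAction G E]
  {ρ : E → E → ℝ} {S : Set E}

omit [TopologicalSpace E] in
theorem avgDist_smul (g : G) (x y : E) : avgDist G ρ (g • x) (g • y) = avgDist G ρ x y := by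
  unfold avgDist
  rw [← finsum_comp_equiv (Equiv.mulLeft g)]
  apply finsum_congr
  intro h
  simp [mul_smul]

theorem finite_support (hp : ProperlyActs G E) (hS : IsCompact S)
    (hsupp : ∀ x y, ρ x y ≠ 0 → x ∈ S ∨ y ∈ S) (x y : E) :
    (Function.support fun g : G => ρ (g⁻¹ • x) (g⁻¹ • y)).Finite := by
  refine (properlyActs_finite (G := G) hp (isCompact_singleton.union isCompact_singleton :
    IsCompact ({x} ∪ {y} : Set E)) hS).subset ?_
  intro g hg
  rcases hsupp _ _ hg with h | h
  · exact ⟨x, Or.inl rfl, h⟩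
  · exact ⟨y, Or.inr rfl, h⟩

theorem le_avgDist (hp : ProperlyActs G E) (hS : IsCompact S)
    (hsupp : ∀ x y, ρ x y ≠ 0 → x ∈ S ∨ y ∈ S) (hn : ∀ x y, 0 ≤ ρ x y) (g : G) (x y : E) :
    ρ (g⁻¹ • x) (g⁻¹ • y) ≤ avgDist G ρ x y :=
  single_le_finsum (f := fun g : G => ρ (g⁻¹ • x) (g⁻¹ • y)) g (finite_support hp hS hsupp x y)
    fun _ => hn _ _

theorem avgDist_triangle (hp : ProperlyActs G E) (hS : IsCompact S)
    (hsupp : ∀ x y, ρ x y ≠ 0 → x ∈ S ∨ y ∈ S) (ht : ∀ x y z, ρ x z ≤ ρ x y + ρ y z)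
    (x y z : E) : avgDist G ρ x z ≤ avgDist G ρ x y + avgDist G ρ y z := by
  unfold avgDist
  rw [← finsum_add_distrib (finite_support hp hS hsupp x y) (finite_support hp hS hsupp y z)]
  refine finsum_le_finsum' (finite_support hp hS hsupp x z)
    (((finite_support hp hS hsupp x y).union (finite_support hp hS hsupp y z)).subset
      (Function.support_add _ _)) fun g => ht _ _ _

theorem continuous_avgDist [LocallyCompactSpace E] [ContinuousConstSMul G E]
    (hp : ProperlyActs G E) (hS : IsCompact S)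
    (hsupp : ∀ x y, ρ x y ≠ 0 → x ∈ S ∨ y ∈ S) (hc : Continuous fun p : E × E => ρ p.1 p.2) :
    Continuous fun p : E × E => avgDist G ρ p.1 p.2 := by
  unfold avgDist
  apply continuous_finsum
  · intro g
    exact hc.comp (((continuous_const_smul g⁻¹).comp continuous_fst).prodMk
      ((continuous_const_smul g⁻¹).comp continuous_snd))
  · rintro ⟨x, y⟩
    obtain ⟨N, hN, hNx⟩ := exists_compact_mem_nhds x
    obtain ⟨M, hM, hMy⟩ := exists_compact_mem_nhds y
    refine ⟨N ×ˢ M, prod_mem_nhds hNx hMy, ?_⟩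
    refine (properlyActs_finite (G := G) hp (hN.union hM) hS).subset ?_
    rintro g ⟨⟨z, w⟩, h1, h2⟩
    rcases hsupp _ _ h1 with h | h
    · exact ⟨z, Or.inl h2.1, h⟩
    · exact ⟨w, Or.inr h2.2, h⟩

end

end Pool.Agent.ZStr
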