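import Pool.Agent.ZStr.Defs
import Pool.Agent.ZStr.MetricAux
import Pool.Agent.ZStr.MetricAux2

/-!
# Invariant proper metrics (module METRIC)
-/

namespace Pool.Agent.ZStr

open Set Topology Filter
open scoped unitInterval Pointwise

/-- A proper cocompact action by homeomorphisms on a connected, locally compact, separable,
metrizable space preserves some proper metric inducing the topology. -/
theorem exists_invariant_metric {G : Type*} [Group G] (E : Type) [t : TopologicalSpace E]
    [MulAction G E] [LocallyCompactSpace E] [TopologicalSpace.SeparableSpace E]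
    [TopologicalSpace.MetrizableSpace E] [ConnectedSpace E] [ContinuousConstSMul G E]
    (hp : ProperlyActs G E) (hc : CocompactlyActs G E) :
    ∃ m : MetricSpace E, m.toPseudoMetricSpace.toUniformSpace.toTopologicalSpace = t ∧
      @ProperSpace E m.toPseudoMetricSpace ∧
      ∀ (g : G) (x y : E), m.dist (g • x) (g • y) = m.dist x y := by
  obtain ⟨K, hK, hKc⟩ := hc
  obtain ⟨ρ, S, hS, h0, hn, hs, ht, hcont, hsupp, hb, hS1⟩ := exists_cutoff_dist E hK
  have hn1 : ∀ x y, 0 ≤ avgDist G ρ x y := fun x y => finsum_nonneg fun g => hn _ _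
  have h01 : ∀ x, avgDist G ρ x x = 0 := by
    intro x
    unfold avgDist
    simp only [h0, finsum_zero]
  have hs1 : ∀ x y, avgDist G ρ x y = avgDist G ρ y x := by
    intro x y
    unfold avgDist
    exact finsum_congr fun g => hs _ _
  have ht1 := avgDist_triangle (G := G) hp hS hsupp ht
  have hc1 := continuous_avgDist (G := G) hp hS hsupp hcont
  have hK' : ∀ x : E, ∃ g : G, g⁻¹ • x ∈ K := by
    intro x
    obtain ⟨g, hg⟩ := hKc x
    exact ⟨g, mem_smul_set_iff_inv_smul_mem.1 hg⟩
  have hb1 : ∀ x, ∀ U ∈ 𝓝 x, ∃ e > 0, ∀ y, avgDist G ρ x y < e → y ∈ U := by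
    intro x U hU
    obtain ⟨g, hg⟩ := hK' x
    have hU' : (g⁻¹ • U : Set E) ∈ 𝓝 (g⁻¹ • x) := smul_mem_nhds_smul _ hU
    obtain ⟨e, he, h⟩ := hb _ hg _ hU'
    refine ⟨e, he, fun y hy => ?_⟩
    have := h _ ((le_avgDist hp hS hsupp hn g x y).trans_lt hy)
    rwa [smul_mem_smul_set_iff] at this
  have hcpt1 : ∀ A : Set E, IsCompact A → ∃ B : Set E, IsCompact B ∧
      ∀ x ∈ A, ∀ y, avgDist G ρ x y < 1 → y ∈ B := by
    intro A hA
    have hT := properlyActs_finite (G := G) hp hA hK
    refine ⟨⋃ g ∈ {g : G | ∃ x ∈ A, g⁻¹ • x ∈ K}, (g • S : Set E),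
      hT.isCompact_biUnion fun g _ => hS.smul g, ?_⟩
    intro x hx y hy
    obtain ⟨g, hg⟩ := hK' x
    refine mem_biUnion (x := g) ⟨x, hx, hg⟩ ?_
    rw [mem_smul_set_iff_inv_smul_mem]
    exact hS1 _ hg _ ((le_avgDist hp hS hsupp hn g x y).trans_lt hy)
  obtain ⟨m, hm1, hm2, hm3⟩ := exists_proper_metric E (avgDist G ρ) h01 hn1 hs1 ht1 hc1 hb1 hcpt1
  refine ⟨m, hm1, hm2, fun g x y => ?_⟩
  rw [hm3, hm3]
  have hr : ∀ x y, ∃ r, Reach (avgDist G ρ) x y r := reach_of_connected hs1 h01 hc1
  apply le_antisymm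
  · exact chainDist_map (f := fun z => g • z) (fun x y => avgDist_smul g x y) hn1 hr x y
  · have := chainDist_map (f := fun z => g⁻¹ • z) (fun x y => avgDist_smul g⁻¹ x y) hn1 hr
      (g • x) (g • y)
    simpa using this

/-- A group of type `F*_AR` acts properly and cocompactly by isometries on a proper metric
absolute retract. -/
theorem TypeFStarAR.exists_metric {G : Type*} [Group G] (h : TypeFStarAR G) :
    ∃ (E : Type) (_ : MetricSpace E) (_ : MulAction G E), IsAR E ∧ ProperSpace E ∧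
      IsIsometricSMul G E ∧ ProperlyActs G E ∧ CocompactlyActs G E := by
  obtain ⟨X, t, act, hAR, hcont, hp, hc⟩ := h
  have : ContractibleSpace X := hAR.1
  have : LocallyCompactSpace X := hAR.2.1
  have : TopologicalSpace.SeparableSpace X := hAR.2.2.1
  have : TopologicalSpace.MetrizableSpace X := hAR.2.2.2.1
  obtain ⟨m, rfl, hm2, hm3⟩ := exists_invariant_metric X hp hc
  exact ⟨X, m, act, hAR, hm2, ⟨fun g => Isometry.of_dist_eq fun x y => hm3 g x y⟩, hp, hc⟩

end Pool.Agent.ZStr
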