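import Pool.Agent.ZStr.Metric

/-!
# Invariant proper metrics for equicontinuous cocompact actions (module METRICEQ)
-/

namespace Pool.Agent.ZStr

open Set Topology Filter
open scoped unitInterval Pointwise

/-- A cut-off distance: it vanishes off a compact set `S`, is faithful near `K`, and is uniformly
small where the distance is. -/
theorem exists_cutoff_dist_uniform (E : Type*) [MetricSpace E] [LocallyCompactSpace E]
    {K : Set E} (hK : IsCompact K) :
    ∃ (ρ : E → E → ℝ) (S : Set E), IsCompact S ∧ (∀ x, ρ x x = 0) ∧ (∀ x y, 0 ≤ ρ x y) ∧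
      (∀ x y, ρ x y ≤ 2) ∧
      (∀ x y, ρ x y = ρ y x) ∧ (∀ x y z, ρ x z ≤ ρ x y + ρ y z) ∧
      (∀ ε > 0, ∃ δ > 0, ∀ x y, dist x y < δ → ρ x y < ε) ∧
      (∀ x y, ρ x y ≠ 0 → x ∈ S ∨ y ∈ S) ∧
      (∀ x ∈ K, ∀ U ∈ 𝓝 x, ∃ e > 0, ∀ y, ρ x y < e → y ∈ U) ∧
      ∀ x ∈ K, ∀ y, ρ x y < 1 → y ∈ S := by
  obtain ⟨τ, hτ1, -, hτc, hτ01⟩ := exists_continuous_one_zero_of_isCompact (X := E) hK
    isClosed_empty (disjoint_empty _)
  have hτn : ∀ x, 0 ≤ τ x := fun x => (hτ01 x).1
  have hτle : ∀ x, τ x ≤ 1 := fun x => (hτ01 x).2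
  have hτK : ∀ x ∈ K, τ x = 1 := fun x hx => hτ1 hx
  have hτu : UniformContinuous τ := hτc.uniformContinuous_of_continuous τ.continuous
  refine ⟨fun x y => min (dist x y + |τ x - τ y|) (τ x + τ y), tsupport τ, hτc, ?_, ?_, ?_, ?_,
    ?_, ?_, ?_, ?_, ?_⟩
  · intro x
    have := hτn x
    simp only [dist_self, sub_self, abs_zero, add_zero]
    exact min_eq_left (by linarith)
  · intro x y
    have h1 := hτn x
    have h2 := hτn y
    exact le_min (add_nonneg dist_nonneg (abs_nonneg _)) (by linarith)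
  · intro x y
    have h1 := hτle x
    have h2 := hτle y
    exact (min_le_right _ _).trans (by linarith)
  · intro x y
    beta_reduce
    rw [dist_comm x y, abs_sub_comm, add_comm (τ x)]
  · intro x y z
    have h1 := hτn x
    have h2 := hτn y
    have h3 := hτn z
    have h4 := dist_triangle x y z
    have h5 : |τ x - τ z| ≤ |τ x - τ y| + |τ y - τ z| := abs_sub_le _ _ _
    have h6 : τ x - τ y ≤ |τ x - τ y| := le_abs_self _
    have h6' : τ y - τ x ≤ |τ x - τ y| := by rw [abs_sub_comm]; exact le_abs_self _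
    have h7 : τ y - τ z ≤ |τ y - τ z| := le_abs_self _
    have h7' : τ z - τ y ≤ |τ y - τ z| := by rw [abs_sub_comm]; exact le_abs_self _
    have h8 : 0 ≤ dist x y := dist_nonneg
    have h9 : 0 ≤ dist y z := dist_nonneg
    beta_reduce
    rcases min_choice (dist x y + |τ x - τ y|) (τ x + τ y) with ha | ha <;>
    rcases min_choice (dist y z + |τ y - τ z|) (τ y + τ z) with hb' | hb' <;>
    rw [ha, hb']
    · exact (min_le_left _ _).trans (by linarith)
    · exact (min_le_right _ _).trans (by linarith)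
    · exact (min_le_right _ _).trans (by linarith)
    · exact (min_le_right _ _).trans (by linarith)
  · intro ε hε
    obtain ⟨δ, hδ, h⟩ := Metric.uniformContinuous_iff.1 hτu (ε / 2) (by linarith)
    refine ⟨min δ (ε / 2), lt_min hδ (by linarith), fun x y hxy => ?_⟩
    have h1 := h (hxy.trans_le (min_le_left _ _))
    rw [Real.dist_eq] at h1
    have h2 := hxy.trans_le (min_le_right _ _)
    exact (min_le_left _ _).trans_lt (by linarith)
  · intro x y hxy
    by_contra hcon
    push Not at hcon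
    have h1 : τ x = 0 := image_eq_zero_of_notMem_tsupport hcon.1
    have h2 : τ y = 0 := image_eq_zero_of_notMem_tsupport hcon.2
    apply hxy
    simp only [h1, h2, add_zero, sub_self, abs_zero]
    exact min_eq_right dist_nonneg
  · intro x hx U hU
    obtain ⟨e, he, h⟩ := Metric.mem_nhds_iff.1 hU
    refine ⟨min e 1, lt_min he one_pos, fun y hy => h ?_⟩
    have h1 := hτK x hx
    have h2 := hτn y
    beta_reduce at hy
    rw [h1] at hy
    rw [Metric.mem_ball, dist_comm]
    rcases min_lt_iff.1 hy with h3 | h3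
    · have := abs_nonneg (1 - τ y)
      have := min_le_left e 1
      linarith
    · have := min_le_right e 1
      linarith
  · intro x hx y hy
    have h1 := hτK x hx
    have h2 := hτn y
    beta_reduce at hy
    rw [h1] at hy
    rcases min_lt_iff.1 hy with h3 | h3
    · have h4 := le_abs_self (1 - τ y)
      have h5 : 0 ≤ dist x y := dist_nonneg
      have h6 : 0 < τ y := by linarith
      exact subset_tsupport _ (by simp only [Function.mem_support]; exact h6.ne')
    · linarith

/-- the supremum of a bounded pseudo-distance over the group. -/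
noncomputable def supDist {E : Type*} (G : Type*) [Group G] [MulAction G E] (ρ : E → E → ℝ)
    (x y : E) : ℝ := ⨆ g : G, ρ (g • x) (g • y)

section

variable {G : Type*} [Group G] {E : Type*} [MulAction G E] {ρ : E → E → ℝ}

theorem bddAbove_supDist (h2 : ∀ x y, ρ x y ≤ 2) (x y : E) :
    BddAbove (range fun g : G => ρ (g • x) (g • y)) :=
  ⟨2, by rintro _ ⟨g, rfl⟩; exact h2 _ _⟩

theorem le_supDist (h2 : ∀ x y, ρ x y ≤ 2) (g : G) (x y : E) :
    ρ (g • x) (g • y) ≤ supDist G ρ x y := le_ciSup (bddAbove_supDist h2 x y) g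

theorem supDist_le {x y : E} {a : ℝ} (h : ∀ g : G, ρ (g • x) (g • y) ≤ a) :
    supDist G ρ x y ≤ a := ciSup_le h

theorem supDist_smul (h : G) (x y : E) : supDist G ρ (h • x) (h • y) = supDist G ρ x y := by
  unfold supDist
  rw [← (Equiv.mulRight h).iSup_comp (g := fun g : G => ρ (g • x) (g • y))]
  simp [mul_smul]

end

/-- **Invariant proper metrics for equicontinuous cocompact actions.** -/
theorem exists_invariant_metric_equicont {G : Type*} [Group G] (E : Type) [m0 : MetricSpace E]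
    [MulAction G E] [LocallyCompactSpace E] [ConnectedSpace E] [ContinuousConstSMul G E]
    (hc : CocompactlyActs G E)
    (hrel : ∀ K : Set E, IsCompact K → ∃ L : Set E, IsCompact L ∧
      ∀ g : G, ((g • K) ∩ K).Nonempty → g • K ⊆ L)
    (heq : ∀ K : Set E, IsCompact K → ∀ x ∈ K, ∀ ε > 0, ∃ δ > 0, ∀ y ∈ K, dist x y < δ →
      ∀ g : G, ((g • K) ∩ K).Nonempty → dist (g • x) (g • y) < ε) :
    ∃ m : MetricSpace E, m.toPseudoMetricSpace.toUniformSpace.toTopologicalSpace =
        m0.toPseudoMetricSpace.toUniformSpace.toTopologicalSpace ∧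
      @ProperSpace E m.toPseudoMetricSpace ∧
      ∀ (g : G) (x y : E), m.dist (g • x) (g • y) = m.dist x y := by
  obtain ⟨K, hK, hKc⟩ := hc
  obtain ⟨ρ, S, hS, h0, hn, h2, hs, ht, hu, hsupp, hb, hS1⟩ := exists_cutoff_dist_uniform E hK
  have hn1 : ∀ x y, 0 ≤ supDist G ρ x y := fun x y => (hn _ _).trans (le_supDist h2 (1 : G) x y)
  have h01 : ∀ x, supDist G ρ x x = 0 := by
    intro x
    unfold supDist
    simp only [h0, ciSup_const]
  have hs1 : ∀ x y, supDist G ρ x y = supDist G ρ y x := by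
    intro x y
    unfold supDist
    exact iSup_congr fun g => hs _ _
  have ht1 : ∀ x y z, supDist G ρ x z ≤ supDist G ρ x y + supDist G ρ y z := by
    intro x y z
    refine supDist_le fun g => (ht _ (g • y) _).trans ?_
    exact add_le_add (le_supDist h2 g x y) (le_supDist h2 g y z)
  -- local smallness
  have hloc : ∀ x, ∀ ε > 0, ∀ᶠ y in 𝓝 x, supDist G ρ x y < ε := by
    intro x ε hε
    obtain ⟨N, hN, hNx⟩ := exists_compact_mem_nhds x
    obtain ⟨δ, hδ, h⟩ := hu (ε / 2) (by linarith)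
    obtain ⟨δ', hδ', h'⟩ := heq (N ∪ S) (hN.union hS) x (Or.inl (mem_of_mem_nhds hNx)) δ hδ
    filter_upwards [hNx, Metric.ball_mem_nhds x hδ'] with y hyN hyx
    have hxy : dist x y < δ' := by rw [dist_comm]; exact hyx
    refine (supDist_le (a := ε / 2) fun g => ?_).trans_lt (by linarith)
    by_cases hg : ρ (g • x) (g • y) = 0
    · rw [hg]; linarith
    · have hne : ((g • (N ∪ S) : Set E) ∩ (N ∪ S)).Nonempty := by
        rcases hsupp _ _ hg with h | h
        · exact ⟨g • x, smul_mem_smul_set (Or.inl (mem_of_mem_nhds hNx)), Or.inr h⟩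
        · exact ⟨g • y, smul_mem_smul_set (Or.inl hyN), Or.inr h⟩
      exact (h _ _ (h' y (Or.inl hyN) hxy g hne)).le
  have hc1 : Continuous fun p : E × E => supDist G ρ p.1 p.2 := by
    rw [continuous_iff_continuousAt]
    rintro ⟨x, y⟩
    rw [ContinuousAt, Metric.tendsto_nhds]
    intro ε hε
    have h1 := hloc x (ε / 2) (by linarith)
    have h2 := hloc y (ε / 2) (by linarith)
    filter_upwards [prod_mem_nhds h1 h2] with p hp
    have hp1 : supDist G ρ x p.1 < ε / 2 := hp.1
    have hp2 : supDist G ρ y p.2 < ε / 2 := hp.2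
    rw [Real.dist_eq, abs_lt]
    have e1 := ht1 x p.1 y
    have e2 := ht1 p.1 p.2 y
    have e3 := ht1 p.1 x p.2
    have e4 := ht1 x y p.2
    have e5 := hs1 p.1 x
    have e6 := hs1 p.2 y
    constructor <;> linarith
  have hb1 : ∀ x, ∀ U ∈ 𝓝 x, ∃ e > 0, ∀ y, supDist G ρ x y < e → y ∈ U := by
    intro x U hU
    obtain ⟨g, hg⟩ := hKc x
    rw [mem_smul_set_iff_inv_smul_mem] at hg
    have hU' : (g⁻¹ • U : Set E) ∈ 𝓝 (g⁻¹ • x) := smul_mem_nhds_smul _ hU
    obtain ⟨e, he, h⟩ := hb _ hg _ hU'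
    refine ⟨e, he, fun y hy => ?_⟩
    have := h _ ((le_supDist h2 g⁻¹ x y).trans_lt hy)
    rwa [smul_mem_smul_set_iff] at this
  have hcpt1 : ∀ A : Set E, IsCompact A → ∃ B : Set E, IsCompact B ∧
      ∀ x ∈ A, ∀ y, supDist G ρ x y < 1 → y ∈ B := by
    intro A hA
    obtain ⟨L, hL, hL'⟩ := hrel (A ∪ K ∪ S) ((hA.union hK).union hS)
    refine ⟨L, hL, fun x hx y hy => ?_⟩
    obtain ⟨g, hg⟩ := hKc x
    have hg' := mem_smul_set_iff_inv_smul_mem.1 hg
    have hyS := hS1 _ hg' _ ((le_supDist h2 g⁻¹ x y).trans_lt hy)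
    have hne : ((g • (A ∪ K ∪ S) : Set E) ∩ (A ∪ K ∪ S)).Nonempty :=
      ⟨x, mem_smul_set_iff_inv_smul_mem.2 (Or.inl (Or.inr hg')), Or.inl (Or.inl hx)⟩
    exact hL' g hne (mem_smul_set_iff_inv_smul_mem.2 (Or.inr hyS))
  have hr : ∀ x y, ∃ r, Reach (supDist G ρ) x y r := reach_of_connected hs1 h01 hc1
  obtain ⟨m, hm1, hm2, hm3⟩ := exists_proper_metric E (supDist G ρ) h01 hn1 hs1 ht1 hc1 hb1 hcpt1
  refine ⟨m, hm1, hm2, fun g x y => ?_⟩
  rw [hm3, hm3]
  apply le_antisymm
  · exact chainDist_map (f := fun z => g • z) (fun x y => supDist_smul g x y) hn1 hr x y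
  · have := chainDist_map (f := fun z => g⁻¹ • z) (fun x y => supDist_smul g⁻¹ x y) hn1 hr
      (g • x) (g • y)
    simpa using this

/-- The identity as a homeomorphism between equal topologies. -/
def homeoOfEq {E : Type*} {t₁ t₂ : TopologicalSpace E} (h : t₁ = t₂) :
    @Homeomorph E E t₁ t₂ :=
  @Homeomorph.mk E E t₁ t₂ (Equiv.refl E) (by subst h; exact continuous_id)
    (by subst h; exact continuous_id)

/-- A cocompact action by homeomorphisms on a connected, locally compact, separable metric space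
`E` such that, for every compact `K`, the elements `g` with `g K ∩ K ≠ ∅` move `K` into a fixed
compact set and are equicontinuous at the points of `K`, preserves a proper metric inducing the
topology (on a copy `E'` of `E`). -/
theorem exists_equi_metric {G : Type*} [Group G] (E : Type) [MetricSpace E] [MulAction G E]
    [LocallyCompactSpace E] [TopologicalSpace.SeparableSpace E] [ConnectedSpace E]
    [ContinuousConstSMul G E] (hc : CocompactlyActs G E)
    (hrel : ∀ K : Set E, IsCompact K → ∃ L : Set E, IsCompact L ∧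
      ∀ g : G, ((g • K) ∩ K).Nonempty → g • K ⊆ L)
    (hequi : ∀ K : Set E, IsCompact K → ∀ x ∈ K, ∀ ε : ℝ, 0 < ε → ∃ δ : ℝ, 0 < δ ∧
      ∀ g : G, ((g • K) ∩ K).Nonempty → ∀ y, dist x y < δ → dist (g • x) (g • y) < ε) :
    ∃ (E' : Type) (_ : MetricSpace E') (_ : MulAction G E') (φ : E' ≃ₜ E),
      ProperSpace E' ∧ IsIsometricSMul G E' ∧ ∀ (g : G) (e : E'), φ (g • e) = g • φ e := by
  obtain ⟨m, hm1, hm2, hm3⟩ := exists_invariant_metric_equicont E hc hrel
    (fun K hK x hx ε hε => by
      obtain ⟨δ, hδ, h⟩ := hequi K hK x hx ε hε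
      exact ⟨δ, hδ, fun y _ hy g hg => h g hg y hy⟩)
  refine ⟨E, m, inferInstance, homeoOfEq hm1, hm2, ?_, fun g e => rfl⟩
  exact @IsIsometricSMul.mk G E m.toPseudoMetricSpace.toPseudoEMetricSpace _ fun g =>
    @Isometry.of_dist_eq E E m.toPseudoMetricSpace m.toPseudoMetricSpace _ fun x y => hm3 g x y

end Pool.Agent.ZStr
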