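import Pool.Agent.ZStr.Defs

/-!
# The patch lemma (module PATCH)

`P` is a space with countably many cut-off functions `τ i`, locally finite, of multiplicity at
most `n`, such that at each point some cut-off is `1`.  `M` is a space with contractions `h i`
of `M` to points `v i`.  Composing the maps `h i ( · , s τ_i(p))` in the order of an enumeration
of the indices gives a homotopy which at `s = 0` is the identity and at `s = 1` does not depend
on the starting map.
-/

namespace Pool.Agent.ZStr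

open Set Topology Filter
open scoped unitInterval

section PatchAux

variable {P M : Type*} {ι : Type*} [Encodable ι]

/-- The composition of the first `k` steps. -/
noncomputable def patchPhi (t : ι → P → I) (h : ι → M × I → M) : ℕ → P × M × I → M
  | 0, x => x.2.1
  | k + 1, x =>
    match Encodable.decode₂ ι k with
    | none => patchPhi t h k x
    | some i => h i (patchPhi t h k x, x.2.2 * t i x.1)

theorem patchPhi_succ_none {t : ι → P → I} {h : ι → M × I → M} {k : ℕ}
    (hk : Encodable.decode₂ ι k = none) (x : P × M × I) :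
    patchPhi t h (k + 1) x = patchPhi t h k x := by
  simp only [patchPhi, hk]

theorem patchPhi_succ_some {t : ι → P → I} {h : ι → M × I → M} {k : ℕ} {i : ι}
    (hk : Encodable.decode₂ ι k = some i) (x : P × M × I) :
    patchPhi t h (k + 1) x = h i (patchPhi t h k x, x.2.2 * t i x.1) := by
  simp only [patchPhi, hk]

theorem decode₂_eq_some {k : ℕ} {i : ι} (hk : Encodable.decode₂ ι k = some i) :
    Encodable.encode i = k := by
  have := Encodable.mem_decode₂ (a := i) (n := k)
  exact this.1 (by simpa using hk)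

theorem patchPhi_continuous [TopologicalSpace P] [TopologicalSpace M]
    {t : ι → P → I} {h : ι → M × I → M}
    (ht : ∀ i, Continuous (t i)) (hc : ∀ i, Continuous (h i)) (k : ℕ) :
    Continuous (patchPhi t h k) := by
  induction k with
  | zero => exact continuous_snd.fst
  | succ k ih =>
    rcases hk : Encodable.decode₂ ι k with _ | i
    · have : patchPhi t h (k + 1) = patchPhi t h k := by
        funext x; exact patchPhi_succ_none hk x
      rw [this]; exact ih
    · have : patchPhi t h (k + 1) =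
          fun x => h i (patchPhi t h k x, x.2.2 * t i x.1) := by
        funext x; exact patchPhi_succ_some hk x
      rw [this]
      exact (hc i).comp (ih.prodMk (continuous_snd.snd.mul ((ht i).comp continuous_fst)))

theorem patchPhi_stable {t : ι → P → I} {h : ι → M × I → M}
    (h0 : ∀ i m, h i (m, 0) = m) {p : P} {K : ℕ}
    (hK : ∀ i, t i p ≠ 0 → Encodable.encode i < K) (m : M) (s : I) {k : ℕ} (hk : K ≤ k) :
    patchPhi t h k (p, m, s) = patchPhi t h K (p, m, s) := by
  induction k, hk using Nat.le_induction with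
  | base => rfl
  | succ k hk ih =>
    rcases hd : Encodable.decode₂ ι k with _ | i
    · rw [patchPhi_succ_none hd, ih]
    · have hi : t i p = 0 := by
        by_contra hne
        have h1 := hK i hne
        rw [decode₂_eq_some hd] at h1
        omega
      rw [patchPhi_succ_some hd]
      simp only [hi, mul_zero, h0, ih]

theorem patchPhi_zero {t : ι → P → I} {h : ι → M × I → M}
    (h0 : ∀ i m, h i (m, 0) = m) (p : P) (m : M) (k : ℕ) :
    patchPhi t h k (p, m, 0) = m := by
  induction k with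
  | zero => rfl
  | succ k ih =>
    rcases hd : Encodable.decode₂ ι k with _ | i
    · rw [patchPhi_succ_none hd, ih]
    · rw [patchPhi_succ_some hd]
      simp only [zero_mul, h0, ih]

theorem patchPhi_step_one {t : ι → P → I} {h : ι → M × I → M} {v : ι → M}
    (h1 : ∀ i m, h i (m, 1) = v i) {p : P} {i : ι} (hi : t i p = 1) (m : M) :
    patchPhi t h (Encodable.encode i + 1) (p, m, 1) = v i := by
  have hd : Encodable.decode₂ ι (Encodable.encode i) = some i := Encodable.encodek₂ i
  rw [patchPhi_succ_some hd]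
  simp only [hi, mul_one, h1]

theorem patchPhi_indep {t : ι → P → I} {h : ι → M × I → M} {v : ι → M}
    (h1 : ∀ i m, h i (m, 1) = v i) {p : P} {i : ι} (hi : t i p = 1) (m m' : M) {k : ℕ}
    (hk : Encodable.encode i + 1 ≤ k) :
    patchPhi t h k (p, m, 1) = patchPhi t h k (p, m', 1) := by
  induction k, hk using Nat.le_induction with
  | base => rw [patchPhi_step_one h1 hi, patchPhi_step_one h1 hi]
  | succ k hk ih =>
    rcases hd : Encodable.decode₂ ι k with _ | j
    · rw [patchPhi_succ_none hd, patchPhi_succ_none hd, ih]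
    · rw [patchPhi_succ_some hd, patchPhi_succ_some hd]
      simp only [ih]

theorem patchPhi_control {t : ι → P → I} {h : ι → M × I → M}
    (h0 : ∀ i m, h i (m, 0) = m) (A : ℕ → ι → Set M) {p : P}
    (hA : ∀ c i j, t i p ≠ 0 → t j p ≠ 0 → ∀ m ∈ A c i, ∀ s : I, h i (m, s) ∈ A (c + 1) j)
    {k₀ : ℕ} {m : M} {s : I}
    (hbase : ∀ j, t j p ≠ 0 → patchPhi t h k₀ (p, m, s) ∈ A 0 j) (l : ℕ) :
    ∀ c : ℕ, {i | t i p ≠ 0 ∧ k₀ ≤ Encodable.encode i ∧ Encodable.encode i < k₀ + l}.encard
        ≤ c →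
      ∀ j, t j p ≠ 0 → patchPhi t h (k₀ + l) (p, m, s) ∈ A c j := by
  have hmono : ∀ (m' : M) (j : ι), t j p ≠ 0 → ∀ c, m' ∈ A c j → m' ∈ A (c + 1) j := by
    intro m' j hj c hm
    have := hA c j j hj hj m' hm 0
    rwa [h0] at this
  have hmono' : ∀ (m' : M) (j : ι), t j p ≠ 0 → m' ∈ A 0 j → ∀ c, m' ∈ A c j := by
    intro m' j hj hm c
    induction c with
    | zero => exact hm
    | succ c ih => exact hmono m' j hj c ih
  induction l with
  | zero =>
    intro c _ j hj
    exact hmono' _ j hj (hbase j hj) c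
  | succ l ih =>
    intro c hc j hj
    have hsub : {i | t i p ≠ 0 ∧ k₀ ≤ Encodable.encode i ∧ Encodable.encode i < k₀ + l} ⊆
        {i | t i p ≠ 0 ∧ k₀ ≤ Encodable.encode i ∧ Encodable.encode i < k₀ + (l + 1)} := by
      rintro i ⟨h1, h2, h3⟩
      exact ⟨h1, h2, by omega⟩
    have hle := ih c ((Set.encard_le_encard hsub).trans hc)
    have hadd : k₀ + (l + 1) = (k₀ + l) + 1 := by omega
    rcases hd : Encodable.decode₂ ι (k₀ + l) with _ | i
    · rw [hadd, patchPhi_succ_none hd]
      exact hle j hj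
    · by_cases hi : t i p = 0
      · rw [hadd, patchPhi_succ_some hd]
        simp only [hi, mul_zero, h0]
        exact hle j hj
      · have hei : Encodable.encode i = k₀ + l := decode₂_eq_some hd
        have hins : insert i
            {i | t i p ≠ 0 ∧ k₀ ≤ Encodable.encode i ∧ Encodable.encode i < k₀ + l} ⊆
            {i | t i p ≠ 0 ∧ k₀ ≤ Encodable.encode i ∧ Encodable.encode i < k₀ + (l + 1)} := by
          rintro i' (rfl | h')
          · exact ⟨hi, by omega, by omega⟩
          · exact hsub h'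
        have hnot : i ∉
            {i | t i p ≠ 0 ∧ k₀ ≤ Encodable.encode i ∧ Encodable.encode i < k₀ + l} := by
          rintro ⟨_, _, h3⟩
          omega
        have hcard := Set.encard_insert_of_notMem hnot
        have hc2 := (Set.encard_le_encard hins).trans hc
        rw [hcard] at hc2
        obtain ⟨c', rfl⟩ : ∃ c', c = c' + 1 := by
          rcases c with _ | c'
          · exfalso
            have : (1 : ℕ∞) ≤ 0 := le_trans (by simp) hc2
            simp at this
          · exact ⟨c', rfl⟩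
        have hc3 : {i | t i p ≠ 0 ∧ k₀ ≤ Encodable.encode i ∧
            Encodable.encode i < k₀ + l}.encard ≤ (c' : ℕ∞) := by
          have h1top : (1 : ℕ∞) ≠ ⊤ := by simp
          rw [Nat.cast_add, Nat.cast_one] at hc2
          exact (ENat.add_le_add_iff_right h1top).1 hc2
        rw [hadd, patchPhi_succ_some hd]
        exact hA c' i j hi hj _ (ih c' hc3 i hi) _

end PatchAux

/-- PATCH LEMMA. -/
theorem patch {P M : Type*} [TopologicalSpace P] [TopologicalSpace M] [Nonempty M]
    {ι : Type*} [Countable ι]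
    (τ : ι → P → ℝ) (hτc : ∀ i, Continuous (τ i)) (hτ01 : ∀ i p, 0 ≤ τ i p ∧ τ i p ≤ 1)
    (hlf : LocallyFinite (fun i => {p | 0 < τ i p}))
    (n : ℕ) (hmult : ∀ p, {i | 0 < τ i p}.encard ≤ n)
    (hcov : ∀ p, ∃ i, τ i p = 1)
    (v : ι → M) (h : ι → M × I → M) (hc : ∀ i, Continuous (h i))
    (h0 : ∀ i m, h i (m, 0) = m) (h1 : ∀ i m, h i (m, 1) = v i)
    (A : ℕ → ι → Set M)
    (hv : ∀ i j, (∃ p, 0 < τ i p ∧ 0 < τ j p) → v i ∈ A 0 j)
    (hA : ∀ c i j, (∃ p, 0 < τ i p ∧ 0 < τ j p) → ∀ m ∈ A c i, ∀ s : I,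
      h i (m, s) ∈ A (c + 1) j) :
    ∃ F : P → M, Continuous F ∧ (∀ p i, 0 < τ i p → F p ∈ A n i) ∧
      ∀ f : P → M, Continuous f → (∀ p i, 0 < τ i p → f p ∈ A 0 i) →
        ∃ H : P × I → M, Continuous H ∧ (∀ p, H (p, 0) = f p) ∧ (∀ p, H (p, 1) = F p) ∧
          ∀ p s i, 0 < τ i p → H (p, s) ∈ A n i := by
  classical
  have : Encodable ι := Encodable.ofCountable ι
  set t : ι → P → I := fun i p => ⟨τ i p, hτ01 i p⟩ with ht_def
  have htc : ∀ i, Continuous (t i) := fun i => (hτc i).subtype_mk _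
  have htne : ∀ i p, t i p ≠ 0 ↔ 0 < τ i p := by
    intro i p
    rw [ht_def]
    constructor
    · intro hne
      refine lt_of_le_of_ne (hτ01 i p).1 (fun h => hne ?_)
      exact Subtype.ext h.symm
    · intro hpos heq
      have := congrArg Subtype.val heq
      simp only [Set.Icc.coe_zero] at this
      linarith
  have htone : ∀ i p, τ i p = 1 → t i p = 1 := fun i p hip => Subtype.ext hip
  -- local bounds
  have hloc : ∀ p : P, ∃ U ∈ 𝓝 p, ∃ K : ℕ, ∀ q ∈ U, ∀ i, t i q ≠ 0 →
      Encodable.encode i < K := by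
    intro p
    obtain ⟨U, hU, hfin⟩ := hlf p
    obtain ⟨K, hK⟩ := (hfin.image (Encodable.encode (α := ι))).bddAbove
    refine ⟨U, hU, K + 1, fun q hq i hi => ?_⟩
    have hmem : i ∈ {i | ({p | 0 < τ i p} ∩ U).Nonempty} := ⟨q, (htne i q).1 hi, hq⟩
    have := hK (Set.mem_image_of_mem _ hmem)
    omega
  choose U hU K hK using hloc
  set Φ : P × M × I → M := fun x => patchPhi t h (K x.1) x with hΦ
  have hΦeq : ∀ p : P, ∀ q ∈ U p, ∀ m s, Φ (q, m, s) = patchPhi t h (K p) (q, m, s) := by
    intro p q hq m s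
    have e1 := patchPhi_stable (t := t) (h := h) h0 (p := q) (K := K q)
      (hK q q (mem_of_mem_nhds (hU q))) m s (k := max (K p) (K q)) (le_max_right _ _)
    have e2 := patchPhi_stable (t := t) (h := h) h0 (p := q) (K := K p)
      (hK p q hq) m s (k := max (K p) (K q)) (le_max_left _ _)
    show patchPhi t h (K q) (q, m, s) = _
    rw [← e1, e2]
  have hΦc : Continuous Φ := by
    rw [continuous_iff_continuousAt]
    rintro ⟨p, m, s⟩
    have hev : Φ =ᶠ[𝓝 (p, m, s)] patchPhi t h (K p) := by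
      have : U p ×ˢ (Set.univ : Set (M × I)) ∈ 𝓝 (p, m, s) :=
        prod_mem_nhds (hU p) univ_mem
      filter_upwards [this]
      rintro ⟨q, m', s'⟩ hq
      exact hΦeq p q hq.1 m' s'
    exact ((patchPhi_continuous htc hc (K p)).continuousAt).congr hev.symm
  have hΦ0 : ∀ p m, Φ (p, m, 0) = m := fun p m => patchPhi_zero h0 p m _
  -- for every p, bound k
  have hΦbig : ∀ p m s k, K p ≤ k → patchPhi t h k (p, m, s) = Φ (p, m, s) := by
    intro p m s k hk
    exact patchPhi_stable h0 (hK p p (mem_of_mem_nhds (hU p))) m s hk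
  have hΦindep : ∀ p m m', Φ (p, m, 1) = Φ (p, m', 1) := by
    intro p m m'
    obtain ⟨i, hi⟩ := hcov p
    have := patchPhi_indep (t := t) (h := h) (v := v) h1 (p := p) (i := i) (htone i p hi) m m'
      (k := max (K p) (Encodable.encode i + 1)) (le_max_right _ _)
    rw [hΦbig _ _ _ _ (le_max_left _ _), hΦbig _ _ _ _ (le_max_left _ _)] at this
    exact this
  have hA' : ∀ p, ∀ c i j, t i p ≠ 0 → t j p ≠ 0 → ∀ m ∈ A c i, ∀ s : I,
      h i (m, s) ∈ A (c + 1) j := by
    intro p c i j hi hj m hm s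
    exact hA c i j ⟨p, (htne i p).1 hi, (htne j p).1 hj⟩ m hm s
  have hcard : ∀ p k l, {i | t i p ≠ 0 ∧ k ≤ Encodable.encode i ∧
      Encodable.encode i < k + l}.encard ≤ (n : ℕ∞) := by
    intro p k l
    refine le_trans (Set.encard_le_encard ?_) (hmult p)
    rintro i ⟨hi, _⟩
    exact (htne i p).1 hi
  set m₀ : M := Classical.arbitrary M
  refine ⟨fun p => Φ (p, m₀, 1), ?_, ?_, ?_⟩
  · exact hΦc.comp (continuous_id.prodMk continuous_const)
  · intro p j hj
    obtain ⟨i, hi⟩ := hcov p
    have hpos : 0 < τ i p := by rw [hi]; exact one_pos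
    have hb : ∀ j, t j p ≠ 0 →
        patchPhi t h (Encodable.encode i + 1) (p, m₀, 1) ∈ A 0 j := by
      intro j hj
      rw [patchPhi_step_one h1 (htone i p hi)]
      exact hv i j ⟨p, hpos, (htne j p).1 hj⟩
    have := patchPhi_control h0 A (hA' p) hb (K p) n (hcard p _ _) j ((htne j p).2 hj)
    rw [hΦbig _ _ _ _ (by omega)] at this
    exact this
  · intro f hf hfA
    refine ⟨fun x => Φ (x.1, f x.1, x.2), ?_, ?_, ?_, ?_⟩
    · exact hΦc.comp (continuous_fst.prodMk ((hf.comp continuous_fst).prodMk continuous_snd))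
    · intro p; exact hΦ0 p _
    · intro p; exact hΦindep p _ _
    · intro p s j hj
      have hb : ∀ j, t j p ≠ 0 → patchPhi t h 0 (p, f p, s) ∈ A 0 j := by
        intro j hj
        exact hfA p j ((htne j p).1 hj)
      have := patchPhi_control h0 A (hA' p) hb (K p) n (hcard p _ _) j ((htne j p).2 hj)
      rw [hΦbig _ _ _ _ (by omega)] at this
      exact this

/-- Corollary of the patch lemma: two controlled maps are homotopic by a controlled homotopy. -/
theorem patch_homotopic {P M : Type*} [TopologicalSpace P] [TopologicalSpace M] [Nonempty M]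
    {ι : Type*} [Countable ι]
    (τ : ι → P → ℝ) (hτc : ∀ i, Continuous (τ i)) (hτ01 : ∀ i p, 0 ≤ τ i p ∧ τ i p ≤ 1)
    (hlf : LocallyFinite (fun i => {p | 0 < τ i p}))
    (n : ℕ) (hmult : ∀ p, {i | 0 < τ i p}.encard ≤ n)
    (hcov : ∀ p, ∃ i, τ i p = 1)
    (v : ι → M) (h : ι → M × I → M) (hc : ∀ i, Continuous (h i))
    (h0 : ∀ i m, h i (m, 0) = m) (h1 : ∀ i m, h i (m, 1) = v i)
    (A : ℕ → ι → Set M)
    (hv : ∀ i j, (∃ p, 0 < τ i p ∧ 0 < τ j p) → v i ∈ A 0 j)
    (hA : ∀ c i j, (∃ p, 0 < τ i p ∧ 0 < τ j p) → ∀ m ∈ A c i, ∀ s : I,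
      h i (m, s) ∈ A (c + 1) j)
    (f g : P → M) (hf : Continuous f) (hg : Continuous g)
    (hfA : ∀ p i, 0 < τ i p → f p ∈ A 0 i) (hgA : ∀ p i, 0 < τ i p → g p ∈ A 0 i) :
    ∃ H : P × I → M, Continuous H ∧ (∀ p, H (p, 0) = f p) ∧ (∀ p, H (p, 1) = g p) ∧
      ∀ p s i, 0 < τ i p → H (p, s) ∈ A n i := by
  obtain ⟨F, hF, -, hpatch⟩ := patch τ hτc hτ01 hlf n hmult hcov v h hc h0 h1 A hv hA
  obtain ⟨H₁, hH₁, h₁0, h₁1, h₁A⟩ := hpatch f hf hfA
  obtain ⟨H₂, hH₂, h₂0, h₂1, h₂A⟩ := hpatch g hg hgA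
  let f' : C(P, M) := ⟨f, hf⟩
  let g' : C(P, M) := ⟨g, hg⟩
  let F' : C(P, M) := ⟨F, hF⟩
  let G₁ : ContinuousMap.Homotopy f' F' :=
    { toFun := fun x => H₁ (x.2, x.1)
      continuous_toFun := hH₁.comp (continuous_snd.prodMk continuous_fst)
      map_zero_left := fun p => h₁0 p
      map_one_left := fun p => h₁1 p }
  let G₂ : ContinuousMap.Homotopy g' F' :=
    { toFun := fun x => H₂ (x.2, x.1)
      continuous_toFun := hH₂.comp (continuous_snd.prodMk continuous_fst)
      map_zero_left := fun p => h₂0 p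
      map_one_left := fun p => h₂1 p }
  let G := G₁.trans G₂.symm
  refine ⟨fun x => G (x.2, x.1), ?_, ?_, ?_, ?_⟩
  · exact (G.continuous).comp (continuous_snd.prodMk continuous_fst)
  · intro p; exact G.apply_zero p
  · intro p; exact G.apply_one p
  · intro p s i hi
    show (G₁.trans G₂.symm) (s, p) ∈ A n i
    rw [ContinuousMap.Homotopy.trans_apply]
    split_ifs
    · exact h₁A p _ i hi
    · rw [ContinuousMap.Homotopy.symm_apply]
      exact h₂A p _ i hi

/-- NET CUT-OFFS.  In a metric space `P` with a net `a : ι → P` (every point within `r` of some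
`a i`, at most `n` of the `a i` in each ball of radius `2 r`, finitely many in every ball), the
functions `τ i p = max 0 (min 1 (2 - dist p (a i) / r))` are cut-offs as in the patch lemma. -/
theorem netCutoff {P : Type*} [MetricSpace P] {ι : Type*} (a : ι → P) (r : ℝ) (hr : 0 < r)
    (hnet : ∀ p, ∃ i, dist p (a i) ≤ r) (n : ℕ)
    (hmult : ∀ p, {i | dist p (a i) < 2 * r}.encard ≤ n)
    (hfin : ∀ p s, {i | dist p (a i) ≤ s}.Finite) :
    ∃ τ : ι → P → ℝ, (∀ i, Continuous (τ i)) ∧ (∀ i p, 0 ≤ τ i p ∧ τ i p ≤ 1) ∧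
      LocallyFinite (fun i => {p | 0 < τ i p}) ∧ (∀ p, {i | 0 < τ i p}.encard ≤ n) ∧
      (∀ p, ∃ i, τ i p = 1) ∧ (∀ i p, 0 < τ i p ↔ dist p (a i) < 2 * r) := by
  set τ : ι → P → ℝ := fun i p => max 0 (min 1 (2 - dist p (a i) / r)) with hτ
  have hpos : ∀ i p, 0 < τ i p ↔ dist p (a i) < 2 * r := by
    intro i p
    simp only [hτ, lt_max_iff, lt_irrefl, false_or, lt_min_iff, zero_lt_one, true_and, sub_pos]
    rw [div_lt_iff₀ hr]
  refine ⟨τ, ?_, ?_, ?_, ?_, ?_, hpos⟩
  · intro i
    exact continuous_const.max (continuous_const.min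
      (continuous_const.sub ((continuous_id.dist continuous_const).div_const r)))
  · intro i p
    refine ⟨le_max_left _ _, ?_⟩
    exact max_le zero_le_one (min_le_left _ _)
  · intro p
    refine ⟨Metric.ball p r, Metric.ball_mem_nhds p hr, (hfin p (3 * r)).subset ?_⟩
    rintro i ⟨q, hq1, hq2⟩
    have h1 : dist q (a i) < 2 * r := (hpos i q).1 hq1
    have h2 : dist q p < r := hq2
    have h3 : dist p (a i) ≤ dist p q + dist q (a i) := dist_triangle _ _ _
    rw [dist_comm p q] at h3
    show dist p (a i) ≤ 3 * r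
    linarith
  · intro p
    have : {i | 0 < τ i p} = {i | dist p (a i) < 2 * r} := by
      ext i; exact hpos i p
    rw [this]; exact hmult p
  · intro p
    obtain ⟨i, hi⟩ := hnet p
    refine ⟨i, ?_⟩
    have h1 : dist p (a i) / r ≤ 1 := by
      rw [div_le_one hr]; exact hi
    simp only [hτ]
    rw [min_eq_left (by linarith), max_eq_right zero_le_one]

end Pool.Agent.ZStr
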