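import Mathlib

/-!
# Groups with a subnormal series with cyclic or finite factors (module POLYCF)
-/

namespace Pool.Agent.ZStr

/-- Groups with a subnormal series with cyclic or finite factors, with at most `n` infinite
factors. -/
def IsPolyCF (n : ℕ) (P : Type*) [Group P] : Prop :=
  ∃ (k : ℕ) (H : ℕ → Subgroup P) (s : Finset ℕ), H 0 = ⊥ ∧ H k = ⊤ ∧ s.card ≤ n ∧
    ∀ i < k, H i ≤ H (i + 1) ∧
    ∃ _ : ((H i).subgroupOf (H (i + 1))).Normal,
      (IsCyclic (H (i + 1) ⧸ (H i).subgroupOf (H (i + 1))) ∨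
        Finite (H (i + 1) ⧸ (H i).subgroupOf (H (i + 1)))) ∧
      (i ∉ s → Finite (H (i + 1) ⧸ (H i).subgroupOf (H (i + 1))))

/-- The basic step: pulling back a normal pair along a homomorphism of the larger groups: the
factor embeds. -/
theorem exists_factor_injection' {P Q : Type*} [Group P] [Group Q] {B' : Subgroup P}
    {B : Subgroup Q} (A' : Subgroup P) (A : Subgroup Q) (g : B' →* B)
    (hg : ∀ x : B', (x : P) ∈ A' ↔ (g x : Q) ∈ A) [hN : (A.subgroupOf B).Normal] :
    ∃ _ : (A'.subgroupOf B').Normal,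
      ∃ φ : B' ⧸ A'.subgroupOf B' →* B ⧸ A.subgroupOf B, Function.Injective φ := by
  let h : B' →* B ⧸ A.subgroupOf B := (QuotientGroup.mk' (A.subgroupOf B)).comp g
  have hker : h.ker = A'.subgroupOf B' := by
    ext x
    rw [MonoidHom.mem_ker, Subgroup.mem_subgroupOf, hg x]
    change QuotientGroup.mk' (A.subgroupOf B) (g x) = 1 ↔ _
    rw [QuotientGroup.mk'_apply, QuotientGroup.eq_one_iff, Subgroup.mem_subgroupOf]
  have hN' : (A'.subgroupOf B').Normal := by
    rw [← hker]; infer_instance
  refine ⟨hN', ?_⟩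
  refine ⟨QuotientGroup.lift (A'.subgroupOf B') h (fun x hx => by
    rw [← hker] at hx; exact hx), ?_⟩
  rw [injective_iff_map_eq_one]
  intro a
  induction a using QuotientGroup.induction_on with
  | H z =>
    intro hz
    rw [QuotientGroup.lift_mk] at hz
    rw [QuotientGroup.eq_one_iff, ← hker]
    exact hz

/-- The basic step: pulling back a normal pair along a homomorphism: the factor embeds. -/
theorem exists_factor_injection {P Q : Type*} [Group P] [Group Q] (f : P →* Q)
    (A B : Subgroup Q) (A' B' : Subgroup P) (hA' : ∀ x ∈ B', x ∈ A' ↔ f x ∈ A)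
    (hB' : ∀ x ∈ B', f x ∈ B) [hN : (A.subgroupOf B).Normal] :
    ∃ _ : (A'.subgroupOf B').Normal,
      ∃ φ : B' ⧸ A'.subgroupOf B' →* B ⧸ A.subgroupOf B, Function.Injective φ := by
  let g : B' →* B :=
    { toFun := fun x => ⟨f x, hB' x x.2⟩
      map_one' := by ext; simp
      map_mul' := by intro x y; ext; simp }
  exact exists_factor_injection' A' A g (fun x => hA' x x.2)

theorem IsPolyCF.of_injective {n : ℕ} {P Q : Type*} [Group P] [Group Q] (f : P →* Q)
    (hf : Function.Injective f) (h : IsPolyCF n Q) : IsPolyCF n P := by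
  obtain ⟨k, H, s, h0, hk, hs, hstep⟩ := h
  refine ⟨k, fun i => (H i).comap f, s, ?_, ?_, hs, ?_⟩
  · ext x
    simp only [h0, Subgroup.mem_comap, Subgroup.mem_bot]
    exact map_eq_one_iff f hf
  · simp [hk]
  · intro i hi
    obtain ⟨hle, hN, hc, hfin⟩ := hstep i hi
    refine ⟨Subgroup.comap_mono hle, ?_⟩
    obtain ⟨hN', φ, hφ⟩ := exists_factor_injection f (H i) (H (i + 1)) ((H i).comap f)
      ((H (i + 1)).comap f) (fun x _ => Iff.rfl) (fun x hx => hx)
    refine ⟨hN', ?_, fun his => ?_⟩
    · rcases hc with hc | hc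
      · exact Or.inl (isCyclic_of_injective φ hφ)
      · exact Or.inr (Finite.of_injective φ hφ)
    · have := hfin his
      exact Finite.of_injective φ hφ

/-- Subgroups. -/
theorem IsPolyCF.subgroup {n : ℕ} {P : Type*} [Group P] (h : IsPolyCF n P) (K : Subgroup P) :
    IsPolyCF n K :=
  h.of_injective K.subtype K.subtype_injective

end Pool.Agent.ZStr
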