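import Pool.Agent.ZStr.Slab

/-!
# The map back (module PSI)
-/

namespace Pool.Agent.ZStr

open Set Topology Filter
open scoped unitInterval

namespace Setup

variable {G : Type*} [Group G] {N : Subgroup G} {E X Y : Type}
    [MetricSpace E] [MetricSpace X] [MetricSpace Y]
    [MulAction G E] [MulAction N X] [MulAction G Y] (S : Setup G N E X Y)

/-- A controlled map `φY` is coarsely equivariant. -/
theorem phiY_coarse_equivariant (φY : E → Y)
    (hφYc : ∀ R : ℝ, ∃ C : ℝ, 0 ≤ C ∧ ∀ (e : E) (g : G), dist e (g • S.e0) ≤ R →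
      dist (φY e) (g • S.y0) ≤ C) :
    ∃ D : ℝ, 0 ≤ D ∧ ∀ (γ : G) (e : E), dist (φY (γ • e)) (γ • φY e) ≤ D := by
  obtain ⟨rE, hrE⟩ := S.netE
  obtain ⟨C, hC0, hC⟩ := hφYc rE
  refine ⟨C + C, by positivity, fun γ e => ?_⟩
  obtain ⟨g, hg⟩ := hrE e
  have h1 : dist (γ • e) ((γ * g) • S.e0) ≤ rE := by
    rw [mul_smul, S.dist_smulE]
    exact hg
  have h2 := hC _ _ h1
  have h3 := hC _ _ hg
  have h4 : dist (γ • φY e) ((γ * g) • S.y0) ≤ C := by
    rw [mul_smul, S.dist_smulY]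
    exact h3
  exact (dist_triangle_right _ _ ((γ * g) • S.y0)).trans (add_le_add h2 h4)

/-- The map back, `ψ : X × Y → E`. -/
theorem exists_psi (φY : E → Y) (hφY : Continuous φY)
    (hφYc : ∀ R : ℝ, ∃ C : ℝ, 0 ≤ C ∧ ∀ (e : E) (g : G), dist e (g • S.e0) ≤ R →
      dist (φY e) (g • S.y0) ≤ C) :
    ∃ ψ : X × Y → E, Continuous ψ ∧ ∃ (C : ℝ) (c : ℝ → ℝ), Monotone c ∧ (∀ t, 0 ≤ c t) ∧
      ∀ w : X × Y, ∃ γ : G, dist w.2 (γ • S.y0) ≤ C ∧
        dist w.1 (S.p γ • S.x0) ≤ c (dist w.2 S.y0) ∧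
        dist (φY (ψ w)) w.2 ≤ C ∧
        dist (ψ w) (γ • S.e0) ≤ c (dist w.2 S.y0) := by
  classical
  haveI := S.isoE
  haveI := S.properE
  haveI := S.countableG
  haveI : Nonempty E := ⟨S.e0⟩
  haveI : Countable (G ⧸ N) := Quotient.countable
  obtain ⟨K, hK, hK0, hK1, rs, hrsm, hrs0, hrs⟩ := S.exists_slabContraction φY hφY hφYc
  obtain ⟨RK, hRKm, hRK0, hRK⟩ := bound_of_continuous S.e0 (fun q => dist (K q) S.e0)
    (hK.dist continuous_const)
  obtain ⟨D, hD0, hD⟩ := S.phiY_coarse_equivariant φY hφYc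
  obtain ⟨Cφ, hCφ0, hCφ⟩ := hφYc 0
  obtain ⟨c1, hc1m, hc10, hc1⟩ := S.coarse_surj
  obtain ⟨C0, hC0⟩ : ∃ C0 : ℝ, 0 ≤ C0 ∧ ∀ n ∈ N, dist (n • S.y0) S.y0 ≤ C0 := by
    obtain ⟨C, hC⟩ := S.bddN
    exact ⟨max C 0, le_max_right _ _, fun n hn => (hC n hn).trans (le_max_left _ _)⟩
  obtain ⟨hC00, hC0⟩ := hC0
  obtain ⟨r, n, J, τ, -, hr, hτc, hτ01, hlf, hmult, hcov, hτ⟩ := S.cutoffXY 0
  choose γ hγN hγx using fun i : N × (G ⧸ N) => hc1 i.1 (J i.2)
  -- the distance from `γ i y0` to `J i y0`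
  have hγJ : ∀ i, dist (γ i • S.y0) (J i.2 • S.y0) ≤ C0 := by
    intro i
    have h1 := hC0 _ (hγN i)
    have h2 : dist (γ i • S.y0) (J i.2 • S.y0) = dist (((J i.2)⁻¹ * γ i) • S.y0) S.y0 := by
      rw [← S.dist_smulY (J i.2) (((J i.2)⁻¹ * γ i) • S.y0) S.y0, smul_smul,
        mul_inv_cancel_left]
    rw [h2]
    exact h1
  let ρ : ℝ := 4 * r + 2 * C0
  have hρ : ρ = 4 * r + 2 * C0 := rfl
  have hρ0 : 0 ≤ ρ := by rw [hρ]; linarith
  have hadjY : ∀ i j : N × (G ⧸ N), (∃ p, 0 < τ i p ∧ 0 < τ j p) →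
      dist (γ i • S.y0) (γ j • S.y0) ≤ ρ := by
    rintro i j ⟨p, hi, hj⟩
    have h1 := ((hτ i p).1 hi).2
    have h2 := ((hτ j p).1 hj).2
    have h3 := dist_triangle_left (J i.2 • S.y0) (J j.2 • S.y0) p.2
    have h4 := dist_triangle4 (γ i • S.y0) (J i.2 • S.y0) (J j.2 • S.y0) (γ j • S.y0)
    have h5 := hγJ i
    have h6 := hγJ j
    rw [dist_comm (J j.2 • S.y0) (γ j • S.y0)] at h4
    rw [hρ]
    linarith
  have hsymm : ∀ i j : N × (G ⧸ N), (∃ p, 0 < τ i p ∧ 0 < τ j p) →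
      (∃ p, 0 < τ j p ∧ 0 < τ i p) := fun i j ⟨p, h1, h2⟩ => ⟨p, h2, h1⟩
  let c2 : ℝ → ℝ := fun t => c1 (t + C0) + 4 * r + c1 (t + C0 + 4 * r)
  have hc2m : Monotone c2 := by
    intro a b hab
    exact add_le_add (add_le_add (hc1m (by linarith)) le_rfl) (hc1m (by linarith))
  obtain ⟨c3, hc3m, hc30, hc3⟩ := S.coarse_inj ρ c2 hc2m
  have hadjE : ∀ i j : N × (G ⧸ N), (∃ p, 0 < τ i p ∧ 0 < τ j p) →
      dist (γ i • S.e0) (γ j • S.e0) ≤ c3 (dist (γ i • S.y0) S.y0) := by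
    intro i j hij
    refine hc3 _ _ (hadjY i j hij) ?_
    obtain ⟨p, hi, hj⟩ := hij
    have h1 := ((hτ i p).1 hi).1
    have h2 := ((hτ j p).1 hj).1
    have h1' := ((hτ i p).1 hi).2
    have h2' := ((hτ j p).1 hj).2
    have h3 := dist_triangle_left (i.1 • S.x0) (j.1 • S.x0) p.1
    have h3' := dist_triangle_left (J i.2 • S.y0) (J j.2 • S.y0) p.2
    have h4 := dist_triangle4 (S.p (γ i) • S.x0) (i.1 • S.x0) (j.1 • S.x0)
      (S.p (γ j) • S.x0)
    rw [dist_comm (j.1 • S.x0) (S.p (γ j) • S.x0)] at h4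
    have h5 := hγx i
    have h6 := hγx j
    have h7 : dist (J i.2 • S.y0) S.y0 ≤ dist (γ i • S.y0) S.y0 + C0 := by
      have := dist_triangle (J i.2 • S.y0) (γ i • S.y0) S.y0
      rw [dist_comm (J i.2 • S.y0) (γ i • S.y0)] at this
      linarith [hγJ i]
    have h8 : dist (J j.2 • S.y0) S.y0 ≤ dist (γ i • S.y0) S.y0 + C0 + 4 * r := by
      have := dist_triangle (J j.2 • S.y0) (J i.2 • S.y0) S.y0
      rw [dist_comm (J j.2 • S.y0) (J i.2 • S.y0)] at this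
      linarith
    have h9 := hc1m h7
    have h10 := hc1m h8
    show _ ≤ c1 (dist (γ i • S.y0) S.y0 + C0) + 4 * r +
      c1 (dist (γ i • S.y0) S.y0 + C0 + 4 * r)
    linarith
  have hsize : ∀ i j : N × (G ⧸ N), (∃ p, 0 < τ i p ∧ 0 < τ j p) →
      dist (γ i • S.y0) S.y0 ≤ dist (γ j • S.y0) S.y0 + ρ := by
    intro i j hij
    have h1 := dist_triangle (γ i • S.y0) (γ j • S.y0) S.y0
    have h2 := hadjY i j hij
    linarith
  -- the radii
  let a : ℕ → ℝ := fun k => Nat.rec (Cφ + ρ) (fun _ x => D + rs (D + x) + ρ) k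
  have ha0 : a 0 = Cφ + ρ := rfl
  have haS : ∀ k, a (k + 1) = D + rs (D + a k) + ρ := fun k => rfl
  let b : ℕ → ℝ → ℝ := fun k => Nat.rec c3 (fun _ f t => RK (f (t + ρ)) + c3 (t + ρ)) k
  have hb0 : ∀ t, b 0 t = c3 t := fun t => rfl
  have hbS : ∀ k t, b (k + 1) t = RK (b k (t + ρ)) + c3 (t + ρ) := fun k t => rfl
  have hbm : ∀ k, Monotone (b k) := by
    intro k
    induction k with
    | zero => exact hc3m
    | succ k ih =>
      intro x y hxy
      rw [hbS, hbS]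
      exact add_le_add (hRKm (ih (by linarith))) (hc3m (by linarith))
  have hbn : ∀ k t, 0 ≤ b k t := by
    intro k
    cases k with
    | zero => intro t; rw [hb0]; exact hc30 _
    | succ k => intro t; rw [hbS]; exact add_nonneg (hRK0 _) (hc30 _)
  have hcj := fun i => conj_contraction S.e0 K hK hK0 hK1 RK hRKm hRK (γ i)
  obtain ⟨F, hF, hFA, -⟩ := patch τ hτc hτ01 hlf n hmult hcov (fun i => γ i • S.e0)
    (fun i q => γ i • K ((γ i)⁻¹ • q.1, q.2)) (fun i => (hcj i).1) (fun i => (hcj i).2.1)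
    (fun i => (hcj i).2.2.1)
    (fun k i => {e : E | dist (φY e) (γ i • S.y0) ≤ a k ∧
      dist e (γ i • S.e0) ≤ b k (dist (γ i • S.y0) S.y0)})
    (fun i j hij => by
      refine ⟨?_, ?_⟩
      · have h1 := hCφ (γ i • S.e0) (γ i) (by rw [dist_self])
        have h2 := dist_triangle (φY (γ i • S.e0)) (γ i • S.y0) (γ j • S.y0)
        have h3 := hadjY i j hij
        rw [ha0]
        linarith
      · rw [hb0, dist_comm]
        exact hadjE j i (hsymm i j hij))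
    (fun k i j hij e he s => by
      obtain ⟨he1, he2⟩ := he
      have h1 := (hcj i).2.2.2 e s _ he2
      have h3 := hadjE i j hij
      have h4 := hadjY i j hij
      have h5 := hsize i j hij
      refine ⟨?_, ?_⟩
      · -- the `Y`-coordinate
        have g1 : dist (φY ((γ i)⁻¹ • e)) S.y0 ≤ D + a k := by
          have k1 := hD ((γ i)⁻¹) e
          have k2 := dist_triangle (φY ((γ i)⁻¹ • e)) ((γ i)⁻¹ • φY e) S.y0
          have k3 : dist ((γ i)⁻¹ • φY e) S.y0 = dist (φY e) (γ i • S.y0) := by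
            rw [← S.dist_smulY (γ i) ((γ i)⁻¹ • φY e) S.y0, smul_inv_smul]
          rw [k3] at k2
          linarith
        have g2 : dist (φY (K ((γ i)⁻¹ • e, s))) S.y0 ≤ rs (D + a k) :=
          (hrs _ s).trans (hrsm g1)
        have g3 := hD (γ i) (K ((γ i)⁻¹ • e, s))
        have g4 : dist (γ i • φY (K ((γ i)⁻¹ • e, s))) (γ i • S.y0) ≤ rs (D + a k) := by
          rw [S.dist_smulY]
          exact g2
        have g5 := dist_triangle4 (φY (γ i • K ((γ i)⁻¹ • e, s)))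
          (γ i • φY (K ((γ i)⁻¹ • e, s))) (γ i • S.y0) (γ j • S.y0)
        show dist (φY (γ i • K ((γ i)⁻¹ • e, s))) (γ j • S.y0) ≤ a (k + 1)
        rw [haS]
        linarith
      · have h2 := dist_triangle (γ i • K ((γ i)⁻¹ • e, s)) (γ i • S.e0) (γ j • S.e0)
        have h6 := hbm k h5
        have h7 := hRKm h6
        have h8 := hc3m h5
        show dist (γ i • K ((γ i)⁻¹ • e, s)) (γ j • S.e0) ≤ b (k + 1) (dist (γ j • S.y0) S.y0)
        rw [hbS]
        exact h2.trans (add_le_add (h1.trans h7) (h3.trans h8)))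
  refine ⟨F, hF, |a n| + 2 * r + C0, fun t => (2 * r + c1 (t + 2 * r)) + b n (t + 2 * r + C0),
    ?_, ?_, fun w => ?_⟩
  · intro x y hxy
    exact add_le_add (add_le_add le_rfl (hc1m (by linarith))) (hbm n (by linarith))
  · intro t
    have h1 := hc10 (t + 2 * r)
    have h2 := hbn n (t + 2 * r + C0)
    show 0 ≤ (2 * r + c1 (t + 2 * r)) + b n (t + 2 * r + C0)
    linarith
  obtain ⟨i, hi⟩ := hcov w
  have hi0 : 0 < τ i w := by rw [hi]; norm_num
  obtain ⟨h1, h2⟩ := hFA w i hi0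
  obtain ⟨h3, h4⟩ := (hτ i w).1 hi0
  have h5 := hγJ i
  have h6 := hγx i
  have h7 := le_abs_self (a n)
  have h8 := abs_nonneg (a n)
  have h9 : dist w.2 (γ i • S.y0) ≤ 2 * r + C0 := by
    have := dist_triangle w.2 (J i.2 • S.y0) (γ i • S.y0)
    rw [dist_comm (J i.2 • S.y0) (γ i • S.y0)] at this
    linarith
  have h10 : dist (J i.2 • S.y0) S.y0 ≤ dist w.2 S.y0 + 2 * r := by
    have := dist_triangle (J i.2 • S.y0) w.2 S.y0
    rw [dist_comm (J i.2 • S.y0) w.2] at this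
    linarith
  have h11 : dist (γ i • S.y0) S.y0 ≤ dist w.2 S.y0 + 2 * r + C0 := by
    have := dist_triangle (γ i • S.y0) w.2 S.y0
    rw [dist_comm (γ i • S.y0) w.2] at this
    linarith
  have h12 := hbn n (dist w.2 S.y0 + 2 * r + C0)
  have h13 := hc10 (dist w.2 S.y0 + 2 * r)
  refine ⟨γ i, by linarith, ?_, ?_, ?_⟩
  · have k1 := dist_triangle w.1 (i.1 • S.x0) (S.p (γ i) • S.x0)
    rw [dist_comm (i.1 • S.x0) (S.p (γ i) • S.x0)] at k1
    have k2 := hc1m h10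
    show _ ≤ (2 * r + c1 (dist w.2 S.y0 + 2 * r)) + b n (dist w.2 S.y0 + 2 * r + C0)
    linarith
  · have k1 := dist_triangle (φY (F w)) (γ i • S.y0) w.2
    rw [dist_comm (γ i • S.y0) w.2] at k1
    linarith
  · have k1 := hbm n h11
    show _ ≤ (2 * r + c1 (dist w.2 S.y0 + 2 * r)) + b n (dist w.2 S.y0 + 2 * r + C0)
    linarith

end Setup

end Pool.Agent.ZStr
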