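import Pool.Agent.ZStr.RelAct2

/-!
# The affine action in the commensurated case (module RELACT)
-/

namespace Pool.Agent.ZStr

open Set Topology Filter
open scoped unitInterval Pointwise

/-- The space on which the affine action takes place (a copy of `ℝ^m × Y`). -/
structure AffSpace (m : ℕ) (Y : Type) where
  v : EuclideanSpace ℝ (Fin m)
  y : Y

/-- The identification of `AffSpace m Y` with the product. -/
def AffSpace.equiv (m : ℕ) (Y : Type) : AffSpace m Y ≃ EuclideanSpace ℝ (Fin m) × Y where
  toFun e := (e.v, e.y)
  invFun p := ⟨p.1, p.2⟩
  left_inv _ := rfl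
  right_inv _ := rfl

end Pool.Agent.ZStr
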