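import Pool.Agent.ZStr.Patch

/-!
# The set-up for the extension theorem, and the coset geometry (module COSET)
-/

namespace Pool.Agent.ZStr

open Set Topology Filter
open scoped unitInterval

/-- The metric data of the extension theorem.  `G` acts properly and cocompactly by isometries
on `E`, the subgroup `N` on `X`, and `G` acts cocompactly by isometries on `Y` with coarse
stabilizers commensurable to `N`; `p : G → N` is a left-`N`-equivariant map. -/
structure Setup (G : Type*) [Group G] (N : Subgroup G) (E X Y : Type)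
    [MetricSpace E] [MetricSpace X] [MetricSpace Y]
    [MulAction G E] [MulAction N X] [MulAction G Y] where
  e0 : E
  x0 : X
  y0 : Y
  properE : ProperSpace E
  properX : ProperSpace X
  properY : ProperSpace Y
  isoE : IsIsometricSMul G E
  isoX : IsIsometricSMul N X
  isoY : IsIsometricSMul G Y
  contrE : ContractibleSpace E
  contrX : ContractibleSpace X
  contrY : ContractibleSpace Y
  finE : ∀ r : ℝ, {g : G | dist (g • e0) e0 ≤ r}.Finite
  netE : ∃ r : ℝ, ∀ e : E, ∃ g : G, dist e (g • e0) ≤ r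
  finX : ∀ r : ℝ, {n : N | dist (n • x0) x0 ≤ r}.Finite
  netX : ∃ r : ℝ, ∀ x : X, ∃ n : N, dist x (n • x0) ≤ r
  netY : ∃ r : ℝ, ∀ y : Y, ∃ g : G, dist y (g • y0) ≤ r
  bddN : ∃ C : ℝ, ∀ n ∈ N, dist (n • y0) y0 ≤ C
  finY : ∀ r : ℝ, ∃ F : Finset G, ∀ g : G, dist (g • y0) y0 ≤ r → ∃ f ∈ F, f⁻¹ * g ∈ N
  p : G → N
  hp : ∀ (n : N) (g : G), p ((n : G) * g) = n * p g

/-- There is always a left-`N`-equivariant map `G → N`. -/
theorem exists_equivariant_proj {G : Type*} [Group G] (N : Subgroup G) :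
    ∃ p : G → N, ∀ (n : N) (g : G), p ((n : G) * g) = n * p g := by
  classical
  let q : G → Quotient (QuotientGroup.rightRel N) := fun g => Quotient.mk _ g
  have hmem : ∀ g : G, g * ((q g).out)⁻¹ ∈ N := by
    intro g
    have h : (QuotientGroup.rightRel N) ((q g).out) g :=
      Quotient.exact ((q g).out_eq)
    exact QuotientGroup.rightRel_apply.mp h
  have hq : ∀ (n : N) (g : G), q ((n : G) * g) = q g := by
    intro n g
    apply Quotient.sound
    apply QuotientGroup.rightRel_apply.mpr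
    have : g * ((n : G) * g)⁻¹ = ((n : G))⁻¹ := by group
    rw [this]
    exact N.inv_mem n.2
  refine ⟨fun g => ⟨g * ((q g).out)⁻¹, hmem g⟩, ?_⟩
  intro n g
  apply Subtype.ext
  simp only [Subgroup.coe_mul]
  rw [hq n g, mul_assoc]

/-- Bounds on sublevel sets can be organised in one monotone function. -/
theorem exists_monotone_bound {α : Type*} (s f : α → ℝ)
    (h : ∀ r : ℝ, ∃ B : ℝ, ∀ a, s a ≤ r → f a ≤ B) :
    ∃ c : ℝ → ℝ, Monotone c ∧ (∀ t, 0 ≤ c t) ∧ ∀ a, f a ≤ c (s a) := by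
  choose B hB using h
  refine ⟨fun t => ∑ k ∈ Finset.range (⌈t⌉₊ + 1), |B k|, ?_, ?_, ?_⟩
  · intro t t' htt'
    apply Finset.sum_le_sum_of_subset_of_nonneg
    · apply Finset.range_mono
      have := Nat.ceil_mono htt'
      omega
    · intro i _ _
      exact abs_nonneg _
  · intro t
    exact Finset.sum_nonneg fun i _ => abs_nonneg _
  · intro a
    have h1 : f a ≤ B (⌈s a⌉₊ : ℕ) := hB _ a (Nat.le_ceil _)
    have h2 : |B (⌈s a⌉₊ : ℕ)| ≤ ∑ k ∈ Finset.range (⌈s a⌉₊ + 1), |B k| :=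
      Finset.single_le_sum (f := fun k : ℕ => |B k|) (fun i _ => abs_nonneg _)
        (Finset.mem_range.mpr (Nat.lt_succ_self _))
    exact h1.trans ((le_abs_self _).trans h2)

namespace Setup

variable {G : Type*} [Group G] {N : Subgroup G} {E X Y : Type}
    [MetricSpace E] [MetricSpace X] [MetricSpace Y]
    [MulAction G E] [MulAction N X] [MulAction G Y] (S : Setup G N E X Y)

include S in
/-- `G` is countable. -/
theorem countableG : Countable G := by
  have h : (univ : Set G) = ⋃ n : ℕ, {g : G | dist (g • S.e0) S.e0 ≤ n} := by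
    ext g
    refine ⟨fun _ => ?_, fun _ => mem_univ _⟩
    obtain ⟨n, hn⟩ := exists_nat_ge (dist (g • S.e0) S.e0)
    exact mem_iUnion.mpr ⟨n, hn⟩
  rw [← Set.countable_univ_iff, h]
  exact Set.countable_iUnion fun n => (S.finE n).countable

include S in
/-- Isometry of the action on `Y`. -/
theorem dist_smulY (g : G) (y y' : Y) : dist (g • y) (g • y') = dist y y' := by
  have := S.isoY
  exact dist_smul g y y'

include S in
/-- Isometry of the action on `E`. -/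
theorem dist_smulE (g : G) (e e' : E) : dist (g • e) (g • e') = dist e e' := by
  have := S.isoE
  exact dist_smul g e e'

include S in
/-- Isometry of the action of `N` on `X`. -/
theorem dist_smulX (n : N) (x x' : X) : dist (n • x) (n • x') = dist x x' := by
  have := S.isoX
  exact dist_smul n x x'

/-- Finitely many right cosets of `N` cover a sublevel set. -/
theorem fin_right (r : ℝ) : ∃ H : Finset G, ∀ g : G, dist (g • S.y0) S.y0 ≤ r →
    ∃ n : N, ∃ h ∈ H, g = (n : G) * h := by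
  classical
  obtain ⟨F, hF⟩ := S.finY r
  refine ⟨F.image (fun f => f⁻¹), ?_⟩
  intro g hg
  have h1 : dist (g⁻¹ • S.y0) S.y0 ≤ r := by
    have h2 := S.dist_smulY g (g⁻¹ • S.y0) S.y0
    rw [smul_inv_smul] at h2
    rw [← h2, dist_comm]
    exact hg
  obtain ⟨f, hf, hfN⟩ := hF g⁻¹ h1
  refine ⟨⟨(f⁻¹ * g⁻¹)⁻¹, N.inv_mem hfN⟩, f⁻¹, Finset.mem_image_of_mem _ hf, ?_⟩
  simp only
  group

/-- A left-`N`-invariant function on `G` is bounded by a function of `|g y0|`. -/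
theorem bound_of_invariant (f : G → ℝ) (hf : ∀ (n : N) (g : G), f ((n : G) * g) = f g) :
    ∃ c : ℝ → ℝ, Monotone c ∧ (∀ t, 0 ≤ c t) ∧ ∀ g : G, f g ≤ c (dist (g • S.y0) S.y0) := by
  apply exists_monotone_bound (fun g : G => dist (g • S.y0) S.y0) f
  intro r
  obtain ⟨H, hH⟩ := S.fin_right r
  refine ⟨∑ h ∈ H, |f h|, ?_⟩
  intro g hg
  obtain ⟨n, h, hh, rfl⟩ := hH g hg
  rw [hf]
  exact (le_abs_self _).trans
    (Finset.single_le_sum (f := fun k : G => |f k|) (fun i _ => abs_nonneg _) hh)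

/-- Right multiplication by `b` moves `p(g)` by an amount bounded by a function of `|g y0|`. -/
theorem p_mul_bound (F : Set G) (hF : F.Finite) :
    ∃ c : ℝ → ℝ, Monotone c ∧ (∀ t, 0 ≤ c t) ∧ ∀ g : G, ∀ b ∈ F,
      dist (S.p g • S.x0) (S.p (g * b) • S.x0) ≤ c (dist (g • S.y0) S.y0) := by
  classical
  obtain ⟨c, hc, hc0, hcb⟩ := S.bound_of_invariant
    (fun g => ∑ b ∈ hF.toFinset, dist (S.p g • S.x0) (S.p (g * b) • S.x0)) (by
      intro n g
      apply Finset.sum_congr rfl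
      intro b _
      rw [mul_assoc, S.hp, S.hp, mul_smul, mul_smul, S.dist_smulX])
  refine ⟨c, hc, hc0, ?_⟩
  intro g b hb
  refine le_trans ?_ (hcb g)
  exact Finset.single_le_sum
    (f := fun b : G => dist (S.p g • S.x0) (S.p (g * b) • S.x0))
    (fun i _ => dist_nonneg) (hF.mem_toFinset.mpr hb)

/-- `g e0` and `p(g) e0` are at distance bounded by a function of `|g y0|`. -/
theorem p_e0_bound :
    ∃ c : ℝ → ℝ, Monotone c ∧ (∀ t, 0 ≤ c t) ∧ ∀ g : G,
      dist (g • S.e0) (((S.p g : N) : G) • S.e0) ≤ c (dist (g • S.y0) S.y0) := by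
  apply S.bound_of_invariant (fun g => dist (g • S.e0) (((S.p g : N) : G) • S.e0))
  intro n g
  rw [S.hp, Subgroup.coe_mul, mul_smul, mul_smul, S.dist_smulE]

/-- Coarse injectivity of `g ↦ (p(g) x0, g y0)`. -/
theorem coarse_inj (ρ : ℝ) (c : ℝ → ℝ) (hc : Monotone c) :
    ∃ c' : ℝ → ℝ, Monotone c' ∧ (∀ t, 0 ≤ c' t) ∧ ∀ g g' : G,
      dist (g • S.y0) (g' • S.y0) ≤ ρ →
      dist (S.p g • S.x0) (S.p g' • S.x0) ≤ c (dist (g • S.y0) S.y0) →
      dist (g • S.e0) (g' • S.e0) ≤ c' (dist (g • S.y0) S.y0) := by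
  classical
  obtain ⟨C, hC⟩ := S.bddN
  let α := {q : G × G // dist (q.1 • S.y0) (q.2 • S.y0) ≤ ρ ∧
    dist (S.p q.1 • S.x0) (S.p q.2 • S.x0) ≤ c (dist (q.1 • S.y0) S.y0)}
  have key : ∀ r : ℝ, ∃ B : ℝ, ∀ a : α, dist (a.1.1 • S.y0) S.y0 ≤ r →
      dist (a.1.1 • S.e0) (a.1.2 • S.e0) ≤ B := by
    intro r
    obtain ⟨H, hH⟩ := S.fin_right r
    obtain ⟨H', hH'⟩ := S.fin_right (ρ + r + C)
    let K1 : ℝ := ∑ h ∈ H, dist (S.p h • S.x0) S.x0
    let K2 : ℝ := ∑ h ∈ H', dist (S.p h • S.x0) S.x0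
    let T : Finset N := (S.finX (K2 + c r + K1)).toFinset
    refine ⟨∑ h ∈ H, ∑ h' ∈ H', ∑ n ∈ T,
      dist (h • S.e0) (((n : N) : G) • h' • S.e0), ?_⟩
    rintro ⟨⟨g, g'⟩, h1, h2⟩ hg
    simp only at h1 h2 hg ⊢
    obtain ⟨n, h, hh, rfl⟩ := hH g hg
    set k : G := ((n : G))⁻¹ * g' with hk
    have hg' : g' = (n : G) * k := by rw [hk]; group
    have e1 : dist (h • S.y0) (k • S.y0) ≤ ρ := by
      rw [hg', mul_smul, mul_smul, S.dist_smulY] at h1
      exact h1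
    have e2 : dist (S.p h • S.x0) (S.p k • S.x0) ≤ c r := by
      rw [hg', S.hp, S.hp, mul_smul, mul_smul, S.dist_smulX] at h2
      exact h2.trans (hc hg)
    have e3 : dist (h • S.y0) S.y0 ≤ r + C := by
      have := dist_triangle ((n : G) • h • S.y0) S.y0 ((n : G) • S.y0)
      rw [S.dist_smulY, ← mul_smul, dist_comm S.y0] at this
      linarith [hC n n.2]
    have e4 : dist (k • S.y0) S.y0 ≤ ρ + r + C := by
      have := dist_triangle (k • S.y0) (h • S.y0) S.y0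
      rw [dist_comm (k • S.y0) (h • S.y0)] at this
      linarith
    obtain ⟨m, h', hh', hkm⟩ := hH' k e4
    have e5 : dist (m • S.x0) S.x0 ≤ K2 + c r + K1 := by
      have t1 : dist (m • S.x0) (S.p k • S.x0) ≤ K2 := by
        rw [hkm, S.hp, mul_smul, S.dist_smulX, dist_comm]
        exact Finset.single_le_sum (f := fun h : G => dist (S.p h • S.x0) S.x0)
          (fun i _ => dist_nonneg) hh'
      have t2 : dist (S.p h • S.x0) S.x0 ≤ K1 :=
        Finset.single_le_sum (f := fun h : G => dist (S.p h • S.x0) S.x0)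
          (fun i _ => dist_nonneg) hh
      have t3 := dist_triangle4 (m • S.x0) (S.p k • S.x0) (S.p h • S.x0) S.x0
      rw [dist_comm (S.p k • S.x0)] at t3
      linarith
    have hmT : m ∈ T := (S.finX _).mem_toFinset.mpr e5
    have e6 : dist (((n : G) * h) • S.e0) (g' • S.e0) =
        dist (h • S.e0) (((m : N) : G) • h' • S.e0) := by
      rw [hg', hkm, mul_smul, mul_smul, S.dist_smulE, mul_smul]
    rw [e6]
    refine le_trans ?_ (Finset.single_le_sum (f := fun h : G => ∑ h' ∈ H', ∑ n ∈ T,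
      dist (h • S.e0) (((n : N) : G) • h' • S.e0))
      (fun i _ => Finset.sum_nonneg fun _ _ => Finset.sum_nonneg fun _ _ => dist_nonneg) hh)
    refine le_trans ?_ (Finset.single_le_sum (f := fun h' : G => ∑ n ∈ T,
      dist (h • S.e0) (((n : N) : G) • h' • S.e0))
      (fun i _ => Finset.sum_nonneg fun _ _ => dist_nonneg) hh')
    exact Finset.single_le_sum (f := fun n : N =>
      dist (h • S.e0) (((n : N) : G) • h' • S.e0)) (fun i _ => dist_nonneg) hmT
  obtain ⟨c', hc', hc0, hcb⟩ := exists_monotone_bound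
    (fun a : α => dist (a.1.1 • S.y0) S.y0)
    (fun a : α => dist (a.1.1 • S.e0) (a.1.2 • S.e0)) key
  exact ⟨c', hc', hc0, fun g g' h1 h2 => hcb ⟨(g, g'), h1, h2⟩⟩

/-- Coarse continuity of `g ↦ (p(g) x0, g y0)`. -/
theorem coarse_cont (R : ℝ) :
    ∃ (C : ℝ) (c : ℝ → ℝ), Monotone c ∧ (∀ t, 0 ≤ c t) ∧ ∀ g g' : G,
      dist (g • S.e0) (g' • S.e0) ≤ R →
      dist (g • S.y0) (g' • S.y0) ≤ C ∧
      dist (S.p g • S.x0) (S.p g' • S.x0) ≤ c (dist (g • S.y0) S.y0) := by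
  classical
  obtain ⟨c, hc, hc0, hcb⟩ := S.p_mul_bound _ (S.finE R)
  refine ⟨∑ b ∈ (S.finE R).toFinset, dist (b • S.y0) S.y0, c, hc, hc0, ?_⟩
  intro g g' hgg'
  have hb : g⁻¹ * g' ∈ {g : G | dist (g • S.e0) S.e0 ≤ R} := by
    show dist ((g⁻¹ * g') • S.e0) S.e0 ≤ R
    rw [← S.dist_smulE g, ← mul_smul, mul_inv_cancel_left, dist_comm]
    exact hgg'
  constructor
  · have h1 : dist (g • S.y0) (g' • S.y0) = dist ((g⁻¹ * g') • S.y0) S.y0 := by
      rw [← S.dist_smulY g ((g⁻¹ * g') • S.y0), ← mul_smul, mul_inv_cancel_left, dist_comm]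
    rw [h1]
    exact Finset.single_le_sum (f := fun b : G => dist (b • S.y0) S.y0)
      (fun i _ => dist_nonneg) ((S.finE R).mem_toFinset.mpr hb)
  · have h2 := hcb g _ hb
    rwa [mul_inv_cancel_left] at h2

/-- Coarse surjectivity: for `n ∈ N` and `g ∈ G` there is `γ ∈ g N` with `p(γ)` near `n`. -/
theorem coarse_surj :
    ∃ c : ℝ → ℝ, Monotone c ∧ (∀ t, 0 ≤ c t) ∧ ∀ (n : N) (g : G), ∃ γ : G, g⁻¹ * γ ∈ N ∧
      dist (S.p γ • S.x0) (n • S.x0) ≤ c (dist (g • S.y0) S.y0) := by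
  classical
  obtain ⟨C, hC⟩ := S.bddN
  -- for a fixed `g`
  have key1 : ∀ g : G, ∃ B : ℝ, ∀ n : N, ∃ γ : G, g⁻¹ * γ ∈ N ∧
      dist (S.p γ • S.x0) (n • S.x0) ≤ B := by
    intro g
    obtain ⟨F, hF⟩ := S.finY (dist (g • S.y0) S.y0 + C)
    let m : G → N := fun f => if h : ∃ m : N, f⁻¹ * ((m : G) * g) ∈ N then h.choose else 1
    have hm : ∀ f : G, (∃ m : N, f⁻¹ * ((m : G) * g) ∈ N) →
        f⁻¹ * (((m f : N) : G) * g) ∈ N := by
      intro f hf
      have : m f = hf.choose := dif_pos hf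
      rw [this]
      exact hf.choose_spec
    refine ⟨∑ f ∈ F, dist ((m f * S.p g) • S.x0) S.x0, ?_⟩
    intro n
    have h1 : dist ((((n⁻¹ : N) : G) * g) • S.y0) S.y0 ≤ dist (g • S.y0) S.y0 + C := by
      have := dist_triangle ((((n⁻¹ : N) : G) * g) • S.y0) (((n⁻¹ : N) : G) • S.y0) S.y0
      rw [mul_smul, S.dist_smulY] at this
      rw [mul_smul]
      linarith [hC _ (n⁻¹).2]
    obtain ⟨f, hf, hfN⟩ := hF _ h1
    have hmf := hm f ⟨n⁻¹, hfN⟩
    refine ⟨(n : G) * ((m f : N) : G) * g, ?_, ?_⟩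
    · -- `g⁻¹ * (n * m f * g) ∈ N`
      have h2 : (f⁻¹ * (((n⁻¹ : N) : G) * g))⁻¹ * (f⁻¹ * (((m f : N) : G) * g)) ∈ N :=
        N.mul_mem (N.inv_mem hfN) hmf
      have h3 : (f⁻¹ * (((n⁻¹ : N) : G) * g))⁻¹ * (f⁻¹ * (((m f : N) : G) * g)) =
          g⁻¹ * ((n : G) * ((m f : N) : G) * g) := by
        rw [Subgroup.coe_inv]
        group
      rw [← h3]
      exact h2
    · have h4 : S.p ((n : G) * ((m f : N) : G) * g) = n * (m f * S.p g) := by
        rw [mul_assoc, S.hp, S.hp]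
      rw [h4, mul_smul, S.dist_smulX]
      exact Finset.single_le_sum (f := fun f : G => dist ((m f * S.p g) • S.x0) S.x0)
        (fun i _ => dist_nonneg) hf
  choose B hB using key1
  -- on sublevel sets
  have key2 : ∀ r : ℝ, ∃ B' : ℝ, ∀ a : N × G, dist (a.2 • S.y0) S.y0 ≤ r →
      sInf {t : ℝ | ∃ γ : G, a.2⁻¹ * γ ∈ N ∧ dist (S.p γ • S.x0) (a.1 • S.x0) = t} ≤ B' := by
    intro r
    obtain ⟨F, hF⟩ := S.finY r
    refine ⟨∑ f ∈ F, |B f|, ?_⟩
    rintro ⟨n, g⟩ hg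
    simp only at hg ⊢
    obtain ⟨f, hf, hfN⟩ := hF g hg
    obtain ⟨γ, hγ1, hγ2⟩ := hB f n
    have hγg : g⁻¹ * γ ∈ N := by
      have : g⁻¹ * γ = (f⁻¹ * g)⁻¹ * (f⁻¹ * γ) := by group
      rw [this]
      exact N.mul_mem (N.inv_mem hfN) hγ1
    have hbdd : BddBelow {t : ℝ | ∃ γ : G, g⁻¹ * γ ∈ N ∧
        dist (S.p γ • S.x0) (n • S.x0) = t} :=
      ⟨0, by rintro t ⟨γ, _, rfl⟩; exact dist_nonneg⟩
    refine (csInf_le hbdd ⟨γ, hγg, rfl⟩).trans (hγ2.trans ((le_abs_self _).trans ?_))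
    exact Finset.single_le_sum (f := fun f : G => |B f|) (fun i _ => abs_nonneg _) hf
  obtain ⟨c, hc, hc0, hcb⟩ := exists_monotone_bound
    (fun a : N × G => dist (a.2 • S.y0) S.y0) _ key2
  refine ⟨fun t => c t + 1, fun s t hst => by simpa using hc hst,
    fun t => by linarith [hc0 t], ?_⟩
  intro n g
  have hne : {t : ℝ | ∃ γ : G, g⁻¹ * γ ∈ N ∧
      dist (S.p γ • S.x0) (n • S.x0) = t}.Nonempty := by
    obtain ⟨γ, hγ1, _⟩ := hB g n
    exact ⟨_, γ, hγ1, rfl⟩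
  have hlt : sInf {t : ℝ | ∃ γ : G, g⁻¹ * γ ∈ N ∧
      dist (S.p γ • S.x0) (n • S.x0) = t} < c (dist (g • S.y0) S.y0) + 1 := by
    have := hcb (n, g)
    simp only at this
    linarith
  obtain ⟨t, ⟨γ, hγ1, rfl⟩, hγ2⟩ := exists_lt_of_csInf_lt hne hlt
  exact ⟨γ, hγ1, hγ2.le⟩

end Setup

end Pool.Agent.ZStr
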