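import Pool.Agent.ZStr.RelPou
import Pool.Agent.ZStr.AffineAux
import Pool.Agent.ZStr.Setup

/-!
# The affine action in the commensurated case: proofs (module RELACT, part 2)
-/

namespace Pool.Agent.ZStr

open Set Topology Filter
open scoped unitInterval Pointwise

variable {m : ℕ}

theorem latV_cobounded (v : EuclideanSpace ℝ (Fin m)) :
    ∃ z : Multiplicative (Fin m → ℤ), ‖v - latV z‖ ≤ m :=
  latPt_cobounded (MulEquiv.refl (Multiplicative (Fin m → ℤ))) v

theorem latV_finite (R : ℝ) : {z : Multiplicative (Fin m → ℤ) | ‖latV z‖ ≤ R}.Finite :=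
  latPt_finite (MulEquiv.refl (Multiplicative (Fin m → ℤ))) R

section

variable {G : Type*} [Group G] {N : Subgroup G} {Y : Type} [MetricSpace Y] [MulAction G Y]
  [IsIsometricSMul G Y] {y0 : Y}

theorem dist_inv_smul_base (g : G) : dist (g⁻¹ • y0) y0 = dist (g • y0) y0 := by
  rw [← dist_smul g (g⁻¹ • y0) y0, smul_inv_smul, dist_comm]

/-- right cosets -/
theorem fin_right_cosets (hst : CoarseStabilizer G Y N y0) (r : ℝ) :
    ∃ H : Finset G, ∀ g : G, dist (g • y0) y0 ≤ r → ∃ h ∈ H, ∃ n : N, g = n * h := by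
  classical
  obtain ⟨F, hF⟩ := hst.2 r
  refine ⟨F.image fun f => f⁻¹, fun g hg => ?_⟩
  obtain ⟨f, hf, hfN⟩ := hF g⁻¹ (by rwa [dist_inv_smul_base])
  refine ⟨_, Finset.mem_image_of_mem _ hf, ⟨_, N.inv_mem hfN⟩, ?_⟩
  show g = (f⁻¹ * g⁻¹)⁻¹ * f⁻¹
  group

/-- STRUCTURE LEMMA: on a ball, the affine maps of the elements with `|g y0| ≤ r` are, up to
translations, finitely many. -/
theorem affine_structure (τ : N →* Multiplicative (Fin m → ℤ))
    (ρ : G →* (EuclideanSpace ℝ (Fin m) ≃ₗ[ℝ] EuclideanSpace ℝ (Fin m)))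
    (hρN : ∀ n : N, ρ (n : G) = 1) (hst : CoarseStabilizer G Y N y0)
    {f : G → Y → EuclideanSpace ℝ (Fin m)} (hf : ∀ g, Continuous (f g))
    (hcoc : ∀ g h y, f (g * h) y = ρ g (f h y) + f g (h • y))
    (hfin : ∀ r : ℝ, ∃ F : Set (Y → EuclideanSpace ℝ (Fin m)), F.Finite ∧
      (∀ φ ∈ F, Continuous φ) ∧
        ∀ n : N, ∃ φ ∈ F, ∀ y, dist y y0 ≤ r → f (n : G) y = latV (τ n) + φ y) (r R : ℝ) :
    ∃ S : Set ((EuclideanSpace ℝ (Fin m) ≃ₗ[ℝ] EuclideanSpace ℝ (Fin m)) ×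
        (Y → EuclideanSpace ℝ (Fin m))), S.Finite ∧ (∀ s ∈ S, Continuous s.2) ∧
      ∀ g : G, dist (g • y0) y0 ≤ r → ∃ s ∈ S, ∃ t : EuclideanSpace ℝ (Fin m),
        ρ g = s.1 ∧ ∀ y, dist y y0 ≤ R → f g y = t + s.2 y := by
  classical
  obtain ⟨H, hH⟩ := fin_right_cosets hst r
  obtain ⟨F, hFf, hFc, hF⟩ := hfin (R + ∑ h ∈ H, dist (h • y0) y0)
  refine ⟨(fun q : G × (Y → EuclideanSpace ℝ (Fin m)) =>
    (ρ q.1, fun y => f q.1 y + q.2 (q.1 • y))) '' ((H : Set G) ×ˢ F),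
    ((H.finite_toSet).prod hFf).image _, ?_, ?_⟩
  · rintro _ ⟨⟨h, φ⟩, ⟨-, hφ⟩, rfl⟩
    exact (hf h).add ((hFc φ hφ).comp (continuous_const_smul h))
  · intro g hg
    obtain ⟨h, hh, n, rfl⟩ := hH g hg
    obtain ⟨φ, hφ, hφn⟩ := hF n
    refine ⟨_, ⟨(h, φ), ⟨hh, hφ⟩, rfl⟩, latV (τ n), ?_, ?_⟩
    · rw [map_mul, hρN, one_mul]
    · intro y hy
      have h1 : dist (h • y) y0 ≤ R + ∑ h ∈ H, dist (h • y0) y0 := by
        have t1 := dist_triangle (h • y) (h • y0) y0
        rw [dist_smul] at t1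
        have t2 : dist (h • y0) y0 ≤ ∑ h ∈ H, dist (h • y0) y0 :=
          Finset.single_le_sum (f := fun h : G => dist (h • y0) y0)
            (fun i _ => dist_nonneg) hh
        linarith
      rw [hcoc, hρN, hφn _ h1]
      show f h y + (latV (τ n) + φ (h • y)) = latV (τ n) + (f h y + φ (h • y))
      abel

/-- continuous functions are bounded on balls of a proper space, uniformly for finitely many
functions -/
theorem bound_on_ball [ProperSpace Y] {S : Set (Y → EuclideanSpace ℝ (Fin m))} (hS : S.Finite)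
    (hc : ∀ s ∈ S, Continuous s) (y0 : Y) (R : ℝ) :
    ∃ B : ℝ, 0 ≤ B ∧ ∀ s ∈ S, ∀ y, dist y y0 ≤ R → ‖s y‖ ≤ B := by
  classical
  have h1 : ∀ s ∈ S, ∃ B : ℝ, ∀ y, dist y y0 ≤ R → ‖s y‖ ≤ B := by
    intro s hs
    obtain ⟨B, hB⟩ := (isCompact_closedBall y0 R).exists_bound_of_continuousOn
      (hc s hs).continuousOn
    exact ⟨B, fun y hy => hB y hy⟩
  choose! B hB using h1
  refine ⟨∑ s ∈ hS.toFinset, |B s|, Finset.sum_nonneg fun _ _ => abs_nonneg _, ?_⟩
  intro s hs y hy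
  have h2 := hB s hs y hy
  have h3 : |B s| ≤ ∑ s ∈ hS.toFinset, |B s| :=
    Finset.single_le_sum (f := fun s => |B s|) (fun i _ => abs_nonneg _)
      (hS.mem_toFinset.mpr hs)
  exact (h2.trans (le_abs_self _)).trans h3

end

/-- THE RELATIVE AFFINE ACTION, all properties.  On `ℝ^m × Y`, with the product metric, the
formula `g (v, y) = (ρ(g) v + f_g(y), g y)` defines an action by homeomorphisms which is
cocompact, equicontinuous on compact sets, and has coarse stabilizers commensurable to the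
kernel of `τ` (in the sense of the last four items). -/
theorem exists_affineAction {G : Type*} [Group G] (N : Subgroup G) {m : ℕ}
    (τ : N →* Multiplicative (Fin m → ℤ)) (hτ : Function.Surjective τ)
    (hN : IsCommensurated N) (hA : IsCommensurated (kerSub τ))
    (Y : Type) [MetricSpace Y] [ProperSpace Y] [MulAction G Y] [IsIsometricSMul G Y]
    (hc : CocompactlyActs G Y) (y0 : Y) (hst : CoarseStabilizer G Y N y0) :
    ∃ (ρ : G →* (EuclideanSpace ℝ (Fin m) ≃ₗ[ℝ] EuclideanSpace ℝ (Fin m)))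
      (f : G → Y → EuclideanSpace ℝ (Fin m)),
      (∀ g, Continuous (f g)) ∧
      (∀ g h y, f (g * h) y = ρ g (f h y) + f g (h • y)) ∧
      (∀ y, f 1 y = 0) ∧
      -- cocompactness
      (∃ r : ℝ, ∀ (v : EuclideanSpace ℝ (Fin m)) (y : Y), ∃ (g : G)
        (v' : EuclideanSpace ℝ (Fin m)) (y' : Y), ‖v'‖ ≤ r ∧ dist y' y0 ≤ r ∧
        ρ g v' + f g y' = v ∧ g • y' = y) ∧
      -- equicontinuity
      (∀ r : ℝ, ∀ (v : EuclideanSpace ℝ (Fin m)) (y : Y), ∀ ε : ℝ, 0 < ε → ∃ δ : ℝ, 0 < δ ∧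
        ∀ g : G, dist (g • y0) y0 ≤ r → ∀ v' y', dist v v' < δ → dist y y' < δ →
          dist (ρ g v + f g y) (ρ g v' + f g y') < ε) ∧
      -- differences are bounded by functions of `|g y0|`
      (∀ R : ℝ, ∃ c : ℝ → ℝ, Monotone c ∧ (∀ t, 0 ≤ c t) ∧ ∀ g : G, ∀ v v' y y',
        ‖v‖ ≤ R → ‖v'‖ ≤ R → dist y y0 ≤ R → dist y' y0 ≤ R →
        dist (ρ g v + f g y) (ρ g v' + f g y') ≤ c (dist (g • y0) y0)) ∧
      -- the kernel has bounded orbits
      (∃ C : ℝ, ∀ a ∈ kerSub τ, ‖f a y0‖ ≤ C) ∧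
      -- coarse stabilizers
      (∀ r : ℝ, ∃ F : Finset G, ∀ g : G, ‖f g y0‖ ≤ r → dist (g • y0) y0 ≤ r →
        ∃ k ∈ F, k⁻¹ * g ∈ kerSub τ) := by
  classical
  obtain ⟨ρ, hρ⟩ := exists_linRep N τ hτ hN hA
  have hρN := linRep_of_mem N τ hτ ρ hρ
  obtain ⟨f, hfc, hcoc, hfin⟩ := exists_translation N τ hN ρ hρ hρN Y hc y0 hst
  have hf1 : ∀ y, f 1 y = 0 := by
    intro y
    have h1 := hcoc 1 1 y
    rw [one_mul, map_one, one_smul] at h1
    have h2 : f 1 y = f 1 y + f 1 y := h1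
    simpa using h2
  obtain ⟨C, hC⟩ := hst.1
  refine ⟨ρ, f, hfc, hcoc, hf1, ?_, ?_, ?_, ?_, ?_⟩
  · -- cocompactness
    obtain ⟨K, hK, hcov⟩ := hc
    obtain ⟨R0, hR0⟩ := hK.isBounded.subset_closedBall y0
    obtain ⟨F, hFf, hFc, hF⟩ := hfin R0
    obtain ⟨B, hB0, hB⟩ := bound_on_ball hFf hFc y0 R0
    refine ⟨max (m + B) (R0 + C), ?_⟩
    intro v y
    obtain ⟨g0, k, hk, hy⟩ := hcov y
    have hy' : g0 • k = y := hy
    have hkR : dist k y0 ≤ R0 := hR0 hk
    set v1 : EuclideanSpace ℝ (Fin m) := (ρ g0).symm (v - f g0 k) with hv1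
    obtain ⟨z, hz⟩ := latV_cobounded v1
    obtain ⟨n, hn⟩ := hτ z
    obtain ⟨φ, hφ, hφn⟩ := hF n⁻¹
    have h1 : f ((n⁻¹ : N) : G) k = -latV z + φ k := by
      rw [hφn k hkR, map_inv, hn, latV_inv]
    refine ⟨g0 * n, v1 + f ((n⁻¹ : N) : G) k, ((n⁻¹ : N) : G) • k, ?_, ?_, ?_, ?_⟩
    · refine le_trans ?_ (le_max_left _ _)
      have e : v1 + f ((n⁻¹ : N) : G) k = (v1 - latV z) + φ k := by rw [h1]; abel
      rw [e]
      exact (norm_add_le _ _).trans (add_le_add hz (hB φ hφ k hkR))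
    · refine le_trans ?_ (le_max_right _ _)
      have t1 := dist_triangle (((n⁻¹ : N) : G) • k) (((n⁻¹ : N) : G) • y0) y0
      rw [dist_smul] at t1
      have t2 := hC _ (n⁻¹).2
      linarith
    · have h2 := hcoc (n : G) ((n⁻¹ : N) : G) k
      have h3 : (n : G) * ((n⁻¹ : N) : G) = 1 := by simp
      rw [h3, hf1, hρN] at h2
      have h2' : (0 : EuclideanSpace ℝ (Fin m)) =
          f ((n⁻¹ : N) : G) k + f (n : G) (((n⁻¹ : N) : G) • k) := h2
      rw [hcoc, map_mul, hρN, mul_one]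
      have h4 : (n : G) • ((n⁻¹ : N) : G) • k = k := by
        rw [smul_smul, h3, one_smul]
      rw [h4]
      have h5 : ρ g0 (v1 + f ((n⁻¹ : N) : G) k) +
          (ρ g0 (f (n : G) (((n⁻¹ : N) : G) • k)) + f g0 k) =
          ρ g0 v1 + ρ g0 (f ((n⁻¹ : N) : G) k + f (n : G) (((n⁻¹ : N) : G) • k)) + f g0 k := by
        rw [map_add, map_add]; abel
      rw [h5, ← h2', map_zero, add_zero, hv1, LinearEquiv.apply_symm_apply]
      abel
    · rw [← hy', mul_smul, smul_smul (n : G)]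
      have h3 : (n : G) * ((n⁻¹ : N) : G) = 1 := by simp
      rw [h3, one_smul]
  · -- equicontinuity
    intro r v y ε hε
    obtain ⟨S, hSf, hSc, hS⟩ := affine_structure τ ρ hρN hst hfc hcoc hfin r (dist y y0 + 1)
    have h1 : ∀ᶠ p in 𝓝 (v, y), ∀ s ∈ S, dist (s.1 v + s.2 y) (s.1 p.1 + s.2 p.2) < ε := by
      rw [Filter.eventually_all_finite hSf]
      intro s hs
      have hcs : Continuous (fun p : EuclideanSpace ℝ (Fin m) × Y => s.1 p.1 + s.2 p.2) := by
        refine Continuous.add ?_ ((hSc s hs).comp continuous_snd)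
        exact (LinearMap.continuous_of_finiteDimensional s.1.toLinearMap).comp continuous_fst
      have h2 := hcs.continuousAt (x := (v, y))
      have h3 := h2.eventually (Metric.ball_mem_nhds (s.1 v + s.2 y) hε)
      filter_upwards [h3] with p hp
      rw [dist_comm]
      exact hp
    obtain ⟨δ, hδ, hδ2⟩ := Metric.eventually_nhds_iff.mp h1
    refine ⟨min δ 1, lt_min hδ one_pos, ?_⟩
    intro g hg v' y' hv' hy'
    obtain ⟨s, hs, t, hρs, hft⟩ := hS g hg
    have h2 : dist y' y0 ≤ dist y y0 + 1 := by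
      have t1 := dist_triangle y' y y0
      rw [dist_comm y' y] at t1
      have t2 := lt_of_lt_of_le hy' (min_le_right _ _)
      linarith
    rw [hρs, hft y (by linarith), hft y' h2]
    have h3 := @hδ2 (v', y') (by
      rw [Prod.dist_eq]
      refine max_lt ?_ ?_
      · show dist v' v < δ
        rw [dist_comm]
        exact lt_of_lt_of_le hv' (min_le_left _ _)
      · show dist y' y < δ
        rw [dist_comm]
        exact lt_of_lt_of_le hy' (min_le_left _ _)) s hs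
    have e : ∀ (a b : EuclideanSpace ℝ (Fin m)), s.1 a + (t + b) = t + (s.1 a + b) := by
      intro a b; abel
    rw [e, e, dist_add_left]
    exact h3
  · -- differences
    intro R
    have key : ∀ r : ℝ, ∃ B : ℝ, ∀ g : G, dist (g • y0) y0 ≤ r → ∀ v v' y y',
        ‖v‖ ≤ R → ‖v'‖ ≤ R → dist y y0 ≤ R → dist y' y0 ≤ R →
        dist (ρ g v + f g y) (ρ g v' + f g y') ≤ B := by
      intro r
      obtain ⟨S, hSf, hSc, hS⟩ := affine_structure τ ρ hρN hst hfc hcoc hfin r R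
      obtain ⟨B, hB0, hB⟩ := bound_on_ball (hSf.image Prod.snd) (by
        rintro _ ⟨s, hs, rfl⟩
        exact hSc s hs) y0 R
      have hL : ∀ s ∈ S, ∃ D : ℝ, ∀ v : EuclideanSpace ℝ (Fin m), ‖v‖ ≤ R → ‖s.1 v‖ ≤ D := by
        intro s _
        obtain ⟨D, hD⟩ := (isCompact_closedBall (0 : EuclideanSpace ℝ (Fin m)) R
          ).exists_bound_of_continuousOn
          (LinearMap.continuous_of_finiteDimensional s.1.toLinearMap).continuousOn
        refine ⟨D, fun v hv => hD v ?_⟩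
        rw [mem_closedBall_zero_iff]
        exact hv
      choose! D hD using hL
      refine ⟨2 * (∑ s ∈ hSf.toFinset, |D s| + B), ?_⟩
      intro g hg v v' y y' hv hv' hy hy'
      obtain ⟨s, hs, t, hρs, hft⟩ := hS g hg
      rw [hρs, hft y hy, hft y' hy']
      have e : ∀ (a b : EuclideanSpace ℝ (Fin m)), s.1 a + (t + b) = t + (s.1 a + b) := by
        intro a b; abel
      rw [e, e, dist_add_left]
      have h3 : |D s| ≤ ∑ s ∈ hSf.toFinset, |D s| :=
        Finset.single_le_sum (f := fun s => |D s|) (fun i _ => abs_nonneg _)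
          (hSf.mem_toFinset.mpr hs)
      have h4 : ∀ a b, ‖a‖ ≤ R → dist b y0 ≤ R → ‖s.1 a + s.2 b‖ ≤
          ∑ s ∈ hSf.toFinset, |D s| + B := by
        intro a b ha hb
        refine (norm_add_le _ _).trans (add_le_add ?_ (hB _ ⟨s, hs, rfl⟩ b hb))
        exact ((hD s hs a ha).trans (le_abs_self _)).trans h3
      have h5 := h4 v y hv hy
      have h6 := h4 v' y' hv' hy'
      rw [dist_eq_norm]
      have h7 := norm_sub_le (s.1 v + s.2 y) (s.1 v' + s.2 y')
      linarith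
    choose B hB using key
    refine ⟨fun t => ∑ k ∈ Finset.range (⌈t⌉₊ + 1), |B k|, ?_, ?_, ?_⟩
    · intro t t' htt'
      apply Finset.sum_le_sum_of_subset_of_nonneg
      · apply Finset.range_mono
        have := Nat.ceil_mono htt'
        omega
      · intro i _ _
        exact abs_nonneg _
    · intro t
      exact Finset.sum_nonneg fun i _ => abs_nonneg _
    · intro g v v' y y' hv hv' hy hy'
      have h1 := hB (⌈dist (g • y0) y0⌉₊ : ℕ) g (Nat.le_ceil _) v v' y y' hv hv' hy hy'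
      have h2 : |B (⌈dist (g • y0) y0⌉₊ : ℕ)| ≤
          ∑ k ∈ Finset.range (⌈dist (g • y0) y0⌉₊ + 1), |B k| :=
        Finset.single_le_sum (f := fun k : ℕ => |B k|) (fun i _ => abs_nonneg _)
          (Finset.mem_range.mpr (Nat.lt_succ_self _))
      exact h1.trans ((le_abs_self _).trans h2)
  · -- the kernel
    obtain ⟨F, hFf, hFc, hF⟩ := hfin 0
    obtain ⟨B, hB0, hB⟩ := bound_on_ball hFf hFc y0 0
    refine ⟨B, ?_⟩
    rintro a ⟨n, hn, rfl⟩
    obtain ⟨φ, hφ, hφn⟩ := hF n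
    have h1 : τ n = 1 := hn
    have h2 := hφn y0 (by rw [dist_self])
    show ‖f (n : G) y0‖ ≤ B
    rw [h2, h1, latV_one, zero_add]
    exact hB φ hφ y0 (by rw [dist_self])
  · -- coarse stabilizers
    intro r
    obtain ⟨H, hH⟩ := hst.2 r
    obtain ⟨B, hB0, hB⟩ := bound_on_ball (S := (fun h : G => f h) '' (H : Set G))
      (H.finite_toSet.image _) (by
        rintro _ ⟨h, -, rfl⟩
        exact hfc h) y0 C
    obtain ⟨F0, hFf, hFc, hF⟩ := hfin 0
    obtain ⟨B0, hB00, hB0'⟩ := bound_on_ball hFf hFc y0 0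
    have hL : ∀ h : G, ∃ D : ℝ, ∀ v : EuclideanSpace ℝ (Fin m), ‖v‖ ≤ r + B →
        ‖(ρ h).symm v‖ ≤ D := by
      intro h
      obtain ⟨D, hD⟩ := (isCompact_closedBall (0 : EuclideanSpace ℝ (Fin m)) (r + B)
        ).exists_bound_of_continuousOn
        (LinearMap.continuous_of_finiteDimensional (ρ h).symm.toLinearMap).continuousOn
      refine ⟨D, fun v hv => hD v ?_⟩
      rw [mem_closedBall_zero_iff]
      exact hv
    choose D hD using hL
    let Z : Finset (Multiplicative (Fin m → ℤ)) :=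
      (latV_finite (m := m) (∑ h ∈ H, |D h| + B0)).toFinset
    choose sg hsg using hτ
    refine ⟨(H ×ˢ Z).image fun q => q.1 * (sg q.2 : G), ?_⟩
    intro g hg1 hg2
    obtain ⟨h, hh, hhN⟩ := hH g hg2
    set n : N := ⟨h⁻¹ * g, hhN⟩ with hn
    have hgn : g = h * (n : G) := by rw [hn]; simp
    have h1 : f g y0 = ρ h (f (n : G) y0) + f h ((n : G) • y0) := by
      conv_lhs => rw [hgn, hcoc]
    have h2 : ‖f h ((n : G) • y0)‖ ≤ B := hB _ ⟨h, hh, rfl⟩ _ (hC _ n.2)
    have h3 : ‖ρ h (f (n : G) y0)‖ ≤ r + B := by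
      have e : ρ h (f (n : G) y0) = f g y0 - f h ((n : G) • y0) := by rw [h1]; abel
      rw [e]
      exact (norm_sub_le _ _).trans (add_le_add hg1 h2)
    have h4 : ‖f (n : G) y0‖ ≤ D h := by
      have := hD h _ h3
      rwa [LinearEquiv.symm_apply_apply] at this
    obtain ⟨φ, hφ, hφn⟩ := hF n
    have h5 := hφn y0 (by rw [dist_self])
    have h6 : ‖latV (τ n)‖ ≤ ∑ h ∈ H, |D h| + B0 := by
      have e : latV (τ n) = f (n : G) y0 - φ y0 := by rw [h5]; abel
      rw [e]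
      refine (norm_sub_le _ _).trans (add_le_add ?_ (hB0' φ hφ y0 (by rw [dist_self])))
      have h7 : |D h| ≤ ∑ h ∈ H, |D h| :=
        Finset.single_le_sum (f := fun h => |D h|) (fun i _ => abs_nonneg _) hh
      exact (h4.trans (le_abs_self _)).trans h7
    have h7 : τ n ∈ Z := (latV_finite _).mem_toFinset.mpr h6
    refine ⟨_, Finset.mem_image_of_mem _ (Finset.mk_mem_product hh h7), ?_⟩
    refine ⟨(sg (τ n))⁻¹ * n, ?_, ?_⟩
    · show τ ((sg (τ n))⁻¹ * n) = 1
      rw [map_mul, map_inv, hsg, inv_mul_cancel]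
    · show ((sg (τ n) : G))⁻¹ * (n : G) = (h * (sg (τ n) : G))⁻¹ * g
      rw [hgn]
      group

end Pool.Agent.ZStr
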