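import Pool.Agent.ZStr.RelMain

/-!
# Corollaries of Theorem IV: extensions, virtually polycyclic groups
-/

namespace Pool.Agent.ZStr

open Set Topology Filter
open scoped unitInterval Pointwise

/-- The one-point space with itself as compactification is a model Z-geometry. -/
theorem point_isModelZGeometry : IsModelZGeometry PUnit PUnit (fun x => x) := by
  have hAR : IsAR PUnit := by
    refine ⟨inferInstance, inferInstance, inferInstance, inferInstance, ?_⟩
    intro Y _ _ e he
    exact ⟨univ, isOpen_univ, subset_univ _, fun _ => PUnit.unit, continuous_const,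
      fun x _ => rfl⟩
  refine ⟨⟨inferInstance, hAR, univ, isCompact_univ, fun x => ⟨IsometryEquiv.refl _, ?_⟩⟩,
    inferInstance, inferInstance, Topology.IsOpenEmbedding.id, fun x => ?_, ?_, ?_⟩
  · exact ⟨x, mem_univ _, rfl⟩
  · exact subset_closure ⟨x, rfl⟩
  · refine ⟨?_, fun p => p.1, continuous_fst, fun y => rfl, fun t _ y hy => hy ⟨y, rfl⟩⟩
    have : (range fun x : PUnit => x)ᶜ = ∅ := by
      rw [Set.compl_empty_iff]
      exact Set.range_id
    rw [this]
    exact isClosed_empty
  · intro R _ 𝒰 _ hU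
    obtain ⟨U, hU1, hU2⟩ : ∃ U ∈ 𝒰, PUnit.unit ∈ U := by
      have : (PUnit.unit : PUnit) ∈ ⋃₀ 𝒰 := by rw [hU]; trivial
      exact this
    refine ⟨∅, isCompact_empty, fun A _ _ => ⟨U, hU1, ?_⟩⟩
    rintro _ ⟨x, _, rfl⟩
    exact hU2

/-- Every group has an EZ-structure relative to itself. -/
theorem hasRelEZ_top (G : Type*) [Group G] : HasRelEZ G (⊤ : Subgroup G) := by
  let act : MulAction G PUnit :=
    { smul := fun _ x => x
      one_smul := fun _ => rfl
      mul_smul := fun _ _ _ => rfl }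
  refine ⟨PUnit, inferInstance, act, PUnit, inferInstance, fun x => x, PUnit.unit,
    point_isModelZGeometry, ⟨fun g => isometry_id⟩, ⟨univ, isCompact_univ, fun x => ⟨1, ?_⟩⟩,
    ⟨⟨0, fun a _ => ?_⟩, fun r => ⟨{1}, fun g _ => ⟨1, Finset.mem_singleton_self _, trivial⟩⟩⟩,
    fun g => ⟨fun x => x, continuous_id, fun x => rfl⟩⟩
  · exact ⟨x, mem_univ _, rfl⟩
  · exact le_of_eq (dist_self _)

/-- An EZ-structure on the quotient by a normal subgroup is an EZ-structure relative to it. -/
theorem HasRelEZ.of_quotient {G : Type*} [Group G] (N : Subgroup G) [N.Normal]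
    (h : HasEZStructure (G ⧸ N)) : HasRelEZ G N := by
  classical
  obtain ⟨X, mX, aX, Xb, tXb, i, hZ, hiso, hprop, ⟨K, hK, hcov⟩, aXb, hcXb, hequi⟩ := h
  have hp : ProperSpace X := hZ.1.1
  have hcX : ContractibleSpace X := hZ.1.2.1.1
  let act : MulAction G X := MulAction.compHom X (QuotientGroup.mk' N)
  have hact : ∀ (g : G) (x : X), g • x = (QuotientGroup.mk' N g) • x := fun _ _ => rfl
  obtain ⟨x0⟩ : Nonempty X := inferInstance
  refine ⟨X, mX, act, Xb, tXb, i, x0, hZ, ⟨fun g => ?_⟩, ⟨K, hK, fun x => ?_⟩,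
    ⟨⟨0, fun a ha => ?_⟩, fun r => ?_⟩, fun g => ?_⟩
  · exact hiso.isometry_smul (QuotientGroup.mk' N g)
  · obtain ⟨q, hq⟩ := hcov x
    obtain ⟨g, rfl⟩ := QuotientGroup.mk'_surjective N q
    exact ⟨g, hq⟩
  · have h1 : QuotientGroup.mk' N a = 1 := (QuotientGroup.eq_one_iff a).mpr ha
    rw [hact, h1, one_smul, dist_self]
  · have hfin := hprop (Metric.closedBall x0 r ∪ {x0})
      ((isCompact_closedBall x0 r).union isCompact_singleton)
    refine ⟨hfin.toFinset.image Quotient.out, fun g hg => ?_⟩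
    refine ⟨Quotient.out (QuotientGroup.mk' N g), Finset.mem_image_of_mem _ ?_, ?_⟩
    · rw [Set.Finite.mem_toFinset]
      exact ⟨(QuotientGroup.mk' N g) • x0, ⟨x0, Or.inr rfl, rfl⟩, Or.inl hg⟩
    · exact QuotientGroup.eq.mp (Quotient.out_eq (QuotientGroup.mk' N g))
  · exact ⟨fun z => (QuotientGroup.mk' N g) • z, hcXb.continuous_const_smul _,
      fun x => (hequi _ x).symm⟩

/-- COROLLARY: extensions with virtually polycyclic kernel. -/
theorem ez_of_virtually_polycyclic_kernel {G : Type*} [Group G] (N : Subgroup G) [N.Normal]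
    (hN : IsVirtuallyPolycyclic N) (hQ : HasEZStructure (G ⧸ N)) : HasEZStructure G :=
  ez_of_rel_virtually_polycyclic N hN (HasRelEZ.of_quotient N hQ)

/-- COROLLARY: virtually polycyclic groups. -/
theorem ez_of_virtually_polycyclic {G : Type*} [Group G] (hG : IsVirtuallyPolycyclic G) :
    HasEZStructure G := by
  have hcG : Countable G := hG.countable
  obtain ⟨n, hn⟩ := hG.isPolyCF
  have hn' : IsPolyCF n (⊤ : Subgroup G) :=
    hn.of_injective (⊤ : Subgroup G).subtype (Subgroup.subtype_injective _)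
  exact HasRelEZ.hasEZ (polyCF_induction (fun A => HasRelEZ G A)
    (fun A B hAB hA => hA.of_commensurable hAB)
    (fun N m τ hτ _ hA hP => rel_step N τ hτ hA hP) n ⊤ hn'
    (hasRelEZ_top G).isCommensurated (hasRelEZ_top G))

end Pool.Agent.ZStr
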