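import Pool.Agent.ZStr.RelDefs

/-!
# The core of the relative step
-/

namespace Pool.Agent.ZStr

open Set Topology Filter
open scoped unitInterval Pointwise

/-- Absolute retracts are invariant under homeomorphism. -/
theorem IsAR.of_homeomorph {X Y : Type} [TopologicalSpace X] [TopologicalSpace Y]
    (φ : X ≃ₜ Y) (hY : IsAR Y) : IsAR X := by
  have := hY.1
  have := hY.2.1
  have := hY.2.2.1
  have := hY.2.2.2.1
  refine ⟨φ.contractibleSpace, φ.isClosedEmbedding.locallyCompactSpace, ?_,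
    φ.isEmbedding.metrizableSpace, ?_⟩
  · have h := φ.symm.surjective.denseRange.separableSpace φ.symm.continuous
    exact h
  · intro Z _ _ e he
    obtain ⟨U, hU, hsub, r, hr, hre⟩ := hY.2.2.2.2 Z (e ∘ φ.symm)
      (he.comp φ.symm.isClosedEmbedding)
    refine ⟨U, hU, ?_, fun u => φ.symm (r u), φ.symm.continuous.comp hr, ?_⟩
    · rintro _ ⟨x, rfl⟩
      exact hsub ⟨φ x, by simp⟩
    · intro x hx
      have h1 : (e ∘ φ.symm) (φ x) ∈ U := by simpa using hx
      have h2 := hre (φ x) h1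
      have h3 : (⟨(e ∘ φ.symm) (φ x), h1⟩ : U) = ⟨e x, hx⟩ := by
        apply Subtype.ext
        simp
      rw [h3] at h2
      change φ.symm (r ⟨e x, hx⟩) = x
      rw [h2, φ.symm_apply_apply]

/-- A linear automorphism of `ℝ^m` and its inverse are bounded. -/
theorem linearEquiv_bound {m : ℕ}
    (A : EuclideanSpace ℝ (Fin m) ≃ₗ[ℝ] EuclideanSpace ℝ (Fin m)) :
    ∃ L : ℝ, 0 ≤ L ∧ ∀ v, ‖A v‖ ≤ L * ‖v‖ ∧ ‖v‖ ≤ L * ‖A v‖ := by
  let B := A.toContinuousLinearEquiv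
  refine ⟨‖(B : EuclideanSpace ℝ (Fin m) →L[ℝ] EuclideanSpace ℝ (Fin m))‖ +
    ‖(B.symm : EuclideanSpace ℝ (Fin m) →L[ℝ] EuclideanSpace ℝ (Fin m))‖, by positivity,
    fun v => ⟨?_, ?_⟩⟩
  · have h1 := (B : EuclideanSpace ℝ (Fin m) →L[ℝ] EuclideanSpace ℝ (Fin m)).le_opNorm v
    have h2 : (B : EuclideanSpace ℝ (Fin m) →L[ℝ] EuclideanSpace ℝ (Fin m)) v = A v := rfl
    rw [h2] at h1
    have h3 : 0 ≤ ‖(B.symm : EuclideanSpace ℝ (Fin m) →L[ℝ] EuclideanSpace ℝ (Fin m))‖ * ‖v‖ := by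
      positivity
    linarith
  · have h1 := (B.symm : EuclideanSpace ℝ (Fin m) →L[ℝ] EuclideanSpace ℝ (Fin m)).le_opNorm (A v)
    have h2 : (B.symm : EuclideanSpace ℝ (Fin m) →L[ℝ] EuclideanSpace ℝ (Fin m)) (A v) = v :=
      B.symm_apply_apply v
    rw [h2] at h1
    have h3 : 0 ≤ ‖(B : EuclideanSpace ℝ (Fin m) →L[ℝ] EuclideanSpace ℝ (Fin m))‖ * ‖A v‖ := by
      positivity
    linarith

/-- The core of the relative step: the join compactification of `ℝ^m × Y` is an EZ-geometry for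
the affine action. -/
theorem rel_core {G : Type*} [Group G] [Countable G] {m : ℕ} (A : Subgroup G)
    (Y : Type) [MetricSpace Y] [MulAction G Y] [IsIsometricSMul G Y]
    (Yb : Type) [TopologicalSpace Yb] (iY : Y → Yb) (hY : IsModelZGeometry Y Yb iY)
    (hYext : ∀ g : G, ∃ f : Yb → Yb, Continuous f ∧ ∀ y, f (iY y) = iY (g • y)) (y0 : Y)
    (ρ : G → (EuclideanSpace ℝ (Fin m) ≃ₗ[ℝ] EuclideanSpace ℝ (Fin m)))
    (f : G → Y → EuclideanSpace ℝ (Fin m))
    (E : Type) [MetricSpace E] [MulAction G E] [ProperSpace E] [IsIsometricSMul G E]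
    (φ : E ≃ₜ EuclideanSpace ℝ (Fin m) × Y) (hf : ∀ g, Continuous (f g))
    (hcE : CocompactlyActs G E)
    (hact : ∀ (g : G) (e : E), φ (g • e) = (ρ g (φ e).1 + f g (φ e).2, g • (φ e).2))
    (hst : CoarseStabilizer G E A (φ.symm (0, y0)))
    (hnear : ∀ R : ℝ, ∃ (s : ℝ) (c : ℝ → ℝ), Monotone c ∧ ∀ e e' : E, dist e e' ≤ R →
      Near y0 s c (φ e) (φ e')) : HasRelEZ G A := by
  classical
  obtain ⟨⟨hpropY, hARY, -⟩, hcptY, ht2Y, hiY, hdY, hzY, hctY⟩ := hY
  have := hARY.1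
  obtain ⟨⟨-, hARX, -⟩, hcptX, ht2X, hiX, -, hzX, hctX⟩ := ball_isModelZGeometry m
  have := hARX.1
  choose sR cR hcR hnR using hnear
  -- bounds for the translation parts
  have hcf : ∀ g : G, ∃ c : ℝ → ℝ, Monotone c ∧ (∀ t, 0 ≤ c t) ∧
      ∀ y, ‖f g y‖ ≤ c (dist y y0) := by
    intro g
    refine exists_monotone_bound (fun y : Y => dist y y0) (fun y => ‖f g y‖) fun r => ?_
    have hK : IsCompact (Metric.closedBall y0 r) := isCompact_closedBall y0 r
    obtain ⟨B, hB⟩ := (hK.bddAbove_image (hf g).norm.continuousOn)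
    exact ⟨B, fun y hy => hB ⟨y, hy, rfl⟩⟩
  choose cf hcfm hcf0 hcfb using hcf
  choose L hL0 hL using fun g => linearEquiv_bound (ρ g)
  let ρJ : ℕ ⊕ G → ℝ := Sum.elim (fun n => sR (n : ℝ)) (fun _ => 0)
  let cJ : ℕ ⊕ G → ℝ → ℝ := Sum.elim (fun n => cR (n : ℝ))
    (fun g a => cf g (a + dist (g • y0) y0))
  let bJ : ℕ ⊕ G → ℝ → ℝ := Sum.elim (fun _ s => s) (fun g s => L g * s)
  have hcJ : ∀ q, Monotone (cJ q) := by
    rintro (n | g)
    · exact hcR _
    · exact fun a b hab => hcfm g (by linarith)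
  have hbJ : ∀ q, Monotone (bJ q) := by
    rintro (n | g)
    · exact monotone_id
    · exact fun a b hab => mul_le_mul_of_nonneg_left hab (hL0 g)
  obtain ⟨en, hen⟩ := exists_surjective_nat (ℕ ⊕ G)
  obtain ⟨κX, κY, T, topT, j, hκX, hκXm, hκX1, hκXt, hκY, hκYm, hκY1, hκYt, hj, hz, hctrl,
    hslow, -⟩ :=
    exists_joinCompactification (toBall m) hiX hzX hctX iY hiY hzY hctY 0 y0 (ρJ ∘ en) (cJ ∘ en)
      (fun k => hcJ (en k)) (bJ ∘ en) (fun k => hbJ (en k))
  have hctrlJ : ∀ q : ℕ ⊕ G, ∀ {α : Type} (l : Filter α)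
      (w w' : α → EuclideanSpace ℝ (Fin m) × Y) (ζ : T),
      ζ ∉ range j → (∀ᶠ a in l, Near y0 (ρJ q) (cJ q) (w a) (w' a)) →
      Tendsto (fun a => j (w a)) l (𝓝 ζ) → Tendsto (fun a => j (w' a)) l (𝓝 ζ) := by
    intro q
    obtain ⟨k, rfl⟩ := hen q
    exact hctrl k
  have hslowG : ∀ g : G, ∃ B : ℝ, ∀ s, κX (L g * s) ≤ κX s + B := by
    intro g
    obtain ⟨k, hk⟩ := hen (Sum.inr g)
    obtain ⟨B, hB⟩ := hslow k
    refine ⟨B, fun s => ?_⟩
    have := hB s
    simpa only [Function.comp, hk, bJ, Sum.elim_inr] using this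
  have := hj.compact
  have := hj.t2
  let i : E → T := fun e => j (φ e)
  have hrange : range i = range j := φ.surjective.range_comp j
  have hiE : IsOpenEmbedding i := hj.emb.comp φ.isOpenEmbedding
  have hdE : DenseRange i := by
    have h1 := hj.dense
    unfold DenseRange at h1 ⊢
    rwa [hrange]
  have hzE : IsZSet (range i)ᶜ := by rwa [hrange]
  have hcE' : ControlCondition E T i := by
    have : Nonempty T := ⟨i (φ.symm (0, y0))⟩
    refine control_of_filter i hiE ?_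
    intro R l hR ζ hζ hl
    rw [hrange] at hζ
    refine hctrlJ (Sum.inl ⌈R⌉₊) l (fun a => φ a.1) (fun a => φ a.2) ζ hζ ?_ hl
    filter_upwards [hR] with a ha
    exact hnR (⌈R⌉₊ : ℝ) a.1 a.2 (ha.trans (Nat.le_ceil R))
  have hARE : IsAR E := IsAR.of_homeomorph φ (hARX.prod hARY)
  refine ⟨E, inferInstance, inferInstance, T, topT, i, φ.symm (0, y0),
    ⟨⟨inferInstance, hARE, ?_⟩, hj.compact, hj.t2, hiE, hdE, hzE, hcE'⟩, inferInstance, hcE,
    hst, fun g => ?_⟩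
  · obtain ⟨K, hK, hcov⟩ := hcE
    refine ⟨K, hK, fun x => ?_⟩
    obtain ⟨g, hg⟩ := hcov x
    exact ⟨IsometryEquiv.constSMul g, by simpa [Set.mem_smul_set] using hg⟩
  have hdi : IsDenseInducing i := ⟨hiE.isInducing, hdE⟩
  have hgc : Continuous fun e : E => i (g • e) :=
    hiE.continuous.comp (continuous_const_smul g)
  refine ⟨hdi.extend (fun e => i (g • e)), hdi.continuous_extend fun z => ?_,
    fun e => hdi.extend_eq hgc e⟩
  by_cases hzr : z ∈ range i
  · obtain ⟨e, rfl⟩ := hzr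
    refine ⟨i (g • e), ?_⟩
    rw [← hdi.isInducing.nhds_eq_comap]
    exact hgc.tendsto e
  -- a boundary point
  have hzj : z ∉ range j := by rwa [hrange] at hzr
  set l := comap i (𝓝 z) with hl
  have hlne : l.NeBot := hdi.comap_nhds_neBot z
  have hiz : Tendsto (fun e => j (φ e)) l (𝓝 z) := tendsto_comap
  obtain ⟨x, y, s, hlab⟩ := hj.bdry z hzj
  obtain ⟨hts, hxs, hys⟩ := (hlab.conv l _).1 hiz
  obtain ⟨α, hα, hαt⟩ := ball_linear m (ρ g)
  obtain ⟨F, hF, hFi⟩ := hYext g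
  obtain ⟨F', hF', hFi'⟩ := hYext g⁻¹
  have hFF : ∀ y, F' (F y) = y := by
    have : F' ∘ F = id := hdY.equalizer (hF'.comp hF) continuous_id (by
      funext y
      simp [hFi, hFi'])
    intro y
    exact congrFun this y
  have hFy : y ∉ range iY → F y ∉ range iY := by
    rintro hy ⟨y1, hy1⟩
    apply hy
    refine ⟨g⁻¹ • y1, ?_⟩
    rw [← hFi', hy1, hFF]
  -- the coordinates of the auxiliary point
  have hX'' : 0 < s → Tendsto (fun e => toBall m (ρ g (φ e).1)) l (𝓝 (α x)) := fun hs =>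
    hαt l (fun e => (φ e).1) x (hlab.hx hs) (hxs hs)
  have hY'' : s < 1 → Tendsto (fun e => iY (g • (φ e).2)) l (𝓝 (F y)) := by
    intro hs
    exact ((hF.tendsto y).comp (hys hs)).congr fun e => hFi _
  -- the sizes
  have hlXp : Tendsto (fun x : EuclideanSpace ℝ (Fin m) => κX (dist x 0)) (cocompact _) atTop :=
    hκXt.comp (tendsto_dist_right_cocompact_atTop 0)
  have hlYp : Tendsto (fun y : Y => κY (dist y y0)) (cocompact Y) atTop :=
    hκYt.comp (tendsto_dist_right_cocompact_atTop y0)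
  have hsum := size_tendsto_of_bdry (fun x : EuclideanSpace ℝ (Fin m) => κX (dist x 0))
    (fun _ => hκX1 _) hlXp (fun y : Y => κY (dist y y0)) (fun _ => hκY1 _) hlYp j
    hj.emb.continuous z hzj l _ hiz
  obtain ⟨B, hB⟩ := hslowG g
  have hLY : ∀ a b : ℝ, |κY a - κY b| ≤ |a - b| := by
    intro a b
    have := hκY.dist_le_mul a b
    simpa [Real.dist_eq] using this
  have hsX : ∀ v : EuclideanSpace ℝ (Fin m), |κX (dist (ρ g v) 0) - κX (dist v 0)| ≤ B := by
    intro v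
    rw [dist_zero_right, dist_zero_right]
    obtain ⟨h2, h3⟩ := hL g v
    have h4 : κX ‖ρ g v‖ ≤ κX ‖v‖ + B := (hκXm h2).trans (hB _)
    have h5 : κX ‖v‖ ≤ κX ‖ρ g v‖ + B := (hκXm h3).trans (hB _)
    rw [abs_le]
    constructor <;> linarith
  have hsY : ∀ y : Y, |κY (dist (g • y) y0) - κY (dist y y0)| ≤ dist (g • y0) y0 := by
    intro y
    refine (hLY _ _).trans ?_
    have h2 : dist y y0 = dist (g • y) (g • y0) := (dist_smul g y y0).symm
    rw [h2, dist_comm _ y0, dist_comm _ (g • y0)]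
    refine (abs_dist_sub_le _ _ _).trans ?_
    rw [dist_comm]
  have ht'' := param_tendsto (fun x : EuclideanSpace ℝ (Fin m) => κX (dist x 0))
    (fun _ => hκX1 _) (fun y : Y => κY (dist y y0)) (fun _ => hκY1 _) l
    (fun e => φ e) (fun e => ((ρ g (φ e).1, g • (φ e).2) : EuclideanSpace ℝ (Fin m) × Y))
    hsum B (dist (g • y0) y0) (Eventually.of_forall fun e => hsX _)
    (Eventually.of_forall fun e => hsY _) s hts
  obtain ⟨ζ', hζ', hlab'⟩ := hj.real (α x) (F y) s hlab.nonneg hlab.le_one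
    (fun hs => hα x (hlab.hx hs)) (fun hs => hFy (hlab.hy hs)) l
    (fun e => ((ρ g (φ e).1, g • (φ e).2) : EuclideanSpace ℝ (Fin m) × Y)) hlne ht'' hX'' hY''
  have hw' : Tendsto (fun e => j ((ρ g (φ e).1, g • (φ e).2) : EuclideanSpace ℝ (Fin m) × Y)) l
      (𝓝 ζ') := (hlab'.conv l _).2 ⟨ht'', hX'', hY''⟩
  refine ⟨ζ', ?_⟩
  refine hctrlJ (Sum.inr g) l _ (fun e => φ (g • e)) ζ' hζ' (Eventually.of_forall fun e => ?_) hw'
  rw [hact]
  refine ⟨?_, ?_⟩
  · change dist (g • (φ e).2) (g • (φ e).2) ≤ 0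
    rw [dist_self]
  · change dist (ρ g (φ e).1) (ρ g (φ e).1 + f g (φ e).2) ≤
      cf g (dist (g • (φ e).2) y0 + dist (g • y0) y0)
    rw [dist_self_add_right]
    refine (hcfb g _).trans (hcfm g ?_)
    have h4 : dist (φ e).2 y0 = dist (g • (φ e).2) (g • y0) := (dist_smul g _ _).symm
    rw [h4]
    have h5 := dist_triangle (g • (φ e).2) y0 (g • y0)
    rw [dist_comm y0 (g • y0)] at h5
    exact h5

end Pool.Agent.ZStr
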