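import Pool.Agent.ZStr.RelDefs
import Pool.Agent.ZStr.PolyDefs

/-!
# Countability (auxiliary to module RELMAIN)
-/

namespace Pool.Agent.ZStr

open Set Topology Filter
open scoped unitInterval Pointwise

/-- A group with a countable subgroup and countably many cosets is countable. -/
theorem relmain_countable_of_quotient {P : Type*} [Group P] (H : Subgroup P)
    (h1 : Countable (P ⧸ H)) (h2 : Countable H) : Countable P :=
  (Subgroup.groupEquivQuotientProdSubgroup (s := H)).injective.countable

/-- A cyclic group is countable. -/
theorem relmain_countable_of_isCyclic {P : Type*} [Group P] (h : IsCyclic P) : Countable P := by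
  obtain ⟨g, hg⟩ := h.exists_zpow_surjective
  exact hg.countable

/-- A polycyclic group is countable. -/
theorem IsPolycyclic.countable {P : Type*} [Group P] (h : IsPolycyclic P) : Countable P := by
  obtain ⟨n, H, h0, hn, hstep⟩ := h
  have key : ∀ i ≤ n, Countable (H i) := by
    intro i
    induction i with
    | zero =>
      intro _
      rw [h0]
      infer_instance
    | succ i ih =>
      intro hi
      obtain ⟨hle, hnorm, hcyc⟩ := hstep i (by omega)
      have h3 : Countable (H i) := ih (by omega)
      have h4 : Countable ((H i).subgroupOf (H (i + 1))) :=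
        (Subgroup.subgroupOfEquivOfLe hle).injective.countable
      exact relmain_countable_of_quotient _ (relmain_countable_of_isCyclic hcyc) h4
  have htop := key n le_rfl
  rw [hn] at htop
  exact (Subgroup.topEquiv (G := P)).symm.injective.countable

/-- A virtually polycyclic group is countable. -/
theorem IsVirtuallyPolycyclic.countable {P : Type*} [Group P] (h : IsVirtuallyPolycyclic P) :
    Countable P := by
  obtain ⟨Q, hfi, hQ⟩ := h
  have h1 : Finite (P ⧸ Q) := Subgroup.finite_quotient_of_finiteIndex
  exact relmain_countable_of_quotient Q inferInstance hQ.countable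

/-- If the coarse stabilizer `N` is countable, so is `G`. -/
theorem HasRelEZ.countable {G : Type*} [Group G] {N : Subgroup G} (h : HasRelEZ G N)
    (hN : Countable N) : Countable G := by
  obtain ⟨X, _, _, Xb, _, i, x0, hZ, hiso, hcoc, ⟨-, hfin⟩, hext⟩ := h
  choose F hF using fun n : ℕ => hfin (n : ℝ)
  have hc : (⋃ n : ℕ, ⋃ f ∈ F n, (fun a : N => f * (a : G)) '' univ).Countable := by
    refine countable_iUnion fun n => ?_
    exact (F n).countable_toSet.biUnion fun f _ => countable_univ.image _
  rw [← countable_univ_iff]
  refine hc.mono fun g _ => ?_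
  obtain ⟨n, hn⟩ := exists_nat_ge (dist (g • x0) x0)
  obtain ⟨f, hf, hfN⟩ := hF n g hn
  refine mem_iUnion.2 ⟨n, mem_iUnion₂.2 ⟨f, hf, ⟨f⁻¹ * g, hfN⟩, mem_univ _, ?_⟩⟩
  simp

end Pool.Agent.ZStr
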