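import Pool.Agent.ZStr.Defs

/-!
# Relative EZ-structures (definitions)
-/

namespace Pool.Agent.ZStr

/-- The action of `G` on `Y` has *coarse stabilizers commensurable to* the subgroup `A`: the
orbit `A y0` is bounded, and for every `r` the set `{g | dist (g y0) y0 ≤ r}` is covered by
finitely many left cosets of `A`. -/
def CoarseStabilizer (G : Type*) [Group G] (Y : Type*) [MetricSpace Y] [MulAction G Y]
    (A : Subgroup G) (y0 : Y) : Prop :=
  (∃ C : ℝ, ∀ a ∈ A, dist (a • y0) y0 ≤ C) ∧
    ∀ r : ℝ, ∃ F : Finset G, ∀ g : G, dist (g • y0) y0 ≤ r → ∃ f ∈ F, f⁻¹ * g ∈ A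

/-- `G` has an EZ-structure *relative to* the subgroup `A`: a model Z-geometry with a cocompact
isometric action of `G` with coarse stabilizers commensurable to `A`, extending to the
compactification. -/
def HasRelEZ (G : Type*) [Group G] (A : Subgroup G) : Prop :=
  ∃ (X : Type) (_ : MetricSpace X) (_ : MulAction G X)
    (Xb : Type) (_ : TopologicalSpace Xb) (i : X → Xb) (x0 : X),
    IsModelZGeometry X Xb i ∧ IsIsometricSMul G X ∧ CocompactlyActs G X ∧
    CoarseStabilizer G X A x0 ∧
    ∀ g : G, ∃ f : Xb → Xb, Continuous f ∧ ∀ x, f (i x) = i (g • x)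

end Pool.Agent.ZStr
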