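import Pool.Agent.ZStr.EZ
import Pool.Agent.ZStr.RelZDefs
import Pool.Agent.ZStr.Ball
import Pool.Agent.ZStr.ARProd

/-!
# Relative EZ-structures (module RELDEFS)
-/

namespace Pool.Agent.ZStr

open Set Topology Filter
open scoped unitInterval Pointwise

/-- The conjugate `g A g⁻¹`. -/
def conjSub {G : Type*} [Group G] (g : G) (A : Subgroup G) : Subgroup G :=
  A.map (MulAut.conj g).toMonoidHom

/-- `A` is *commensurated* in `G`. -/
def IsCommensurated {G : Type*} [Group G] (A : Subgroup G) : Prop :=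
  ∀ g : G, (conjSub g A).Commensurable A

/-- A subgroup covered by finitely many cosets of `A` meets `A` in finite index. -/
theorem relIndex_ne_zero_of_cover {G : Type*} [Group G] {A B : Subgroup G} (F : Finset G)
    (h : ∀ b ∈ B, ∃ f ∈ F, f⁻¹ * b ∈ A) : A.relIndex B ≠ 0 := by
  classical
  have hfin : Finite (B ⧸ A.subgroupOf B) := by
    choose! c hc1 hc2 using h
    let φ : B ⧸ A.subgroupOf B → F := fun q => ⟨c (q.out : G), hc1 _ q.out.2⟩
    refine Finite.of_injective φ ?_
    intro q q' hqq'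
    have h1 : c (q.out : G) = c (q'.out : G) := congrArg Subtype.val hqq'
    have h2 := hc2 _ q.out.2
    have h3 := hc2 _ q'.out.2
    rw [← h1] at h3
    have h4 : ((q.out : G))⁻¹ * (q'.out : G) ∈ A := by
      have h5 := A.mul_mem (A.inv_mem h2) h3
      have h6 : ((c (q.out : G))⁻¹ * (q.out : G))⁻¹ * ((c (q.out : G))⁻¹ * (q'.out : G)) =
          ((q.out : G))⁻¹ * (q'.out : G) := by group
      rwa [h6] at h5
    rw [← q.out_eq, ← q'.out_eq]
    apply QuotientGroup.eq.mpr
    show (q.out)⁻¹ * q'.out ∈ A.subgroupOf B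
    rw [Subgroup.mem_subgroupOf]
    simpa using h4
  show (A.subgroupOf B).index ≠ 0
  exact Subgroup.index_ne_zero_of_finite

/-- Conversely, finite index gives a finite cover. -/
theorem exists_cover_of_relIndex {G : Type*} [Group G] {A B : Subgroup G}
    (h : A.relIndex B ≠ 0) : ∃ F : Finset G, (∀ f ∈ F, f ∈ B) ∧ ∀ b ∈ B, ∃ f ∈ F, f⁻¹ * b ∈ A := by
  classical
  have hfi : (A.subgroupOf B).FiniteIndex := ⟨h⟩
  have hfin : Finite (B ⧸ A.subgroupOf B) := Subgroup.finite_quotient_of_finiteIndex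
  have : Fintype (B ⧸ A.subgroupOf B) := Fintype.ofFinite _
  refine ⟨Finset.univ.image fun q : B ⧸ A.subgroupOf B => (q.out : G), ?_, ?_⟩
  · intro f hf
    obtain ⟨q, _, rfl⟩ := Finset.mem_image.mp hf
    exact q.out.2
  · intro b hb
    refine ⟨_, Finset.mem_image_of_mem _
      (Finset.mem_univ ((⟨b, hb⟩ : B) : B ⧸ A.subgroupOf B)), ?_⟩
    have h1 : (((⟨b, hb⟩ : B) : B ⧸ A.subgroupOf B).out : B ⧸ A.subgroupOf B) =
        ((⟨b, hb⟩ : B) : B ⧸ A.subgroupOf B) := Quotient.out_eq _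
    have h2 := QuotientGroup.eq.mp h1
    rw [Subgroup.mem_subgroupOf] at h2
    simpa using h2

theorem mem_conjSub {G : Type*} [Group G] {g x : G} {A : Subgroup G} :
    x ∈ conjSub g A ↔ g⁻¹ * x * g ∈ A := by
  unfold conjSub
  rw [Subgroup.mem_map]
  constructor
  · rintro ⟨a, ha, rfl⟩
    have : g⁻¹ * ((MulAut.conj g).toMonoidHom a) * g = a := by
      show g⁻¹ * (g * a * g⁻¹) * g = a
      group
    rw [this]
    exact ha
  · intro h
    refine ⟨_, h, ?_⟩
    show g * (g⁻¹ * x * g) * g⁻¹ = x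
    group

/-- Coarse stabilizers are commensurated. -/
theorem HasRelEZ.isCommensurated {G : Type*} [Group G] {A : Subgroup G} (h : HasRelEZ G A) :
    IsCommensurated A := by
  obtain ⟨X, _, _, Xb, _, i, x0, hZ, hiso, hcoc, ⟨⟨C, hC⟩, hfin⟩, hext⟩ := h
  intro g
  constructor
  · -- `A` is covered by finitely many cosets of the conjugate
    obtain ⟨F, hF⟩ := hfin (dist (g • x0) x0 + C + dist (g⁻¹ • x0) x0)
    classical
    refine relIndex_ne_zero_of_cover (F.image fun f => g * f * g⁻¹) ?_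
    intro a ha
    have h1 : dist ((g⁻¹ * a * g) • x0) x0 ≤ dist (g • x0) x0 + C + dist (g⁻¹ • x0) x0 := by
      have t1 : dist ((g⁻¹ * a * g) • x0) ((g⁻¹ * a) • x0) = dist (g • x0) x0 := by
        rw [mul_smul, dist_smul]
      have t2 : dist ((g⁻¹ * a) • x0) (g⁻¹ • x0) ≤ C := by
        rw [mul_smul, dist_smul]
        exact hC a ha
      have t3 := dist_triangle4 ((g⁻¹ * a * g) • x0) ((g⁻¹ * a) • x0) (g⁻¹ • x0) x0
      linarith
    obtain ⟨f, hf, hfA⟩ := hF _ h1
    refine ⟨_, Finset.mem_image_of_mem _ hf, ?_⟩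
    rw [mem_conjSub]
    have h2 : g⁻¹ * ((g * f * g⁻¹)⁻¹ * a) * g = f⁻¹ * (g⁻¹ * a * g) := by group
    rw [h2]
    exact hfA
  · obtain ⟨F, hF⟩ := hfin (dist (g⁻¹ • x0) x0 + C + dist (g • x0) x0)
    refine relIndex_ne_zero_of_cover F ?_
    intro b hb
    rw [mem_conjSub] at hb
    apply hF
    have hb' : b = g * (g⁻¹ * b * g) * g⁻¹ := by group
    rw [hb']
    have t1 : dist ((g * (g⁻¹ * b * g) * g⁻¹) • x0) ((g * (g⁻¹ * b * g)) • x0) =
        dist (g⁻¹ • x0) x0 := by
      rw [mul_smul, dist_smul]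
    have t2 : dist ((g * (g⁻¹ * b * g)) • x0) (g • x0) ≤ C := by
      rw [mul_smul, dist_smul]
      exact hC _ hb
    have t3 := dist_triangle4 ((g * (g⁻¹ * b * g) * g⁻¹) • x0) ((g * (g⁻¹ * b * g)) • x0)
      (g • x0) x0
    linarith

/-- Coarse stabilizers may be replaced by commensurable subgroups. -/
theorem CoarseStabilizer.of_commensurable {G : Type*} [Group G] {Y : Type*} [MetricSpace Y]
    [MulAction G Y] (hiso : IsIsometricSMul G Y) {A B : Subgroup G} {y0 : Y}
    (hAB : A.Commensurable B) (h : CoarseStabilizer G Y A y0) : CoarseStabilizer G Y B y0 := by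
  classical
  obtain ⟨⟨C, hC⟩, hfin⟩ := h
  obtain ⟨F1, -, hF1⟩ := exists_cover_of_relIndex hAB.1
  obtain ⟨F2, -, hF2⟩ := exists_cover_of_relIndex hAB.2
  constructor
  · refine ⟨∑ f ∈ F1, dist (f • y0) y0 + C, ?_⟩
    intro b hb
    obtain ⟨f, hf, hfA⟩ := hF1 b hb
    have t1 : dist (b • y0) (f • y0) ≤ C := by
      have : b = f * (f⁻¹ * b) := by group
      rw [this, mul_smul, dist_smul]
      exact hC _ hfA
    have t2 : dist (f • y0) y0 ≤ ∑ f ∈ F1, dist (f • y0) y0 :=
      Finset.single_le_sum (f := fun f : G => dist (f • y0) y0) (fun i _ => dist_nonneg) hf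
    have t3 := dist_triangle (b • y0) (f • y0) y0
    linarith
  · intro r
    obtain ⟨F, hF⟩ := hfin r
    refine ⟨(F ×ˢ F2).image fun q => q.1 * q.2, ?_⟩
    intro g hg
    obtain ⟨f, hf, hfA⟩ := hF g hg
    obtain ⟨f', hf', hfB⟩ := hF2 _ hfA
    refine ⟨_, Finset.mem_image_of_mem _ (Finset.mk_mem_product hf hf'), ?_⟩
    have : (f * f')⁻¹ * g = f'⁻¹ * (f⁻¹ * g) := by group
    show (f * f')⁻¹ * g ∈ B
    rw [this]
    exact hfB

/-- Relative EZ-structures depend only on the commensurability class. -/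
theorem HasRelEZ.of_commensurable {G : Type*} [Group G] {A B : Subgroup G}
    (hAB : A.Commensurable B) (h : HasRelEZ G A) : HasRelEZ G B := by
  obtain ⟨X, i1, i2, Xb, i3, i, x0, hZ, hiso, hcoc, hst, hext⟩ := h
  exact ⟨X, i1, i2, Xb, i3, i, x0, hZ, hiso, hcoc, hst.of_commensurable hiso hAB, hext⟩

/-- An EZ-structure relative to the trivial subgroup is an EZ-structure. -/
theorem HasRelEZ.hasEZ {G : Type*} [Group G] (h : HasRelEZ G (⊥ : Subgroup G)) :
    HasEZStructure G := by
  obtain ⟨X, i1, i2, Xb, i3, i, x0, hZ, hiso, hcoc, ⟨_, hfin⟩, hext⟩ := h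
  have hT2 : T2Space Xb := hZ.2.2.1
  have hdense : DenseRange i := hZ.2.2.2.2.1
  choose f hf1 hf2 using hext
  refine ⟨X, i1, i2, Xb, i3, i, hZ, hiso, ?_, hcoc, ?_⟩
  · intro K hK
    obtain ⟨r, hr⟩ := hK.isBounded.subset_closedBall x0
    obtain ⟨F, hF⟩ := hfin (r + r)
    refine (F.finite_toSet).subset ?_
    rintro g ⟨y, ⟨k, hk, rfl⟩, hky⟩
    have h1 : dist (g • x0) x0 ≤ r + r := by
      have t1 : dist (g • x0) (g • k) ≤ r := by
        rw [dist_smul, dist_comm]
        exact hr hk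
      have t2 : dist (g • k) x0 ≤ r := hr hky
      have t3 := dist_triangle (g • x0) (g • k) x0
      linarith
    obtain ⟨f', hf', hfg⟩ := hF g h1
    rw [Subgroup.mem_bot, inv_mul_eq_one] at hfg
    rw [← hfg]
    exact hf'
  · have h1 : ∀ z, f 1 z = z := by
      intro z
      have : f 1 = id := by
        apply hdense.equalizer (hf1 1) continuous_id
        funext x
        show f 1 (i x) = i x
        rw [hf2, one_smul]
      rw [this]
      rfl
    have h2 : ∀ g g' z, f (g * g') z = f g (f g' z) := by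
      intro g g' z
      have : f (g * g') = f g ∘ f g' := by
        apply hdense.equalizer (hf1 _) ((hf1 g).comp (hf1 g'))
        funext x
        show f (g * g') (i x) = f g (f g' (i x))
        rw [hf2, hf2, hf2, mul_smul]
      rw [this]
      rfl
    let act : MulAction G Xb :=
      { smul := fun g z => f g z
        one_smul := fun z => h1 z
        mul_smul := fun g g' z => h2 g g' z }
    exact ⟨act, ⟨fun g => hf1 g⟩, fun g x => (hf2 g x).symm⟩

end Pool.Agent.ZStr
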