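import Pool.Agent.ZStr.RelDefs

/-!
# The linear representation of a commensurated lattice (module RELLIN)
-/

namespace Pool.Agent.ZStr

open Set Topology Filter
open scoped unitInterval Pointwise

/-- The lattice point of `ℝ^m` with given integral coordinates. -/
noncomputable def latV {m : ℕ} (z : Multiplicative (Fin m → ℤ)) : EuclideanSpace ℝ (Fin m) :=
  WithLp.toLp 2 (fun i => (((Multiplicative.toAdd z) i : ℤ) : ℝ))

/-- The kernel of `τ : N → ℤ^m`, as a subgroup of `G`. -/
def kerSub {G : Type*} [Group G] {N : Subgroup G} {m : ℕ}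
    (τ : N →* Multiplicative (Fin m → ℤ)) : Subgroup G :=
  τ.ker.map N.subtype

section latV

variable {m : ℕ}

lemma latV_apply (z : Multiplicative (Fin m → ℤ)) (i : Fin m) :
    latV z i = (((Multiplicative.toAdd z) i : ℤ) : ℝ) := rfl

lemma latV_mul (a b : Multiplicative (Fin m → ℤ)) : latV (a * b) = latV a + latV b := by
  ext i
  simp [latV_apply]

lemma latV_one : latV (1 : Multiplicative (Fin m → ℤ)) = 0 := by
  ext i
  simp [latV_apply]

lemma latV_inv (a : Multiplicative (Fin m → ℤ)) : latV a⁻¹ = - latV a := by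
  ext i
  simp [latV_apply]

lemma latV_pow (a : Multiplicative (Fin m → ℤ)) (k : ℕ) : latV (a ^ k) = (k : ℝ) • latV a := by
  ext i
  simp [latV_apply]

lemma latV_single (i : Fin m) :
    latV (Multiplicative.ofAdd (Pi.single i 1)) =
      (EuclideanSpace.basisFun (Fin m) ℝ).toBasis i := by
  ext j
  by_cases h : j = i
  · subst h; simp [latV_apply]
  · simp [latV_apply, h]

/-- The additive map `ℤ^m → ℝ^m`. -/
noncomputable def latAdd (m : ℕ) : (Fin m → ℤ) →+ EuclideanSpace ℝ (Fin m) where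
  toFun z := latV (Multiplicative.ofAdd z)
  map_zero' := latV_one
  map_add' x y := latV_mul (Multiplicative.ofAdd x) (Multiplicative.ofAdd y)

/-- Additive maps of the lattice extend to linear maps. -/
lemma exists_linear_ext (Ψ : (Fin m → ℤ) →+ EuclideanSpace ℝ (Fin m)) :
    ∃ L : EuclideanSpace ℝ (Fin m) →ₗ[ℝ] EuclideanSpace ℝ (Fin m),
      ∀ z, L (latV (Multiplicative.ofAdd z)) = Ψ z := by
  refine ⟨(EuclideanSpace.basisFun (Fin m) ℝ).toBasis.constr ℝ (fun i => Ψ (Pi.single i 1)), ?_⟩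
  have h2 : Ψ = ((EuclideanSpace.basisFun (Fin m) ℝ).toBasis.constr ℝ
      (fun i => Ψ (Pi.single i 1))).toAddMonoidHom.comp (latAdd m) := by
    apply AddMonoidHom.functions_ext
    intro i x
    have h3 : (Pi.single i x : Fin m → ℤ) = x • (Pi.single i 1 : Fin m → ℤ) := by
      rw [← Pi.single_smul]; simp
    rw [h3, map_zsmul, map_zsmul]
    congr 1
    change _ = ((EuclideanSpace.basisFun (Fin m) ℝ).toBasis.constr ℝ
      (fun i => Ψ (Pi.single i 1))) (latV (Multiplicative.ofAdd (Pi.single i 1)))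
    rw [latV_single, Module.Basis.constr_basis]
  intro z
  exact (DFunLike.congr_fun h2 z).symm

end latV

section rep

variable {G : Type*} [Group G] {N : Subgroup G} {m : ℕ}
  {τ : N →* Multiplicative (Fin m → ℤ)}

/-- Linear maps agreeing on (the image of) a subgroup of finite index are equal. -/
lemma latV_ext (hτ : Function.Surjective τ) (N' : Subgroup N) (hN' : N'.index ≠ 0)
    {A B : EuclideanSpace ℝ (Fin m) →ₗ[ℝ] EuclideanSpace ℝ (Fin m)}
    (h : ∀ n ∈ N', A (latV (τ n)) = B (latV (τ n))) : A = B := by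
  apply (EuclideanSpace.basisFun (Fin m) ℝ).toBasis.ext
  intro i
  obtain ⟨b, hb⟩ := hτ (Multiplicative.ofAdd (Pi.single i 1))
  obtain ⟨k, hk, -, hbk⟩ := Subgroup.exists_pow_mem_of_index_ne_zero hN' b
  have h1 := h _ hbk
  rw [map_pow, latV_pow, hb, latV_single, map_smul, map_smul] at h1
  have hk' : (k : ℝ) ≠ 0 := by exact_mod_cast hk.ne'
  exact smul_right_injective _ hk' h1

/-- The elements of `N` which `g` conjugates into `N`. -/
def conjDom (N : Subgroup G) (g : G) : Subgroup N :=
  (conjSub g⁻¹ N).subgroupOf N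

lemma mem_conjDom {g : G} {n : N} : n ∈ conjDom N g ↔ g * n * g⁻¹ ∈ N := by
  rw [conjDom, Subgroup.mem_subgroupOf, conjSub, Subgroup.mem_map]
  constructor
  · rintro ⟨x, hx, hxn⟩
    have h1 : g⁻¹ * x * g = (n : G) := by simpa using hxn
    rw [← h1]
    have h2 : g * (g⁻¹ * x * g) * g⁻¹ = x := by group
    rw [h2]
    exact hx
  · intro h
    refine ⟨_, h, ?_⟩
    change g⁻¹ * (g * n * g⁻¹) * g⁻¹⁻¹ = n
    group

lemma conjDom_index (hN : IsCommensurated N) (g : G) : (conjDom N g).index ≠ 0 :=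
  (hN g⁻¹).1

/-- The conjugate of an element of `conjDom N g`. -/
def conjVal (g : G) (n : N) (h : n ∈ conjDom N g) : N :=
  ⟨g * n * g⁻¹, mem_conjDom.mp h⟩

lemma conjVal_coe (g : G) (n : N) (h : n ∈ conjDom N g) :
    (conjVal g n h : G) = g * n * g⁻¹ := rfl

/-- The value of `τ` at the conjugate vanishes when the value of `τ` does. -/
lemma tau_conjVal_eq_one (hA : IsCommensurated (kerSub τ)) (g : G) (a : N)
    (h : a ∈ conjDom N g) (ha : τ a = 1) : τ (conjVal g a h) = 1 := by
  have h1 : (conjVal g a h : G) ∈ conjSub g (kerSub τ) := by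
    refine ⟨(a : G), ⟨a, ha, rfl⟩, rfl⟩
  obtain ⟨k, hk, -, hk2⟩ := Subgroup.exists_pow_mem_of_relIndex_ne_zero (hA g).2 h1
  obtain ⟨y, hy, hyk⟩ := hk2.1
  have h2 : y = (conjVal g a h) ^ k := Subtype.ext (by simpa using hyk)
  have h3 : (τ (conjVal g a h)) ^ k = 1 := by
    rw [← map_pow, ← h2]
    exact hy
  have h4 : ∀ i, (Multiplicative.toAdd (τ (conjVal g a h))) i = 0 := by
    intro i
    have h5 : (k : ℤ) * (Multiplicative.toAdd (τ (conjVal g a h))) i = 0 := by
      have h6 := congrArg (fun z => (Multiplicative.toAdd z) i) h3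
      simpa using h6
    rcases mul_eq_zero.mp h5 with h7 | h7
    · exact absurd h7 (by exact_mod_cast hk.ne')
    · exact h7
  exact Multiplicative.toAdd.injective (funext h4)

lemma tau_conjVal_eq (hA : IsCommensurated (kerSub τ)) (g : G) (a b : N)
    (ha : a ∈ conjDom N g) (hb : b ∈ conjDom N g) (hab : τ a = τ b) :
    τ (conjVal g a ha) = τ (conjVal g b hb) := by
  have h1 : τ (a * b⁻¹) = 1 := by rw [map_mul, map_inv, hab, mul_inv_cancel]
  have h2 := tau_conjVal_eq_one hA g (a * b⁻¹) (mul_mem ha (inv_mem hb)) h1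
  have h3 : conjVal g (a * b⁻¹) (mul_mem ha (inv_mem hb)) =
      conjVal g a ha * (conjVal g b hb)⁻¹ := by
    apply Subtype.ext
    simp only [conjVal_coe, Subgroup.coe_mul, Subgroup.coe_inv]
    group
  rw [h3, map_mul, map_inv, mul_inv_eq_one] at h2
  exact h2

/-- The linear map attached to one element. -/
lemma exists_linRep_single (hτ : Function.Surjective τ)
    (hN : IsCommensurated N) (hA : IsCommensurated (kerSub τ)) (g : G) :
    ∃ L : EuclideanSpace ℝ (Fin m) →ₗ[ℝ] EuclideanSpace ℝ (Fin m),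
      ∀ (n n' : N), (n' : G) = g * n * g⁻¹ → latV (τ n') = L (latV (τ n)) := by
  set K : ℕ := (conjDom N g).index.factorial with hK
  have hK0 : (K : ℝ) ≠ 0 := by exact_mod_cast Nat.factorial_ne_zero _
  have hpow : ∀ n : N, n ^ K ∈ conjDom N g := fun n =>
    Subgroup.pow_mem_of_index_ne_zero_of_dvd (conjDom_index hN g) n
      (fun j hj0 hj => Nat.dvd_factorial hj0 hj)
  let lift : (Fin m → ℤ) → N := fun z => Function.surjInv hτ (Multiplicative.ofAdd z)
  have hlift : ∀ z, τ (lift z) = Multiplicative.ofAdd z := fun z =>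
    Function.surjInv_eq hτ _
  let Ψ : (Fin m → ℤ) →+ EuclideanSpace ℝ (Fin m) :=
    { toFun := fun z => (K : ℝ)⁻¹ • latV (τ (conjVal g (lift z ^ K) (hpow _)))
      map_zero' := by
        have h1 : τ (lift 0 ^ K) = 1 := by rw [map_pow, hlift, ofAdd_zero, one_pow]
        rw [tau_conjVal_eq_one hA g _ (hpow _) h1, latV_one, smul_zero]
      map_add' := by
        intro x y
        rw [← smul_add, ← latV_mul, ← map_mul]
        congr 2
        have h1 : conjVal g (lift x ^ K) (hpow _) * conjVal g (lift y ^ K) (hpow _) =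
            conjVal g (lift x ^ K * lift y ^ K) (mul_mem (hpow _) (hpow _)) := by
          apply Subtype.ext
          simp only [conjVal_coe, Subgroup.coe_mul]
          group
        rw [h1]
        apply tau_conjVal_eq hA
        rw [map_pow, map_mul, map_pow, map_pow, hlift, hlift, hlift, ofAdd_add, mul_pow] }
  obtain ⟨L, hL⟩ := exists_linear_ext Ψ
  refine ⟨L, ?_⟩
  intro n n' hn
  have hmem : n ∈ conjDom N g := mem_conjDom.mpr (by rw [← hn]; exact n'.2)
  have h1 : latV (τ n) = latV (Multiplicative.ofAdd (Multiplicative.toAdd (τ n))) := rfl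
  have h2 : L (latV (τ n)) = (K : ℝ)⁻¹ •
      latV (τ (conjVal g (lift (Multiplicative.toAdd (τ n)) ^ K) (hpow _))) := by
    rw [h1, hL]; rfl
  have h3 : τ (conjVal g (lift (Multiplicative.toAdd (τ n)) ^ K) (hpow _)) =
      τ (conjVal g (n ^ K) (hpow _)) := by
    apply tau_conjVal_eq hA
    rw [map_pow, hlift, map_pow]
    rfl
  have h4 : conjVal g (n ^ K) (hpow _) = n' ^ K := by
    apply Subtype.ext
    rw [conjVal_coe, Subgroup.coe_pow, Subgroup.coe_pow, hn, conj_pow]
  rw [h2, h3, h4, map_pow, latV_pow, smul_smul, inv_mul_cancel₀ hK0, one_smul]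

end rep

/-- LINEAR REPRESENTATION.  If `N` and the kernel of `τ : N → ℤ^m` are commensurated in `G`, then
conjugation induces a linear representation of `G` on `ℝ^m`. -/
theorem exists_linRep {G : Type*} [Group G] (N : Subgroup G) {m : ℕ}
    (τ : N →* Multiplicative (Fin m → ℤ)) (hτ : Function.Surjective τ)
    (hN : IsCommensurated N) (hA : IsCommensurated (kerSub τ)) :
    ∃ ρ : G →* (EuclideanSpace ℝ (Fin m) ≃ₗ[ℝ] EuclideanSpace ℝ (Fin m)),
      ∀ (g : G) (n n' : N), (n' : G) = g * n * g⁻¹ → latV (τ n') = ρ g (latV (τ n)) := by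
  choose L hL using exists_linRep_single hτ hN hA
  let M : G →* (EuclideanSpace ℝ (Fin m) →ₗ[ℝ] EuclideanSpace ℝ (Fin m)) :=
    { toFun := L
      map_one' := by
        apply latV_ext hτ ⊤ (by simp)
        intro n _
        have h1 := hL 1 n n (by simp)
        rw [← h1]
        rfl
      map_mul' := by
        intro g h
        have hidx : (conjDom N h ⊓ conjDom N (g * h)).index ≠ 0 :=
          Subgroup.index_inf_ne_zero (conjDom_index hN h) (conjDom_index hN (g * h))
        apply latV_ext hτ _ hidx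
        rintro n ⟨hn1, hn2⟩
        have h1 := hL h n (conjVal h n hn1) rfl
        have h2 := hL (g * h) n (conjVal (g * h) n hn2) rfl
        have h3 := hL g (conjVal h n hn1) (conjVal (g * h) n hn2) (by
          simp only [conjVal_coe]; group)
        rw [← h2, h3, h1]
        rfl }
  refine ⟨(LinearMap.GeneralLinearGroup.generalLinearEquiv ℝ
    (EuclideanSpace ℝ (Fin m))).toMonoidHom.comp M.toHomUnits, ?_⟩
  intro g n n' h
  exact hL g n n' h

/-- COCYCLE.  For a representation as in `exists_linRep` there is a cocycle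
`c : G × G ⧸ N → ℝ^m` with `c(n,q) - τ(n)` taking finitely many values for each `q`. -/
theorem exists_cocycle {G : Type*} [Group G] (N : Subgroup G) {m : ℕ}
    (τ : N →* Multiplicative (Fin m → ℤ)) (hN : IsCommensurated N)
    (ρ : G →* (EuclideanSpace ℝ (Fin m) ≃ₗ[ℝ] EuclideanSpace ℝ (Fin m)))
    (hρ : ∀ (g : G) (n n' : N), (n' : G) = g * n * g⁻¹ → latV (τ n') = ρ g (latV (τ n)))
    (hρN : ∀ n : N, ρ (n : G) = 1) :
    ∃ c : G → G ⧸ N → EuclideanSpace ℝ (Fin m),
      (∀ g h q, c (g * h) q = ρ g (c h q) + c g (h • q)) ∧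
      ∀ q : G ⧸ N, (range fun n : N => c (n : G) q - latV (τ n)).Finite := by
  have hmem : ∀ (g : G) (q : G ⧸ N), (g • q).out⁻¹ * g * q.out ∈ N := by
    intro g q
    have h1 : (((g • q).out : G) : G ⧸ N) = ((g * q.out : G) : G ⧸ N) := by
      rw [QuotientGroup.out_eq']
      conv_lhs => rw [← QuotientGroup.out_eq' q]
      rfl
    have h2 := QuotientGroup.eq.mp h1
    rw [← mul_assoc] at h2
    exact h2
  let ν : G → G ⧸ N → N := fun g q => ⟨(g • q).out⁻¹ * g * q.out, hmem g q⟩
  have hν : ∀ g q, (ν g q : G) = (g • q).out⁻¹ * g * q.out := fun g q => rfl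
  let c : G → G ⧸ N → EuclideanSpace ℝ (Fin m) := fun g q => ρ (g • q).out (latV (τ (ν g q)))
  have hc : ∀ g q, c g q = ρ (g • q).out (latV (τ (ν g q))) := fun g q => rfl
  have hcoc : ∀ g h q, c (g * h) q = ρ g (c h q) + c g (h • q) := by
    intro g h q
    have h1 : ν (g * h) q = ν g (h • q) * ν h q := by
      apply Subtype.ext
      rw [Subgroup.coe_mul, hν, hν, hν, smul_smul]
      group
    have h2 : ((g * h) • q).out = g * (h • q).out * ((ν g (h • q) : N) : G)⁻¹ := by
      rw [hν, smul_smul]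
      group
    have h3 : ∀ v, ρ ((g * h) • q).out v = ρ g (ρ (h • q).out v) := by
      intro v
      have h4 : ρ (((ν g (h • q) : N) : G)⁻¹) = 1 := by
        have h5 : (((ν g (h • q) : N) : G)⁻¹) = (((ν g (h • q))⁻¹ : N) : G) := by simp
        rw [h5]
        exact hρN _
      rw [h2, map_mul, map_mul, h4, mul_one]
      rfl
    rw [hc, hc g (h • q), h1, map_mul, latV_mul, map_add, hc h q, smul_smul, add_comm]
    congr 1
    exact h3 _
  refine ⟨c, hcoc, ?_⟩
  intro q
  -- the stabilizer of `q` in `N`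
  let B : Subgroup N := (conjSub q.out N).subgroupOf N
  have hB : B.index ≠ 0 := (hN q.out).1
  have hstab : ∀ b : N, b ∈ B → ((b : G) • q = q ∧ c (b : G) q = latV (τ b)) := by
    intro b hb
    obtain ⟨x, hx, hxb⟩ := Subgroup.mem_subgroupOf.mp hb
    have h1 : q.out * x * q.out⁻¹ = (b : G) := hxb
    have h2 : (b : G) • q = q := by
      conv_lhs => rw [← QuotientGroup.out_eq' q]
      conv_rhs => rw [← QuotientGroup.out_eq' q]
      change (((b : G) * q.out : G) : G ⧸ N) = _
      apply Eq.symm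
      rw [QuotientGroup.eq, ← h1]
      have h3 : q.out⁻¹ * (q.out * x * q.out⁻¹ * q.out) = x := by group
      rw [h3]
      exact hx
    refine ⟨h2, ?_⟩
    rw [hc]
    have h4 : (ν (b : G) q : G) = x := by
      rw [hν, h2, ← h1]
      group
    rw [h2]
    symm
    apply hρ
    rw [h4, ← h1]
  have hconst : ∀ n n' : N, n⁻¹ * n' ∈ B →
      c (n : G) q - latV (τ n) = c (n' : G) q - latV (τ n') := by
    intro n n' h
    obtain ⟨h1, h2⟩ := hstab _ h
    have h3 : n' = n * (n⁻¹ * n') := by group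
    have h4 : c (n' : G) q = ρ (n : G) (c ((n⁻¹ * n' : N) : G) q) + c (n : G) q := by
      conv_lhs => rw [h3, Subgroup.coe_mul, hcoc, h1]
    have h5 : latV (τ n') = latV (τ n) + latV (τ (n⁻¹ * n')) := by
      conv_lhs => rw [h3, map_mul, latV_mul]
    rw [h4, h5, h2, hρN]
    change c (n : G) q - latV (τ n) =
      latV (τ (n⁻¹ * n')) + c (n : G) q - (latV (τ n) + latV (τ (n⁻¹ * n')))
    abel
  have hFI : B.FiniteIndex := ⟨hB⟩
  have hfinB : Finite (N ⧸ B) := Subgroup.finite_quotient_of_finiteIndex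
  let F : N ⧸ B → EuclideanSpace ℝ (Fin m) := fun p =>
    c (p.out : G) q - latV (τ p.out)
  have hsub : (range fun n : N => c (n : G) q - latV (τ n)) ⊆ range F := by
    rintro _ ⟨n, rfl⟩
    refine ⟨(n : N ⧸ B), ?_⟩
    apply hconst
    rw [← QuotientGroup.eq, QuotientGroup.out_eq']
  exact (Set.finite_range F).subset hsub

/-- `N` acts trivially on `ℝ^m`. -/
theorem linRep_of_mem {G : Type*} [Group G] (N : Subgroup G) {m : ℕ}
    (τ : N →* Multiplicative (Fin m → ℤ)) (hτ : Function.Surjective τ)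
    (ρ : G →* (EuclideanSpace ℝ (Fin m) ≃ₗ[ℝ] EuclideanSpace ℝ (Fin m)))
    (hρ : ∀ (g : G) (n n' : N), (n' : G) = g * n * g⁻¹ → latV (τ n') = ρ g (latV (τ n))) :
    ∀ n : N, ρ (n : G) = 1 := by
  intro b
  have h1 : (ρ (b : G)).toLinearMap = LinearMap.id := by
    apply latV_ext hτ ⊤ (by simp)
    intro n _
    have h2 := hρ (b : G) n (b * n * b⁻¹) (by simp)
    have h3 : τ (b * n * b⁻¹) = τ n := by
      rw [map_mul, map_mul, map_inv, mul_comm (τ b) (τ n), mul_inv_cancel_right]
    rw [h3] at h2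
    exact h2.symm
  ext v : 1
  exact DFunLike.congr_fun h1 v

end Pool.Agent.ZStr
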