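import Pool.Agent.ZStr.RelStep
import Pool.Agent.ZStr.CommPoly
import Pool.Agent.ZStr.RelCount

/-!
# Theorem IV (module RELMAIN)
-/

namespace Pool.Agent.ZStr

open Set Topology Filter
open scoped unitInterval Pointwise

/-- THEOREM IV: cocompact actions on EZ-geometries with virtually polycyclic coarse
stabilizers. -/
theorem ez_of_rel_virtually_polycyclic {G : Type*} [Group G] (N : Subgroup G)
    (hN : IsVirtuallyPolycyclic N) (h : HasRelEZ G N) : HasEZStructure G := by
  have hcN : Countable N := hN.countable
  have hcG : Countable G := h.countable hcN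
  refine HasRelEZ.hasEZ (comm_poly_induction (fun A => HasRelEZ G A)
    (fun A B hAB hA => hA.of_commensurable hAB)
    (fun N m τ hτ _ hA hP => rel_step N τ hτ hA hP) N hN h.isCommensurated h)

end Pool.Agent.ZStr
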