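import Pool.Agent.ZStr.RelLin

/-!
# Equivariant partitions of unity and the translation part (module RELACT, part 1)
-/

namespace Pool.Agent.ZStr

open Set Topology Filter
open scoped unitInterval Pointwise

/-- PARTITION OF UNITY indexed by `G ⧸ N`, equivariant, on a space with coarse stabilizers
commensurable to `N`. -/
theorem exists_relPou {G : Type*} [Group G] (N : Subgroup G) (Y : Type) [MetricSpace Y]
    [ProperSpace Y] [MulAction G Y] [IsIsometricSMul G Y] (hc : CocompactlyActs G Y) (y0 : Y)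
    (hst : CoarseStabilizer G Y N y0) :
    ∃ χ : G ⧸ N → Y → ℝ, (∀ q, Continuous (χ q)) ∧
      LocallyFinite (fun q => Function.support (χ q)) ∧
      (∀ r : ℝ, {q | ∃ y, dist y y0 ≤ r ∧ χ q y ≠ 0}.Finite) ∧
      (∀ y, ∑ᶠ q, χ q y = 1) ∧ ∀ (g : G) (q : G ⧸ N) (y : Y), χ (g • q) (g • y) = χ q y := by
  classical
  obtain ⟨⟨C, hC⟩, hfin⟩ := hst
  obtain ⟨K, hK, hcov⟩ := hc
  obtain ⟨R, hR⟩ := hK.isBounded.subset_closedBall y0
  -- the orbit of `N`
  let O : Set Y := {y | ∃ a ∈ N, y = a • y0}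
  have hO : O.Nonempty := ⟨y0, 1, N.one_mem, by simp⟩
  let θ : Y → ℝ := fun y => max 0 (R + 1 - Metric.infDist y O)
  have hθc : Continuous θ := continuous_const.max
    (continuous_const.sub (Metric.continuous_infDist_pt O))
  have hθinv : ∀ a ∈ N, ∀ y, θ (a • y) = θ y := by
    have h1 : ∀ a ∈ N, ∀ y, Metric.infDist (a • y) O ≤ Metric.infDist y O := by
      intro a ha y
      rw [Metric.le_infDist hO]
      rintro z ⟨b, hb, rfl⟩
      have h2 : Metric.infDist (a • y) O ≤ dist (a • y) ((a * b) • y0) :=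
        Metric.infDist_le_dist_of_mem ⟨a * b, N.mul_mem ha hb, rfl⟩
      rwa [mul_smul, dist_smul] at h2
    intro a ha y
    have h2 := h1 a ha y
    have h3 := h1 a⁻¹ (N.inv_mem ha) (a • y)
    rw [inv_smul_smul] at h3
    simp only [θ]
    rw [le_antisymm h2 h3]
  have hθ0 : ∀ y, 0 ≤ θ y := fun y => le_max_left _ _
  have hθpos : ∀ y, θ y ≠ 0 → dist y y0 ≤ R + 1 + C := by
    intro y hy
    have h1 : Metric.infDist y O < R + 1 := by
      by_contra hlt
      push Not at hlt
      apply hy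
      exact max_eq_left (by linarith)
    obtain ⟨z, ⟨a, ha, rfl⟩, hz⟩ := (Metric.infDist_lt_iff hO).1 h1
    have h2 := dist_triangle y (a • y0) y0
    have h3 := hC a ha
    linarith
  have hθnear : ∀ y, dist y y0 ≤ R → 0 < θ y := by
    intro y hy
    have h1 : Metric.infDist y O ≤ dist y y0 :=
      Metric.infDist_le_dist_of_mem ⟨1, N.one_mem, by simp⟩
    exact lt_max_of_lt_right (by linarith)
  -- the functions before normalisation
  let ξ : G ⧸ N → Y → ℝ := fun q y => θ (q.out⁻¹ • y)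
  have hξc : ∀ q, Continuous (ξ q) := fun q => hθc.comp (continuous_const_smul _)
  have hξ : ∀ (g : G) (y : Y), ξ (g : G ⧸ N) y = θ (g⁻¹ • y) := by
    intro g y
    have h1 : ((g : G ⧸ N).out)⁻¹ * g ∈ N := by
      rw [← QuotientGroup.eq]
      exact QuotientGroup.out_eq' _
    have h2 : ((g : G ⧸ N).out)⁻¹ • y = (((g : G ⧸ N).out)⁻¹ * g) • g⁻¹ • y := by
      rw [smul_smul]
      congr 1
      group
    simp only [ξ]
    rw [h2, hθinv _ h1]
  have hξeq : ∀ (g : G) (q : G ⧸ N) (y : Y), ξ (g • q) (g • y) = ξ q y := by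
    intro g q y
    induction q using QuotientGroup.induction_on with
    | H h =>
      have h1 : g • (h : G ⧸ N) = ((g * h : G) : G ⧸ N) := rfl
      rw [h1, hξ, hξ, mul_inv_rev, mul_smul, inv_smul_smul]
  have hξfin : ∀ r : ℝ, {q | ∃ y, dist y y0 ≤ r ∧ ξ q y ≠ 0}.Finite := by
    intro r
    obtain ⟨F, hF⟩ := hfin (R + 1 + C + r)
    refine (F.finite_toSet.image (fun g : G => (g : G ⧸ N))).subset ?_
    rintro q ⟨y, hy, hq⟩
    have h1 := hθpos _ hq
    have h2 : dist (q.out • y0) y0 ≤ R + 1 + C + r := by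
      have h3 : dist (q.out⁻¹ • y) y0 = dist y (q.out • y0) := by
        rw [← dist_smul q.out (q.out⁻¹ • y) y0, smul_inv_smul]
      have h4 := dist_triangle_left (q.out • y0) y0 y
      rw [h3] at h1
      linarith
    obtain ⟨f, hf, hfN⟩ := hF _ h2
    refine ⟨f, hf, ?_⟩
    have h5 : (f : G ⧸ N) = (q.out : G ⧸ N) := QuotientGroup.eq.2 hfN
    change (f : G ⧸ N) = q
    rw [h5]
    exact QuotientGroup.out_eq' q
  have hξlf : LocallyFinite (fun q => Function.support (ξ q)) := by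
    intro y
    refine ⟨Metric.ball y 1, Metric.ball_mem_nhds y one_pos, (hξfin (1 + dist y y0)).subset ?_⟩
    rintro q ⟨z, hz1, hz2⟩
    refine ⟨z, ?_, hz1⟩
    have h1 : dist z y < 1 := hz2
    have h2 := dist_triangle z y y0
    linarith
  have hsfin : ∀ y, (Function.support fun q => ξ q y).Finite := by
    intro y
    exact (hξfin (dist y y0)).subset fun q hq => ⟨y, le_rfl, hq⟩
  have hspos : ∀ y, 0 < ∑ᶠ q, ξ q y := by
    intro y
    obtain ⟨g, k, hk, hy⟩ := hcov y
    have h1 : 0 < ξ (g : G ⧸ N) y := by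
      rw [hξ]
      apply hθnear
      have h2 : g⁻¹ • y = k := by
        rw [← hy]
        exact inv_smul_smul g k
      rw [h2]
      exact hR hk
    exact h1.trans_le (single_le_finsum (f := fun q => ξ q y) _ (hsfin y) fun q => hθ0 _)
  have hsc : Continuous fun y => ∑ᶠ q, ξ q y := continuous_finsum hξc hξlf
  have hseq : ∀ (g : G) (y : Y), ∑ᶠ q, ξ q (g • y) = ∑ᶠ q, ξ q y := by
    intro g y
    rw [← finsum_comp_equiv (MulAction.toPerm g : Equiv.Perm (G ⧸ N))
      (f := fun q => ξ q (g • y))]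
    apply finsum_congr
    intro q
    exact hξeq g q y
  refine ⟨fun q y => ξ q y / ∑ᶠ q', ξ q' y, ?_, ?_, ?_, ?_, ?_⟩
  · intro q
    exact (hξc q).div hsc fun y => (hspos y).ne'
  · refine hξlf.subset fun q y hy => ?_
    intro h0
    apply hy
    simp only [h0, zero_div]
  · intro r
    refine (hξfin r).subset ?_
    rintro q ⟨y, hy, hq⟩
    refine ⟨y, hy, fun h0 => hq ?_⟩
    change ξ q y / _ = 0
    rw [h0, zero_div]
  · intro y
    have h1 : ∀ q, ξ q y / ∑ᶠ q', ξ q' y = ξ q y * (∑ᶠ q', ξ q' y)⁻¹ := fun q =>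
      div_eq_mul_inv _ _
    rw [finsum_congr h1, ← finsum_mul]
    · exact mul_inv_cancel₀ (hspos y).ne'
  · intro g q y
    change ξ (g • q) (g • y) / ∑ᶠ q', ξ q' (g • y) = ξ q y / ∑ᶠ q', ξ q' y
    rw [hξeq, hseq]

/-- THE TRANSLATION PART of the affine action, from a cocycle and a partition of unity. -/
theorem exists_translation {G : Type*} [Group G] (N : Subgroup G) {m : ℕ}
    (τ : N →* Multiplicative (Fin m → ℤ)) (hN : IsCommensurated N)
    (ρ : G →* (EuclideanSpace ℝ (Fin m) ≃ₗ[ℝ] EuclideanSpace ℝ (Fin m)))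
    (hρ : ∀ (g : G) (n n' : N), (n' : G) = g * n * g⁻¹ → latV (τ n') = ρ g (latV (τ n)))
    (hρN : ∀ n : N, ρ (n : G) = 1)
    (Y : Type) [MetricSpace Y] [ProperSpace Y] [MulAction G Y] [IsIsometricSMul G Y]
    (hc : CocompactlyActs G Y) (y0 : Y) (hst : CoarseStabilizer G Y N y0) :
    ∃ f : G → Y → EuclideanSpace ℝ (Fin m), (∀ g, Continuous (f g)) ∧
      (∀ g h y, f (g * h) y = ρ g (f h y) + f g (h • y)) ∧
      ∀ r : ℝ, ∃ F : Set (Y → EuclideanSpace ℝ (Fin m)), F.Finite ∧ (∀ φ ∈ F, Continuous φ) ∧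
        ∀ n : N, ∃ φ ∈ F, ∀ y, dist y y0 ≤ r → f (n : G) y = latV (τ n) + φ y := by
  classical
  obtain ⟨c, hcc, hcfin⟩ := exists_cocycle N τ hN ρ hρ hρN
  obtain ⟨χ, hχc, hχlf, hχfin, hχ1, hχeq⟩ := exists_relPou N Y hc y0 hst
  have hsfin : ∀ y, (Function.support fun q => χ q y).Finite := fun y =>
    (hχfin (dist y y0)).subset fun q hq => ⟨y, le_rfl, hq⟩
  have hsfin' : ∀ (y : Y) (v : G ⧸ N → EuclideanSpace ℝ (Fin m)),
      (Function.support fun q => χ q y • v q).Finite := fun y v =>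
    (hsfin y).subset fun q hq h0 => hq (by
      have h0' : χ q y = 0 := h0
      change χ q y • v q = 0
      rw [h0', zero_smul])
  refine ⟨fun g y => ∑ᶠ q, χ q y • c g q, ?_, ?_, ?_⟩
  · intro g
    refine continuous_finsum (fun q => (hχc q).smul continuous_const) ?_
    refine hχlf.subset fun q y hy h0 => hy ?_
    change χ q y • c g q = 0
    rw [h0, zero_smul]
  · intro g h y
    have h1 : ∑ᶠ q, χ q (h • y) • c g q = ∑ᶠ q, χ q y • c g (h • q) := by
      rw [← finsum_comp_equiv (MulAction.toPerm h : Equiv.Perm (G ⧸ N))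
        (f := fun q => χ q (h • y) • c g q)]
      apply finsum_congr
      intro q
      change χ (h • q) (h • y) • c g (h • q) = _
      rw [hχeq]
    have h2 : ρ g (∑ᶠ q, χ q y • c h q) = ∑ᶠ q, χ q y • ρ g (c h q) := by
      have h3 := (ρ g).toLinearMap.toAddMonoidHom.map_finsum (hsfin' y fun q => c h q)
      refine h3.trans (finsum_congr fun q => ?_)
      exact (ρ g).map_smul _ _
    change ∑ᶠ q, χ q y • c (g * h) q = ρ g (∑ᶠ q, χ q y • c h q) + ∑ᶠ q, χ q (h • y) • c g q
    rw [h1, h2, ← finsum_add_distrib (hsfin' y _) (hsfin' y _)]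
    apply finsum_congr
    intro q
    rw [hcc, smul_add]
  · intro r
    let Q : Finset (G ⧸ N) := (hχfin r).toFinset
    let Φ : (Q → EuclideanSpace ℝ (Fin m)) → Y → EuclideanSpace ℝ (Fin m) :=
      fun w y => ∑ q : Q, χ q y • w q
    refine ⟨Φ '' (Set.pi univ fun q : Q => range fun n : N => c (n : G) q - latV (τ n)),
      (Set.Finite.pi fun q : Q => hcfin q).image Φ, ?_, ?_⟩
    · rintro _ ⟨w, -, rfl⟩
      exact continuous_finsetSum _ fun q _ => (hχc q).smul continuous_const
    · intro n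
      refine ⟨Φ fun q => c (n : G) q - latV (τ n), ⟨_, fun q _ => ⟨n, rfl⟩, rfl⟩, ?_⟩
      intro y hy
      have h1 : (Function.support fun q => χ q y) ⊆ Q := by
        intro q hq
        rw [Finite.coe_toFinset]
        exact ⟨y, hy, hq⟩
      have h2 : ∀ v : G ⧸ N → EuclideanSpace ℝ (Fin m),
          ∑ᶠ q, χ q y • v q = ∑ q ∈ Q, χ q y • v q := fun v =>
        finsum_eq_sum_of_support_subset _ fun q hq => h1 fun h0 => hq (by
          have h0' : χ q y = 0 := h0
          change χ q y • v q = 0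
          rw [h0', zero_smul])
      have h3 : ∑ q ∈ Q, χ q y = 1 := by
        rw [← hχ1 y]
        exact (finsum_eq_sum_of_support_subset _ h1).symm
      change ∑ᶠ q, χ q y • c n q = latV (τ n) + ∑ q : Q, χ q y • (c n q - latV (τ n))
      rw [h2, Finset.sum_coe_sort Q (fun q => χ q y • (c n q - latV (τ n)))]
      simp only [smul_sub, Finset.sum_sub_distrib]
      rw [← Finset.sum_smul, h3, one_smul]
      abel

end Pool.Agent.ZStr
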