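import Pool.Agent.ZStr.RelAct
import Pool.Agent.ZStr.MetricEq
import Pool.Agent.ZStr.RelCore

/-!
# The relative step (module RELSTEP)
-/

namespace Pool.Agent.ZStr

open Set Topology Filter
open scoped unitInterval Pointwise

/-- The affine action attached to `ρ` and `f`. -/
def affAct {G : Type*} [Group G] {V Y : Type} [AddCommGroup V] [Module ℝ V] [MulAction G Y]
    (ρ : G →* (V ≃ₗ[ℝ] V)) (f : G → Y → V)
    (hcoc : ∀ g h y, f (g * h) y = ρ g (f h y) + f g (h • y)) (h1 : ∀ y, f 1 y = 0) :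
    MulAction G (V × Y) where
  smul g p := (ρ g p.1 + f g p.2, g • p.2)
  one_smul p := by
    refine Prod.ext ?_ (one_smul G p.2)
    show ρ 1 p.1 + f 1 p.2 = p.1
    rw [h1, map_one, add_zero]
    rfl
  mul_smul g h p := by
    refine Prod.ext ?_ (mul_smul g h p.2)
    show ρ (g * h) p.1 + f (g * h) p.2 = ρ g (ρ h p.1 + f h p.2) + f g (h • p.2)
    rw [hcoc, map_mul, map_add, add_assoc]
    rfl

/-- The space of the step: a proper metric space `E` with a cocompact isometric action,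
homeomorphic to `ℝ^m × Y` in such a way that the action becomes the affine one. -/
theorem exists_stepSpace {G : Type*} [Group G] (N : Subgroup G) {m : ℕ}
    (τ : N →* Multiplicative (Fin m → ℤ)) (hτ : Function.Surjective τ)
    (hN : IsCommensurated N) (hA : IsCommensurated (kerSub τ))
    (Y : Type) [MetricSpace Y] [ProperSpace Y] [ConnectedSpace Y] [MulAction G Y]
    [IsIsometricSMul G Y]
    (hc : CocompactlyActs G Y) (y0 : Y) (hst : CoarseStabilizer G Y N y0) :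
    ∃ (ρ : G →* (EuclideanSpace ℝ (Fin m) ≃ₗ[ℝ] EuclideanSpace ℝ (Fin m)))
      (f : G → Y → EuclideanSpace ℝ (Fin m))
      (E : Type) (_ : MetricSpace E) (_ : MulAction G E)
      (φ : E ≃ₜ EuclideanSpace ℝ (Fin m) × Y),
      (∀ g, Continuous (f g)) ∧ ProperSpace E ∧ IsIsometricSMul G E ∧ CocompactlyActs G E ∧
      (∀ (g : G) (e : E), φ (g • e) = (ρ g (φ e).1 + f g (φ e).2, g • (φ e).2)) ∧
      CoarseStabilizer G E (kerSub τ) (φ.symm (0, y0)) ∧
      -- control: bounded distance in `E` implies `Near` in `ℝ^m × Y`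
      ∀ R : ℝ, ∃ (s : ℝ) (c : ℝ → ℝ), Monotone c ∧ ∀ e e' : E, dist e e' ≤ R →
        Near y0 s c (φ e) (φ e') := by
  obtain ⟨ρ, f, hfc, hcoc, hf1, ⟨r0, hcov⟩, hequi, hdiff, ⟨C, hC⟩, hcs⟩ :=
    exists_affineAction N τ hτ hN hA Y hc y0 hst
  letI act : MulAction G (EuclideanSpace ℝ (Fin m) × Y) := affAct ρ f hcoc hf1
  have hsmul : ∀ (g : G) (p : EuclideanSpace ℝ (Fin m) × Y),
      g • p = (ρ g p.1 + f g p.2, g • p.2) := fun g p => rfl
  -- bounds
  have hY1 : ∀ (g : G) (y : Y), dist (g • y0) y0 ≤ dist y y0 + dist (g • y) y0 := by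
    intro g y
    have h1 := dist_triangle (g • y0) (g • y) y0
    rw [dist_smul, dist_comm y0 y] at h1
    exact h1
  have hbdd : ∀ K : Set (EuclideanSpace ℝ (Fin m) × Y), IsCompact K → ∃ R : ℝ, ∀ p ∈ K,
      ‖p.1‖ ≤ R ∧ dist p.2 y0 ≤ R := by
    intro K hK
    obtain ⟨R, hR⟩ := hK.isBounded.subset_closedBall ((0 : EuclideanSpace ℝ (Fin m)), y0)
    refine ⟨R, fun p hp => ?_⟩
    have h1 := hR hp
    rw [Metric.mem_closedBall, Prod.dist_eq, max_le_iff] at h1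
    exact ⟨by simpa [dist_zero_right] using h1.1, h1.2⟩
  have hcpt : ∀ R : ℝ, IsCompact {p : EuclideanSpace ℝ (Fin m) × Y | ‖p.1‖ ≤ R ∧
      dist p.2 y0 ≤ R} := by
    intro R
    have h1 : {p : EuclideanSpace ℝ (Fin m) × Y | ‖p.1‖ ≤ R ∧ dist p.2 y0 ≤ R} =
        Metric.closedBall (0 : EuclideanSpace ℝ (Fin m)) R ×ˢ Metric.closedBall y0 R := by
      ext p
      simp [dist_zero_right]
    rw [h1]
    exact (isCompact_closedBall _ _).prod (isCompact_closedBall _ _)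
  have hrel : ∀ K : Set (EuclideanSpace ℝ (Fin m) × Y), IsCompact K →
      ∃ L : Set (EuclideanSpace ℝ (Fin m) × Y), IsCompact L ∧
        ∀ g : G, ((g • K) ∩ K).Nonempty → g • K ⊆ L := by
    intro K hK
    obtain ⟨R, hR⟩ := hbdd K hK
    obtain ⟨c, hcm, hc0, hcd⟩ := hdiff R
    refine ⟨_, hcpt (R + c (R + R) + (R + R)), ?_⟩
    rintro g ⟨_, ⟨k, hk, rfl⟩, hk'⟩ _ ⟨k1, hk1, rfl⟩
    have b1 := hR k hk
    have b2 := hR _ hk'
    have b3 := hR k1 hk1
    have h1 : dist (g • y0) y0 ≤ R + R := by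
      have h2 := hY1 g k.2
      have h3 : dist (g • k.2) y0 ≤ R := b2.2
      linarith [b1.2]
    have hR0 : 0 ≤ R := dist_nonneg.trans b1.2
    have h2 : dist (ρ g k1.1 + f g k1.2) (ρ g k.1 + f g k.2) ≤ c (R + R) :=
      (hcd g _ _ _ _ b3.1 b1.1 b3.2 b1.2).trans (hcm h1)
    have h3 : ‖ρ g k.1 + f g k.2‖ ≤ R := b2.1
    constructor
    · show ‖ρ g k1.1 + f g k1.2‖ ≤ _
      have h4 := norm_le_norm_add_norm_sub' (ρ g k1.1 + f g k1.2) (ρ g k.1 + f g k.2)
      rw [← dist_eq_norm] at h4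
      linarith
    · show dist (g • k1.2) y0 ≤ _
      have h4 := dist_triangle (g • k1.2) (g • y0) y0
      rw [dist_smul] at h4
      have h5 := hc0 (R + R)
      linarith [b3.2]
  have hequi' : ∀ K : Set (EuclideanSpace ℝ (Fin m) × Y), IsCompact K → ∀ x ∈ K, ∀ ε : ℝ,
      0 < ε → ∃ δ : ℝ, 0 < δ ∧ ∀ g : G, ((g • K) ∩ K).Nonempty → ∀ y, dist x y < δ →
        dist (g • x) (g • y) < ε := by
    intro K hK x hx ε hε
    obtain ⟨R, hR⟩ := hbdd K hK
    obtain ⟨δ, hδ, h⟩ := hequi (R + R) x.1 x.2 ε hε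
    refine ⟨min δ ε, lt_min hδ hε, ?_⟩
    rintro g ⟨_, ⟨k, hk, rfl⟩, hk'⟩ y hxy
    have b1 := hR k hk
    have b2 := hR _ hk'
    have h1 : dist (g • y0) y0 ≤ R + R := by
      have h2 := hY1 g k.2
      have h3 : dist (g • k.2) y0 ≤ R := b2.2
      linarith [b1.2]
    rw [Prod.dist_eq, max_lt_iff] at hxy
    rw [hsmul, hsmul, Prod.dist_eq, max_lt_iff]
    refine ⟨h g h1 _ _ (hxy.1.trans_le (min_le_left _ _)) (hxy.2.trans_le (min_le_left _ _)), ?_⟩
    show dist (g • x.2) (g • y.2) < ε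
    rw [dist_smul]
    exact hxy.2.trans_le (min_le_right _ _)
  haveI : ContinuousConstSMul G (EuclideanSpace ℝ (Fin m) × Y) := by
    refine ⟨fun g => ?_⟩
    have h1 : Continuous (ρ g : EuclideanSpace ℝ (Fin m) → EuclideanSpace ℝ (Fin m)) :=
      (ρ g).toLinearMap.continuous_of_finiteDimensional
    show Continuous fun p : EuclideanSpace ℝ (Fin m) × Y => (ρ g p.1 + f g p.2, g • p.2)
    exact ((h1.comp continuous_fst).add ((hfc g).comp continuous_snd)).prodMk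
      ((continuous_const_smul g).comp continuous_snd)
  have hcov' : ∀ p : EuclideanSpace ℝ (Fin m) × Y, ∃ g : G, ∃ k : EuclideanSpace ℝ (Fin m) × Y,
      (‖k.1‖ ≤ r0 ∧ dist k.2 y0 ≤ r0) ∧ g • k = p := by
    intro p
    obtain ⟨g, v', y', h1, h2, h3, h4⟩ := hcov p.1 p.2
    exact ⟨g, (v', y'), ⟨h1, h2⟩, Prod.ext h3 h4⟩
  have hcc : CocompactlyActs G (EuclideanSpace ℝ (Fin m) × Y) := by
    refine ⟨_, hcpt r0, fun p => ?_⟩
    obtain ⟨g, k, hk, rfl⟩ := hcov' p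
    exact ⟨g, k, hk, rfl⟩
  obtain ⟨E, mE, aE, φ, hpE, hisoE, hφ⟩ :=
    exists_equi_metric (EuclideanSpace ℝ (Fin m) × Y) hcc hrel hequi'
  have hφs : ∀ (g : G) (p : EuclideanSpace ℝ (Fin m) × Y), g • φ.symm p = φ.symm (g • p) := by
    intro g p
    apply φ.injective
    rw [hφ, φ.apply_symm_apply, φ.apply_symm_apply]
  refine ⟨ρ, f, E, mE, aE, φ, hfc, hpE, hisoE, ?_, fun g e => hφ g e, ⟨?_, ?_⟩, ?_⟩
  · refine ⟨φ.symm '' _, (hcpt r0).image φ.symm.continuous, fun e => ?_⟩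
    obtain ⟨g, k, hk, h1⟩ := hcov' (φ e)
    refine ⟨g, φ.symm k, ⟨k, hk, rfl⟩, ?_⟩
    show g • φ.symm k = e
    rw [hφs, h1, φ.symm_apply_apply]
  · -- the kernel has bounded orbits
    obtain ⟨C', hC'⟩ := hst.1
    have h1 : IsCompact (φ.symm '' {p : EuclideanSpace ℝ (Fin m) × Y |
        ‖p.1‖ ≤ max C C' ∧ dist p.2 y0 ≤ max C C'}) := (hcpt _).image φ.symm.continuous
    obtain ⟨R, hR⟩ := h1.isBounded.subset_closedBall (φ.symm (0, y0))
    refine ⟨R, fun a ha => ?_⟩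
    apply hR
    refine ⟨a • ((0 : EuclideanSpace ℝ (Fin m)), y0), ⟨?_, ?_⟩, (hφs a _).symm⟩
    · show ‖ρ a 0 + f a y0‖ ≤ _
      rw [map_zero, zero_add]
      exact (hC a ha).trans (le_max_left _ _)
    · have haN : a ∈ N := by
        obtain ⟨n, -, rfl⟩ := ha
        exact n.2
      exact (hC' a haN).trans (le_max_right _ _)
  · -- coarse stabilizers
    intro r
    have h1 : IsCompact (φ '' Metric.closedBall (φ.symm (0, y0)) r) :=
      (isCompact_closedBall _ _).image φ.continuous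
    obtain ⟨R, hR⟩ := hbdd _ h1
    obtain ⟨F, hF⟩ := hcs R
    refine ⟨F, fun g hg => ?_⟩
    have h2 := hR (φ (g • φ.symm (0, y0))) ⟨_, hg, rfl⟩
    rw [hφ, φ.apply_symm_apply] at h2
    have h3 : ‖ρ g 0 + f g y0‖ ≤ R := h2.1
    rw [map_zero, zero_add] at h3
    exact hF g h3 h2.2
  · -- control
    intro R
    have h1 : IsCompact (φ '' Metric.cthickening R (φ.symm ''
        {p : EuclideanSpace ℝ (Fin m) × Y | ‖p.1‖ ≤ r0 ∧ dist p.2 y0 ≤ r0})) := by
      refine IsCompact.image ?_ φ.continuous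
      exact Metric.isCompact_of_isClosed_isBounded Metric.isClosed_cthickening
        ((hcpt r0).image φ.symm.continuous).isBounded.cthickening
    obtain ⟨R', hR'⟩ := hbdd _ h1
    obtain ⟨c, hcm, hc0, hcd⟩ := hdiff (max r0 R')
    refine ⟨2 * max r0 R', fun t => c (t + max r0 R'), fun a b hab => hcm (by linarith), ?_⟩
    intro e e' hee'
    obtain ⟨g, k, hk, h2⟩ := hcov' (φ e)
    have he : e = g • φ.symm k := by rw [hφs, h2, φ.symm_apply_apply]
    obtain ⟨e1, rfl⟩ : ∃ e1, e' = g • e1 := ⟨g⁻¹ • e', by rw [smul_inv_smul]⟩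
    rw [he, dist_smul] at hee'
    have h3 : φ e1 ∈ φ '' Metric.cthickening R (φ.symm ''
        {p : EuclideanSpace ℝ (Fin m) × Y | ‖p.1‖ ≤ r0 ∧ dist p.2 y0 ≤ r0}) := by
      refine ⟨e1, ?_, rfl⟩
      refine Metric.mem_cthickening_of_dist_le e1 (φ.symm k) R _ ⟨k, hk, rfl⟩ ?_
      rw [dist_comm]
      exact hee'
    have b1 := hR' _ h3
    have b2 : ‖k.1‖ ≤ max r0 R' := hk.1.trans (le_max_left _ _)
    have b3 : dist k.2 y0 ≤ max r0 R' := hk.2.trans (le_max_left _ _)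
    have b4 : ‖(φ e1).1‖ ≤ max r0 R' := b1.1.trans (le_max_right _ _)
    have b5 : dist (φ e1).2 y0 ≤ max r0 R' := b1.2.trans (le_max_right _ _)
    rw [← h2, hφ, hsmul, hsmul]
    constructor
    · show dist (g • k.2) (g • (φ e1).2) ≤ _
      rw [dist_smul]
      have h4 := dist_triangle_right k.2 (φ e1).2 y0
      linarith
    · show dist (ρ g k.1 + f g k.2) (ρ g (φ e1).1 + f g (φ e1).2) ≤
        c (dist (g • k.2) y0 + max r0 R')
      refine (hcd g _ _ _ _ b2 b4 b3 b5).trans (hcm ?_)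
      have h5 := hY1 g k.2
      linarith

/-- THE RELATIVE STEP. -/
theorem rel_step {G : Type*} [Group G] [Countable G] (N : Subgroup G) {m : ℕ}
    (τ : N →* Multiplicative (Fin m → ℤ)) (hτ : Function.Surjective τ)
    (hA : IsCommensurated (kerSub τ)) (h : HasRelEZ G N) : HasRelEZ G (kerSub τ) := by
  have hN : IsCommensurated N := h.isCommensurated
  obtain ⟨Y, mY, aY, Yb, tYb, iY, y0, hY, hiso, hcoc, hst, hext⟩ := h
  have : ProperSpace Y := hY.1.1
  have : ContractibleSpace Y := hY.1.2.1.1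
  obtain ⟨ρ, f, E, mE, aE, φ, hf, hpE, hisoE, hcE, hact, hstE, hnear⟩ :=
    exists_stepSpace N τ hτ hN hA Y hcoc y0 hst
  exact rel_core (kerSub τ) Y Yb iY hY hext y0 (fun g => ρ g) f E φ hf hcE hact hstE hnear

end Pool.Agent.ZStr
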