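import Pool.Agent.ZStr.Maps

/-!
# The slab contraction (module SLAB)
-/

namespace Pool.Agent.ZStr

open Set Topology Filter
open scoped unitInterval

/-- Concatenation of two homotopies. -/
theorem exists_concat {P M : Type*} [TopologicalSpace P] [TopologicalSpace M]
    (H1 H2 : P × I → M) (h1 : Continuous H1) (h2 : Continuous H2)
    (h : ∀ p, H1 (p, 1) = H2 (p, 0)) :
    ∃ H : P × I → M, Continuous H ∧ (∀ p, H (p, 0) = H1 (p, 0)) ∧
      (∀ p, H (p, 1) = H2 (p, 1)) ∧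
      ∀ p s, (∃ s', H (p, s) = H1 (p, s')) ∨ (∃ s', H (p, s) = H2 (p, s')) := by
  let pr : ℝ → I := Set.projIcc 0 1 zero_le_one
  have hpr : Continuous pr := continuous_projIcc
  have hpr0 : pr 0 = 0 := Set.projIcc_left zero_le_one
  have hpr1 : pr 1 = 1 := Set.projIcc_right zero_le_one
  refine ⟨fun q => if (q.2 : ℝ) ≤ 1 / 2 then H1 (q.1, pr (2 * q.2)) else
    H2 (q.1, pr (2 * q.2 - 1)), ?_, ?_, ?_, ?_⟩
  · refine Continuous.if_le ?_ ?_ ?_ continuous_const ?_
    · fun_prop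
    · fun_prop
    · fun_prop
    · intro q hq
      have e1 : (2 : ℝ) * q.2 = 1 := by rw [hq]; norm_num
      rw [e1, hpr1, sub_self, hpr0, h]
  · intro p
    have e1 : ((0 : I) : ℝ) ≤ 1 / 2 := by simp
    simp only [if_pos e1]
    rw [Set.Icc.coe_zero, mul_zero, hpr0]
  · intro p
    have e1 : ¬ ((1 : I) : ℝ) ≤ 1 / 2 := by
      rw [Set.Icc.coe_one]
      norm_num
    simp only [if_neg e1]
    have e2 : (2 : ℝ) * ((1 : I) : ℝ) - 1 = 1 := by
      rw [Set.Icc.coe_one]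
      norm_num
    rw [e2, hpr1]
  · intro p s
    by_cases hs : (s : ℝ) ≤ 1 / 2
    · left
      exact ⟨pr (2 * s), if_pos hs⟩
    · right
      exact ⟨pr (2 * s - 1), if_neg hs⟩

namespace Setup

variable {G : Type*} [Group G] {N : Subgroup G} {E X Y : Type}
    [MetricSpace E] [MetricSpace X] [MetricSpace Y]
    [MulAction G E] [MulAction N X] [MulAction G Y] (S : Setup G N E X Y)

/-- A uniform version of the control of `φY`: the bound is one monotone function. -/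
theorem phiY_bound (φY : E → Y)
    (hφYc : ∀ R : ℝ, ∃ C : ℝ, 0 ≤ C ∧ ∀ (e : E) (g : G), dist e (g • S.e0) ≤ R →
      dist (φY e) (g • S.y0) ≤ C) :
    ∃ c : ℝ → ℝ, Monotone c ∧ (∀ t, 0 ≤ c t) ∧ ∀ (e : E) (g : G),
      dist (φY e) (g • S.y0) ≤ c (dist e (g • S.e0)) := by
  obtain ⟨c, hc, hc0, hcb⟩ := exists_monotone_bound
    (fun a : E × G => dist a.1 (a.2 • S.e0)) (fun a : E × G => dist (φY a.1) (a.2 • S.y0)) (by
      intro r
      obtain ⟨C, -, hC⟩ := hφYc r
      exact ⟨C, fun a ha => hC a.1 a.2 ha⟩)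
  exact ⟨c, hc, hc0, fun e g => hcb (e, g)⟩

/-- Homotopy from the identity to `jX ∘ φX` with tracks of length bounded by a function of
`|g y0|`, `g e0` near the starting point. -/
theorem exists_retract_homotopy (φX : E → X) (hφX : Continuous φX)
    (hφXc : ∀ R : ℝ, ∃ c : ℝ → ℝ, Monotone c ∧ (∀ t, 0 ≤ c t) ∧ ∀ (e : E) (g : G),
      dist e (g • S.e0) ≤ R →
      dist (φX e) (S.p g • S.x0) ≤ c (dist (g • S.y0) S.y0))
    (jX : X → E) (hjX : Continuous jX) (cj : ℝ → ℝ) (hcj : Monotone cj) (hcj0 : ∀ t, 0 ≤ cj t)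
    (hjc : ∀ (x : X) (n : N), dist (jX x) ((n : G) • S.e0) ≤ cj (dist x (n • S.x0))) :
    ∃ H : E × I → E, Continuous H ∧ (∀ e, H (e, 0) = e) ∧ (∀ e, H (e, 1) = jX (φX e)) ∧
      ∃ (r : ℝ) (R : ℝ → ℝ), Monotone R ∧ (∀ t, 0 ≤ R t) ∧
        ∀ e : E, ∃ g : G, dist e (g • S.e0) ≤ r ∧
          ∀ s, dist (H (e, s)) (g • S.e0) ≤ R (dist (g • S.y0) S.y0) := by
  have := S.isoE
  have := S.properE
  have := S.contrE
  have := S.countable_group
  have : Nonempty E := ⟨S.e0⟩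
  obtain ⟨K, hK, hK0, hK1⟩ := exists_contraction E S.e0
  obtain ⟨RK, hRKm, hRK0, hRK⟩ := bound_of_continuous S.e0 (fun q => dist (K q) S.e0)
    (hK.dist continuous_const)
  obtain ⟨r, n, τ, -, hr, hτc, hτ01, hlf, hmult, hcov, hτ⟩ := S.cutoffE 0
  obtain ⟨D, hD0, hD⟩ := S.dist_y0_of_dist_e0 (4 * r)
  obtain ⟨c1, hc1m, hc10, hc1⟩ := hφXc (2 * r)
  obtain ⟨c2, hc2m, hc20, hc2⟩ := S.p_e0_bound
  have hadj : ∀ i j : G, (∃ p, 0 < τ i p ∧ 0 < τ j p) →
      dist (i • S.e0) (j • S.e0) ≤ 4 * r := by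
    rintro i j ⟨p, hi, hj⟩
    have h1 := (hτ i p).1 hi
    have h2 := (hτ j p).1 hj
    have h3 := dist_triangle_left (i • S.e0) (j • S.e0) p
    linarith
  have hsize : ∀ i j : G, (∃ p, 0 < τ i p ∧ 0 < τ j p) →
      dist (i • S.y0) S.y0 ≤ dist (j • S.y0) S.y0 + D := by
    intro i j hij
    have h1 := dist_triangle (i • S.y0) (j • S.y0) S.y0
    have h2 := hD i j (hadj i j hij)
    linarith
  let ρ : ℕ → ℝ → ℝ := fun k => Nat.rec (fun t => 4 * r + cj (c1 t) + c2 t)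
    (fun _ f t => RK (f (t + D)) + 4 * r) k
  have hρ0 : ∀ t, ρ 0 t = 4 * r + cj (c1 t) + c2 t := fun t => rfl
  have hρS : ∀ k t, ρ (k + 1) t = RK (ρ k (t + D)) + 4 * r := fun k t => rfl
  have hρm : ∀ k, Monotone (ρ k) := by
    intro k
    induction k with
    | zero =>
      intro a b hab
      rw [hρ0, hρ0]
      have h1 := hcj (hc1m hab)
      have h2 := hc2m hab
      linarith
    | succ k ih =>
      intro a b hab
      rw [hρS, hρS]
      have h1 : a + D ≤ b + D := by linarith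
      have h2 := hRKm (ih h1)
      linarith
  have hρn : ∀ k t, 0 ≤ ρ k t := by
    intro k
    cases k with
    | zero =>
      intro t
      rw [hρ0]
      have h1 := hcj0 (c1 t)
      have h2 := hc20 t
      linarith
    | succ k =>
      intro t
      rw [hρS]
      have h1 := hRK0 (ρ k (t + D))
      linarith
  have hcjK := fun g : G => conj_contraction S.e0 K hK hK0 hK1 RK hRKm hRK g
  have hid : ∀ (p : E) (i : G), 0 < τ i p →
      dist p (i • S.e0) ≤ ρ 0 (dist (i • S.y0) S.y0) := by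
    intro p i hi
    have h1 := (hτ i p).1 hi
    rw [hρ0]
    have h2 := hcj0 (c1 (dist (i • S.y0) S.y0))
    have h3 := hc20 (dist (i • S.y0) S.y0)
    linarith
  have hjφ : ∀ (p : E) (i : G), 0 < τ i p →
      dist (jX (φX p)) (i • S.e0) ≤ ρ 0 (dist (i • S.y0) S.y0) := by
    intro p i hi
    have h1 := (hτ i p).1 hi
    have h2 := hc1 p i h1.le
    have h3 := (hjc (φX p) (S.p i)).trans (hcj h2)
    have h4 := hc2 i
    have h5 := dist_triangle_right (jX (φX p)) (i • S.e0) ((S.p i : G) • S.e0)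
    rw [hρ0]
    linarith
  obtain ⟨H, hH, hH0, hH1, hHA⟩ := patch_homotopic τ hτc hτ01 hlf n hmult hcov
    (fun g => g • S.e0)
    (fun g q => g • K (g⁻¹ • q.1, q.2)) (fun g => (hcjK g).1) (fun g => (hcjK g).2.1)
    (fun g => (hcjK g).2.2.1)
    (fun c g => Metric.closedBall (g • S.e0) (ρ c (dist (g • S.y0) S.y0)))
    (fun i j hij => by
      rw [Metric.mem_closedBall, hρ0]
      have h1 := hadj i j hij
      have h2 := hcj0 (c1 (dist (j • S.y0) S.y0))
      have h3 := hc20 (dist (j • S.y0) S.y0)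
      linarith)
    (fun c i j hij m hm s => by
      have h1 := (hcjK i).2.2.2 m s _ (Metric.mem_closedBall.1 hm)
      have h2 := dist_triangle (i • K (i⁻¹ • m, s)) (i • S.e0) (j • S.e0)
      have h3 := hadj i j hij
      have h4 := hRKm (hρm c (hsize i j hij))
      rw [Metric.mem_closedBall, hρS]
      have h5 : dist (i • K (i⁻¹ • m, s)) (i • S.e0) ≤
        RK (ρ c (dist (i • S.y0) S.y0)) := h1
      show dist (i • K (i⁻¹ • m, s)) (j • S.e0) ≤ _
      linarith)
    id (fun e => jX (φX e)) continuous_id (hjX.comp hφX)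
    (fun p i hi => Metric.mem_closedBall.2 (hid p i hi))
    (fun p i hi => Metric.mem_closedBall.2 (hjφ p i hi))
  refine ⟨H, hH, hH0, hH1, 2 * r, ρ n, hρm n, hρn n, fun e => ?_⟩
  obtain ⟨i, hi⟩ := hcov e
  have hi0 : 0 < τ i e := by rw [hi]; norm_num
  exact ⟨i, ((hτ i e).1 hi0).le, fun s => Metric.mem_closedBall.1 (hHA e s i hi0)⟩

/-- A contraction of `E` to `e0` which respects the slabs `{|φY| ≤ a}`. -/
theorem exists_slabContraction (φY : E → Y) (hφY : Continuous φY)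
    (hφYc : ∀ R : ℝ, ∃ C : ℝ, 0 ≤ C ∧ ∀ (e : E) (g : G), dist e (g • S.e0) ≤ R →
      dist (φY e) (g • S.y0) ≤ C) :
    ∃ K : E × I → E, Continuous K ∧ (∀ e, K (e, 0) = e) ∧ (∀ e, K (e, 1) = S.e0) ∧
      ∃ r : ℝ → ℝ, Monotone r ∧ (∀ t, 0 ≤ r t) ∧
        ∀ e s, dist (φY (K (e, s))) S.y0 ≤ r (dist (φY e) S.y0) := by
  have := S.contrX
  have := S.contrE
  obtain ⟨φX, hφX, hφXc⟩ := S.exists_phiX
  obtain ⟨jX, hjX, hjXc⟩ := S.exists_incl
  obtain ⟨cY, hcYm, hcY0, hcY⟩ := S.phiY_bound φY hφYc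
  obtain ⟨cj, hcjm, hcj0, hcj⟩ := exists_monotone_bound
    (fun a : X × N => dist a.1 (a.2 • S.x0))
    (fun a : X × N => dist (jX a.1) ((a.2 : G) • S.e0)) (by
      intro r
      obtain ⟨C, -, hC⟩ := hjXc r
      exact ⟨C, fun a ha => hC a.1 a.2 ha⟩)
  obtain ⟨H1, hH1, hH10, hH11, r, R, hRm, hR0, hHr⟩ := S.exists_retract_homotopy φX hφX hφXc
    jX hjX cj hcjm hcj0 (fun x m => hcj (x, m))
  obtain ⟨KX, hKX, hKX0, hKX1⟩ := exists_contraction X S.x0
  obtain ⟨KE, hKE, hKE0, hKE1⟩ := exists_contraction E S.e0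
  obtain ⟨rX, hrX⟩ := S.netX
  obtain ⟨CN, hCN⟩ := S.bddN
  -- the image of `jX` is in a bounded slab
  have hslab : ∀ x : X, dist (φY (jX x)) S.y0 ≤ cY (cj rX) + CN := by
    intro x
    obtain ⟨m, hm⟩ := hrX x
    have h1 : dist (jX x) ((m : G) • S.e0) ≤ cj rX := (hcj (x, m)).trans (hcjm hm)
    have h2 := (hcY (jX x) (m : G)).trans (hcYm h1)
    have h3 := hCN m m.2
    have h4 := dist_triangle (φY (jX x)) ((m : G) • S.y0) S.y0
    linarith
  -- first part
  have hfirst : ∀ e s, dist (φY (H1 (e, s))) S.y0 ≤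
      cY (R (dist (φY e) S.y0 + cY r)) + (dist (φY e) S.y0 + cY r) := by
    intro e s
    obtain ⟨g, hg1, hg2⟩ := hHr e
    have h1 := (hcY e g).trans (hcYm hg1)
    have h2 : dist (g • S.y0) S.y0 ≤ dist (φY e) S.y0 + cY r := by
      have := dist_triangle_left (g • S.y0) S.y0 (φY e)
      linarith
    have h3 := (hcY (H1 (e, s)) g).trans (hcYm ((hg2 s).trans (hRm h2)))
    have h4 := dist_triangle (φY (H1 (e, s))) (g • S.y0) S.y0
    linarith
  -- third part: the track of the point `jX x0`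
  obtain ⟨B, hB⟩ : ∃ B : ℝ, ∀ s : I, dist (φY (KE (jX S.x0, s))) S.y0 ≤ B := by
    have hcont : Continuous (fun s : I => dist (φY (KE (jX S.x0, s))) S.y0) := by
      fun_prop
    obtain ⟨B, hB⟩ := (isCompact_range hcont).bddAbove
    exact ⟨B, fun s => hB (mem_range_self s)⟩
  obtain ⟨H2, hH2, hH20, hH21, hH2c⟩ := exists_concat H1
    (fun q : E × I => jX (KX (φX q.1, q.2))) hH1 (by fun_prop)
    (fun e => by
      simp only
      rw [hH11, hKX0])
  obtain ⟨H3, hH3, hH30, hH31, hH3c⟩ := exists_concat H2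
    (fun q : E × I => KE (jX S.x0, q.2)) hH2 (by fun_prop)
    (fun e => by
      simp only
      rw [hH21, hKX1, hKE0])
  refine ⟨H3, hH3, fun e => ?_, fun e => ?_,
    fun t => (cY (R (t + cY r)) + (max t 0 + cY r)) + (|cY (cj rX) + CN| + |B|), ?_, ?_, ?_⟩
  · rw [hH30, hH20, hH10]
  · rw [hH31]
    exact hKE1 _
  · intro a b hab
    have h1 : a + cY r ≤ b + cY r := by linarith
    have h2 := hcYm (hRm h1)
    have h3 : max a 0 ≤ max b 0 := max_le_max_right 0 hab
    simp only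
    linarith
  · intro t
    have h1 := hcY0 (R (t + cY r))
    have h2 := hcY0 r
    have h3 : 0 ≤ max t 0 := le_max_right _ _
    have h4 := abs_nonneg (cY (cj rX) + CN)
    have h5 := abs_nonneg B
    linarith
  · intro e s
    have h0 : (0 : ℝ) ≤ dist (φY e) S.y0 := dist_nonneg
    have h1 := hcY0 (R (dist (φY e) S.y0 + cY r))
    have h2 := hcY0 r
    have h3 : max (dist (φY e) S.y0) 0 = dist (φY e) S.y0 := max_eq_left h0
    have h4 := abs_nonneg (cY (cj rX) + CN)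
    have h5 := abs_nonneg B
    have h6 := le_abs_self (cY (cj rX) + CN)
    have h7 := le_abs_self B
    simp only [h3]
    rcases hH3c e s with ⟨s', hs'⟩ | ⟨s', hs'⟩
    · rcases hH2c e s' with ⟨s'', hs''⟩ | ⟨s'', hs''⟩
      · rw [hs', hs'']
        have h8 := hfirst e s''
        linarith
      · rw [hs', hs'']
        have h8 := hslab (KX (φX e, s''))
        linarith
    · rw [hs']
      have h8 := hB s'
      linarith

end Setup

end Pool.Agent.ZStr
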